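import Pool.Agent.Work.MP_49847a_an.Sg.SMain

/-!
# Every real polynomial: definitions

`r = r2 P Q = ‖P‖² - ‖Q‖²` is an arbitrary real polynomial on `ℂⁿ` (every real polynomial has this
form) with polarisation `R2 P Q`.

* `Pos2 P Q`: `r > 0` near infinity;
* `Inf2 P Q`: the growth condition at infinity: for some real polynomial `G` the product `ρ = r G`
  is bounded below by a positive constant near infinity, and for every fixed `w`,
  `|ρ(z, w)|² = O(ρ(z, z))` as `z → ∞`.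
-/

namespace Pool.Agent.Work.MP_49847a_an

open MvPolynomial

/-- `‖P‖² - ‖Q‖²` is positive near infinity -/
def Pos2 {n k l : ℕ} (P : Fin k → MvPolynomial (Fin n) ℂ) (Q : Fin l → MvPolynomial (Fin n) ℂ) :
    Prop :=
  ∃ R₀ : ℝ, ∀ z, R₀ ≤ nn z → 0 < r2 P Q z

/-- the growth condition at infinity: for some real polynomial `G` and `ρ = (‖P‖² - ‖Q‖²) G`,
`ρ ≥ δ > 0` near infinity, and `|ρ(z,w)|² ≤ C_w ρ(z,z)` near infinity for every `w` -/
def Inf2 {n k l : ℕ} (P : Fin k → MvPolynomial (Fin n) ℂ) (Q : Fin l → MvPolynomial (Fin n) ℂ) :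
    Prop :=
  ∃ (G : MvPolynomial (Fin n ⊕ Fin n) ℝ) (δ R₀ : ℝ), 0 < δ ∧
    (∀ z, R₀ ≤ nn z → δ ≤ r2 P Q z * ev G z) ∧
    ∀ w, ∃ C : ℝ, ∀ z, R₀ ≤ nn z → ‖R2 P Q z w * pol G z w‖ ^ 2 ≤ C * (r2 P Q z * ev G z)

/-! Auxiliary notions for the proof. -/

/-- the graph map `z ↦ (z, p(z))` -/
noncomputable def gr {n m : ℕ} (p : Fin m → MvPolynomial (Fin n) ℂ) (z : Fin n → ℂ) :
    Fin (n + m) → ℂ := Fin.append z (fun j => eval z (p j))

/-- the first `n` coordinates -/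
def fs {n m : ℕ} (Z : Fin (n + m) → ℂ) : Fin n → ℂ := fun i => Z (Fin.castAdd m i)

/-- the deviation from the graph, `y - p(x)` for `Z = (x, y)` -/
noncomputable def sg {n m : ℕ} (p : Fin m → MvPolynomial (Fin n) ℂ) (Z : Fin (n + m) → ℂ) :
    Fin m → ℂ := fun j => Z (Fin.natAdd n j) - eval (fs Z) (p j)

/-- the data of the merging argument, general version: `Γ` in place of `ρ G` -/
structure Adm3 {n m : ℕ} (d e : ℕ) (ε r₀ r₁ c : ℝ) (h : Fin m → MvPolynomial (Fin n) ℂ)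
    (ρ W Γ : MvPolynomial (Fin n ⊕ Fin n) ℝ) : Prop where
  hd : 0 < d
  hρ : Dg d ρ
  hW : Big e ε h W
  hr₀ : 0 < r₀
  hr₁ : 0 < r₁
  hc : 0 < c
  lo : ∀ z, r₀ ≤ ev ρ z → r₁ * (1 + nn z) ^ d ≤ ev ρ z
  sub : ∀ z, ev ρ z < r₀ → ev W z < 1 / 4
  dia : ∀ z w, ev W z ≤ 5 → ev W w ≤ 5 → c * nn (z - w) ≤ Df Γ z w

end Pool.Agent.Work.MP_49847a_an
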