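import Pool.Agent.Work.MP_49847a_an.Cp.CpDefs

/-!
# The set `{r ≤ 0}` and the hull for `r > 0` near infinity
-/

namespace Pool.Agent.Work.MP_49847a_an

open MvPolynomial

variable {n k l : ℕ} {P : Fin k → MvPolynomial (Fin n) ℂ} {Q : Fin l → MvPolynomial (Fin n) ℂ}

private theorem h3_diff (p : MvPolynomial (Fin n) ℂ) :
    Differentiable ℂ (fun z : Fin n → ℂ => eval z p) := by
  induction p using MvPolynomial.induction_on with
  | C a =>
    simp only [eval_C]
    exact differentiable_const a
  | add p q hp hq =>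
    simp only [map_add]
    exact hp.add hq
  | mul_X p i hp =>
    simp only [map_mul, eval_X]
    exact hp.mul (differentiable_apply i)

theorem r2_le_compact3 (hP : Pos2 P Q) : IsCompact {z | r2 P Q z ≤ 0} := by
  obtain ⟨R₀, hR⟩ := hP
  refine (nn_cpt (n := n) R₀).of_isClosed_subset
    (isClosed_le (r2_continuous P Q) continuous_const) fun z hz => ?_
  have hz' : r2 P Q z ≤ 0 := hz
  show nn z ≤ R₀
  by_contra hcon
  push Not at hcon
  exact absurd (hR z hcon.le) (not_lt.2 hz')

theorem X2_compact3 (hP : Pos2 P Q) : IsCompact (X2 P Q) := by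
  refine (r2_le_compact3 hP).of_isClosed_subset
    (isClosed_eq (r2_continuous P Q) continuous_const) fun z hz => ?_
  exact le_of_eq hz

theorem le_hull3 (hn : n ≠ 0) (hP : Pos2 P Q) {z : Fin n → ℂ}
    (hz : r2 P Q z ≤ 0) : z ∈ hull (X2 P Q) := by
  have : Nonempty (Fin n) := ⟨⟨0, Nat.pos_of_ne_zero hn⟩⟩
  have hcont := r2_continuous P Q
  rcases hz.eq_or_lt with h0 | h0
  · intro p c hp
    exact hp z h0
  · have hopen : IsOpen {z | r2 P Q z < 0} := isOpen_lt hcont continuous_const
    have hbdd : Bornology.IsBounded {z | r2 P Q z < 0} :=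
      (r2_le_compact3 hP).isBounded.subset fun z (hz : r2 P Q z < 0) =>
        (show r2 P Q z ≤ 0 from le_of_lt hz)
    have hfr : frontier {z | r2 P Q z < 0} ⊆ X2 P Q := by
      intro x hx
      rw [hopen.frontier_eq] at hx
      have h1 : r2 P Q x ≤ 0 :=
        closure_minimal (fun z (hz : r2 P Q z < 0) => (show r2 P Q z ≤ 0 from le_of_lt hz))
          (isClosed_le hcont continuous_const) hx.1
      have h2 : ¬ r2 P Q x < 0 := hx.2
      exact le_antisymm h1 (not_lt.1 h2)
    intro p c hp
    exact Complex.norm_le_of_forall_mem_frontier_norm_le hbdd (h3_diff p).diffContOnCl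
      (fun w hw => hp w (hfr hw)) (subset_closure h0)

end Pool.Agent.Work.MP_49847a_an
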