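import Pool.Agent.Work.MP_49847a_an.Cp.Elim

/-!
# Module Smd: irreducible semidefinite polynomials

Proof.  Let `p` be irreducible with `p ≥ 0` everywhere, or `p ≤ 0` everywhere.  `p` is not constant (an irreducible polynomial
over a field is not a unit and not zero), so some variable `i` occurs in `p` and `q = pderiv i p ≠ 0` (characteristic zero), with
`degreeOf i q < degreeOf i p` (or `totalDegree q < totalDegree p`).  If `p ∣ q`, then `q = p s` with `s ≠ 0` and `degreeOf i q ≥ degreeOf i p`
(`MvPolynomial.degreeOf_mul_eq`, domain), contradiction.  If `p(x) = 0`, the function `t ↦ p(x + t e_i)` of one real variable has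
a local extremum at `t = 0`, so its derivative there vanishes (`IsLocalMin.hasDerivAt_eq_zero`), and this derivative is `eval x (pderiv i p)`
(for instance by induction on the polynomial, or see the derivative lemmas used in Sg/Tay).
-/

namespace Pool.Agent.Work.MP_49847a_an

open MvPolynomial

theorem smd_hasDerivAt {σ : Type} [Fintype σ] [DecidableEq σ] (x : σ → ℝ) (i : σ) (p : MvPolynomial σ ℝ) :
    HasDerivAt (fun t : ℝ => eval (Function.update x i (x i + t)) p) (eval x (pderiv i p)) 0 := by
  induction p using MvPolynomial.induction_on with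
  | C a =>
    simp only [eval_C, pderiv_C, map_zero]
    exact hasDerivAt_const _ _
  | add p q hp hq =>
    simp only [map_add]
    exact hp.add hq
  | mul_X p j hp =>
    simp only [map_mul, eval_X, Derivation.leibniz, smul_eq_mul, map_add]
    have hX : HasDerivAt (fun t : ℝ => (Function.update x i (x i + t)) j) (eval x (pderiv i (X j : MvPolynomial σ ℝ))) 0 := by
      by_cases hij : j = i
      · subst hij
        simp only [Function.update_self, pderiv_X_self, map_one]
        simpa using (hasDerivAt_id (0 : ℝ)).const_add (x j)
      · simp only [Function.update_of_ne hij, pderiv_X_of_ne hij, map_zero]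
        exact hasDerivAt_const _ _
    have h := hp.mul hX
    have e : (Function.update x i (x i + (0:ℝ))) = x := by simp
    rw [e] at h
    refine h.congr_deriv ?_
    ring

theorem smd_pderiv {σ : Type} [Fintype σ] {p : MvPolynomial σ ℝ} (hp : Irreducible p) :
    ∃ i, pderiv i p ≠ 0 ∧ ¬ p ∣ pderiv i p := by
  classical
  have hd : p.totalDegree ≠ 0 := by
    intro h0
    rw [totalDegree_eq_zero_iff_eq_C] at h0
    have hc : p.coeff 0 ≠ 0 := by
      intro hc
      rw [hc, map_zero] at h0
      exact hp.ne_zero h0
    apply hp.not_isUnit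
    rw [h0]
    exact (IsUnit.mk0 _ hc).map C
  have : ∃ m ∈ p.support, ∃ i, m i ≠ 0 := by
    by_contra hcon
    push Not at hcon
    apply hd
    rw [totalDegree_eq_zero_iff]
    exact hcon
  obtain ⟨m, hm, i, hi⟩ := this
  have hne : pderiv i p ≠ 0 := by
    intro h0
    have h1 := coeff_pderiv (i := i) p (m - Finsupp.single i 1)
    rw [h0] at h1
    have h2 : m - Finsupp.single i 1 + Finsupp.single i 1 = m := by
      ext j
      by_cases hj : j = i
      · subst hj
        simp
        omega
      · simp [Ne.symm hj]
    rw [h2] at h1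
    simp only [coeff_zero] at h1
    have h3 : coeff m p ≠ 0 := by simpa [mem_support_iff] using hm
    rcases mul_eq_zero.mp h1.symm with h4 | h4
    · exact h3 h4
    · norm_cast at h4
  refine ⟨i, hne, ?_⟩
  rintro ⟨s, hs⟩
  have hs0 : s ≠ 0 := by
    rintro rfl
    exact hne (by simpa using hs)
  have h5 : (pderiv i p).degreeOf i = p.degreeOf i + s.degreeOf i := by
    rw [hs, degreeOf_mul_eq hp.ne_zero hs0]
  have h6 : 0 < p.degreeOf i := by
    have := monomial_le_degreeOf i hm
    omega
  have h7 : (pderiv i p).degreeOf i < p.degreeOf i := by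
    rw [degreeOf_lt_iff h6]
    intro m' hm'
    have h8 : coeff (m' + Finsupp.single i 1) p ≠ 0 := by
      rw [mem_support_iff, coeff_pderiv] at hm'
      exact fun h => hm' (by rw [h]; simp)
    have h9 : (m' + Finsupp.single i 1) ∈ p.support := by rwa [mem_support_iff]
    have h10 := monomial_le_degreeOf i h9
    simp at h10
    omega
  omega

theorem semidef {σ : Type} [Fintype σ] {p : MvPolynomial σ ℝ} (hp : Irreducible p)
    (h : (∀ x, 0 ≤ eval x p) ∨ (∀ x, eval x p ≤ 0)) :
    ∃ q : MvPolynomial σ ℝ, (¬ p ∣ q) ∧ ∀ x, eval x p = 0 → eval x q = 0 := by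
  classical
  obtain ⟨i, -, h2⟩ := smd_pderiv hp
  refine ⟨pderiv i p, h2, fun x hx => ?_⟩
  have hD := smd_hasDerivAt x i p
  have e : (Function.update x i (x i + (0:ℝ))) = x := by simp
  rcases h with h | h
  · have hm : IsLocalMin (fun t : ℝ => eval (Function.update x i (x i + t)) p) 0 := by
      refine Filter.Eventually.of_forall fun t => ?_
      simp only [e, hx]
      exact h _
    exact hm.hasDerivAt_eq_zero hD
  · have hm : IsLocalMax (fun t : ℝ => eval (Function.update x i (x i + t)) p) 0 := by
      refine Filter.Eventually.of_forall fun t => ?_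
      simp only [e, hx]
      exact h _
    exact hm.hasDerivAt_eq_zero hD

end Pool.Agent.Work.MP_49847a_an
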