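import Pool.Agent.Work.MP_49847a_an.Cp.RDef
import Pool.Agent.Work.MP_49847a_an.Cp.Smd
import Pool.Agent.Work.MP_49847a_an.Sg.Kc

/-!
# A reduced polynomial is negative exactly inside
-/

namespace Pool.Agent.Work.MP_49847a_an

open MvPolynomial

variable {n : ℕ}

theorem dom_pderiv {σ : Type} [Fintype σ] {p : MvPolynomial σ ℝ} (hp0 : p ≠ 0)
    (hd : p.totalDegree ≠ 0) : ∃ i, pderiv i p ≠ 0 ∧ ¬ p ∣ pderiv i p := by
  classical
  have : ∃ m ∈ p.support, ∃ i, m i ≠ 0 := by
    by_contra hcon
    push Not at hcon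
    apply hd
    rw [totalDegree_eq_zero_iff]
    exact hcon
  obtain ⟨m, hm, i, hi⟩ := this
  have hne : pderiv i p ≠ 0 := by
    intro h0
    have h1 := coeff_pderiv (i := i) p (m - Finsupp.single i 1)
    rw [h0] at h1
    have h2 : m - Finsupp.single i 1 + Finsupp.single i 1 = m := by
      ext j
      by_cases hj : j = i
      · subst hj
        simp
        omega
      · simp [Ne.symm hj]
    rw [h2] at h1
    simp only [coeff_zero] at h1
    have h3 : coeff m p ≠ 0 := by simpa [mem_support_iff] using hm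
    rcases mul_eq_zero.mp h1.symm with h4 | h4
    · exact h3 h4
    · norm_cast at h4
  refine ⟨i, hne, ?_⟩
  rintro ⟨s, hs⟩
  have hs0 : s ≠ 0 := by
    rintro rfl
    exact hne (by simpa using hs)
  have h5 : (pderiv i p).degreeOf i = p.degreeOf i + s.degreeOf i := by
    rw [hs, degreeOf_mul_eq hp0 hs0]
  have h6 : 0 < p.degreeOf i := by
    have := monomial_le_degreeOf i hm
    omega
  have h7 : (pderiv i p).degreeOf i < p.degreeOf i := by
    rw [degreeOf_lt_iff h6]
    intro m' hm'
    have h8 : coeff (m' + Finsupp.single i 1) p ≠ 0 := by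
      rw [mem_support_iff, coeff_pderiv] at hm'
      exact fun h => hm' (by rw [h]; simp)
    have h9 : (m' + Finsupp.single i 1) ∈ p.support := by rwa [mem_support_iff]
    have h10 := monomial_le_degreeOf i h9
    simp at h10
    omega
  omega

/-- a reduced polynomial with zeros which is positive near infinity takes negative values -/
theorem reduced_neg {r : MvPolynomial (Fin n ⊕ Fin n) ℝ} (hred : Reduced r) (hpos : PosInf r)
    (hn : 0 < n) (hne : (ZZ r).Nonempty) : ∃ z, ev r z < 0 := by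
  classical
  by_contra hc
  push Not at hc
  obtain ⟨R₀, hR⟩ := hpos
  have hr0 : r ≠ 0 := by
    rintro rfl
    have hz : ∃ z : Fin n → ℂ, R₀ ≤ nn z := by
      refine ⟨Pi.single ⟨0, hn⟩ ((Real.sqrt |R₀| : ℝ) : ℂ), ?_⟩
      unfold nn
      rw [Finset.sum_eq_single ⟨0, hn⟩ (fun j _ hj => by rw [Pi.single_eq_of_ne hj]; simp)
        (fun h => absurd (Finset.mem_univ _) h), Pi.single_eq_same, Complex.norm_real,
        Real.norm_eq_abs, sq_abs, Real.sq_sqrt (abs_nonneg _)]
      exact le_abs_self _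
    obtain ⟨z, hz⟩ := hz
    have := hR z hz
    simp [ev] at this
  have hd : r.totalDegree ≠ 0 := by
    intro h0
    rw [totalDegree_eq_zero_iff_eq_C] at h0
    obtain ⟨z, hz⟩ := hne
    have hz' : ev r z = 0 := hz
    have h1 : coeff 0 r = 0 := by
      rw [h0] at hz'
      simpa [ev] using hz'
    exact hr0 (by rw [h0, h1, map_zero])
  obtain ⟨i, _, hi⟩ := dom_pderiv hr0 hd
  refine hi (hred _ fun z hz => ?_)
  have hz' : ev r z = 0 := hz
  set x : Fin n ⊕ Fin n → ℝ := Sum.elim (fun i => (z i).re) (fun i => (z i).im) with hx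
  have hD := smd_hasDerivAt x i r
  have e : (Function.update x i (x i + (0 : ℝ))) = x := by simp
  have hm : IsLocalMin (fun t : ℝ => eval (Function.update x i (x i + t)) r) 0 := by
    refine Filter.Eventually.of_forall fun t => ?_
    have h1 : eval x r = 0 := hz'
    simp only [e, h1]
    have h2 := hc (fun j => (⟨Function.update x i (x i + t) (Sum.inl j),
      Function.update x i (x i + t) (Sum.inr j)⟩ : ℂ))
    have h3 : (Sum.elim (fun j => Function.update x i (x i + t) (Sum.inl j))
      (fun j => Function.update x i (x i + t) (Sum.inr j)) : Fin n ⊕ Fin n → ℝ) =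
        Function.update x i (x i + t) := by
      funext y
      rcases y with y | y <;> rfl
    unfold ev at h2
    simp only at h2
    rw [h3] at h2
    exact h2
  exact hm.hasDerivAt_eq_zero hD

private theorem sign_const {S : Set (Fin n → ℂ)} (hS : IsPreconnected S)
    {r : MvPolynomial (Fin n ⊕ Fin n) ℝ} (h0 : ∀ z ∈ S, ev r z ≠ 0) {a b : Fin n → ℂ} (ha : a ∈ S)
    (hb : b ∈ S) (hra : ev r a < 0) : ev r b < 0 := by
  by_contra hc
  rw [not_lt] at hc
  have hcont : Continuous (fun z : Fin n → ℂ => ev r z) := ev_continuous _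
  obtain ⟨z, hz, hz0⟩ := hS.intermediate_value ha hb hcont.continuousOn
    (show (0 : ℝ) ∈ Set.Icc (ev r a) (ev r b) from ⟨hra.le, hc⟩)
  exact h0 z hz hz0

/-- for a bounded domain with connected exterior, `{r ≤ 0}` is the closure of the domain -/
theorem le_eq_closure (hn : 0 < n) {r : MvPolynomial (Fin n ⊕ Fin n) ℝ} {Ω : Set (Fin n → ℂ)}
    (hΩ : IsOpen Ω) (hX : frontier Ω = ZZ r) (hred : Reduced r) (hpos : PosInf r)
    (hb : Bornology.IsBounded Ω) (hΩc : IsConnected Ω) (he : IsPreconnected (closure Ω)ᶜ) :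
    {z | ev r z ≤ 0} = closure Ω := by
  have hfr : ∀ z, z ∈ frontier Ω ↔ ev r z = 0 := fun z => by rw [hX]; rfl
  have hcl : closure Ω = Ω ∪ frontier Ω := closure_eq_self_union_frontier Ω
  have hΩ0 : ∀ z ∈ Ω, ev r z ≠ 0 := by
    intro z hz h0
    have h1 := (hfr z).2 h0
    rw [frontier, hΩ.interior_eq] at h1
    exact h1.2 hz
  have hE0 : ∀ z ∈ (closure Ω)ᶜ, ev r z ≠ 0 := by
    intro z hz h0
    exact hz (frontier_subset_closure ((hfr z).2 h0))
  -- the frontier is not empty
  have hne : (ZZ r).Nonempty := by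
    rw [← hX]
    rw [Set.nonempty_iff_ne_empty]
    intro hfe
    have hclopen : IsClopen Ω := by
      rw [isClopen_iff_frontier_eq_empty]
      exact hfe
    rcases isClopen_iff.1 hclopen with h | h
    · exact hΩc.nonempty.ne_empty h
    · have : Nonempty (Fin n) := ⟨⟨0, hn⟩⟩
      rw [h] at hb
      exact NormedSpace.unbounded_univ ℂ (Fin n → ℂ) hb
  obtain ⟨y, hy⟩ := reduced_neg hred hpos hn hne
  -- a point far away
  obtain ⟨R₀, hR⟩ := hpos
  obtain ⟨M, hM⟩ := hb.exists_norm_le
  obtain ⟨q, hq1, hq2⟩ : ∃ q : Fin n → ℂ, q ∈ (closure Ω)ᶜ ∧ 0 < ev r q := by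
    set t : ℝ := max (|M| + 1) (Real.sqrt |R₀|) with ht
    have ht0 : 0 ≤ t := le_trans (by positivity) (le_max_left _ _)
    refine ⟨Pi.single ⟨0, hn⟩ ((t : ℝ) : ℂ), ?_, hR _ ?_⟩
    · intro hq
      have h1 : closure Ω ⊆ Metric.closedBall 0 |M| := by
        refine closure_minimal (fun z hz => ?_) Metric.isClosed_closedBall
        rw [mem_closedBall_zero_iff]
        exact (hM z hz).trans (le_abs_self M)
      have h2 := h1 hq
      rw [mem_closedBall_zero_iff, Pi.norm_single, Complex.norm_real, Real.norm_eq_abs,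
        abs_of_nonneg ht0] at h2
      linarith [le_max_left (|M| + 1) (Real.sqrt |R₀|)]
    · unfold nn
      rw [Finset.sum_eq_single ⟨0, hn⟩ (fun j _ hj => by rw [Pi.single_eq_of_ne hj]; simp)
        (fun h => absurd (Finset.mem_univ _) h), Pi.single_eq_same, Complex.norm_real,
        Real.norm_eq_abs, sq_abs]
      have h3 : Real.sqrt |R₀| ≤ t := le_max_right _ _
      have h4 : Real.sqrt |R₀| ^ 2 ≤ t ^ 2 := pow_le_pow_left₀ (Real.sqrt_nonneg _) h3 2
      rw [Real.sq_sqrt (abs_nonneg _)] at h4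
      linarith [le_abs_self R₀]
  have hEpos : ∀ z ∈ (closure Ω)ᶜ, 0 < ev r z := by
    intro z hz
    by_contra hc
    have h1 : ev r z < 0 := lt_of_le_of_ne (not_lt.1 hc) (hE0 z hz)
    have h2 := sign_const he hE0 hz hq1 h1
    linarith
  have hyΩ : y ∈ Ω := by
    by_contra hyΩ
    have h1 : y ∉ closure Ω := by
      rw [hcl]
      rintro (h | h)
      · exact hyΩ h
      · exact hy.ne ((hfr y).1 h)
    exact absurd (hEpos y h1) (not_lt.2 hy.le)
  ext z
  constructor
  · intro hz
    by_contra hc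
    have hz' : ev r z ≤ 0 := hz
    exact absurd (hEpos z hc) (not_lt.2 hz')
  · intro hz
    rw [hcl] at hz
    rcases hz with hz | hz
    · exact (sign_const hΩc.isPreconnected hΩ0 hyΩ hz hy).le
    · exact ((hfr z).1 hz).le

end Pool.Agent.Work.MP_49847a_an
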