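import Pool.Agent.Work.MP_49847a_an.Cp.RMain
import Pool.Agent.Work.MP_49847a_an.Cp.Dom
import Pool.Agent.Work.MP_49847a_an.Cf.KPl

/-!
# The complete criterion without the hull of the zero set
-/

namespace Pool.Agent.Work.MP_49847a_an

open MvPolynomial

variable {n : ℕ} {r : MvPolynomial (Fin n ⊕ Fin n) ℝ}

theorem rm_hull_mono {A B : Set (Fin n → ℂ)} (h : A ⊆ B) : hull A ⊆ hull B :=
  fun _ ha p c hp => ha p c fun z hz => hp z (h hz)

theorem rm_hull_hull (A : Set (Fin n → ℂ)) : hull (hull A) ⊆ hull A :=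
  fun _ ha p c hp => ha p c fun z hz => hz p c hp

theorem rm_le_hull (hn : 0 < n) (hP : PosInf r) :
    {z : Fin n → ℂ | ev r z ≤ 0} ⊆ hull (ZZ r) := by
  obtain ⟨k, l, P, Q, h⟩ := exists_families r
  intro z hz
  have hz' : ev r z ≤ 0 := hz
  rw [rm_ZZ h]
  exact le_hull3 hn.ne' ((rm_pos h).1 hP) (by rw [← h]; exact hz')

theorem rm_hull_le (hn : 0 < n) (hP : PosInf r) (h1 : SepHull r) (h2 : LeviPos r)
    (h3 : Inner r) : hull (ZZ r) ⊆ {z : Fin n → ℂ | ev r z ≤ 0} := by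
  obtain ⟨k, l, P, Q, h⟩ := exists_families r
  intro z hz
  rw [rm_ZZ h] at hz
  show ev r z ≤ 0
  rw [h]
  exact cf_hull_le hn ((rm_pos h).1 hP) ((rm_sep h).1 h1) ((rm_levi h).1 h2) ((rm_inn h).1 h3) z hz

/-- the complete criterion -/
theorem main_s (hn : 0 < n) (hP : PosInf r) :
    (SumsMod r ↔ PolConvex r ∧ Separated r ∧ LeviPos r ∧ Growth r) ∧
    (Reduced r → (SumsOn (ZZ r) ↔ SumsMod r)) := by
  refine ⟨?_, (main_r hP).2.2⟩
  rw [(main_r hP).1]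
  have hle := rm_le_hull hn hP
  constructor
  · rintro ⟨h1, h2, h3, h4⟩
    have hh := rm_hull_le hn hP h1 h2 h3
    refine ⟨fun a ha => hh (rm_hull_hull _ (rm_hull_mono hle ha)), fun a b ha hb hab => ?_, h2, h4⟩
    exact h1 a (hle ha) b (hle hb) hab
  · rintro ⟨h1, h2, h3, h4⟩
    have hz : ZZ r ⊆ {z : Fin n → ℂ | ev r z ≤ 0} := fun z hz => le_of_eq hz
    have hh : hull (ZZ r) ⊆ {z : Fin n → ℂ | ev r z ≤ 0} := fun a ha => h1 (rm_hull_mono hz ha)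
    exact ⟨fun a ha b hb hab => h2 a b (hh ha) (hh hb) hab, h3,
      fun a _ => ⟨1, one_pos, fun b hb _ => hh hb⟩, h4⟩

/-- the criterion for compact algebraic boundaries -/
theorem main_t (hn : 0 < n) {F : MvPolynomial (Fin n ⊕ Fin n) ℝ}
    {Ω : Set (Fin n → ℂ)} (hΩ : IsOpen Ω) (hX : frontier Ω = ZZ F)
    (hc : IsCompact (frontier Ω)) (hE : frontier Ω ⊆ closure (interior Ωᶜ)) :
    ∃ r : MvPolynomial (Fin n ⊕ Fin n) ℝ, frontier Ω = ZZ r ∧ Reduced r ∧ PosInf r ∧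
      (Bornology.IsBounded Ω → IsConnected Ω → IsPreconnected (closure Ω)ᶜ →
        {z | ev r z ≤ 0} = closure Ω) ∧
      (SumsOn (frontier Ω) ↔ PolConvex r ∧ Separated r ∧ LeviPos r ∧ Growth r) := by
  obtain ⟨r, h4, h5, h6, _⟩ := main_b hn hΩ hX hc hE
  refine ⟨r, h4, h5, h6, fun hb hco he => le_eq_closure hn hΩ h4 h5 h6 hb hco he, ?_⟩
  rw [h4, (main_s hn h6).2 h5]
  exact (main_s hn h6).1

end Pool.Agent.Work.MP_49847a_an
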