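import Pool.Agent.Work.MP_49847a_an.Cp.GrA

/-!
# Module Amb0: a Hermitian form on the ambient space

Proof.  `p` is the family of all `A_j`, `A_j X_i`, `B_j`, `B_j X_i` (`m = a + a n + b + b n`; `Fin.append` and `finProdFinEquiv`,
or any enumeration).  `α` is the family of the coordinates `X (Fin.natAdd n t)`, `t` in the first two groups, `β` the family of the
coordinates of the last two groups: homogeneous of degree one.  Then `nrm α (gr p z) = nrm A z (1 + nn z)`,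
`nrm β (gr p z) = nrm B z (1 + nn z)` (`nrm_mul`, `nrm_append`), and
`1 + nn (gr p z) = 1 + nn z + (nrm A z + nrm B z)(1 + nn z) = (1 + nrm A z + nrm B z)(1 + nn z)` (`nn_gr`).
-/

namespace Pool.Agent.Work.MP_49847a_an

open MvPolynomial

variable {n : ℕ}

/-- the family `A_j`, `A_j X_i` -/
private noncomputable def amb0Fam {a : ℕ} (A : Fin a → MvPolynomial (Fin n) ℂ) :
    Fin a ⊕ Fin a × Fin n → MvPolynomial (Fin n) ℂ :=
  Sum.elim A (fun s => A s.1 * X s.2)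

private lemma amb0Fam_sum {a : ℕ} (A : Fin a → MvPolynomial (Fin n) ℂ) (z : Fin n → ℂ) :
    ∑ t, ‖eval z (amb0Fam A t)‖ ^ 2 = nrm A z * (1 + nn z) := by
  rw [Fintype.sum_sum_type, Fintype.sum_prod_type]
  simp only [amb0Fam, Sum.elim_inl, Sum.elim_inr, map_mul, eval_X, norm_mul, mul_pow]
  simp only [← Finset.mul_sum]
  rw [← Finset.sum_mul, mul_add, mul_one]
  rfl

theorem amb0 {a b : ℕ} (A : Fin a → MvPolynomial (Fin n) ℂ) (B : Fin b → MvPolynomial (Fin n) ℂ)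
    {δ R₀ : ℝ} (h : ∀ z, R₀ ≤ nn z → δ * (1 + nrm A z + nrm B z) ≤ nrm A z - nrm B z) :
    ∃ (m : ℕ) (p : Fin m → MvPolynomial (Fin n) ℂ) (a' b' : ℕ)
      (α : Fin a' → MvPolynomial (Fin (n + m)) ℂ) (β : Fin b' → MvPolynomial (Fin (n + m)) ℂ),
      (∀ j, (α j).IsHomogeneous 1) ∧ (∀ j, (β j).IsHomogeneous 1) ∧
      (∀ z, r2 α β (gr p z) = (nrm A z - nrm B z) * (1 + nn z)) ∧
      ∀ z, R₀ ≤ nn z → δ * (1 + nn (gr p z)) ≤ r2 α β (gr p z) := by
  classical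
  let e := Fintype.equivFin ((Fin a ⊕ Fin a × Fin n) ⊕ (Fin b ⊕ Fin b × Fin n))
  let eA := Fintype.equivFin (Fin a ⊕ Fin a × Fin n)
  let eB := Fintype.equivFin (Fin b ⊕ Fin b × Fin n)
  let q : (Fin a ⊕ Fin a × Fin n) ⊕ (Fin b ⊕ Fin b × Fin n) → MvPolynomial (Fin n) ℂ :=
    Sum.elim (amb0Fam A) (amb0Fam B)
  let p : Fin (Fintype.card ((Fin a ⊕ Fin a × Fin n) ⊕ (Fin b ⊕ Fin b × Fin n))) →
      MvPolynomial (Fin n) ℂ := fun j => q (e.symm j)
  let α : Fin (Fintype.card (Fin a ⊕ Fin a × Fin n)) → MvPolynomial (Fin (n + _)) ℂ :=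
    fun j => X (Fin.natAdd n (e (Sum.inl (eA.symm j))))
  let β : Fin (Fintype.card (Fin b ⊕ Fin b × Fin n)) → MvPolynomial (Fin (n + _)) ℂ :=
    fun j => X (Fin.natAdd n (e (Sum.inr (eB.symm j))))
  have hgr : ∀ z j, gr p z (Fin.natAdd n j) = eval z (p j) := by
    intro z j
    exact Fin.append_right _ _ _
  have hα : ∀ z, nrm α (gr p z) = nrm A z * (1 + nn z) := by
    intro z
    rw [← amb0Fam_sum A z]
    have h1 : nrm α (gr p z) = ∑ j, ‖eval z (amb0Fam A (eA.symm j))‖ ^ 2 := by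
      refine Finset.sum_congr rfl fun j _ => ?_
      show ‖eval (gr p z) (X (Fin.natAdd n (e (Sum.inl (eA.symm j)))))‖ ^ 2 = _
      rw [eval_X, hgr]
      show ‖eval z (q (e.symm (e (Sum.inl (eA.symm j)))))‖ ^ 2 = _
      rw [Equiv.symm_apply_apply]
      rfl
    rw [h1]
    exact Equiv.sum_comp eA.symm (fun t => ‖eval z (amb0Fam A t)‖ ^ 2)
  have hβ : ∀ z, nrm β (gr p z) = nrm B z * (1 + nn z) := by
    intro z
    rw [← amb0Fam_sum B z]
    have h1 : nrm β (gr p z) = ∑ j, ‖eval z (amb0Fam B (eB.symm j))‖ ^ 2 := by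
      refine Finset.sum_congr rfl fun j _ => ?_
      show ‖eval (gr p z) (X (Fin.natAdd n (e (Sum.inr (eB.symm j)))))‖ ^ 2 = _
      rw [eval_X, hgr]
      show ‖eval z (q (e.symm (e (Sum.inr (eB.symm j)))))‖ ^ 2 = _
      rw [Equiv.symm_apply_apply]
      rfl
    rw [h1]
    exact Equiv.sum_comp eB.symm (fun t => ‖eval z (amb0Fam B t)‖ ^ 2)
  have hp : ∀ z, nrm p z = nrm A z * (1 + nn z) + nrm B z * (1 + nn z) := by
    intro z
    have h1 : nrm p z = ∑ t, ‖eval z (q t)‖ ^ 2 :=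
      Equiv.sum_comp e.symm (fun t => ‖eval z (q t)‖ ^ 2)
    rw [h1, Fintype.sum_sum_type, ← amb0Fam_sum A z, ← amb0Fam_sum B z]
    rfl
  have hr : ∀ z, r2 α β (gr p z) = (nrm A z - nrm B z) * (1 + nn z) := by
    intro z
    show nrm α (gr p z) - nrm β (gr p z) = _
    rw [hα, hβ]
    ring
  refine ⟨_, p, _, _, α, β, fun j => isHomogeneous_X _ _, fun j => isHomogeneous_X _ _, hr, ?_⟩
  intro z hz
  rw [hr, nn_gr, hp]
  have hnn : 0 ≤ nn z := Finset.sum_nonneg fun i _ => by positivity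
  have h2 := mul_le_mul_of_nonneg_right (h z hz) (by linarith : (0 : ℝ) ≤ 1 + nn z)
  calc δ * (1 + (nn z + (nrm A z * (1 + nn z) + nrm B z * (1 + nn z))))
      = δ * (1 + nrm A z + nrm B z) * (1 + nn z) := by ring
    _ ≤ _ := h2

end Pool.Agent.Work.MP_49847a_an
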