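import Pool.Agent.Work.MP_49847a_an.Cp.TopG

/-!
# Module Amb1: positivity of the leading part on the ambient space

Proof.  `N = n + m`.  `S = {v : nn v = 1}` is compact.
(1) `v ∈ S` with `r2 α β v > 0`: by continuity there is `s_v > 0` with `r2 α β v' ≥ c_v > 0` for `nn (v' - v) < s_v`, so
`r2 α β Z ≥ c_v nn Z` if `nn (Z - √(nn Z) • v) < s_v nn Z` (`r2` is homogeneous: `r2 (t • Z) = ‖t‖² r2 Z`; `nn Z > 0` there).
(2) `v ∈ S` with `r2 α β v ≤ 0`: `top_g` gives `D_v, g_v, s_v, c_v, R_v`.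
(3) The sets `{v' : nn (v' - v) < s_v}` cover `S`; finite subcover `v_1, …, v_r` (`IsCompact.elim_finite_subcover` or
`elim_nhds_subcover`).  `D = 1 + ∑ D_{v_i}`.  `|r2 α β Z| ≤ K nn Z` for some `K`.
`E = C M * ∑_i N_i * WW N 1 ^ (D - D_i)`, the sum over the `v_i` of type (2), `ev N_i = |g_i|²`, `M` with
`M c_i ≥ K 2^(D-1) + 1` for all these `i`.  `Dg D E` (`Dg_mul`, `Dg_pow`, `Dg_WW`, `Dg_mono`), `ev E ≥ 0`, `ev E (gr p z) = 0`.
(4) `nn Z ≥ R'` (`R' ≥ 1` and `≥ R_i`): `v' = Z/√(nn Z) ∈ S` is in one of the sets.  Type (1): `r2 (1 + nn)^(D-1) ≥ c nn^D`.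
Type (2): `ev E Z ≥ M c_i nn^(D_i) (1 + nn)^(D - D_i) ≥ M c_i nn^D`, `r2 (1+nn)^(D-1) ≥ - K nn (2 nn)^(D-1)`.
(if `S` is empty, `N = 0` and `nn Z = 0`; take `R' = 1`)
-/

namespace Pool.Agent.Work.MP_49847a_an

open MvPolynomial

variable {n m a b : ℕ} {p : Fin m → MvPolynomial (Fin n) ℂ}
  {α : Fin a → MvPolynomial (Fin (n + m)) ℂ} {β : Fin b → MvPolynomial (Fin (n + m)) ℂ}

private theorem hsm {N d : ℕ} {f : MvPolynomial (Fin N) ℂ} (hf : f.IsHomogeneous d) (t : ℂ)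
    (z : Fin N → ℂ) : eval (t • z) f = t ^ d * eval z f := by
  rw [eval_eq', eval_eq', Finset.mul_sum]
  refine Finset.sum_congr rfl fun e he => ?_
  have h1 : ∏ i, (t • z) i ^ e i = t ^ d * ∏ i, z i ^ e i := by
    simp only [Pi.smul_apply, smul_eq_mul, mul_pow]
    rw [Finset.prod_mul_distrib, Finset.prod_pow_eq_pow_sum]
    congr 2
    have h2 := hf (mem_support_iff.1 he)
    rw [Finsupp.weight_apply, Finsupp.sum_fintype _ _ (fun _ => by simp)] at h2
    rw [← h2]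
    refine Finset.sum_congr rfl fun i _ => ?_
    simp
  rw [h1]
  ring

private theorem r2_scale1 (hα : ∀ j, (α j).IsHomogeneous 1) (hβ : ∀ j, (β j).IsHomogeneous 1)
    (t : ℂ) (z : Fin (n + m) → ℂ) : r2 α β (t • z) = ‖t‖ ^ 2 * r2 α β z := by
  have h1 : ∀ {l : ℕ} (γ : Fin l → MvPolynomial (Fin (n + m)) ℂ), (∀ j, (γ j).IsHomogeneous 1) →
      nrm γ (t • z) = ‖t‖ ^ 2 * nrm γ z := by
    intro l γ hγ
    unfold nrm
    rw [Finset.mul_sum]
    refine Finset.sum_congr rfl fun j _ => ?_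
    rw [hsm (hγ j), pow_one, norm_mul, mul_pow]
  rw [r2, h1 α hα, h1 β hβ, r2]
  ring

/-- scaling to the unit sphere -/
private theorem scal1 {N : ℕ} (Z : Fin N → ℂ) (hZ : 0 < nn Z) :
    ∃ v' : Fin N → ℂ, nn v' = 1 ∧ Z = ((Real.sqrt (nn Z) : ℝ) : ℂ) • v' ∧
      ∀ v : Fin N → ℂ, nn (Z - ((Real.sqrt (nn Z) : ℝ) : ℂ) • v) = nn Z * nn (v' - v) := by
  have hs : 0 < Real.sqrt (nn Z) := Real.sqrt_pos.2 hZ
  have hsc : ((Real.sqrt (nn Z) : ℝ) : ℂ) ≠ 0 := by
    exact_mod_cast hs.ne'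
  have hsq : ‖((Real.sqrt (nn Z) : ℝ) : ℂ)‖ ^ 2 = nn Z := by
    rw [Complex.norm_real, Real.norm_of_nonneg hs.le, Real.sq_sqrt hZ.le]
  have h2 : Z = ((Real.sqrt (nn Z) : ℝ) : ℂ) • ((((Real.sqrt (nn Z) : ℝ) : ℂ))⁻¹ • Z) := by
    rw [smul_smul, mul_inv_cancel₀ hsc, one_smul]
  refine ⟨(((Real.sqrt (nn Z) : ℝ) : ℂ))⁻¹ • Z, ?_, h2, fun v => ?_⟩
  · rw [nn_smul, norm_inv, inv_pow, hsq, inv_mul_cancel₀ hZ.ne']
  · have h3 : Z - ((Real.sqrt (nn Z) : ℝ) : ℂ) • v =
        ((Real.sqrt (nn Z) : ℝ) : ℂ) • ((((Real.sqrt (nn Z) : ℝ) : ℂ))⁻¹ • Z - v) := by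
      rw [smul_sub, ← h2]
    rw [h3, nn_smul, hsq]

private theorem sphere_compact (N : ℕ) : IsCompact {v : Fin N → ℂ | nn v = 1} := by
  refine Metric.isCompact_of_isClosed_isBounded (isClosed_eq nn_continuous continuous_const) ?_
  refine (Metric.isBounded_closedBall (x := (0 : Fin N → ℂ)) (r := 1)).subset fun v hv => ?_
  rw [mem_closedBall_zero_iff, pi_norm_le_iff_of_nonneg zero_le_one]
  intro i
  have h1 : ‖v i‖ ^ 2 ≤ nn v :=
    Finset.single_le_sum (f := fun i => ‖v i‖ ^ 2) (fun _ _ => by positivity) (Finset.mem_univ i)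
  have h2 : nn v = 1 := hv
  have h3 := norm_nonneg (v i)
  nlinarith

private theorem nn_nhds {N : ℕ} {v : Fin N → ℂ} {O : Set (Fin N → ℂ)} (hO : O ∈ nhds v) :
    ∃ s : ℝ, 0 < s ∧ ∀ v', nn (v' - v) < s → v' ∈ O := by
  obtain ⟨ε, hε, hε2⟩ := Metric.mem_nhds_iff.1 hO
  refine ⟨ε ^ 2, by positivity, fun v' hv' => hε2 ?_⟩
  rw [Metric.mem_ball, dist_eq_norm, pi_norm_lt_iff hε]
  intro i
  have h1 : ‖(v' - v) i‖ ^ 2 ≤ nn (v' - v) :=
    Finset.single_le_sum (f := fun i => ‖(v' - v) i‖ ^ 2) (fun _ _ => by positivity)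
      (Finset.mem_univ i)
  exact lt_of_pow_lt_pow_left₀ 2 hε.le (lt_of_le_of_lt h1 hv')

/-- the local data, both types together -/
private theorem loc (hα : ∀ j, (α j).IsHomogeneous 1) (hβ : ∀ j, (β j).IsHomogeneous 1)
    {δ R₀ : ℝ} (hδ : 0 < δ) (h : ∀ z, R₀ ≤ nn z → δ * (1 + nn (gr p z)) ≤ r2 α β (gr p z))
    (v : Fin (n + m) → ℂ) : nn v = 1 →
    ∃ (D : ℕ) (g : MvPolynomial (Fin (n + m)) ℂ) (s c₀ R : ℝ), 0 < D ∧ g.totalDegree ≤ D ∧
      (∀ z, eval (gr p z) g = 0) ∧ 0 < s ∧ 0 < c₀ ∧ ∀ Z, R ≤ nn Z → 0 < nn Z →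
        nn (Z - (Real.sqrt (nn Z) : ℂ) • v) < s * nn Z →
          c₀ * nn Z ^ D ≤ ‖eval Z g‖ ^ 2 ∨ c₀ * nn Z ≤ r2 α β Z := by
  intro hv
  by_cases hv0 : r2 α β v ≤ 0
  · obtain ⟨D, g, s, c₀, R, h1, h2, h3, h4, h5, h6⟩ := top_g hα hβ hδ h hv hv0
    exact ⟨D, g, s, c₀, R, h1, h2, h3, h4, h5, fun Z h7 _ h8 => Or.inl (h6 Z h7 h8)⟩
  · rw [not_le] at hv0
    have hO : {v' | r2 α β v / 2 < r2 α β v'} ∈ nhds v := by
      refine (isOpen_lt continuous_const (r2_continuous α β)).mem_nhds ?_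
      show r2 α β v / 2 < r2 α β v
      linarith
    obtain ⟨s, hs, hs2⟩ := nn_nhds hO
    refine ⟨1, 0, s, r2 α β v / 2, 0, one_pos, by simp, fun z => by simp, hs, by linarith,
      fun Z _ hZ hlt => Or.inr ?_⟩
    obtain ⟨v', -, hZv, hdist⟩ := scal1 Z hZ
    rw [hdist v, mul_comm] at hlt
    have h1 : r2 α β v / 2 < r2 α β v' := hs2 v' (lt_of_mul_lt_mul_right hlt hZ.le)
    have hsq : ‖((Real.sqrt (nn Z) : ℝ) : ℂ)‖ ^ 2 = nn Z := by
      rw [Complex.norm_real, Real.norm_of_nonneg (Real.sqrt_nonneg _), Real.sq_sqrt hZ.le]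
    have h2 : r2 α β Z = nn Z * r2 α β v' := by
      conv_lhs => rw [hZv]
      rw [r2_scale1 hα hβ, hsq]
    rw [h2]
    nlinarith

private theorem Dg_zero' {N : ℕ} (D : ℕ) : Dg D (0 : MvPolynomial (Fin N ⊕ Fin N) ℝ) := by
  have h1 : Dg D (C 0 : MvPolynomial (Fin N ⊕ Fin N) ℝ) := Dg_mono (Dg_C 0) (Nat.zero_le _)
  rwa [C_0] at h1

private theorem Dg_sum' {N D : ℕ} {ι : Type*} (t : Finset ι)
    (F : ι → MvPolynomial (Fin N ⊕ Fin N) ℝ) (hF : ∀ i ∈ t, Dg D (F i)) :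
    Dg D (∑ i ∈ t, F i) := by
  classical
  induction t using Finset.induction_on with
  | empty =>
    rw [Finset.sum_empty]
    exact Dg_zero' D
  | insert a s ha ih =>
    rw [Finset.sum_insert ha]
    exact Dg_add (hF a (Finset.mem_insert_self a s))
      (ih fun i hi => hF i (Finset.mem_insert_of_mem hi))

theorem amb1 (hα : ∀ j, (α j).IsHomogeneous 1) (hβ : ∀ j, (β j).IsHomogeneous 1)
    {δ R₀ : ℝ} (hδ : 0 < δ) (h : ∀ z, R₀ ≤ nn z → δ * (1 + nn (gr p z)) ≤ r2 α β (gr p z)) :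
    ∃ (D : ℕ) (E : MvPolynomial (Fin (n + m) ⊕ Fin (n + m)) ℝ) (δ' R' : ℝ), 0 < D ∧ 0 < δ' ∧
      Dg D E ∧ (∀ z, ev E (gr p z) = 0) ∧ ∀ Z, R' ≤ nn Z →
        δ' * nn Z ^ D ≤ r2 α β Z * (1 + nn Z) ^ (D - 1) + ev E Z := by
  classical
  have hloc := loc (p := p) hα hβ hδ h
  choose! Dv gv sv cv Rv hD hg hgr hs hc hmain using hloc
  obtain ⟨t, ht, hcov⟩ := (sphere_compact (n + m)).elim_nhds_subcover
    (fun v => {v' | nn (v' - v) < sv v}) (fun v hv => by
      refine (isOpen_lt (nn_continuous.comp (continuous_id.sub continuous_const))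
        continuous_const).mem_nhds ?_
      show nn (v - v) < sv v
      rw [sub_self, nn_eq_zero.2 rfl]
      exact hs v hv)
  obtain ⟨K, hK⟩ := (sphere_compact (n + m)).exists_bound_of_continuousOn
    (r2_continuous α β).continuousOn
  choose Nv hNv using fun v => exists_norm_sq (gv v)
  set D := 1 + ∑ v ∈ t, Dv v with hDdef
  have hDle : ∀ v ∈ t, Dv v ≤ D := fun v hv => by
    have := Finset.single_le_sum (f := Dv) (fun _ _ => Nat.zero_le _) hv
    omega
  set σ := ∑ v ∈ t, 1 / cv v with hσ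
  have hcpos : ∀ v ∈ t, 0 < cv v := fun v hv => hc v (ht v hv)
  have hσnn : 0 ≤ σ := Finset.sum_nonneg fun v hv => by
    have := hcpos v hv
    positivity
  have hσle : ∀ v ∈ t, 1 ≤ σ * cv v := fun v hv => by
    have h1 : 1 / cv v ≤ σ := Finset.single_le_sum (f := fun v => 1 / cv v)
      (fun w hw => by
        have := hcpos w hw
        positivity) hv
    have h2 := mul_le_mul_of_nonneg_right h1 (hcpos v hv).le
    rwa [one_div, inv_mul_cancel₀ (hcpos v hv).ne'] at h2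
  set M := (|K| * 2 ^ (D - 1) + 1) * σ with hM
  have hM0 : 0 ≤ M := by positivity
  set E := C M * ∑ v ∈ t, Nv v * WW (n + m) 1 ^ (D - Dv v) with hE
  have hevE : ∀ Z, ev E Z = M * ∑ v ∈ t, ‖eval Z (gv v)‖ ^ 2 * (1 + nn Z) ^ (D - Dv v) := by
    intro Z
    rw [hE, ev_mul, ev_C, ev_sum]
    congr 1
    refine Finset.sum_congr rfl fun v _ => ?_
    rw [ev_mul, hNv, ← ev_WW 1 Z]
    congr 1
    unfold ev
    rw [map_pow]
  refine ⟨D, E, 1 / (1 + σ), 1 + ∑ v ∈ t, |Rv v|, by omega, by positivity, ?_, fun z => ?_,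
    fun Z hZ => ?_⟩
  · have h1 : Dg (0 + D) E := by
      refine Dg_mul (Dg_C M) (Dg_sum' t _ fun v hv => ?_)
      have h2 : Dg (Dv v) (Nv v) := by
        refine ⟨1, fun _ => gv v, 0, Fin.elim0, fun _ => hg v (ht v hv), fun j => Fin.elim0 j,
          fun z => ?_⟩
        rw [hNv, nrm_one]
        simp [nrm]
      have h3 := Dg_mul h2 (Dg_pow (Dg_WW (n := n + m) zero_le_one) (D - Dv v))
      have h4 : Dv v + (D - Dv v) * 1 = D := by
        have := hDle v hv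
        omega
      rwa [h4] at h3
    rwa [Nat.zero_add] at h1
  · rw [hevE, Finset.sum_eq_zero, mul_zero]
    intro v hv
    rw [hgr v (ht v hv) z, norm_zero]
    ring
  · have hRs : 0 ≤ ∑ v ∈ t, |Rv v| := Finset.sum_nonneg fun _ _ => abs_nonneg _
    have hN1 : 1 ≤ nn Z := by linarith
    have hNpos : 0 < nn Z := by linarith
    obtain ⟨v', hv', hZv, hdist⟩ := scal1 Z hNpos
    have hmem := hcov hv'
    simp only [Set.mem_iUnion] at hmem
    obtain ⟨v, hvt, hvv⟩ := hmem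
    have hvv' : nn (v' - v) < sv v := hvv
    have hlt : nn (Z - ((Real.sqrt (nn Z) : ℝ) : ℂ) • v) < sv v * nn Z := by
      rw [hdist v, mul_comm]
      exact mul_lt_mul_of_pos_right hvv' hNpos
    have hR : Rv v ≤ nn Z := by
      have h1 : |Rv v| ≤ ∑ v ∈ t, |Rv v| :=
        Finset.single_le_sum (f := fun v => |Rv v|) (fun _ _ => abs_nonneg _) hvt
      have := le_abs_self (Rv v)
      linarith
    have hE0 : 0 ≤ ev E Z := by
      rw [hevE]
      have := nn_nonneg Z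
      exact mul_nonneg hM0 (Finset.sum_nonneg fun _ _ => by positivity)
    have hpowle : nn Z ^ (D - 1) ≤ (1 + nn Z) ^ (D - 1) :=
      pow_le_pow_left₀ hNpos.le (by linarith) _
    have hD1 : nn Z * nn Z ^ (D - 1) = nn Z ^ D := by
      rw [← pow_succ']
      congr 1
      omega
    have hσ1 : 1 / (1 + σ) ≤ 1 := by
      rw [div_le_one (by positivity)]
      linarith
    rcases hmain v (ht v hvt) Z hR hNpos hlt with hA | hB
    · -- the polynomial is large
      have h1 : M * (cv v * nn Z ^ D) ≤ ev E Z := by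
        rw [hevE]
        refine mul_le_mul_of_nonneg_left ?_ hM0
        have h2 : ‖eval Z (gv v)‖ ^ 2 * (1 + nn Z) ^ (D - Dv v) ≤
            ∑ v ∈ t, ‖eval Z (gv v)‖ ^ 2 * (1 + nn Z) ^ (D - Dv v) :=
          Finset.single_le_sum (f := fun v => ‖eval Z (gv v)‖ ^ 2 * (1 + nn Z) ^ (D - Dv v))
            (fun _ _ => by
              have := nn_nonneg Z
              positivity) hvt
        refine le_trans ?_ h2
        have h3 : cv v * nn Z ^ D = cv v * nn Z ^ (Dv v) * nn Z ^ (D - Dv v) := by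
          rw [mul_assoc, ← pow_add]
          congr 2
          have := hDle v hvt
          omega
        rw [h3]
        refine mul_le_mul hA (pow_le_pow_left₀ hNpos.le (by linarith) _) (by positivity)
          (by positivity)
      have h4 : -(|K| * 2 ^ (D - 1) * nn Z ^ D) ≤ r2 α β Z * (1 + nn Z) ^ (D - 1) := by
        have h5 : -(|K| * nn Z) ≤ r2 α β Z := by
          have hsq : ‖((Real.sqrt (nn Z) : ℝ) : ℂ)‖ ^ 2 = nn Z := by
            rw [Complex.norm_real, Real.norm_of_nonneg (Real.sqrt_nonneg _),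
              Real.sq_sqrt hNpos.le]
          have h6 : r2 α β Z = nn Z * r2 α β v' := by
            conv_lhs => rw [hZv]
            rw [r2_scale1 hα hβ, hsq]
          have h7 := hK v' hv'
          rw [Real.norm_eq_abs] at h7
          have h8 := neg_abs_le (r2 α β v')
          have h9 := le_abs_self K
          have h10 : -|K| ≤ r2 α β v' := by linarith
          rw [h6]
          nlinarith
        have h11 : (1 + nn Z) ^ (D - 1) ≤ 2 ^ (D - 1) * nn Z ^ (D - 1) := by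
          rw [← mul_pow]
          exact pow_le_pow_left₀ (by linarith) (by linarith) _
        have h12 : 0 ≤ (1 + nn Z) ^ (D - 1) := by positivity
        calc -(|K| * 2 ^ (D - 1) * nn Z ^ D)
            = -(|K| * nn Z * (2 ^ (D - 1) * nn Z ^ (D - 1))) := by
              rw [← hD1]
              ring
          _ ≤ -(|K| * nn Z * (1 + nn Z) ^ (D - 1)) := by
              have := mul_le_mul_of_nonneg_left h11 (mul_nonneg (abs_nonneg K) hNpos.le)
              linarith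
          _ = -(|K| * nn Z) * (1 + nn Z) ^ (D - 1) := by ring
          _ ≤ _ := mul_le_mul_of_nonneg_right h5 h12
      have h13 : (|K| * 2 ^ (D - 1) + 1) * nn Z ^ D ≤ M * (cv v * nn Z ^ D) := by
        have h14 := hσle v hvt
        have h15 : M * (cv v * nn Z ^ D) =
            (|K| * 2 ^ (D - 1) + 1) * nn Z ^ D * (σ * cv v) := by
          rw [hM]
          ring
        rw [h15]
        have h16 : 0 ≤ (|K| * 2 ^ (D - 1) + 1) * nn Z ^ D := by positivity
        nlinarith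
      have h17 : 1 / (1 + σ) * nn Z ^ D ≤ nn Z ^ D := by
        have : 0 ≤ nn Z ^ D := by positivity
        nlinarith
      nlinarith
    · have h1 : cv v * nn Z ^ D ≤ r2 α β Z * (1 + nn Z) ^ (D - 1) := by
        rw [← hD1, ← mul_assoc]
        exact mul_le_mul hB hpowle (by positivity) ((mul_nonneg (hcpos v hvt).le hNpos.le).trans hB)
      have h2 : 1 / (1 + σ) ≤ cv v := by
        rw [div_le_iff₀ (by positivity)]
        have := hσle v hvt
        have := hcpos v hvt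
        nlinarith
      have h3 : 1 / (1 + σ) * nn Z ^ D ≤ cv v * nn Z ^ D :=
        mul_le_mul_of_nonneg_right h2 (by positivity)
      linarith

end Pool.Agent.Work.MP_49847a_an
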