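import Pool.Agent.Work.MP_49847a_an.Cp.InfA
import Pool.Agent.Work.MP_49847a_an.Cp.Amb0
import Pool.Agent.Work.MP_49847a_an.Cp.Amb1

/-!
# Module Amb2: a multiple of `r` is the restriction to a graph of a polynomial with positive leading part

Proof.  `inf_ab` gives `G, A, B, δ, R₀`; `amb0` gives `m, p, α, β`; `amb1` gives `D, E, δ', R'`.  `d = D`,
`ρ = ρ₀ * WW (n + m) 1 ^ (D - 1) + E` with `ev ρ₀ = r2 α β` (`exists_r2`), `Dg 1 ρ₀` (degree of the `α_j`, `β_j` at most one), so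
`Dg (1 + (D - 1)) ρ`.  `ev ρ (gr p z) = (nrm A z - nrm B z)(1 + nn z)(1 + nn (gr p z))^(D-1) =
r2 P Q z * ev (G * WW n 1 * U) z` where `U` is the pull back of `WW (n + m) 1 ^ (D - 1)` (`pull_real`).
-/

namespace Pool.Agent.Work.MP_49847a_an

open MvPolynomial

variable {n k l : ℕ} {P : Fin k → MvPolynomial (Fin n) ℂ} {Q : Fin l → MvPolynomial (Fin n) ℂ}

theorem amb2 (h : Inf2 P Q) : ∃ (m : ℕ) (p : Fin m → MvPolynomial (Fin n) ℂ) (d : ℕ)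
    (ρ : MvPolynomial (Fin (n + m) ⊕ Fin (n + m)) ℝ) (G : MvPolynomial (Fin n ⊕ Fin n) ℝ)
    (δ R₀ : ℝ), 0 < d ∧ Dg d ρ ∧ 0 < δ ∧ (∀ Z, R₀ ≤ nn Z → δ * nn Z ^ d ≤ ev ρ Z) ∧
      ∀ z, ev ρ (gr p z) = r2 P Q z * ev G z := by
  obtain ⟨G₀, a, b, A, B, δ₀, R₀, hδ₀, hG, hlow⟩ := inf_ab h
  obtain ⟨m, p, a', b', α, β, hα, hβ, h1, h2⟩ := amb0 A B hlow
  obtain ⟨D, E, δ', R', hD, hδ', hDE, hE0, h3⟩ := amb1 hα hβ hδ₀ h2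
  obtain ⟨ρ₀, hρ₀⟩ := exists_r2 α β
  obtain ⟨U, hU, _⟩ := pull_real p (WW (n + m) 1 ^ (D - 1))
  have hev : ∀ Z, ev (ρ₀ * WW (n + m) 1 ^ (D - 1) + E) Z =
      r2 α β Z * (1 + nn Z) ^ (D - 1) + ev E Z := by
    intro Z
    rw [ev_add, ev_mul, ev_pow, ev_WW, hρ₀]
  refine ⟨m, p, D, ρ₀ * WW (n + m) 1 ^ (D - 1) + E, G₀ * WW n 1 * U, δ', R', hD, ?_, hδ', ?_, ?_⟩
  · have h4 : Dg 1 ρ₀ := ⟨a', α, b', β, fun j => (hα j).totalDegree_le,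
      fun j => (hβ j).totalDegree_le, hρ₀⟩
    have h5 : Dg (1 + (D - 1) * 1) (ρ₀ * WW (n + m) 1 ^ (D - 1)) :=
      Dg_mul h4 (Dg_pow (Dg_WW zero_le_one) (D - 1))
    exact Dg_add (Dg_mono h5 (by omega)) hDE
  · intro Z hZ
    rw [hev]
    exact h3 Z hZ
  · intro z
    rw [hev, hE0, h1, ← hG, ev_mul, ev_mul, ev_WW, hU, ev_pow, ev_WW]
    ring

end Pool.Agent.Work.MP_49847a_an
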