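import Pool.Agent.Work.MP_49847a_an.Cp.GrB

/-!
# Module Amb3: a positive multiplier

Proof.  Let `R₁` be such that `r2 P Q z > 0` for `R₁ ≤ nn z` (`Pos2`) and `R₁ ≥ R₀`, `R₁ > 0`; then `ev G z ≥ 0` for
`nn z ≥ R₁`: `nn (gr p z) ≥ nn z ≥ R₀`, so `r2 P Q z * ev G z = ev ρ (gr p z) ≥ 0`.
Let `R'` be the lift of the real polynomial `r2 P Q` (`exists_r2`, `lift_real`), `Dg d' R'`.  `N₁ = d' + D₁`,
`d₁ = d + N₁`, `ρ₁ = ρ * WW (n + m) 1 ^ N₁ + C L * R'`, `Dg d₁ ρ₁`.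
Leading part: for `nn Z ≥ max R₀ 1`: `ρ (1 + nn)^N₁ ≥ δ nn^(d₁)`, `|L R'| ≤ L K (1 + nn)^(d') ≤ L K 2^(d') nn^(d')` (`Dg_bound`)
and `d' < d₁` (`0 < d`), so `ρ₁ ≥ (δ/2) nn^(d₁)` for `nn Z` large.
On the graph: `ev ρ₁ (gr p z) = r2 P Q z (ev G z (1 + nn (gr p z))^N₁ + L) = r2 P Q z * ev G₁ z` with
`G₁ = G * U + C L`, `U` the pull back of `WW (n + m) 1 ^ N₁` (`pull_real`).  `ev G₁ > 0`: for `nn z ≥ R₁` since `ev G z ≥ 0`, `L > 0`;
for `nn z ≤ R₁` if `L` is larger than the maximum of `|ev (G U)|` on the compact set `nn z ≤ R₁` (`nn_cpt`).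
-/

namespace Pool.Agent.Work.MP_49847a_an

open MvPolynomial

variable {n k l : ℕ} {P : Fin k → MvPolynomial (Fin n) ℂ} {Q : Fin l → MvPolynomial (Fin n) ℂ}

theorem amb3 (hP : Pos2 P Q) {m d : ℕ} {p : Fin m → MvPolynomial (Fin n) ℂ}
    {ρ : MvPolynomial (Fin (n + m) ⊕ Fin (n + m)) ℝ} {G : MvPolynomial (Fin n ⊕ Fin n) ℝ}
    {δ R₀ : ℝ} (hd : 0 < d) (hρ : Dg d ρ) (hδ : 0 < δ)
    (hlead : ∀ Z, R₀ ≤ nn Z → δ * nn Z ^ d ≤ ev ρ Z)
    (hG : ∀ z, ev ρ (gr p z) = r2 P Q z * ev G z) (D₁ : ℕ) :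
    ∃ (d₁ : ℕ) (ρ₁ : MvPolynomial (Fin (n + m) ⊕ Fin (n + m)) ℝ)
      (G₁ : MvPolynomial (Fin n ⊕ Fin n) ℝ) (δ₁ R₁ : ℝ), D₁ ≤ d₁ ∧ Dg d₁ ρ₁ ∧ 0 < δ₁ ∧
      (∀ Z, R₁ ≤ nn Z → δ₁ * nn Z ^ d₁ ≤ ev ρ₁ Z) ∧
      (∀ z, ev ρ₁ (gr p z) = r2 P Q z * ev G₁ z) ∧ ∀ z, 0 < ev G₁ z := by
  obtain ⟨Rp, hRp⟩ := hP
  obtain ⟨F, hF⟩ := exists_r2 P Q
  obtain ⟨d', hd'⟩ := Dg_exists F
  obtain ⟨R', hR', -, hR'd⟩ := lift_real m F
  obtain ⟨U, hU, -⟩ := pull_real p (WW (n + m) 1 ^ (d' + D₁))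
  have hU' : ∀ z, ev U z = (1 + nn (gr p z)) ^ (d' + D₁) := fun z => by
    rw [hU, ev_pow, ev_WW]
  have hUpos : ∀ z, 0 < ev U z := fun z => by
    rw [hU']
    have := nn_nonneg (gr p z)
    positivity
  -- nonnegativity of `G` near infinity
  set Ra : ℝ := max Rp (max R₀ 1) with hRa
  have hGnn : ∀ z, Ra ≤ nn z → 0 ≤ ev G z := by
    intro z hz
    have h1 : 0 < r2 P Q z := hRp z ((le_max_left _ _).trans hz)
    have h2 : R₀ ≤ nn (gr p z) := by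
      rw [nn_gr]
      have h3 : R₀ ≤ nn z := ((le_max_left _ _).trans (le_max_right _ _)).trans hz
      have h4 := nrm_nonneg p z
      linarith
    have h5 := hlead _ h2
    rw [hG] at h5
    have h6 : 0 ≤ r2 P Q z * ev G z := by
      refine le_trans ?_ h5
      have := nn_nonneg (gr p z)
      positivity
    exact nonneg_of_mul_nonneg_right h6 h1
  -- the compact set
  obtain ⟨M, hM⟩ := (nn_cpt (n := n) Ra).bddAbove_image
    ((ev_continuous (G * U)).abs.continuousOn)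
  have hM' : ∀ z, nn z ≤ Ra → |ev (G * U) z| ≤ max M 0 := fun z hz =>
    (hM ⟨z, hz, rfl⟩).trans (le_max_left _ _)
  set L : ℝ := max M 0 + 1 with hL
  have hL0 : 0 < L := by positivity
  obtain ⟨K, hK0, hK⟩ := Dg_bound (hR'd d' hd')
  refine ⟨d + (d' + D₁), ρ * WW (n + m) 1 ^ (d' + D₁) + C L * R', G * U + C L, δ / 2,
    max (max R₀ 1) (2 * (L * K * 2 ^ d') / δ), by omega, ?_, by positivity, ?_, ?_, ?_⟩
  · refine Dg_add ?_ ?_
    · have h1 := Dg_mul hρ (Dg_pow (Dg_WW (n := n + m) zero_le_one) (d' + D₁))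
      rwa [mul_one] at h1
    · exact Dg_mono (Dg_mul (Dg_C L) (hR'd d' hd')) (by omega)
  · intro Z hZ
    have hZ0 : R₀ ≤ nn Z := ((le_max_left _ _).trans (le_max_left _ _)).trans hZ
    have hZ1 : 1 ≤ nn Z := ((le_max_right _ _).trans (le_max_left _ _)).trans hZ
    have hZ2 : 2 * (L * K * 2 ^ d') / δ ≤ nn Z := (le_max_right _ _).trans hZ
    have hZp : 0 ≤ nn Z := nn_nonneg Z
    rw [ev_add, ev_mul, ev_mul, ev_C, ev_pow, ev_WW]
    have h1 : δ * nn Z ^ (d + (d' + D₁)) ≤ ev ρ Z * (1 + nn Z) ^ (d' + D₁) := by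
      have h2 := hlead Z hZ0
      have h3 : nn Z ^ (d' + D₁) ≤ (1 + nn Z) ^ (d' + D₁) :=
        pow_le_pow_left₀ hZp (by linarith) _
      rw [pow_add, ← mul_assoc]
      exact mul_le_mul h2 h3 (by positivity) ((by positivity : (0:ℝ) ≤ δ * nn Z ^ d).trans h2)
    have h4 : |L * ev R' Z| ≤ L * K * 2 ^ d' * nn Z ^ d' := by
      rw [abs_mul, abs_of_pos hL0]
      have h5 : (1 + nn Z) ^ d' ≤ (2 * nn Z) ^ d' := pow_le_pow_left₀ (by linarith) (by linarith) _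
      rw [mul_pow] at h5
      calc L * |ev R' Z| ≤ L * (K * (1 + nn Z) ^ d') :=
            mul_le_mul_of_nonneg_left (hK Z) hL0.le
        _ ≤ L * (K * (2 ^ d' * nn Z ^ d')) := by gcongr
        _ = L * K * 2 ^ d' * nn Z ^ d' := by ring
    have h6 : L * K * 2 ^ d' * nn Z ^ d' ≤ δ / 2 * nn Z ^ (d + (d' + D₁)) := by
      have h7 : L * K * 2 ^ d' ≤ δ / 2 * nn Z := by
        rw [div_le_iff₀ hδ] at hZ2
        linarith
      have h8 : nn Z * nn Z ^ d' ≤ nn Z ^ (d + (d' + D₁)) := by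
        rw [← pow_succ']
        exact pow_le_pow_right₀ hZ1 (by omega)
      calc L * K * 2 ^ d' * nn Z ^ d' ≤ δ / 2 * nn Z * nn Z ^ d' := by gcongr
        _ = δ / 2 * (nn Z * nn Z ^ d') := by ring
        _ ≤ _ := by gcongr
    have h9 := neg_abs_le (L * ev R' Z)
    linarith
  · intro z
    rw [ev_add, ev_mul, ev_mul, ev_C, ev_add, ev_mul, ev_C, hG, hR', fs_gr, hF, hU]
    ring
  · intro z
    rw [ev_add, ev_C]
    rcases le_total (nn z) Ra with hz | hz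
    · have h1 := neg_abs_le (ev (G * U) z)
      have h2 := hM' z hz
      rw [hL]
      linarith
    · rw [ev_mul]
      have h1 := mul_nonneg (hGnn z hz) (hUpos z).le
      linarith

end Pool.Agent.Work.MP_49847a_an
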