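import Pool.Agent.Work.MP_49847a_an.Cp.CpDefs

/-!
# Module BddA: bounded algebraic sets are finite

Proof.  Let `J` be the ideal generated by the `e_j` and `A = ℂ[z]/J`.  If `A` is trivial, `1 ∈ J`: `f = 1`.
Otherwise Noether normalization (`exists_integral_inj_algHom_of_fg`, file Mathlib/RingTheory/NoetherNormalization) gives
`g : ℂ[y_1, …, y_s] → A` injective and integral.  Suppose `s ≥ 1`.  Let `Y_k ∈ ℂ[z]` be a representative of `g(y_k)`.  For `η ∈ ℂ^s` the maximal
ideal of `η` (kernel of the evaluation at `η`) is the contraction of a maximal ideal of `A` (lying over: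
`Ideal.exists_ideal_over_maximal_of_isIntegral`), which is the kernel of a homomorphism `A → ℂ`, the evaluation at a point
`z` with `e_j(z) = 0` for all `j` (Nullstellensatz, `MvPolynomial.isMaximal_iff_eq_vanishingIdeal_singleton`,
applied to the preimage in `ℂ[z]`), and `Y_k(z) = η_k`.  But `Y_1` is bounded on the bounded set
of the common zeros (`nn z ≤ R`; continuous on a compact set), contradiction for `η_1` large.  So `s = 0`, and `A` is integral over `ℂ`
(`MvPolynomial.isEmptyAlgEquiv`; the elements of `ℂ[y] `, `s = 0`, are constants): the class of `z_i` satisfies a monic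
equation over `ℂ`, `f(z_i) ∈ J = span (range e)` (`Ideal.mem_span_range_iff_exists_fun` or `Submodule.mem_span_range_iff_exists_fun`), and evaluate at `z`.
-/

namespace Pool.Agent.Work.MP_49847a_an

open MvPolynomial

private theorem bdd_on {n s : ℕ} (e : Fin s → MvPolynomial (Fin n) ℂ) (R : ℝ)
    (h : ∀ z : Fin n → ℂ, (∀ j, eval z (e j) = 0) → nn z ≤ R) (Y : MvPolynomial (Fin n) ℂ) :
    ∃ C : ℝ, 0 ≤ C ∧ ∀ z : Fin n → ℂ, (∀ j, eval z (e j) = 0) → ‖eval z Y‖ ≤ C := by
  have hcont : Continuous fun z : Fin n → ℂ => eval z Y := MvPolynomial.continuous_eval Y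
  have hcomp : IsCompact (Metric.closedBall (0 : Fin n → ℂ) (Real.sqrt (max R 0))) :=
    isCompact_closedBall _ _
  obtain ⟨C, hC⟩ := hcomp.exists_bound_of_continuousOn hcont.continuousOn
  refine ⟨max C 0, le_max_right _ _, fun z hz => (hC z ?_).trans (le_max_left _ _)⟩
  rw [Metric.mem_closedBall, dist_zero_right]
  rw [pi_norm_le_iff_of_nonneg (Real.sqrt_nonneg _)]
  intro i
  apply Real.le_sqrt_of_sq_le
  have h1 : ‖z i‖ ^ 2 ≤ nn z := by
    unfold nn
    exact Finset.single_le_sum (f := fun i => ‖z i‖ ^ 2) (fun i _ => sq_nonneg _) (Finset.mem_univ i)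
  exact h1.trans ((h z hz).trans (le_max_left _ _))

theorem bdd_zeros {n s : ℕ} (e : Fin s → MvPolynomial (Fin n) ℂ) (R : ℝ)
    (h : ∀ z : Fin n → ℂ, (∀ j, eval z (e j) = 0) → nn z ≤ R) (i : Fin n) :
    ∃ (f : Polynomial ℂ) (q : Fin s → MvPolynomial (Fin n) ℂ), f.Monic ∧
      ∀ z : Fin n → ℂ, f.eval (z i) = ∑ j, eval z (q j) * eval z (e j) := by
  classical
  set J : Ideal (MvPolynomial (Fin n) ℂ) := Ideal.span (Set.range e) with hJ
  -- it is enough to have a monic `f` with `f(X_i)` in the ideal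
  suffices hsuff : ∃ f : Polynomial ℂ, f.Monic ∧ Polynomial.aeval (X i : MvPolynomial (Fin n) ℂ) f ∈ J by
    obtain ⟨f, hf, hfJ⟩ := hsuff
    rw [hJ, Ideal.mem_span_range_iff_exists_fun] at hfJ
    obtain ⟨q, hq⟩ := hfJ
    refine ⟨f, q, hf, fun z => ?_⟩
    have h1 := congrArg (eval z) hq
    rw [map_sum] at h1
    simp only [map_mul] at h1
    rw [h1]
    have h2 : eval z (Polynomial.aeval (X i : MvPolynomial (Fin n) ℂ) f) =
        Polynomial.aeval (aeval z (X i : MvPolynomial (Fin n) ℂ)) f := by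
      rw [← MvPolynomial.coe_aeval_eq_eval, RingHom.coe_coe, ← Polynomial.aeval_algHom_apply]
    rw [h2, aeval_X, Polynomial.coe_aeval_eq_eval]
  by_cases htriv : Subsingleton (MvPolynomial (Fin n) ℂ ⧸ J)
  · refine ⟨1, Polynomial.monic_one, ?_⟩
    rw [Ideal.Quotient.subsingleton_iff] at htriv
    rw [htriv]
    exact Submodule.mem_top
  have hnt : Nontrivial (MvPolynomial (Fin n) ℂ ⧸ J) := not_subsingleton_iff_nontrivial.mp htriv
  obtain ⟨t, g, hginj, hgint⟩ :=
    exists_integral_inj_algHom_of_fg ℂ (MvPolynomial (Fin n) ℂ ⧸ J)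
  rcases Nat.eq_zero_or_pos t with rfl | ht
  · -- dimension zero
    have hsurj : Function.Surjective (algebraMap ℂ (MvPolynomial (Fin 0) ℂ)) := by
      intro x
      obtain ⟨c, hc⟩ := C_surjective (R := ℂ) (Fin 0) x
      exact ⟨c, hc⟩
    have hint : (algebraMap ℂ (MvPolynomial (Fin n) ℂ ⧸ J)).IsIntegral := by
      have h1 : (algebraMap ℂ (MvPolynomial (Fin n) ℂ ⧸ J)) =
          (g : MvPolynomial (Fin 0) ℂ →+* (MvPolynomial (Fin n) ℂ ⧸ J)).comp
            (algebraMap ℂ (MvPolynomial (Fin 0) ℂ)) := by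
        ext x
        simp
      rw [h1]
      exact RingHom.IsIntegral.trans _ _ (RingHom.isIntegral_of_surjective _ hsurj) hgint
    obtain ⟨f, hf, hf0⟩ := hint (Ideal.Quotient.mk J (X i))
    refine ⟨f, hf, ?_⟩
    rw [← Ideal.Quotient.eq_zero_iff_mem]
    rw [← hf0]
    have h2 := Polynomial.aeval_algHom_apply (Ideal.Quotient.mkₐ ℂ J) (X i) f
    rw [Ideal.Quotient.mkₐ_eq_mk] at h2
    rw [← h2, Polynomial.aeval_def]
  · -- positive dimension is impossible
    exfalso
    set k0 : Fin t := ⟨0, ht⟩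
    obtain ⟨Y, hY⟩ := Ideal.Quotient.mk_surjective (g (X k0))
    obtain ⟨C, hC0, hC⟩ := bdd_on e R h Y
    set η : Fin t → ℂ := fun _ => ((C + 1 : ℝ) : ℂ)
    set P : Ideal (MvPolynomial (Fin t) ℂ) := vanishingIdeal ℂ {η} with hP
    have hPmax : P.IsMaximal := isMaximal_iff_eq_vanishingIdeal_singleton.mpr ⟨η, rfl⟩
    letI : Algebra (MvPolynomial (Fin t) ℂ) (MvPolynomial (Fin n) ℂ ⧸ J) := g.toRingHom.toAlgebra
    have hInt : Algebra.IsIntegral (MvPolynomial (Fin t) ℂ) (MvPolynomial (Fin n) ℂ ⧸ J) :=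
      ⟨fun x => hgint x⟩
    have halg : (algebraMap (MvPolynomial (Fin t) ℂ) (MvPolynomial (Fin n) ℂ ⧸ J)) = g.toRingHom := rfl
    have hker : RingHom.ker (algebraMap (MvPolynomial (Fin t) ℂ) (MvPolynomial (Fin n) ℂ ⧸ J)) ≤ P := by
      rw [halg]
      intro x hx
      have h1 : g x = 0 := hx
      have h2 : x = 0 := hginj (by rw [h1, map_zero])
      rw [h2]
      exact P.zero_mem
    obtain ⟨Q, hQmax, hQ⟩ := Ideal.exists_ideal_over_maximal_of_isIntegral P hker
    have hQ'max : (Q.comap (Ideal.Quotient.mk J)).IsMaximal :=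
      Ideal.comap_isMaximal_of_surjective _ Ideal.Quotient.mk_surjective
    obtain ⟨z, hz⟩ := isMaximal_iff_eq_vanishingIdeal_singleton.mp hQ'max
    have hzero : ∀ j, eval z (e j) = 0 := by
      intro j
      have h1 : e j ∈ Q.comap (Ideal.Quotient.mk J) := by
        rw [Ideal.mem_comap]
        have h2 : Ideal.Quotient.mk J (e j) = 0 :=
          Ideal.Quotient.eq_zero_iff_mem.mpr (Ideal.subset_span ⟨j, rfl⟩)
        rw [h2]
        exact Q.zero_mem
      rw [hz, mem_vanishingIdeal_iff] at h1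
      have h3 := h1 z rfl
      simpa [aeval_eq_eval] using h3
    have hYz : eval z Y = ((C + 1 : ℝ) : ℂ) := by
      have h1 : (X k0 : MvPolynomial (Fin t) ℂ) - MvPolynomial.C ((C + 1 : ℝ) : ℂ) ∈ P := by
        rw [hP, mem_vanishingIdeal_iff]
        intro x hx
        rw [Set.mem_singleton_iff] at hx
        subst hx
        simp [η]
      rw [← hQ, Ideal.mem_comap, halg] at h1
      have h2 : g.toRingHom ((X k0 : MvPolynomial (Fin t) ℂ) - MvPolynomial.C ((C + 1 : ℝ) : ℂ)) =
          Ideal.Quotient.mk J (Y - MvPolynomial.C ((C + 1 : ℝ) : ℂ)) := by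
        rw [map_sub, map_sub, hY]
        congr 1
        exact g.commutes _
      rw [h2] at h1
      have h3 : Y - MvPolynomial.C ((C + 1 : ℝ) : ℂ) ∈ Q.comap (Ideal.Quotient.mk J) := h1
      rw [hz, mem_vanishingIdeal_iff] at h3
      have h4 := h3 z rfl
      simp only [map_sub, aeval_C, Algebra.algebraMap_self, RingHom.id_apply, sub_eq_zero] at h4
      simpa [aeval_eq_eval] using h4
    have h5 := hC z hzero
    rw [hYz, Complex.norm_real, Real.norm_eq_abs] at h5
    have h6 := le_abs_self (C + 1)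
    linarith

end Pool.Agent.Work.MP_49847a_an
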