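import Pool.Agent.Work.MP_49847a_an.Cp.BddA

/-!
# Module BddB: lower bound for polynomials without common zeros near infinity

Proof.  Take `f_i, q_i` from `bdd_zeros` for every `i : Fin n`.  For each `i` there is `ρ_i` with `‖f_i(t)‖ ≥ 1/2` for `‖t‖ ≥ ρ_i` (`f_i` is
monic: `f_i = 1` if the degree is zero, otherwise `Polynomial.tendsto_norm_atTop` or the estimate of the
lower terms).  If `nn z ≥ R'` with `R' ≥ n ρ²`, `ρ ≥ ρ_i` for all `i`, `R' ≥ 1`, there is `i` with `‖z i‖ ≥ ρ` (for `n = 0`, `nn z = 0 < R'`).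
Cauchy-Schwarz: `1/4 ≤ ‖f_i(z_i)‖² ≤ (∑_j ‖q_ij(z)‖²) nrm e z`, and `∑_j ‖q_ij(z)‖² = nrm (q_i) z ≤ M (1 + nn z)^N` with `M, N` the same for all `i`
(bound of polynomials, see `pol_bd` or the lemmas on `nrm` and degrees in Sg and Rat; or induction on the polynomial).
-/

namespace Pool.Agent.Work.MP_49847a_an

open MvPolynomial

private theorem bb_nn0 {n : ℕ} (z : Fin n → ℂ) : 0 ≤ nn z :=
  Finset.sum_nonneg fun _ _ => by positivity

private theorem bb_coord {n : ℕ} (z : Fin n → ℂ) (i : Fin n) : ‖z i‖ ^ 2 ≤ nn z := by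
  unfold nn
  exact Finset.single_le_sum (f := fun i => ‖z i‖ ^ 2) (fun _ _ => by positivity) (Finset.mem_univ i)

/-- polynomial growth -/
private theorem bb_growth {n : ℕ} (p : MvPolynomial (Fin n) ℂ) :
    ∃ (M : ℝ) (N : ℕ), 0 ≤ M ∧ ∀ z : Fin n → ℂ, ‖eval z p‖ ≤ M * (1 + nn z) ^ N := by
  induction p using MvPolynomial.induction_on with
  | C a => exact ⟨‖a‖, 0, norm_nonneg a, fun z => by simp⟩
  | add p q hp hq =>
    obtain ⟨M₁, N₁, h₁, H₁⟩ := hp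
    obtain ⟨M₂, N₂, h₂, H₂⟩ := hq
    refine ⟨M₁ + M₂, N₁ + N₂, by positivity, fun z => ?_⟩
    have h0 := bb_nn0 z
    have a1 : (1 + nn z) ^ N₁ ≤ (1 + nn z) ^ (N₁ + N₂) :=
      pow_le_pow_right₀ (by linarith) (by omega)
    have a2 : (1 + nn z) ^ N₂ ≤ (1 + nn z) ^ (N₁ + N₂) :=
      pow_le_pow_right₀ (by linarith) (by omega)
    rw [map_add]
    calc ‖eval z p + eval z q‖ ≤ ‖eval z p‖ + ‖eval z q‖ := norm_add_le _ _
      _ ≤ M₁ * (1 + nn z) ^ N₁ + M₂ * (1 + nn z) ^ N₂ := add_le_add (H₁ z) (H₂ z)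
      _ ≤ M₁ * (1 + nn z) ^ (N₁ + N₂) + M₂ * (1 + nn z) ^ (N₁ + N₂) :=
        add_le_add (mul_le_mul_of_nonneg_left a1 h₁) (mul_le_mul_of_nonneg_left a2 h₂)
      _ = (M₁ + M₂) * (1 + nn z) ^ (N₁ + N₂) := by ring
  | mul_X p i hp =>
    obtain ⟨M₁, N₁, h₁, H₁⟩ := hp
    refine ⟨M₁, N₁ + 1, h₁, fun z => ?_⟩
    have h0 := bb_nn0 z
    have h2 : ‖z i‖ ≤ 1 + nn z := by
      have := bb_coord z i
      nlinarith [sq_nonneg (‖z i‖ - 1), norm_nonneg (z i)]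
    rw [map_mul, eval_X, norm_mul, pow_succ, ← mul_assoc]
    exact mul_le_mul (H₁ z) h2 (norm_nonneg _) (by positivity)

/-- polynomial growth of `nrm` -/
private theorem bb_nrm {n s : ℕ} (q : Fin s → MvPolynomial (Fin n) ℂ) :
    ∃ (M : ℝ) (N : ℕ), 0 ≤ M ∧ ∀ z : Fin n → ℂ, nrm q z ≤ M * (1 + nn z) ^ N := by
  choose M N hM H using fun j => bb_growth (q j)
  refine ⟨∑ j, M j ^ 2, ∑ j, 2 * N j, by positivity, fun z => ?_⟩
  have h0 := bb_nn0 z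
  unfold nrm
  rw [Finset.sum_mul]
  refine Finset.sum_le_sum fun j _ => ?_
  have h1 : ‖eval z (q j)‖ ^ 2 ≤ (M j * (1 + nn z) ^ N j) ^ 2 :=
    pow_le_pow_left₀ (norm_nonneg _) (H j z) 2
  have h2 : (1 + nn z) ^ (2 * N j) ≤ (1 + nn z) ^ (∑ j, 2 * N j) :=
    pow_le_pow_right₀ (by linarith)
      (Finset.single_le_sum (f := fun j => 2 * N j) (fun _ _ => Nat.zero_le _) (Finset.mem_univ j))
  calc ‖eval z (q j)‖ ^ 2 ≤ (M j * (1 + nn z) ^ N j) ^ 2 := h1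
    _ = M j ^ 2 * (1 + nn z) ^ (2 * N j) := by ring
    _ ≤ M j ^ 2 * (1 + nn z) ^ (∑ j, 2 * N j) :=
      mul_le_mul_of_nonneg_left h2 (by positivity)

/-- a monic polynomial is bounded below near infinity -/
private theorem bb_monic (f : Polynomial ℂ) (hf : f.Monic) :
    ∃ ρ : ℝ, ∀ t : ℂ, ρ ≤ ‖t‖ → 1 / 2 ≤ ‖f.eval t‖ := by
  rcases Nat.eq_zero_or_pos f.natDegree with h | h
  · have h1 : f = 1 := hf.natDegree_eq_zero.mp h
    exact ⟨0, fun t _ => by rw [h1]; simp; norm_num⟩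
  · have hd : 0 < f.degree := Polynomial.natDegree_pos_iff_degree_pos.mp h
    have h1 := Polynomial.tendsto_norm_atTop f hd (l := Bornology.cobounded ℂ) (z := id)
      (by simpa using tendsto_norm_cobounded_atTop)
    have h2 := h1.eventually (Filter.eventually_ge_atTop (1 / 2 : ℝ))
    obtain ⟨ρ, -, hρ⟩ := (Filter.HasBasis.eventually_iff
      (Metric.hasBasis_cobounded_compl_closedBall (0 : ℂ))).mp h2
    refine ⟨ρ + 1, fun t ht => ?_⟩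
    refine hρ ?_
    simp only [Set.mem_compl_iff, Metric.mem_closedBall, dist_zero_right, not_le]
    linarith

/-- Cauchy-Schwarz -/
private theorem bb_cs {s : ℕ} (a b : Fin s → ℂ) :
    ‖∑ j, a j * b j‖ ^ 2 ≤ (∑ j, ‖a j‖ ^ 2) * ∑ j, ‖b j‖ ^ 2 := by
  have h1 : ‖∑ j, a j * b j‖ ≤ ∑ j, ‖a j‖ * ‖b j‖ := by
    refine (norm_sum_le _ _).trans (le_of_eq ?_)
    exact Finset.sum_congr rfl fun j _ => norm_mul _ _
  calc ‖∑ j, a j * b j‖ ^ 2 ≤ (∑ j, ‖a j‖ * ‖b j‖) ^ 2 :=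
        pow_le_pow_left₀ (norm_nonneg _) h1 2
    _ ≤ _ := Finset.sum_mul_sq_le_sq_mul_sq _ _ _

theorem lower_pow {n s : ℕ} (e : Fin s → MvPolynomial (Fin n) ℂ) (R : ℝ)
    (h : ∀ z : Fin n → ℂ, (∀ j, eval z (e j) = 0) → nn z ≤ R) :
    ∃ (N : ℕ) (c R' : ℝ), 0 < c ∧ ∀ z : Fin n → ℂ, R' ≤ nn z → c ≤ nrm e z * (1 + nn z) ^ N := by
  choose f q hf hq using fun i => bdd_zeros e R h i
  choose ρ hρ using fun i => bb_monic (f i) (hf i)
  choose M N hM H using fun i => bb_nrm (q i)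
  obtain ⟨r, hr0, hr⟩ : ∃ r : ℝ, 0 ≤ r ∧ ∀ i, ρ i ≤ r :=
    ⟨∑ i, |ρ i|, by positivity, fun i => (le_abs_self _).trans
      (Finset.single_le_sum (f := fun i => |ρ i|) (fun _ _ => abs_nonneg _) (Finset.mem_univ i))⟩
  have hM1 : ∀ i, M i ≤ (∑ i, M i) + 1 := fun i => by
    have := Finset.single_le_sum (f := M) (fun i _ => hM i) (Finset.mem_univ i)
    linarith
  have hMp : 0 < (∑ i, M i) + 1 := by
    have : 0 ≤ ∑ i, M i := Finset.sum_nonneg fun i _ => hM i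
    linarith
  refine ⟨∑ i, N i, 1 / 4 / ((∑ i, M i) + 1), n * r ^ 2 + 1, by positivity, fun z hz => ?_⟩
  have h0 := bb_nn0 z
  obtain ⟨i, hi⟩ : ∃ i, r ≤ ‖z i‖ := by
    by_contra hcon
    push Not at hcon
    have : nn z ≤ n * r ^ 2 := by
      unfold nn
      calc ∑ i, ‖z i‖ ^ 2 ≤ ∑ _i : Fin n, r ^ 2 :=
            Finset.sum_le_sum fun i _ => pow_le_pow_left₀ (norm_nonneg _) (hcon i).le 2
        _ = n * r ^ 2 := by simp
    linarith
  have h1 : 1 / 2 ≤ ‖(f i).eval (z i)‖ := hρ i (z i) ((hr i).trans hi)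
  have h2 : ‖(f i).eval (z i)‖ ^ 2 ≤ nrm (q i) z * nrm e z := by
    rw [hq i z]
    exact bb_cs _ _
  have hn : 0 ≤ nrm e z := Finset.sum_nonneg fun _ _ => by positivity
  have h3 : (1 + nn z) ^ N i ≤ (1 + nn z) ^ (∑ i, N i) :=
    pow_le_pow_right₀ (by linarith)
      (Finset.single_le_sum (f := N) (fun _ _ => Nat.zero_le _) (Finset.mem_univ i))
  have h4 : nrm (q i) z ≤ ((∑ i, M i) + 1) * (1 + nn z) ^ (∑ i, N i) :=
    (H i z).trans (mul_le_mul (hM1 i) h3 (by positivity) hMp.le)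
  rw [div_le_iff₀ hMp]
  calc (1 / 4 : ℝ) = (1 / 2) ^ 2 := by norm_num
    _ ≤ ‖(f i).eval (z i)‖ ^ 2 := pow_le_pow_left₀ (by norm_num) h1 2
    _ ≤ nrm (q i) z * nrm e z := h2
    _ ≤ (((∑ i, M i) + 1) * (1 + nn z) ^ (∑ i, N i)) * nrm e z :=
      mul_le_mul_of_nonneg_right h4 hn
    _ = nrm e z * (1 + nn z) ^ (∑ i, N i) * ((∑ i, M i) + 1) := by ring

end Pool.Agent.Work.MP_49847a_an
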