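import Pool.Agent.Work.MP_49847a_an.Cp.Sgn
import Pool.Agent.Work.MP_49847a_an.Cp.Smd

/-!
# Module Bdr: at a boundary point a sign changing factor vanishes

Proof.  Suppose not: every irreducible factor `p` of `F` with `p(x) = 0` is semidefinite (`≥ 0` everywhere or `≤ 0` everywhere).  Let `T` be the finite set
`(UniqueFactorizationMonoid.factors F).toFinset` (or `normalizedFactors`): every zero of `F` is a zero of some `p ∈ T` (`F` is associated
with the product).  There is a convex open neighbourhood `B` of `x` (a ball, or a product of intervals) on which the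
`p ∈ T` with `p(x) ≠ 0` have no zeros (continuity).  Since `x ∈ frontier Ω` there is `y ∈ B ∩ Ω`, and by `hE` there is `z ∈ B ∩ interior Ωᶜ`.  Put `v = z - y`.
For `y'` in an open neighbourhood `U` of `y`: `y' ∈ B ∩ Ω`, `y' + v ∈ B ∩ interior Ωᶜ`; the segment from `y'` to `y' + v` lies in `B` and meets
`frontier Ω` (`IsPreconnected` of the segment; it meets `Ω` and the complement: `isPreconnected_segment`, `IsPreconnected.inter_frontier_nonempty`):
there is `t ∈ [0,1]` with `u = y' + t v ∈ B`, `F(u) = 0`, so `p(u) = 0` for some `p ∈ T`, and `p(x) = 0` since `u ∈ B`.  So `p` is semidefinite;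
with `q_p` from `semidef`, `q_p(u) = 0`, and with `h_p` from `elim_dir p q_p hp _ v`, `h_p(y') = 0`.  So the product of the `h_p` (over
`p ∈ T` with `p(x) = 0`) vanishes on `U`: it is zero (`zero_open`), but all factors are nonzero.  Contradiction.
-/

namespace Pool.Agent.Work.MP_49847a_an

open MvPolynomial

theorem bdr {σ : Type} [Fintype σ] {F : MvPolynomial σ ℝ} (hF : F ≠ 0) {Ω : Set (σ → ℝ)}
    (hΩ : IsOpen Ω) (hX : frontier Ω = {x | eval x F = 0})
    (hE : frontier Ω ⊆ closure (interior Ωᶜ)) {x : σ → ℝ} (hx : eval x F = 0) :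
    ∃ p : MvPolynomial σ ℝ, Irreducible p ∧ p ∣ F ∧ eval x p = 0 ∧ (∃ a, eval a p < 0) ∧
      ∃ b, 0 < eval b p := by
  classical
  by_contra hcon
  have hT : ∃ T : Finset (MvPolynomial σ ℝ), (∀ p ∈ T, Irreducible p) ∧ (∀ p ∈ T, p ∣ F) ∧
      ∀ u, eval u F = 0 → ∃ p ∈ T, eval u p = 0 := by
    refine ⟨(UniqueFactorizationMonoid.factors F).toFinset, ?_, ?_, ?_⟩
    · intro p hp
      exact UniqueFactorizationMonoid.irreducible_of_factor p (Multiset.mem_toFinset.1 hp)
    · intro p hp
      exact UniqueFactorizationMonoid.dvd_of_mem_factors (Multiset.mem_toFinset.1 hp)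
    · intro u hu
      have ha := UniqueFactorizationMonoid.factors_prod hF
      have hd : (UniqueFactorizationMonoid.factors F).prod ∣ F := ha.dvd
      have hd' : F ∣ (UniqueFactorizationMonoid.factors F).prod := ha.symm.dvd
      have h0 : eval u (UniqueFactorizationMonoid.factors F).prod = 0 := by
        obtain ⟨c, hc⟩ := hd'
        rw [hc, map_mul, hu, zero_mul]
      rw [map_multiset_prod, Multiset.prod_eq_zero_iff] at h0
      obtain ⟨p, hp, hp0⟩ := Multiset.mem_map.1 h0
      exact ⟨p, Multiset.mem_toFinset.2 hp, hp0⟩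
  obtain ⟨T, hTi, hTd, hTz⟩ := hT
  have hsd : ∀ p ∈ T, eval x p = 0 → (∀ y, 0 ≤ eval y p) ∨ (∀ y, eval y p ≤ 0) := by
    intro p hp hpx
    by_contra hh
    rw [not_or] at hh
    obtain ⟨h1, h2⟩ := hh
    rw [not_forall] at h1 h2
    obtain ⟨a, ha⟩ := h1
    obtain ⟨b, hb⟩ := h2
    exact hcon ⟨p, hTi p hp, hTd p hp, hpx, ⟨a, not_le.1 ha⟩, ⟨b, not_le.1 hb⟩⟩
  have hev : ∀ᶠ y in nhds x, ∀ p ∈ T, eval x p ≠ 0 → eval y p ≠ 0 := by
    rw [Finset.eventually_all]
    intro p hp
    by_cases h0 : eval x p = 0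
    · exact Filter.Eventually.of_forall fun y hy => absurd h0 hy
    · have hc : Continuous fun y : σ → ℝ => eval y p := p.continuous_eval
      filter_upwards [hc.continuousAt.eventually_ne h0] with y hy _ using hy
  obtain ⟨r, hr, hB⟩ := Metric.eventually_nhds_iff_ball.1 hev
  have hxf : x ∈ frontier Ω := by rw [hX]; exact hx
  have hy : ∃ y, y ∈ Metric.ball x r ∧ y ∈ Ω := by
    have : x ∈ closure Ω := frontier_subset_closure hxf
    obtain ⟨y, hy1, hy2⟩ := mem_closure_iff.1 this (Metric.ball x r) Metric.isOpen_ball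
      (Metric.mem_ball_self hr)
    exact ⟨y, hy1, hy2⟩
  obtain ⟨y, hyB, hyΩ⟩ := hy
  have hz : ∃ z, z ∈ Metric.ball x r ∧ z ∈ interior Ωᶜ := by
    obtain ⟨z, hz1, hz2⟩ := mem_closure_iff.1 (hE hxf) (Metric.ball x r) Metric.isOpen_ball
      (Metric.mem_ball_self hr)
    exact ⟨z, hz1, hz2⟩
  obtain ⟨z, hzB, hzΩ⟩ := hz
  have hh : ∀ p ∈ T, ∃ h : MvPolynomial σ ℝ, h ≠ 0 ∧ (eval x p = 0 →
      ∀ (u : σ → ℝ) (t : ℝ), eval (u + t • (z - y)) p = 0 → eval u h = 0) := by
    intro p hp
    by_cases h0 : eval x p = 0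
    · obtain ⟨q, hq1, hq2⟩ := semidef (hTi p hp) (hsd p hp h0)
      obtain ⟨h, hh1, hh2⟩ := elim_dir p q (hTi p hp) hq1 (z - y)
      exact ⟨h, hh1, fun _ u t hu => hh2 u t hu (hq2 _ hu)⟩
    · exact ⟨1, one_ne_zero, fun h => absurd h h0⟩
  choose! h hh1 hh2 using hh
  have hprod : (∏ p ∈ T, h p) ≠ 0 := Finset.prod_ne_zero_iff.2 hh1
  apply hprod
  have hUo : IsOpen ((Metric.ball x r ∩ Ω) ∩
      (fun u : σ → ℝ => u + (z - y)) ⁻¹' (Metric.ball x r ∩ interior Ωᶜ)) := by
    refine (Metric.isOpen_ball.inter hΩ).inter ?_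
    exact (Metric.isOpen_ball.inter isOpen_interior).preimage (by fun_prop)
  refine zero_open _ hUo ⟨y, ⟨hyB, hyΩ⟩, ?_⟩ ?_
  · have : y + (z - y) = z := by abel
    rw [Set.mem_preimage, this]
    exact ⟨hzB, hzΩ⟩
  · rintro u ⟨⟨huB, huΩ⟩, hu2⟩
    rw [Set.mem_preimage] at hu2
    obtain ⟨hvB, hvΩ⟩ := hu2
    have hseg : IsPreconnected (segment ℝ u (u + (z - y))) :=
      (convex_segment _ _).isPreconnected
    have hne : (segment ℝ u (u + (z - y)) ∩ frontier Ω).Nonempty := by
      by_contra hemp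
      rw [Set.not_nonempty_iff_eq_empty] at hemp
      have h1 := hseg Ω (closure Ω)ᶜ hΩ isClosed_closure.isOpen_compl (by
        intro w hw
        by_cases hwc : w ∈ closure Ω
        · left
          by_contra hwΩ
          have : w ∈ segment ℝ u (u + (z - y)) ∩ frontier Ω := by
            refine ⟨hw, hwc, ?_⟩
            rw [hΩ.interior_eq]; exact hwΩ
          rw [hemp] at this
          exact this
        · right; exact hwc)
        ⟨u, left_mem_segment _ _ _, huΩ⟩
        ⟨u + (z - y), right_mem_segment _ _ _, by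
          rw [← interior_compl]; exact hvΩ⟩
      obtain ⟨w, _, hw1, hw2⟩ := h1
      exact hw2 (subset_closure hw1)
    obtain ⟨w, hw1, hw2⟩ := hne
    have hwB : w ∈ Metric.ball x r :=
      (convex_ball x r).segment_subset huB hvB hw1
    rw [hX] at hw2
    obtain ⟨p, hp, hpw⟩ := hTz w hw2
    have hpx : eval x p = 0 := by
      by_contra hne
      exact hB w hwB p hp hne hpw
    rw [segment_eq_image'] at hw1
    obtain ⟨t, _, ht⟩ := hw1
    have hw' : w = u + t • (z - y) := by
      rw [← ht]; simp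
    rw [map_prod]
    exact Finset.prod_eq_zero hp (hh2 p hp hpx u t (by rw [← hw']; exact hpw))

end Pool.Agent.Work.MP_49847a_an
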