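import Pool.Agent.Work.MP_49847a_an.Cp.GrB

/-!
# Module Dia3: positivity of the second difference near the hull, on the ambient space

Proof.  `Df (Γ₀ + E) Z W = Df F (fs Z) (fs W) + nn (sg p Z - sg p W) ≥ (1/4) nn (fs Z - fs W) + nn (sg p Z - sg p W)`
(`Df_add`; `Df Γ₀ Z W = Df F (fs Z) (fs W)` from `hΓ`, `pol_self`).  `{ev W₁ ≤ 5}` is bounded (`Big_cpt`, `nn_bdd`), so by `tay`
`∑_j ‖p_j(fs Z) - p_j(fs W)‖² ≤ m M nn (fs Z - fs W)` (`nn_sub_comm`), and by `nn_sub_le_sg`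
`nn (Z - W) ≤ (1 + 2 m M) nn (fs Z - fs W) + 2 nn (sg p Z - sg p W)`; `c = 1/(4 (3 + 2 m M))`.
-/

namespace Pool.Agent.Work.MP_49847a_an

open MvPolynomial

variable {n m : ℕ} {p : Fin m → MvPolynomial (Fin n) ℂ}

theorem dia3 {m₁ e₁ : ℕ} {ε₁ : ℝ} {h₁ : Fin m₁ → MvPolynomial (Fin n) ℂ}
    {F W₁ : MvPolynomial (Fin n ⊕ Fin n) ℝ} (hW : Big e₁ ε₁ h₁ W₁)
    (hF : ∀ z w, ev W₁ z ≤ 5 → ev W₁ w ≤ 5 → 1 / 4 * nn (z - w) ≤ Df F z w)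
    {Γ₀ E : MvPolynomial (Fin (n + m) ⊕ Fin (n + m)) ℝ} (hΓ : ∀ Z, ev Γ₀ Z = ev F (fs Z))
    (hΓ' : ∀ Z W, pol Γ₀ Z W = pol F (fs Z) (fs W))
    (hE : ∀ Z W, Df E Z W = nn (sg p Z - sg p W)) :
    ∃ c : ℝ, 0 < c ∧ ∀ Z W, ev W₁ (fs Z) ≤ 5 → ev W₁ (fs W) ≤ 5 →
      c * nn (Z - W) ≤ Df (Γ₀ + E) Z W := by
  obtain ⟨he, hε, -, hev⟩ := hW
  have hbd : ∀ z, ev W₁ z ≤ 5 → nn z ≤ 5 / ε₁ := by
    intro z hz
    rw [hev z] at hz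
    have h1 : 0 ≤ nrm h₁ z := Finset.sum_nonneg fun _ _ => by positivity
    have h2 := nn_nonneg z
    have h3 : 1 + nn z ≤ (1 + nn z) ^ e₁ := le_self_pow₀ (by linarith) he.ne'
    rw [le_div_iff₀ hε]
    nlinarith
  obtain ⟨M, hM, htay⟩ := tay p (5 / ε₁)
  refine ⟨1 / (4 * (3 + 2 * (m * M))), by positivity, ?_⟩
  intro Z W hZ hW'
  have hA := hF (fs Z) (fs W) hZ hW'
  have hS : ∑ j, ‖eval (fs Z) (p j) - eval (fs W) (p j)‖ ^ 2 ≤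
      m * (M * nn (fs (n := n) (m := m) Z - fs W)) := by
    have h1 : ∀ j ∈ (Finset.univ : Finset (Fin m)),
        ‖eval (fs Z) (p j) - eval (fs W) (p j)‖ ^ 2 ≤ M * nn (fs (n := n) (m := m) Z - fs W) :=
      fun j _ => (htay (fs W) (fs Z) (hbd _ hW') (hbd _ hZ) j).2.1
    refine (Finset.sum_le_card_nsmul _ _ _ h1).trans (le_of_eq ?_)
    rw [Finset.card_univ, Fintype.card_fin, nsmul_eq_mul]
  have hN := nn_sub_le_sg p Z W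
  have hD : Df (Γ₀ + E) Z W = Df F (fs Z) (fs W) + nn (sg p Z - sg p W) := by
    rw [Df_add, hE]
    congr 1
    unfold Df
    rw [hΓ, hΓ, hΓ']
  rw [hD]
  have hA0 := nn_nonneg (fs (n := n) (m := m) Z - fs W)
  have hB0 := nn_nonneg (sg p Z - sg p W)
  have hmM : 0 ≤ (m : ℝ) * M := by positivity
  rw [div_mul_eq_mul_div, one_mul, div_le_iff₀ (by positivity)]
  nlinarith [mul_nonneg hmM hA0, mul_nonneg hmM hB0]

end Pool.Agent.Work.MP_49847a_an
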