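import Pool.Agent.Work.MP_49847a_an.Cp.Mix3

/-!
The arguments of module `F3` for a general `Γ` in place of `ρ G`.
-/

namespace Pool.Agent.Work.MP_49847a_an

open MvPolynomial

variable {n m d e : ℕ} {ε r₀ r₁ c : ℝ} {h : Fin m → MvPolynomial (Fin n) ℂ}
  {ρ W Γ : MvPolynomial (Fin n ⊕ Fin n) ℝ}

private theorem f3_pow_sub {A B : MvPolynomial (Fin n ⊕ Fin n) ℝ} {z w : Fin n → ℂ}
    (hA : Ps A z w) (hB : Ps B z w) (hAB : Ps (A - B) z w) (i : ℕ) :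
    Ps (A ^ i - B ^ i) z w := by
  induction i with
  | zero =>
    rw [pow_zero, pow_zero, sub_self, ← C_0]
    exact Ps_C le_rfl z w
  | succ i ih =>
    have e : A ^ (i + 1) - B ^ (i + 1) = (A ^ i - B ^ i) * A + B ^ i * (A - B) := by ring
    rw [e]
    exact Ps_add (Ps_mul ih hA) (Ps_mul (Ps_pow hB i) hAB)

theorem f33 (hA : Adm3 d e ε r₀ r₁ c h ρ W Γ) : ∃ κ₀ : ℕ, ∀ κ, κ₀ ≤ κ → ∃ c' : ℝ, 0 < c' ∧
    ∀ z w, 4 ≤ ev W z → 4 ≤ ev W w →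
      Ps ((Γ + ρ * W ^ κ) - C c' * WW n 1 ^ (d + e * κ)) z w := by
  obtain ⟨κ₂, ε₂, hε₂, hee⟩ := ee3 hA
  obtain ⟨M, hM⟩ := Dg_exists Γ
  obtain ⟨C₇, hC₇, hdom⟩ := dom hM
  have hε : 0 < ε := hA.hW.2.1
  have he : 0 < e := hA.hW.1
  obtain ⟨κ₁, hκ₁⟩ := pow2 (n := n) hε (2 * C₇ / (ε₂ * ε ^ M))
  refine ⟨κ₂ + M + κ₁, fun κ hκ => ⟨ε₂ / 2 * ε ^ (κ - κ₂), by positivity, fun z w hz hw => ?_⟩⟩
  have hρ : ∀ x : Fin n → ℂ, 4 ≤ ev W x → r₀ ≤ ev ρ x := by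
    intro x hx
    by_contra hcon
    have := hA.sub x (not_le.mp hcon)
    linarith
  have hPW := Big_Ps hA.hW z w
  have hPu : Ps (WW n 1) z w := Ps_WW zero_le_one z w
  have hPB : Ps (C ε * WW n 1 ^ e) z w := Ps_mul (Ps_C hε.le z w) (Ps_pow hPu e)
  have hPWB := Big_Ps_sub hA.hW z w
  have p1 := (hdom z w).2
  have p2 := hee κ (by omega) z w (hρ z hz) (hρ w hw)
  obtain ⟨κ', hκ'⟩ : ∃ κ', κ = κ₂ + (M + κ') := ⟨κ - κ₂ - M, by omega⟩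
  have hsub : κ - κ₂ = M + κ' := by omega
  rw [hsub] at p2 ⊢
  have a1 : Ps (W ^ κ' - C (2 * C₇ / (ε₂ * ε ^ M))) z w :=
    hκ₁ κ' (by omega) W z w (Big_Ps_eps hA.hW z w) hz hw
  have a2 := f3_pow_sub hPW hPB hPWB M
  have a3 := f3_pow_sub hPW hPB hPWB (M + κ')
  have a4 : Ps (WW n 1 ^ (d + e * κ₂ + e * M) - WW n 1 ^ M) z w :=
    Ps_WW_pow_sub (by nlinarith [Nat.le_mul_of_pos_left M he]) z w
  have q3 : Ps (C (ε₂ / 2) * WW n 1 ^ (d + e * κ₂) *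
      ((W ^ M - (C ε * WW n 1 ^ e) ^ M) * W ^ κ' +
        (C ε * WW n 1 ^ e) ^ M * (W ^ κ' - C (2 * C₇ / (ε₂ * ε ^ M)))) +
      C C₇ * (WW n 1 ^ (d + e * κ₂ + e * M) - WW n 1 ^ M)) z w :=
    Ps_add (Ps_mul (Ps_mul (Ps_C (by positivity) z w) (Ps_pow hPu _))
      (Ps_add (Ps_mul a2 (Ps_pow hPW _)) (Ps_mul (Ps_pow hPB M) a1)))
      (Ps_mul (Ps_C hC₇ z w) a4)
  have q4 : Ps (C (ε₂ / 2) * WW n 1 ^ (d + e * κ₂) *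
      (W ^ (M + κ') - (C ε * WW n 1 ^ e) ^ (M + κ'))) z w :=
    Ps_mul (Ps_mul (Ps_C (by positivity) z w) (Ps_pow hPu _)) a3
  have hC : (C (ε₂ / 2) * C (ε ^ M) * C (2 * C₇ / (ε₂ * ε ^ M)) :
      MvPolynomial (Fin n ⊕ Fin n) ℝ) = C C₇ := by
    rw [← C_mul, ← C_mul]
    congr 1
    field_simp
  have hC2 : (C ε₂ : MvPolynomial (Fin n ⊕ Fin n) ℝ) = 2 * C (ε₂ / 2) := by
    have : (2 : MvPolynomial (Fin n ⊕ Fin n) ℝ) = C 2 := (map_ofNat C 2).symm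
    rw [this, ← C_mul]
    congr 1
    ring
  have key : (Γ + ρ * W ^ κ) - C (ε₂ / 2 * ε ^ (M + κ')) * WW n 1 ^ (d + e * κ) =
      (C C₇ * WW n 1 ^ M + Γ) +
      (ρ * W ^ κ - C ε₂ * WW n 1 ^ (d + e * κ₂) * W ^ (M + κ')) +
      (C (ε₂ / 2) * WW n 1 ^ (d + e * κ₂) *
      ((W ^ M - (C ε * WW n 1 ^ e) ^ M) * W ^ κ' +
        (C ε * WW n 1 ^ e) ^ M * (W ^ κ' - C (2 * C₇ / (ε₂ * ε ^ M)))) +
      C C₇ * (WW n 1 ^ (d + e * κ₂ + e * M) - WW n 1 ^ M)) +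
      (C (ε₂ / 2) * WW n 1 ^ (d + e * κ₂) *
      (W ^ (M + κ') - (C ε * WW n 1 ^ e) ^ (M + κ'))) := by
    have e1 : (C ε * WW n 1 ^ e) ^ M = C (ε ^ M) * WW n 1 ^ (e * M) := by
      rw [mul_pow, C_pow, pow_mul]
    have e2 : (C ε * WW n 1 ^ e) ^ (M + κ') = C (ε ^ (M + κ')) * WW n 1 ^ (e * (M + κ')) := by
      rw [mul_pow, C_pow, pow_mul]
    have e3 : WW n 1 ^ (d + e * κ) = WW n 1 ^ (d + e * κ₂) * WW n 1 ^ (e * (M + κ')) := by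
      rw [← pow_add]
      congr 1
      rw [hκ']
      ring
    have e4 : W ^ (M + κ') = W ^ M * W ^ κ' := pow_add _ _ _
    rw [e2, e3, e1, hC2, C_mul, e4, ← hC, pow_add (WW n 1) (d + e * κ₂) (e * M)]
    ring
  rw [key]
  exact Ps_add (Ps_add (Ps_add p1 p2) q3) q4

end Pool.Agent.Work.MP_49847a_an
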