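import Pool.Agent.Work.MP_49847a_an.Cp.F13
import Pool.Agent.Work.MP_49847a_an.Cp.F23
import Pool.Agent.Work.MP_49847a_an.Cp.F33

/-!
The arguments of module `Mrg` for a general `Γ` in place of `ρ G`.
-/

namespace Pool.Agent.Work.MP_49847a_an

open MvPolynomial

variable {n m d e : ℕ} {ε r₀ r₁ c : ℝ} {h : Fin m → MvPolynomial (Fin n) ℂ}
  {ρ W Γ : MvPolynomial (Fin n ⊕ Fin n) ℝ}

theorem merge3 (hA : Adm3 d e ε r₀ r₁ c h ρ W Γ) :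
    ∃ (κ k : ℕ) (C₀ c' : ℝ), 0 < k ∧ 0 < C₀ ∧ 0 < c' ∧ Dg k (C C₀ + (Γ + ρ * W ^ κ)) ∧
      (∀ z, c' * (1 + nn z) ^ k ≤ ev (C C₀ + (Γ + ρ * W ^ κ)) z) ∧
      ∀ z w, c' * ((1 + nn z) ^ (k - 1) * (1 + nn w) ^ (k - 1) * fu z w) ≤
        Ff (C C₀ + (Γ + ρ * W ^ κ)) z w := by
  obtain ⟨R, R₂, hR, hRR, h5, h25⟩ := radii hA.hW
  obtain ⟨c₁, hc₁, κ₁, hf1⟩ := f13 hA R₂
  obtain ⟨κ₂, hf2⟩ := f23 hA h25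
  obtain ⟨κ₃, hf3⟩ := f33 hA
  obtain ⟨M, hM⟩ := Dg_exists Γ
  obtain ⟨κ, hκ1, hκ2, hκ3, hκ4⟩ : ∃ κ : ℕ, κ₁ ≤ κ ∧ κ₂ ≤ κ ∧ κ₃ ≤ κ ∧ M ≤ κ :=
    ⟨κ₁ + κ₂ + κ₃ + M, by omega, by omega, by omega, by omega⟩
  have he : 0 < e := hA.hW.1
  have hMe : M ≤ d + e * κ := by
    have : 1 * κ ≤ e * κ := Nat.mul_le_mul_right κ he
    omega
  have hk : 0 < d + e * κ := Nat.add_pos_left hA.hd _
  have hDg : Dg (d + e * κ) ((Γ + ρ * W ^ κ)) := by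
    refine Dg_add (Dg_mono hM hMe) ?_
    have h1 := Dg_mul hA.hρ (Dg_pow (Big_dg hA.hW) κ)
    rwa [mul_comm κ e] at h1
  obtain ⟨c₃, hc₃, hq3⟩ := hf3 κ hκ3
  have h3 : ∀ z w, R ≤ nn z → R ≤ nn w →
      Ps ((Γ + ρ * W ^ κ) - C c₃ * WW n 1 ^ (d + e * κ)) z w := fun z w hz hw =>
    hq3 z w (by have := h5 z hz; linarith) (by have := h5 w hw; linarith)
  have h3' : ∀ w, R₂ ≤ nn w → c₃ * (1 + nn w) ^ (d + e * κ) ≤ ev ((Γ + ρ * W ^ κ)) w := by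
    intro w hw
    have h1 := (h3 w w (hRR.trans hw) (hRR.trans hw)).1
    rw [ev_sub, ev_mul (C c₃), ev_C, ev_pow, ev_WW] at h1
    linarith
  obtain ⟨c₂, hc₂, h2⟩ := farq hk hDg hc₃ h3' (hf2 κ hκ2)
  obtain ⟨C₀, c', hC₀, hc', hlow, hff⟩ := addq hk hDg hR hRR hc₁ hc₂ hc₃ (hf1 κ hκ1) h2 h3
  exact ⟨κ, d + e * κ, C₀, c', hk, hC₀, hc',
    Dg_add (Dg_mono (Dg_C C₀) (Nat.zero_le _)) hDg, hlow, hff⟩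

end Pool.Agent.Work.MP_49847a_an
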