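import Pool.Agent.Work.MP_49847a_an.Cp.GrA

/-!
# Module Sub3: making the sublevel set small

Proof.  `T = {Z : ev ρ₁ Z ≤ 1, 1/4 ≤ ev W Z}` is compact (closed; bounded: `ev ρ₁ Z ≥ δ₁ nn Z^d > 1` for `nn Z` large,
`0 < d`).  On `T ∩ {ev E = 0}`: `sg p Z = 0` (`nn_eq_zero`), `Z = gr p (fs Z)` (`gr_of_sg`), so `ev ρ₁ Z > 0` (`hpos`).  This set is
compact, so `ev ρ₁ ≥ 2 r₀` there for some `0 < r₀ ≤ 1/2` (`r₀ = 1/2` if it is empty).  There is `M ≥ 0` with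
`ev ρ₁ + M ev E ≥ r₀` on `T`: otherwise there are `Z_M ∈ T`, `M ∈ ℕ`, with `ev ρ₁ (Z_M) + M ev E (Z_M) < r₀`, so
`ev E (Z_M) ≤ (r₀ + K)/M → 0` (`K` a bound of `|ev ρ₁|` on `T`), and a limit point `Z ∈ T` has `ev E Z = 0` and
`ev ρ₁ Z ≤ r₀`, contradiction (or: the open sets `{ev ρ₁ + M ev E > r₀}`, increasing in `M` since `ev E ≥ 0`, cover `T`).
(sub) if `ev ρ₁ Z + M ev E Z < r₀` then `ev ρ₁ Z < r₀ ≤ 1`, and `1/4 ≤ ev W Z` would give `Z ∈ T`.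
(lo) `r₁`: for `nn Z ≥ max R₁ 1`: `ev ρ₁ Z ≥ δ₁ nn Z^d ≥ δ₁/2^d (1 + nn Z)^d`; otherwise
`r₀ ≥ r₀/(1 + max R₁ 1)^d (1 + nn Z)^d`.
-/

namespace Pool.Agent.Work.MP_49847a_an

open MvPolynomial

variable {n m : ℕ} {p : Fin m → MvPolynomial (Fin n) ℂ}

theorem sub3 {d : ℕ} (hd : 0 < d) {ρ₁ E W : MvPolynomial (Fin (n + m) ⊕ Fin (n + m)) ℝ}
    {δ₁ R₁ : ℝ} (hδ : 0 < δ₁) (hlead : ∀ Z, R₁ ≤ nn Z → δ₁ * nn Z ^ d ≤ ev ρ₁ Z)
    (hE : ∀ Z, ev E Z = nn (sg p Z))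
    (hpos : ∀ z, 1 / 4 ≤ ev W (gr p z) → 0 < ev ρ₁ (gr p z)) :
    ∃ M r₀ r₁ : ℝ, 0 ≤ M ∧ 0 < r₀ ∧ 0 < r₁ ∧
      (∀ Z, ev (ρ₁ + C M * E) Z < r₀ → ev W Z < 1 / 4) ∧
      ∀ Z, r₀ ≤ ev (ρ₁ + C M * E) Z → r₁ * (1 + nn Z) ^ d ≤ ev (ρ₁ + C M * E) Z := by
  have hE0 : ∀ Z, 0 ≤ ev E Z := fun Z => by
    rw [hE]
    exact nn_nonneg _
  have hev : ∀ (M : ℝ) (Z : Fin (n + m) → ℂ), ev (ρ₁ + C M * E) Z = ev ρ₁ Z + M * ev E Z := by
    intro M Z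
    rw [ev_add, ev_mul, ev_C]
  set T : Set (Fin (n + m) → ℂ) := {Z | ev ρ₁ Z ≤ 1 ∧ 1 / 4 ≤ ev W Z} with hT
  have hTc : IsCompact T := by
    set R : ℝ := max (max R₁ 1) (2 / δ₁) with hR
    have hsub : T ⊆ {Z : Fin (n + m) → ℂ | nn Z ≤ R} := by
      intro Z hZ
      by_contra hcon
      have hlt : R < nn Z := not_le.1 hcon
      have h1 : R₁ ≤ nn Z := le_trans (le_trans (le_max_left _ _) (le_max_left _ _)) hlt.le
      have h2 : 1 ≤ nn Z := le_trans (le_trans (le_max_right R₁ 1) (le_max_left _ _)) hlt.le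
      have h3 : 2 / δ₁ < nn Z := lt_of_le_of_lt (le_max_right _ _) hlt
      have h4 : nn Z ≤ nn Z ^ d := le_self_pow₀ h2 (by omega)
      have h5 := hlead Z h1
      have h6 : 2 < δ₁ * nn Z := by
        rw [div_lt_iff₀ hδ] at h3
        linarith
      have h7 : δ₁ * nn Z ≤ δ₁ * nn Z ^ d := mul_le_mul_of_nonneg_left h4 hδ.le
      have h8 := hZ.1
      linarith
    have hcl : IsClosed T := by
      have h1 : IsClosed {Z : Fin (n + m) → ℂ | ev ρ₁ Z ≤ 1} :=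
        isClosed_le (ev_continuous ρ₁) continuous_const
      have h2 : IsClosed {Z : Fin (n + m) → ℂ | 1 / 4 ≤ ev W Z} :=
        isClosed_le continuous_const (ev_continuous W)
      exact h1.inter h2
    exact (nn_cpt R).of_isClosed_subset hcl hsub
  have hpos' : ∀ Z ∈ T, ev E Z = 0 → 0 < ev ρ₁ Z := by
    intro Z hZ h0
    rw [hE] at h0
    have h1 := gr_of_sg (nn_eq_zero.1 h0)
    have h2 := hpos (fs Z)
    rw [h1] at h2
    exact h2 hZ.2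
  obtain ⟨r₀, hr0, hr1, hr2⟩ : ∃ r₀ : ℝ, 0 < r₀ ∧ r₀ ≤ 1 / 2 ∧
      ∀ Z ∈ T, ev E Z = 0 → 2 * r₀ ≤ ev ρ₁ Z := by
    have hT0 : IsCompact (T ∩ {Z | ev E Z = 0}) :=
      hTc.inter_right (isClosed_eq (ev_continuous E) continuous_const)
    rcases Set.eq_empty_or_nonempty (T ∩ {Z | ev E Z = 0}) with he | hne
    · refine ⟨1 / 2, by norm_num, le_rfl, fun Z hZ h0 => ?_⟩
      have : Z ∈ T ∩ {Z | ev E Z = 0} := ⟨hZ, h0⟩
      rw [he] at this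
      exact this.elim
    · obtain ⟨Z₀, hZ₀, hmin⟩ := hT0.exists_isMinOn hne (ev_continuous ρ₁).continuousOn
      have h1 := hpos' Z₀ hZ₀.1 hZ₀.2
      refine ⟨min (1 / 2) (ev ρ₁ Z₀ / 2), lt_min (by norm_num) (by linarith), min_le_left _ _,
        fun Z hZ h0 => ?_⟩
      have h2 : ev ρ₁ Z₀ ≤ ev ρ₁ Z := hmin ⟨hZ, h0⟩
      have h3 := min_le_right (1 / 2) (ev ρ₁ Z₀ / 2)
      linarith
  obtain ⟨M, hM⟩ : ∃ M : ℕ, T ⊆ {Z | r₀ < ev ρ₁ Z + (M : ℝ) * ev E Z} := by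
    refine hTc.elim_directed_cover (fun M : ℕ => {Z | r₀ < ev ρ₁ Z + (M : ℝ) * ev E Z}) ?_ ?_ ?_
    · intro M
      exact isOpen_lt continuous_const
        ((ev_continuous ρ₁).add (continuous_const.mul (ev_continuous E)))
    · intro Z hZ
      rw [Set.mem_iUnion]
      rcases (hE0 Z).eq_or_lt with h0 | h0
      · refine ⟨0, ?_⟩
        have h1 := hr2 Z hZ h0.symm
        change r₀ < ev ρ₁ Z + ((0 : ℕ) : ℝ) * ev E Z
        rw [Nat.cast_zero, zero_mul, add_zero]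
        linarith
      · obtain ⟨N, hN⟩ := exists_nat_gt ((r₀ - ev ρ₁ Z) / ev E Z)
        refine ⟨N, ?_⟩
        rw [div_lt_iff₀ h0] at hN
        change r₀ < ev ρ₁ Z + (N : ℝ) * ev E Z
        linarith
    · refine directed_of_isDirected_le fun M N hMN Z hZ => ?_
      have h1 : (M : ℝ) * ev E Z ≤ (N : ℝ) * ev E Z :=
        mul_le_mul_of_nonneg_right (by exact_mod_cast hMN) (hE0 Z)
      have h2 : r₀ < ev ρ₁ Z + (M : ℝ) * ev E Z := hZ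
      change r₀ < ev ρ₁ Z + (N : ℝ) * ev E Z
      linarith
  have hME : ∀ Z, 0 ≤ (M : ℝ) * ev E Z := fun Z => mul_nonneg (Nat.cast_nonneg M) (hE0 Z)
  set R' : ℝ := max R₁ 1 with hR'
  have hR1 : 1 ≤ R' := le_max_right _ _
  have hRp : 0 < (1 + R') ^ d := pow_pos (by linarith) d
  refine ⟨M, r₀, min (δ₁ / 2 ^ d) (r₀ / (1 + R') ^ d), Nat.cast_nonneg M, hr0,
    lt_min (by positivity) (by positivity), ?_, ?_⟩
  · intro Z hZ
    rw [hev] at hZ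
    by_contra hcon
    have h1 : Z ∈ T := ⟨by have := hME Z; linarith, not_lt.1 hcon⟩
    have h2 : r₀ < ev ρ₁ Z + (M : ℝ) * ev E Z := hM h1
    linarith
  · intro Z hZ
    rw [hev] at hZ ⊢
    have hnn := nn_nonneg Z
    have hpow : 0 ≤ (1 + nn Z) ^ d := by positivity
    rcases le_total R' (nn Z) with h | h
    · have h1 := hlead Z (le_trans (le_max_left _ _) h)
      have h2 : (1 + nn Z) ^ d ≤ 2 ^ d * nn Z ^ d := by
        rw [← mul_pow]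
        exact pow_le_pow_left₀ (by linarith) (by linarith) d
      have h3 : min (δ₁ / 2 ^ d) (r₀ / (1 + R') ^ d) * (1 + nn Z) ^ d ≤
          δ₁ / 2 ^ d * (1 + nn Z) ^ d := mul_le_mul_of_nonneg_right (min_le_left _ _) hpow
      have h4 : δ₁ / 2 ^ d * (1 + nn Z) ^ d ≤ δ₁ / 2 ^ d * (2 ^ d * nn Z ^ d) :=
        mul_le_mul_of_nonneg_left h2 (by positivity)
      have h5 : δ₁ / 2 ^ d * (2 ^ d * nn Z ^ d) = δ₁ * nn Z ^ d := by
        field_simp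
      have h6 := hME Z
      linarith
    · have h2 : (1 + nn Z) ^ d ≤ (1 + R') ^ d :=
        pow_le_pow_left₀ (by linarith) (by linarith) d
      have h3 : min (δ₁ / 2 ^ d) (r₀ / (1 + R') ^ d) * (1 + nn Z) ^ d ≤
          r₀ / (1 + R') ^ d * (1 + nn Z) ^ d :=
        mul_le_mul_of_nonneg_right (min_le_right _ _) hpow
      have h4 : r₀ / (1 + R') ^ d * (1 + nn Z) ^ d ≤ r₀ / (1 + R') ^ d * (1 + R') ^ d :=
        mul_le_mul_of_nonneg_left h2 (by positivity)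
      have h5 : r₀ / (1 + R') ^ d * (1 + R') ^ d = r₀ := div_mul_cancel₀ _ hRp.ne'
      linarith

end Pool.Agent.Work.MP_49847a_an
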