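import Pool.Agent.Work.MP_49847a_an.Cp.GrH
import Pool.Agent.Work.MP_49847a_an.Cp.Amb2
import Pool.Agent.Work.MP_49847a_an.Cp.Amb3
import Pool.Agent.Work.MP_49847a_an.Cp.Sub3
import Pool.Agent.Work.MP_49847a_an.Cp.Dia3
import Pool.Agent.Work.MP_49847a_an.Cp.Mrg3
import Pool.Agent.Work.MP_49847a_an.Cp.Hull3

/-!
# Module Blk3: the data of the merging argument exist (assembly)

Proof.  `hX = X2_compact3 hP`; `ρ` with `ev ρ = r2 P Q` (`exists_r2`).  As in `blkA` (module `Sg/BlkA`): `a1 hX hS hl hI` gives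
`A, η, U`; `wex` gives `m₁, e₁, ε₁, h₁, W₁` (`W₁ < 1/4` on the hull, `> 6` outside `U`); `apx` gives `G` with
`Df (ρ G) z w ≥ 1/4 nn (z - w)` on `{ev W₁ ≤ 5}`.
`amb2 hInf` gives `m, p, d, ρ', G', δ, R₀`; `dev p` gives `E, D`; `amb3` with `D₁ = D + 1` gives `d₁ ≥ D + 1 > 0, ρ₁, G₁, δ₁, R₁`.
`K = gr p '' hull (X2 P Q)` is compact and polynomially convex (`gr_compact`, `gr_hull`, `hull_compact`, `hull_hull`); the set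
`O = {Z : ev W₁ (fs Z) < 5}` is open (`fs_continuous`) and contains `K` (`fs_gr`); `wex` on `ℂ^(n+m)` gives
`m₂, e₂, ε₂, h₂, W₂` with `W₂ < 1/4` on `K`, `W₂ > 6` outside `O`.
`sub3` for `ρ₁, E, W₂`: if `1/4 ≤ ev W₂ (gr p z)` then `z` is not in the hull, so `r2 P Q z > 0` (`le_hull3`), `ev G₁ z > 0`.
`lift_real (ρ * G)` gives `Γ₀`; `dia3` gives `c`.
`Adm3 d₁ e₂ ε₂ r₀ r₁ c h₂ (ρ₁ + C M * E) W₂ (Γ₀ + E)`: `dia` since `ev W₂ Z ≤ 5` gives `Z ∈ O`; `hρ`: `Dg_add`, `Dg_mul`, `Dg_C`,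
`Dg_mono`.  Values on the graph: `ev E (gr p z) = nn (sg p (gr p z)) = 0` (`sg_gr`).
-/

namespace Pool.Agent.Work.MP_49847a_an

open MvPolynomial

variable {n k l : ℕ} {P : Fin k → MvPolynomial (Fin n) ℂ} {Q : Fin l → MvPolynomial (Fin n) ℂ}

theorem blk3 (hn : n ≠ 0) (hP : Pos2 P Q) (hS : Sep2 P Q) (hl : Levi2 P Q) (hI : Inn2 P Q)
    (hInf : Inf2 P Q) :
    ∃ (m : ℕ) (p : Fin m → MvPolynomial (Fin n) ℂ) (m₂ d e : ℕ) (ε r₀ r₁ c : ℝ)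
      (h : Fin m₂ → MvPolynomial (Fin (n + m)) ℂ)
      (ρ W Γ : MvPolynomial (Fin (n + m) ⊕ Fin (n + m)) ℝ)
      (G G₁ : MvPolynomial (Fin n ⊕ Fin n) ℝ), Adm3 d e ε r₀ r₁ c h ρ W Γ ∧
      (∀ z, ev Γ (gr p z) = r2 P Q z * ev G z) ∧ ∀ z, ev ρ (gr p z) = r2 P Q z * ev G₁ z := by
  obtain ⟨ρb, hρb⟩ := exists_r2 P Q
  have hX := X2_compact3 hP
  obtain ⟨A, η, hη, U, hU, hKU, h1⟩ := a1 hX hS hl hI
  obtain ⟨m₁, e₁, ε₁, h₁, W₁, hW₁, hW₁K, hW₁U⟩ := wex (hull_compact hX) (hull_hull _) hU hKU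
  have h6 : ∀ z, ev W₁ z ≤ 6 → z ∈ U := fun z hz => by
    by_contra hzU
    exact absurd (hW₁U z hzU) (not_lt.2 hz)
  obtain ⟨G, hG⟩ := apx hW₁ hρb (fun z w hz hw => h1 z (h6 z hz) w (h6 w hw))
  obtain ⟨m, p, d, ρ', G', δ, R₀, hd, hρ', hδ, hlead, hG'⟩ := amb2 hInf
  obtain ⟨E, D, hDE, hE1, hE2⟩ := dev p
  obtain ⟨d₁, ρ₁, G₁, δ₁, R₁, hDd, hρ₁, hδ₁, hlead₁, hG₁, hpos⟩ :=
    amb3 hP hd hρ' hδ hlead hG' (D + 1)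
  have hd₁ : 0 < d₁ := lt_of_lt_of_le (Nat.succ_pos D) hDd
  have hO : IsOpen {Z : Fin (n + m) → ℂ | ev W₁ (fs Z) < 5} :=
    isOpen_lt ((ev_continuous W₁).comp fs_continuous) continuous_const
  have hKO : gr p '' hull (X2 P Q) ⊆ {Z : Fin (n + m) → ℂ | ev W₁ (fs Z) < 5} := by
    rintro _ ⟨z, hz, rfl⟩
    show ev W₁ (fs (gr p z)) < 5
    rw [fs_gr]
    have := hW₁K z hz
    linarith
  obtain ⟨m₂, e₂, ε₂, h₂, W₂, hW₂, hW₂K, hW₂O⟩ :=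
    wex (gr_compact p (hull_compact hX)) (gr_hull p (hull_hull _)) hO hKO
  have hposW : ∀ z, 1 / 4 ≤ ev W₂ (gr p z) → 0 < ev ρ₁ (gr p z) := by
    intro z hz
    have hzn : z ∉ hull (X2 P Q) := fun hzh =>
      absurd (hW₂K _ (Set.mem_image_of_mem _ hzh)) (not_lt.2 hz)
    have hr : 0 < r2 P Q z := by
      by_contra hcon
      exact hzn (le_hull3 hn hP (not_lt.1 hcon))
    rw [hG₁]
    exact mul_pos hr (hpos z)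
  obtain ⟨M, r₀, r₁, hM, hr₀, hr₁, hsub, hlo⟩ := sub3 hd₁ hδ₁ hlead₁ hE1 hposW
  obtain ⟨Γ₀, hΓ1, hΓ2, -⟩ := lift_real m (ρb * G)
  obtain ⟨c, hc, hdia⟩ := dia3 hW₁ hG hΓ1 hΓ2 hE2
  have hE0 : ∀ z, ev E (gr p z) = 0 := by
    intro z
    rw [hE1, sg_gr]
    simp [nn]
  have hW5 : ∀ Z, ev W₂ Z ≤ 5 → ev W₁ (fs Z) ≤ 5 := by
    intro Z hZ
    by_contra hcon
    have h7 := hW₂O Z (fun hmem => hcon (le_of_lt hmem))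
    linarith
  refine ⟨m, p, m₂, d₁, e₂, ε₂, r₀, r₁, c, h₂, ρ₁ + C M * E, W₂, Γ₀ + E, G, G₁,
    ⟨hd₁, ?_, hW₂, hr₀, hr₁, hc, hlo, hsub, fun Z W hZ hW => hdia Z W (hW5 Z hZ) (hW5 W hW)⟩,
    fun z => ?_, fun z => ?_⟩
  · refine Dg_add hρ₁ (Dg_mono (Dg_mul (Dg_C M) hDE) ?_)
    omega
  · rw [ev_add, hΓ1, fs_gr, ev_mul, hρb, hE0, add_zero]
  · rw [ev_add, ev_mul, hE0, mul_zero, add_zero, hG₁]

end Pool.Agent.Work.MP_49847a_an
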