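import Mathlib

/-!
# Module Chev: points of a finitely generated algebra over points of a subalgebra

Proof.  `B` is of finite presentation over `A` (`A` is Noetherian, `B` of finite type over `A`;
`RingHom.FinitePresentation.of_finiteType`, `RingHom.FiniteType.of_comp_finiteType`), so by Chevalley's theorem
(`PrimeSpectrum.isConstructible_range_comap`) the image of `Spec B → Spec A` is constructible, i.e. a finite union of sets
`V(g_1, …, g_r) \ V(f)` (`PrimeSpectrum.exists_constructibleSetData_iff`).  The zero ideal of `A` is in the image (`ι` is injective,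
`B` a domain: `comap` of the zero ideal), so for one of these sets all `g_i = 0` and `f ≠ 0`: every prime ideal which does not contain
`h = f` is in the image.
Let `x : A → ℂ`, `x h ≠ 0`.  `ker x` is a maximal ideal which does not contain `h`, so it is the contraction of a prime ideal
of `B`; this prime is contained in a maximal ideal `n` of `B`, whose contraction is `ker x` by maximality.  `B / n` is a field, of
finite type over `ℂ`, so it is finite over `ℂ` (Zariski's lemma, `finite_of_finite_type_of_isJacobsonRing`) and equal to `ℂ`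
(`IsAlgClosed.algebraMap_bijective_of_isIntegral`).  The resulting `y : B → B / n ≃ ℂ` restricts to a homomorphism
`A → ℂ` with the kernel `ker x`; both are `ℂ`-algebra homomorphisms with the same kernel, so they are equal
(`a - x(a) ∈ ker`).
-/

namespace Pool.Agent.Work.MP_49847a_an

theorem chev {A B : Type} [CommRing A] [IsDomain A] [Algebra ℂ A] [Algebra.FiniteType ℂ A]
    [CommRing B] [IsDomain B] [Algebra ℂ B] [Algebra.FiniteType ℂ B] (ι : A →ₐ[ℂ] B)
    (hι : Function.Injective ι) :
    ∃ h : A, h ≠ 0 ∧ ∀ x : A →ₐ[ℂ] ℂ, x h ≠ 0 → ∃ y : B →ₐ[ℂ] ℂ, y.comp ι = x := by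
  classical
  have hN : IsNoetherianRing A := Algebra.FiniteType.isNoetherianRing ℂ A
  have hft : (ι : A →+* B).FiniteType := by
    have h : ((ι : A →+* B).comp (algebraMap ℂ A)).FiniteType := by
      rw [AlgHom.comp_algebraMap]
      exact RingHom.finiteType_algebraMap.2 inferInstance
    exact RingHom.FiniteType.of_comp_finiteType h
  have hfp : (ι : A →+* B).FinitePresentation := RingHom.FinitePresentation.of_finiteType.1 hft
  obtain ⟨S, hS⟩ := PrimeSpectrum.exists_constructibleSetData_iff.2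
    (PrimeSpectrum.isConstructible_range_comap hfp)
  have h0 : (⟨⊥, Ideal.isPrime_bot⟩ : PrimeSpectrum A) ∈
      Set.range (PrimeSpectrum.comap (ι : A →+* B)) := by
    refine ⟨⟨⊥, Ideal.isPrime_bot⟩, ?_⟩
    apply PrimeSpectrum.ext
    ext a
    change ι a ∈ (⊥ : Ideal B) ↔ a ∈ (⊥ : Ideal A)
    rw [Ideal.mem_bot, Ideal.mem_bot, map_eq_zero_iff ι hι]
  rw [← hS] at h0
  obtain ⟨C, hC, hC0⟩ := Set.mem_iUnion₂.1 h0
  have hg : ∀ i, C.g i = 0 := by
    intro i
    have h1 := hC0.1 ⟨i, rfl⟩
    exact (Ideal.mem_bot).1 h1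
  have hf : C.f ≠ 0 := by
    intro hf
    apply hC0.2
    intro a ha
    rw [Set.mem_singleton_iff.1 ha, hf]
    exact Ideal.zero_mem _
  refine ⟨C.f, hf, fun x hx => ?_⟩
  have hxs : Function.Surjective x := fun c => ⟨algebraMap ℂ A c, by simp⟩
  have hmax : (RingHom.ker x).IsMaximal := RingHom.ker_isMaximal_of_surjective x hxs
  have hmem : (⟨RingHom.ker x, hmax.isPrime⟩ : PrimeSpectrum A) ∈
      Set.range (PrimeSpectrum.comap (ι : A →+* B)) := by
    rw [← hS]
    refine Set.mem_iUnion₂.2 ⟨C, hC, ?_, ?_⟩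
    · rintro _ ⟨i, rfl⟩
      rw [hg i]
      exact Ideal.zero_mem _
    · intro h
      have h2 := h (Set.mem_singleton _)
      exact hx ((RingHom.mem_ker).1 h2)
  obtain ⟨q, hq⟩ := hmem
  obtain ⟨n, hn, hqn⟩ := Ideal.exists_le_maximal q.asIdeal q.isPrime.ne_top
  have hcomap : RingHom.ker x = n.comap (ι : A →+* B) := by
    apply hmax.eq_of_le
    · intro h
      rw [Ideal.eq_top_iff_one, Ideal.mem_comap, map_one] at h
      exact hn.ne_top ((Ideal.eq_top_iff_one _).2 h)
    · intro a ha
      have h1 : a ∈ (PrimeSpectrum.comap (ι : A →+* B) q).asIdeal := by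
        rw [hq]
        exact ha
      exact hqn h1
  let _ := Ideal.Quotient.field n
  have hfin : Module.Finite ℂ (B ⧸ n) := finite_of_finite_type_of_isJacobsonRing ℂ (B ⧸ n)
  have hbij := IsAlgClosed.algebraMap_bijective_of_isIntegral (k := ℂ) (K := B ⧸ n)
  let e : ℂ ≃ₐ[ℂ] (B ⧸ n) := AlgEquiv.ofBijective (Algebra.ofId ℂ (B ⧸ n)) hbij
  let y : B →ₐ[ℂ] ℂ := (e.symm : (B ⧸ n) →ₐ[ℂ] ℂ).comp (Ideal.Quotient.mkₐ ℂ n)
  refine ⟨y, ?_⟩
  apply AlgHom.ext
  intro a
  have h1 : a - algebraMap ℂ A (x a) ∈ RingHom.ker x := by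
    rw [RingHom.mem_ker, map_sub, AlgHom.commutes, Algebra.algebraMap_self_apply, sub_self]
  rw [hcomap, Ideal.mem_comap] at h1
  have h2 : y (ι (a - algebraMap ℂ A (x a))) = 0 := by
    change e.symm (Ideal.Quotient.mk n (ι (a - algebraMap ℂ A (x a)))) = 0
    have h3 : Ideal.Quotient.mk n (ι (a - algebraMap ℂ A (x a))) = 0 :=
      Ideal.Quotient.eq_zero_iff_mem.2 h1
    rw [h3, map_zero]
  rw [map_sub, AlgHom.commutes, map_sub, AlgHom.commutes, Algebra.algebraMap_self_apply,
    sub_eq_zero] at h2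
  exact h2

end Pool.Agent.Work.MP_49847a_an
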