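import Mathlib

/-!
# Module DensA: from an element of an integral extension to an element of the base

Proof.  `h` is integral over the image of `ι`: there is a monic `f` over `R = MvPolynomial (Fin d) ℂ` with `f(h) = 0`
(`f.eval₂ ι h = 0`).  Take such an `f` of minimal degree (`Nat.find`, or `minpoly` for the algebra structure given by `ι`).  Its constant
coefficient `c₀` is not zero: otherwise `f = X f₁`, `h f₁(h) = 0`, `f₁(h) = 0` (`A` is a domain, `h ≠ 0`) and `f₁` is monic of smaller
degree (degree zero is impossible since `1 ≠ 0`).  `ι c₀ = - h (…)`; so `x h = 0` implies `x (ι c₀) = 0`, and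
`x (ι c₀) = eval (fun i => x (ι (X i))) c₀` (two algebra homomorphisms which agree on the variables).
-/

namespace Pool.Agent.Work.MP_49847a_an

open MvPolynomial

private theorem cc_red {R A : Type} [CommRing R] [CommRing A] [IsDomain A] (ι : R →+* A) {h : A}
    (hh : h ≠ 0) : ∀ (N : ℕ) (p : Polynomial R), p.natDegree ≤ N → p.Monic →
      p.eval₂ ι h = 0 → ∃ q : Polynomial R, q.eval₂ ι h = 0 ∧ q.coeff 0 ≠ 0 := by
  intro N
  induction N with
  | zero =>
    intro p hp hm h0
    have h1 : p = 1 := Polynomial.eq_one_of_monic_natDegree_zero hm (Nat.le_zero.1 hp)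
    rw [h1, Polynomial.eval₂_one] at h0
    exact absurd h0 one_ne_zero
  | succ N ih =>
    intro p hp hm h0
    by_cases hc : p.coeff 0 = 0
    · have h1 : p.divX * Polynomial.X = p := by
        have := Polynomial.divX_mul_X_add p
        rw [hc, map_zero, add_zero] at this
        exact this
      have hm' : p.divX.Monic := by
        have h2 : (p.divX * Polynomial.X).Monic := by rw [h1]; exact hm
        unfold Polynomial.Monic at h2 ⊢
        rwa [Polynomial.leadingCoeff_mul_X] at h2
      have hR : Nontrivial R := by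
        by_contra hR
        rw [not_nontrivial_iff_subsingleton] at hR
        have : (1 : A) = 0 := by
          rw [← map_one ι, Subsingleton.elim (1 : R) 0, map_zero]
        exact one_ne_zero this
      have h3 : p.divX.natDegree ≤ N := by
        have h4 := Polynomial.natDegree_mul_X hm'.ne_zero
        rw [h1] at h4
        omega
      have h5 : p.divX.eval₂ ι h = 0 := by
        rw [← h1, Polynomial.eval₂_mul_X] at h0
        exact (mul_eq_zero.1 h0).resolve_right hh
      exact ih _ h3 hm' h5
    · exact ⟨p, h0, hc⟩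

theorem const_coeff {A : Type} [CommRing A] [IsDomain A] [Algebra ℂ A] {d : ℕ}
    (ι : MvPolynomial (Fin d) ℂ →ₐ[ℂ] A)
    (hint : (ι : MvPolynomial (Fin d) ℂ →+* A).IsIntegral) {h : A} (hh : h ≠ 0) :
    ∃ c₀ : MvPolynomial (Fin d) ℂ, c₀ ≠ 0 ∧ ∀ x : A →ₐ[ℂ] ℂ,
      eval (fun i => x (ι (X i))) c₀ ≠ 0 → x h ≠ 0 := by
  obtain ⟨p, hp, hp0⟩ := hint h
  obtain ⟨q, hq0, hq⟩ := cc_red (ι : MvPolynomial (Fin d) ℂ →+* A) hh _ p le_rfl hp hp0
  refine ⟨q.coeff 0, hq, fun x hx hxh => hx ?_⟩
  have h1 : x (ι (q.coeff 0)) = eval (fun i => x (ι (X i))) (q.coeff 0) := by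
    have h2 : x.comp ι = aeval (fun i => x (ι (X i))) := by
      refine algHom_ext fun i => ?_
      rw [aeval_X]
      rfl
    have h3 := DFunLike.congr_fun h2 (q.coeff 0)
    rw [AlgHom.comp_apply] at h3
    rw [h3, aeval_eq_eval]
  rw [← h1]
  have h4 := Polynomial.divX_mul_X_add q
  rw [← h4, Polynomial.eval₂_add, Polynomial.eval₂_mul_X, Polynomial.eval₂_C] at hq0
  have h5 := congrArg x hq0
  rw [map_add, map_mul, hxh, mul_zero, zero_add, map_zero] at h5
  exact h5

end Pool.Agent.Work.MP_49847a_an
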