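import Mathlib

/-!
# Module DensB: separating a point from the other points of its fibre

Proof.  The set `F` of the homomorphisms `x : A → ℂ` with `x (ι (X i)) = x₀ (ι (X i))` for all `i` is finite: `a_i` satisfies a monic
equation `f_i(a_i) = 0` over `MvPolynomial (Fin d) ℂ`, so `x (a_i)` is a root of the monic polynomial `f_i.map (eval t₀)`,
`t₀ i = x₀ (ι (X i))`, which has finitely many roots, and `x` is determined by the numbers `x (a_i)` (`ha`; `AlgHom.ext_of_adjoin_eq_top`):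
`F` is in bijection with a subset of a finite product of finite sets (`Set.Finite.pi`, `Set.Finite.of_injOn` ...).
For `x ∈ F`, `x ≠ x₀` there is `b_x ∈ A` with `x b_x ≠ x₀ b_x`.
`g = 1 - ∏_{x ∈ F, x ≠ x₀} algebraMap (1/(x₀ b_x - x b_x)) * (b_x - algebraMap (x b_x))`: `x₀ g = 0`, and `x g = 1` for the other `x ∈ F`.
-/

namespace Pool.Agent.Work.MP_49847a_an

open MvPolynomial

theorem sep_fibre {A : Type} [CommRing A] [Algebra ℂ A] {d q : ℕ}
    (ι : MvPolynomial (Fin d) ℂ →ₐ[ℂ] A)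
    (hint : (ι : MvPolynomial (Fin d) ℂ →+* A).IsIntegral) (a : Fin q → A)
    (ha : Algebra.adjoin ℂ (Set.range a) = ⊤) (x₀ : A →ₐ[ℂ] ℂ) :
    ∃ g : A, x₀ g = 0 ∧ ∀ x : A →ₐ[ℂ] ℂ, (∀ i, x (ι (X i)) = x₀ (ι (X i))) → x ≠ x₀ →
      x g ≠ 0 := by
  classical
  have hcomp : ∀ x : A →ₐ[ℂ] ℂ, (∀ i, x (ι (X i)) = x₀ (ι (X i))) → ∀ p, x (ι p) = x₀ (ι p) := by
    intro x hx p
    have h1 : x.comp ι = x₀.comp ι := MvPolynomial.algHom_ext fun i => hx i
    exact DFunLike.congr_fun h1 p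
  choose f hf hfe using fun i => hint (a i)
  have hroot : ∀ x : A →ₐ[ℂ] ℂ, (∀ i, x (ι (X i)) = x₀ (ι (X i))) → ∀ i,
      x (a i) ∈ ((f i).map ((x₀.comp ι : MvPolynomial (Fin d) ℂ →ₐ[ℂ] ℂ) :
        MvPolynomial (Fin d) ℂ →+* ℂ)).rootSet ℂ := by
    intro x hx i
    rw [Polynomial.mem_rootSet]
    refine ⟨((hf i).map _).ne_zero, ?_⟩
    have h1 := congrArg x (hfe i)
    rw [map_zero] at h1
    have h2 : x (Polynomial.eval₂ (ι : MvPolynomial (Fin d) ℂ →+* A) (a i) (f i)) =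
        Polynomial.eval₂ ((x : A →+* ℂ).comp (ι : MvPolynomial (Fin d) ℂ →+* A)) (x (a i))
          (f i) := Polynomial.hom_eval₂ (f i) (ι : MvPolynomial (Fin d) ℂ →+* A) (x : A →+* ℂ) (a i)
    have h3 : ((x : A →+* ℂ).comp (ι : MvPolynomial (Fin d) ℂ →+* A)) =
        ((x₀.comp ι : MvPolynomial (Fin d) ℂ →ₐ[ℂ] ℂ) : MvPolynomial (Fin d) ℂ →+* ℂ) := by
      ext p
      · simp
      · exact hx p
    rw [h2, h3] at h1
    rw [Polynomial.aeval_def, Polynomial.eval₂_map]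
    exact h1
  have hfin : {x : A →ₐ[ℂ] ℂ | ∀ i, x (ι (X i)) = x₀ (ι (X i))}.Finite := by
    have h1 : (Set.univ.pi fun i => (((f i).map ((x₀.comp ι : MvPolynomial (Fin d) ℂ →ₐ[ℂ] ℂ) :
        MvPolynomial (Fin d) ℂ →+* ℂ)).rootSet ℂ)).Finite :=
      Set.Finite.pi fun i => Polynomial.rootSet_finite _ _
    have hinj : Function.Injective (fun (x : A →ₐ[ℂ] ℂ) (i : Fin q) => x (a i)) := by
      intro x y hxy
      refine AlgHom.ext_of_adjoin_eq_top ha ?_
      rintro _ ⟨i, rfl⟩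
      exact congrFun hxy i
    refine (h1.preimage hinj.injOn).subset ?_
    intro x hx i _
    exact hroot x hx i
  have hb : ∀ x : A →ₐ[ℂ] ℂ, ∃ b : A, x ≠ x₀ → x b ≠ x₀ b := by
    intro x
    by_cases h : x = x₀
    · exact ⟨0, fun h' => absurd h h'⟩
    · obtain ⟨b, hb⟩ := DFunLike.ne_iff.1 h
      exact ⟨b, fun _ => hb⟩
  choose b hb using hb
  set S : Finset (A →ₐ[ℂ] ℂ) := hfin.toFinset.erase x₀ with hS
  refine ⟨1 - ∏ x ∈ S, algebraMap ℂ A (1 / (x₀ (b x) - x (b x))) *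
    (b x - algebraMap ℂ A (x (b x))), ?_, ?_⟩
  · rw [map_sub, map_one, map_prod, Finset.prod_eq_one, sub_self]
    intro x hx
    rw [map_mul, map_sub, AlgHom.commutes, AlgHom.commutes]
    have h1 : x₀ (b x) - x (b x) ≠ 0 := sub_ne_zero.2 (hb x (Finset.ne_of_mem_erase hx)).symm
    rw [Algebra.algebraMap_self_apply, Algebra.algebraMap_self_apply]
    field_simp
  · intro x hx hne
    have hxS : x ∈ S := by
      rw [hS, Finset.mem_erase]
      exact ⟨hne, hfin.mem_toFinset.2 hx⟩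
    rw [map_sub, map_one, map_prod, Finset.prod_eq_zero hxS, sub_zero]
    · exact one_ne_zero
    · rw [map_mul, map_sub, AlgHom.commutes x (x (b x)), Algebra.algebraMap_self_apply, sub_self,
        mul_zero]

end Pool.Agent.Work.MP_49847a_an
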