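import Mathlib

/-!
# Module DensC: limits and boundedness of homomorphisms

Proof.
(lim_hom) `A` is the quotient of `MvPolynomial (Fin q) ℂ` by the kernel of `aeval a` (surjective by `ha`,
`Algebra.adjoin_range_eq_range_aeval`).  If `aeval a H = 0` then `eval (fun i => x_k (a i)) H = x_k (aeval a H) = 0`, so in the limit
`eval b H = 0` (continuity of the evaluation); so `eval b` factors through `A`: `x` (`Ideal.Quotient.liftₐ`,
`Ideal.quotientKerAlgEquivOfSurjective`, or `AlgHom.liftOfSurjective`).  For `f = aeval a H`: `x_k f = eval (x_k ∘ a) H → eval b H = x f`.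
(bdd_hom) `f` satisfies a monic equation with coefficients `c_0, …, c_{D-1} ∈ MvPolynomial (Fin d) ℂ`; `‖x (ι (X i))‖ ≤ M` for all `i`
implies `‖x (ι c_j)‖ ≤ M'` (the polynomial `c_j` is bounded on the compact set `‖t_i‖ ≤ M`), and a root `s` of
`s^D + ∑ c_j s^j` satisfies `‖s‖ ≤ 1 + D M'` (or `max`).
-/

namespace Pool.Agent.Work.MP_49847a_an

open MvPolynomial Filter Topology

theorem lim_hom {A : Type} [CommRing A] [Algebra ℂ A] {q : ℕ} {a : Fin q → A}
    (ha : Algebra.adjoin ℂ (Set.range a) = ⊤) {x : ℕ → (A →ₐ[ℂ] ℂ)} {b : Fin q → ℂ}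
    (hb : ∀ i, Tendsto (fun k => x k (a i)) atTop (𝓝 (b i))) :
    ∃ y : A →ₐ[ℂ] ℂ, ∀ f : A, Tendsto (fun k => x k f) atTop (𝓝 (y f)) := by
  classical
  have hsurj : Function.Surjective (aeval a : MvPolynomial (Fin q) ℂ →ₐ[ℂ] A) := by
    rw [← AlgHom.range_eq_top, ← Algebra.adjoin_range_eq_range_aeval, ha]
  have hev : ∀ (k : ℕ) (H : MvPolynomial (Fin q) ℂ),
      x k (aeval a H) = eval (fun i => x k (a i)) H := by
    intro k H
    have h1 : (x k).comp (aeval a) = aeval (fun i => x k (a i)) := by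
      apply MvPolynomial.algHom_ext
      intro i
      simp
    have h2 := congrArg (fun g : MvPolynomial (Fin q) ℂ →ₐ[ℂ] ℂ => g H) h1
    simp only [AlgHom.comp_apply] at h2
    rw [h2]
    rfl
  have hlim : ∀ H : MvPolynomial (Fin q) ℂ,
      Tendsto (fun k => x k (aeval a H)) atTop (𝓝 (eval b H)) := by
    intro H
    have h1 : Tendsto (fun k => (fun i => x k (a i))) atTop (𝓝 b) := tendsto_pi_nhds.2 hb
    have h2 := ((MvPolynomial.continuous_eval H).tendsto b).comp h1
    refine h2.congr ?_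
    intro k
    simp only [Function.comp]
    exact (hev k H).symm
  have hker : RingHom.ker (aeval a : MvPolynomial (Fin q) ℂ →ₐ[ℂ] A).toRingHom ≤
      RingHom.ker (aeval b : MvPolynomial (Fin q) ℂ →ₐ[ℂ] ℂ).toRingHom := by
    intro H hH
    rw [RingHom.mem_ker] at hH ⊢
    have hH' : aeval a H = 0 := hH
    have h1 := hlim H
    rw [hH'] at h1
    simp only [map_zero] at h1
    have h2 := tendsto_nhds_unique h1 tendsto_const_nhds
    exact h2
  refine ⟨AlgHom.liftOfSurjective (aeval a) hsurj (aeval b) hker, fun f => ?_⟩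
  obtain ⟨H, rfl⟩ := hsurj f
  rw [AlgHom.liftOfSurjective_apply]
  exact hlim H

theorem bdd_hom {A : Type} [CommRing A] [Algebra ℂ A] {d : ℕ}
    (ι : MvPolynomial (Fin d) ℂ →ₐ[ℂ] A)
    (hint : (ι : MvPolynomial (Fin d) ℂ →+* A).IsIntegral) (f : A) (M : ℝ) :
    ∃ B : ℝ, ∀ x : A →ₐ[ℂ] ℂ, (∀ i, ‖x (ι (X i))‖ ≤ M) → ‖x f‖ ≤ B := by
  classical
  obtain ⟨p, hp, hpf⟩ := hint f
  -- bound for each coefficient
  have hK : IsCompact (Metric.closedBall (0 : Fin d → ℂ) (max M 0)) := isCompact_closedBall _ _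
  have hcoef : ∀ j : ℕ, ∃ C : ℝ, 0 ≤ C ∧ ∀ t ∈ Metric.closedBall (0 : Fin d → ℂ) (max M 0),
      ‖eval t (p.coeff j)‖ ≤ C := by
    intro j
    obtain ⟨C, hC⟩ := hK.exists_bound_of_continuousOn
      (MvPolynomial.continuous_eval (p.coeff j)).continuousOn
    exact ⟨max C 0, le_max_right _ _, fun t ht => (hC t ht).trans (le_max_left _ _)⟩
  choose C hC0 hC using hcoef
  refine ⟨1 + ∑ j ∈ Finset.range p.natDegree, C j, fun x hx => ?_⟩
  set t : Fin d → ℂ := fun i => x (ι (X i)) with ht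
  have htb : t ∈ Metric.closedBall (0 : Fin d → ℂ) (max M 0) := by
    rw [mem_closedBall_zero_iff, pi_norm_le_iff_of_nonneg (le_max_right _ _)]
    intro i
    exact (hx i).trans (le_max_left _ _)
  have hxe : ∀ H : MvPolynomial (Fin d) ℂ, x (ι H) = eval t H := by
    intro H
    have h1 : x.comp ι = aeval t := by
      apply MvPolynomial.algHom_ext
      intro i
      simp [ht]
    have h2 := congrArg (fun g : MvPolynomial (Fin d) ℂ →ₐ[ℂ] ℂ => g H) h1
    simp only [AlgHom.comp_apply] at h2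
    rw [h2]
    rfl
  have hroot : ∑ j ∈ Finset.range (p.natDegree + 1), eval t (p.coeff j) * (x f) ^ j = 0 := by
    have h1 : Polynomial.eval₂ (ι : MvPolynomial (Fin d) ℂ →+* A) f p = 0 := hpf
    rw [Polynomial.eval₂_eq_sum_range] at h1
    have h2 := congrArg x h1
    rw [map_sum, map_zero] at h2
    rw [← h2]
    refine Finset.sum_congr rfl fun j _ => ?_
    rw [map_mul, map_pow, ← hxe]
    rfl
  rw [Finset.sum_range_succ, hp.coeff_natDegree, map_one, one_mul] at hroot
  by_contra hcon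
  push_neg at hcon
  set s := ‖x f‖ with hs
  have hS0 : 0 ≤ ∑ j ∈ Finset.range p.natDegree, C j := Finset.sum_nonneg fun j _ => hC0 j
  have hs1 : 1 < s := by linarith
  rcases Nat.eq_zero_or_pos p.natDegree with h0 | hpos
  · rw [h0] at hroot
    simp at hroot
  have h3 : s ^ p.natDegree ≤ ∑ j ∈ Finset.range p.natDegree, C j * s ^ (p.natDegree - 1) := by
    have h4 : (x f) ^ p.natDegree =
        -∑ j ∈ Finset.range p.natDegree, eval t (p.coeff j) * (x f) ^ j := by
      linear_combination hroot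
    calc s ^ p.natDegree = ‖(x f) ^ p.natDegree‖ := by rw [norm_pow]
      _ = ‖∑ j ∈ Finset.range p.natDegree, eval t (p.coeff j) * (x f) ^ j‖ := by
          rw [h4, norm_neg]
      _ ≤ ∑ j ∈ Finset.range p.natDegree, ‖eval t (p.coeff j) * (x f) ^ j‖ := norm_sum_le _ _
      _ ≤ _ := by
          refine Finset.sum_le_sum fun j hj => ?_
          rw [Finset.mem_range] at hj
          rw [norm_mul, norm_pow]
          exact mul_le_mul (hC j t htb) (pow_le_pow_right₀ hs1.le (by omega)) (by positivity)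
            (hC0 j)
  rw [← Finset.sum_mul] at h3
  obtain ⟨N, hN⟩ : ∃ N, p.natDegree = N + 1 := ⟨p.natDegree - 1, by omega⟩
  rw [hN] at h3 hcon
  simp only [Nat.add_sub_cancel] at h3
  rw [pow_succ, mul_comm] at h3
  have h5 : 0 < s ^ N := by positivity
  have h6 := le_of_mul_le_mul_right h3 h5
  linarith

end Pool.Agent.Work.MP_49847a_an
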