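import Mathlib

/-!
# Module DensD: continuity of a root, density of the complement of a hypersurface

Proof.
(root_cont) `μ_t = μ.map (eval t)` is monic of degree `D = natDegree μ > 0` and splits over `ℂ`, so `‖μ_t(0)‖` is the product of
the absolute values of its `D` roots (`Polynomial.Splits`, `Polynomial.prod_roots_eq_coeff_zero_of_monic_of_splits`), and there is a root
`s` with `‖s‖^D ≤ ‖μ_t(0)‖`.  `t ↦ μ_t(0) = eval t (μ.coeff 0)` is continuous and vanishes at `t₀`.
(nonzero_dense) if `c₀` vanished on the ball `{‖t i - t₀ i‖ < δ}` then `c₀ = 0`: `MvPolynomial.funext_set` (product of infinite sets), or the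
one variable polynomial `λ ↦ eval (t₀ + λ (t₁ - t₀)) c₀` for a point `t₁` with `c₀(t₁) ≠ 0`, which has finitely many zeros.
-/

namespace Pool.Agent.Work.MP_49847a_an

open MvPolynomial

private theorem pow_card_le {ε : ℝ} (hε : 0 < ε) (m : Multiset ℂ) (h : ∀ x ∈ m, ε ≤ ‖x‖) :
    ε ^ m.card ≤ ‖m.prod‖ := by
  induction m using Multiset.induction_on with
  | empty => simp
  | cons a s ih =>
    rw [Multiset.card_cons, Multiset.prod_cons, norm_mul, pow_succ, mul_comm]
    exact mul_le_mul (h a (Multiset.mem_cons_self a s))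
      (ih fun x hx => h x (Multiset.mem_cons_of_mem hx)) (by positivity) (norm_nonneg a)

private theorem exists_small_root {ν : Polynomial ℂ} (hm : ν.Monic) {ε : ℝ} (hε : 0 < ε)
    (h : ‖ν.eval 0‖ < ε ^ ν.natDegree) : ∃ s : ℂ, ‖s‖ < ε ∧ ν.eval s = 0 := by
  by_contra hc
  push Not at hc
  have hs : ν.Splits := IsAlgClosed.splits ν
  have h1 := hs.coeff_zero_eq_prod_roots_of_monic hm
  have hcard : ν.roots.card = ν.natDegree := hs.natDegree_eq_card_roots.symm
  have h2 : ε ^ ν.roots.card ≤ ‖ν.roots.prod‖ := by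
    apply pow_card_le hε
    intro x hx
    by_contra hx2
    push Not at hx2
    exact hc x hx2 ((Polynomial.mem_roots hm.ne_zero).mp hx)
  rw [← Polynomial.coeff_zero_eq_eval_zero, h1] at h
  rw [hcard] at h2
  have h3 : ‖(-1 : ℂ) ^ ν.natDegree * ν.roots.prod‖ = ‖ν.roots.prod‖ := by
    rw [norm_mul, norm_pow, norm_neg, norm_one, one_pow, one_mul]
  rw [h3] at h
  exact absurd h2 (not_le.mpr h)

theorem root_cont {d : ℕ} {μ : Polynomial (MvPolynomial (Fin d) ℂ)} (hm : μ.Monic)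
    (hd : 0 < μ.natDegree) {t₀ : Fin d → ℂ} (h0 : (μ.map (eval t₀)).eval 0 = 0) {ε : ℝ}
    (hε : 0 < ε) : ∃ δ : ℝ, 0 < δ ∧ ∀ t : Fin d → ℂ, (∀ i, ‖t i - t₀ i‖ < δ) →
      ∃ s : ℂ, ‖s‖ < ε ∧ (μ.map (eval t)).eval s = 0 := by
  have hc : Continuous fun t : Fin d → ℂ => eval t (μ.coeff 0) := MvPolynomial.continuous_eval _
  have hev : ∀ t : Fin d → ℂ, (μ.map (eval t)).eval 0 = eval t (μ.coeff 0) := by
    intro t
    rw [← Polynomial.coeff_zero_eq_eval_zero, Polynomial.coeff_map]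
  have hpos : 0 < ε ^ μ.natDegree := by positivity
  obtain ⟨δ, hδ, hδ2⟩ := Metric.continuous_iff.mp hc t₀ _ hpos
  refine ⟨δ, hδ, fun t ht => ?_⟩
  have h1 : dist t t₀ < δ := by
    rw [dist_pi_lt_iff hδ]
    intro i
    rw [dist_eq_norm]
    exact ht i
  have h2 := hδ2 t h1
  rw [hev] at h0
  rw [h0, dist_zero_right] at h2
  have hm2 : (μ.map (eval t)).Monic := hm.map _
  apply exists_small_root hm2 hε
  rw [hev, hm.natDegree_map]
  exact h2

theorem nonzero_dense {d : ℕ} {c₀ : MvPolynomial (Fin d) ℂ} (hc : c₀ ≠ 0) (t₀ : Fin d → ℂ)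
    {δ : ℝ} (hδ : 0 < δ) : ∃ t : Fin d → ℂ, (∀ i, ‖t i - t₀ i‖ < δ) ∧ eval t c₀ ≠ 0 := by
  by_contra hcon
  push Not at hcon
  apply hc
  have hinf : ∀ i, (Metric.ball (t₀ i) δ).Infinite := by
    intro i
    exact infinite_of_mem_nhds (t₀ i) (Metric.ball_mem_nhds _ hδ)
  apply MvPolynomial.funext_set (fun i => Metric.ball (t₀ i) δ) hinf
  intro x hx
  rw [map_zero]
  apply hcon
  intro i
  have := hx i (Set.mem_univ i)
  rwa [Metric.mem_ball, dist_eq_norm] at this

end Pool.Agent.Work.MP_49847a_an
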