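import Pool.Agent.Work.MP_49847a_an.Cp.NorR
import Pool.Agent.Work.MP_49847a_an.Cp.DensA
import Pool.Agent.Work.MP_49847a_an.Cp.DensB
import Pool.Agent.Work.MP_49847a_an.Cp.DensC
import Pool.Agent.Work.MP_49847a_an.Cp.DensD

/-!
# Module Dens: points near a given point and outside a hypersurface

Proof.  `exists_integral_inj_algHom_of_fg ℂ A` gives `ι : MvPolynomial (Fin d) ℂ → A` injective and integral.  Let `a'` be a
finite generating family of the algebra `A` (`Algebra.FiniteType`), `a''` the family `a, a'` (`Fin.append`), also generating.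
`c₀` from `const_coeff`; it is enough that `eval (fun i => x (ι (X i))) c₀ ≠ 0`.  `g` from `sep_fibre` for `a''`, `μ` from `nor_root` for
`g`.  `t₀ i = x₀ (ι (X i))`; `(μ.map (eval t₀)).eval 0 = x₀ (μ.eval₂ ι g) = 0`.
For `k ∈ ℕ`: `root_cont` with `ε = 1/(k+1)` gives `δ_k ≤ 1/(k+1)`, `nonzero_dense` gives `t_k` with `‖t_k i - t₀ i‖ < δ_k` and
`c₀(t_k) ≠ 0`, and `s_k`, `‖s_k‖ < 1/(k+1)`, and `nor_root` gives `x_k` with `x_k (ι (X i)) = t_k i`, `x_k g = s_k`.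
Suppose that no `x` satisfies the claim; then for every `k` there is `i` with `‖x_k (a i) - x₀ (a i)‖ ≥ ε`.  By `bdd_hom` the
`x_k (a''_i)` are bounded, so a subsequence of `(x_k (a''_i))_i` converges (`Metric` compactness of bounded closed sets of
`Fin q' → ℂ`, `tendsto_subseq_of_bounded`), `lim_hom` gives `y`: `y (ι (X i)) = lim t_k i = t₀ i`, `y g = lim s_k = 0`, so `y = x₀`, and
`x_k (a i) → x₀ (a i)` along the subsequence for all (finitely many) `i`: contradiction.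
-/

namespace Pool.Agent.Work.MP_49847a_an

open MvPolynomial

private theorem hom_eval {A : Type} [CommRing A] [Algebra ℂ A] {d : ℕ}
    (ι : MvPolynomial (Fin d) ℂ →ₐ[ℂ] A) (x : A →ₐ[ℂ] ℂ) (p : MvPolynomial (Fin d) ℂ) :
    x (ι p) = eval (fun i => x (ι (X i))) p := by
  have h1 : x.comp ι = aeval (fun i => x (ι (X i))) := by
    apply MvPolynomial.algHom_ext
    intro i
    rw [aeval_X]
    rfl
  have h2 := DFunLike.congr_fun h1 p
  rw [← coe_aeval_eq_eval]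
  exact h2

private theorem exists_gen (A : Type) [CommRing A] [Algebra ℂ A] [Algebra.FiniteType ℂ A] :
    ∃ (m : ℕ) (a' : Fin m → A),
      Algebra.adjoin ℂ (Set.range a') = ⊤ := by
  obtain ⟨s, hs⟩ := (inferInstance : Algebra.FiniteType ℂ A).out
  refine ⟨s.card, fun i => (s.equivFin.symm i : A), ?_⟩
  have h1 : Set.range (fun i => (s.equivFin.symm i : A)) = (s : Set A) := by
    ext z
    constructor
    · rintro ⟨i, rfl⟩
      exact (s.equivFin.symm i).2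
    · intro hz
      exact ⟨s.equivFin ⟨z, hz⟩, by simp⟩
  rw [h1, hs]

theorem dens {A : Type} [CommRing A] [IsDomain A] [Algebra ℂ A] [Algebra.FiniteType ℂ A] {q : ℕ}
    (a : Fin q → A) (x₀ : A →ₐ[ℂ] ℂ) {h : A} (hh : h ≠ 0) {ε : ℝ} (hε : 0 < ε) :
    ∃ x : A →ₐ[ℂ] ℂ, x h ≠ 0 ∧ ∀ i, ‖x (a i) - x₀ (a i)‖ < ε := by
  classical
  obtain ⟨d, ι, hi, hint⟩ := exists_integral_inj_algHom_of_fg ℂ A
  obtain ⟨m, a', ha'⟩ := exists_gen A
  obtain ⟨c₀, hc₀, hx₀⟩ := const_coeff ι hint hh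
  obtain ⟨g, hg0, hg⟩ := sep_fibre ι hint a' ha' x₀
  obtain ⟨μ, hμm, hμd, hμ0, hμ⟩ := nor_root ι hi hint g
  have hroot : (μ.map (eval (fun i => x₀ (ι (X i))))).eval 0 = 0 := by
    rw [Polynomial.eval_map]
    have h1 : (x₀ : A →+* ℂ) (μ.eval₂ (ι : MvPolynomial (Fin d) ℂ →+* A) g) = 0 := by
      rw [hμ0, map_zero]
    rw [Polynomial.hom_eval₂] at h1
    have h2 : (x₀ : A →+* ℂ).comp (ι : MvPolynomial (Fin d) ℂ →+* A) =
        (eval (fun i => x₀ (ι (X i))) : MvPolynomial (Fin d) ℂ →+* ℂ) :=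
      RingHom.ext fun p => hom_eval ι x₀ p
    have h3 : (x₀ : A →+* ℂ) g = 0 := hg0
    rw [h2, h3] at h1
    exact h1
  have hk0 : ∀ k : ℕ, (0 : ℝ) < 1 / ((k : ℝ) + 1) := fun k => by positivity
  have hex : ∀ k : ℕ, ∃ x : A →ₐ[ℂ] ℂ, (∀ i, ‖x (ι (X i)) - x₀ (ι (X i))‖ < 1 / ((k : ℝ) + 1)) ∧
      ‖x g‖ < 1 / ((k : ℝ) + 1) ∧ x h ≠ 0 := by
    intro k
    obtain ⟨δ, hδ, hδs⟩ := root_cont hμm hμd hroot (hk0 k)
    obtain ⟨t, ht, htc⟩ := nonzero_dense hc₀ (fun i => x₀ (ι (X i))) (lt_min hδ (hk0 k))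
    obtain ⟨s, hs, hs0⟩ := hδs t fun i => (ht i).trans_le (min_le_left _ _)
    obtain ⟨x, hx, hxg⟩ := hμ t s hs0
    refine ⟨x, fun i => ?_, ?_, hx₀ x ?_⟩
    · rw [hx]
      exact (ht i).trans_le (min_le_right _ _)
    · rw [hxg]
      exact hs
    · have : (fun i => x (ι (X i))) = t := funext hx
      rw [this]
      exact htc
  choose x hx1 hx2 hx3 using hex
  by_contra hcon
  push Not at hcon
  have hbd : ∀ j : Fin m, ∃ B : ℝ, ∀ k, ‖x k (a' j)‖ ≤ B := by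
    intro j
    obtain ⟨B, hB⟩ := bdd_hom ι hint (a' j) (‖(fun i => x₀ (ι (X i)) : Fin d → ℂ)‖ + 1)
    refine ⟨B, fun k => hB (x k) fun i => ?_⟩
    have h1 : ‖x₀ (ι (X i))‖ ≤ ‖(fun i => x₀ (ι (X i)) : Fin d → ℂ)‖ :=
      norm_le_pi_norm (fun i => x₀ (ι (X i)) : Fin d → ℂ) i
    have h2 : 1 / ((k : ℝ) + 1) ≤ 1 := by
      rw [div_le_one (by positivity)]
      have : (0 : ℝ) ≤ k := Nat.cast_nonneg k
      linarith
    have h3 : ‖x k (ι (X i))‖ ≤ ‖x k (ι (X i)) - x₀ (ι (X i))‖ + ‖x₀ (ι (X i))‖ := by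
      have := norm_add_le (x k (ι (X i)) - x₀ (ι (X i))) (x₀ (ι (X i)))
      rwa [sub_add_cancel] at this
    linarith [hx1 k i]
  choose B hB using hbd
  have hbdd : Bornology.IsBounded (Metric.closedBall (0 : Fin m → ℂ) (∑ j, |B j|)) :=
    Metric.isBounded_closedBall
  obtain ⟨b, _, φ, hφ, hlim⟩ := tendsto_subseq_of_bounded hbdd
    (x := fun k => (fun j => x k (a' j) : Fin m → ℂ)) (fun k => by
      rw [mem_closedBall_zero_iff]
      refine (pi_norm_le_iff_of_nonneg (Finset.sum_nonneg fun j _ => abs_nonneg _)).2 fun j => ?_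
      exact ((hB j k).trans (le_abs_self _)).trans
        (Finset.single_le_sum (f := fun j => |B j|) (fun j _ => abs_nonneg _)
          (Finset.mem_univ j)))
  have hlim' : ∀ j, Filter.Tendsto (fun k => x (φ k) (a' j)) Filter.atTop (nhds (b j)) :=
    fun j => (tendsto_pi_nhds.1 hlim) j
  obtain ⟨y, hy⟩ := lim_hom ha' (x := fun k => x (φ k)) hlim'
  have hsm : Filter.Tendsto (fun k : ℕ => 1 / ((φ k : ℝ) + 1)) Filter.atTop (nhds 0) :=
    tendsto_one_div_add_atTop_nhds_zero_nat.comp hφ.tendsto_atTop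
  have hy1 : ∀ i, y (ι (X i)) = x₀ (ι (X i)) := by
    intro i
    refine tendsto_nhds_unique (hy (ι (X i))) ?_
    rw [tendsto_iff_norm_sub_tendsto_zero]
    exact squeeze_zero (fun _ => norm_nonneg _) (fun k => (hx1 (φ k) i).le) hsm
  have hy2 : y g = 0 := by
    refine tendsto_nhds_unique (hy g) ?_
    rw [tendsto_zero_iff_norm_tendsto_zero]
    exact squeeze_zero (fun _ => norm_nonneg _) (fun k => (hx2 (φ k)).le) hsm
  have hyx : y = x₀ := by
    by_contra hne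
    exact hg y hy1 hne hy2
  have hev : ∀ᶠ k in Filter.atTop, ∀ i : Fin q, ‖x (φ k) (a i) - x₀ (a i)‖ < ε := by
    rw [Filter.eventually_all]
    intro i
    have h1 := hy (a i)
    rw [hyx, tendsto_iff_norm_sub_tendsto_zero] at h1
    exact h1.eventually (gt_mem_nhds hε)
  obtain ⟨k, hk⟩ := hev.exists
  obtain ⟨i, hi'⟩ := hcon (x (φ k)) (hx3 (φ k))
  exact absurd (hk i) (not_lt.2 hi')

end Pool.Agent.Work.MP_49847a_an
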