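import Pool.Agent.Work.MP_49847a_an.Cp.Chev
import Pool.Agent.Work.MP_49847a_an.Cp.Dens

/-!
# Module Clos: points of a parametrised variety near a point of its Zariski closure

Proof.  `B = Localization.Away φ`, a domain of finite type over `ℂ` (`φ ≠ 0`), `f_i = ψ_i/φ ∈ B`
(`IsLocalization.mk'` or `algebraMap (ψ_i) * (the inverse of φ)`).  `A = (aeval f : MvPolynomial (Fin q) ℂ →ₐ B).range`, a subalgebra
of `B` of finite type, a domain.  Points: an algebra homomorphism `y : B → ℂ` is determined by `z_i = y(X_i)`; then `y(u) = eval z u`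
for `u ∈ ℂ[z]`, `eval z φ ≠ 0` and `y (f_i) = eval z (ψ_i)/eval z φ`; every `z` with `eval z φ ≠ 0` gives such a homomorphism
(`IsLocalization.Away.lift`).
(x₀) there is `x₀ : A → ℂ` with `x₀ (f_i) = 0`: for `H ∈ MvPolynomial (Fin q) ℂ` with `aeval f H = 0` all the values
`H(ψ(z)/φ(z))` are zero, so `eval 0 H = 0` by `h0`; so `eval 0` factors through `A` (`Ideal.Quotient.lift`,
`AlgHom.liftOfSurjective` ...).
(end) `chev` for `A ⊆ B` gives `h`; `dens` for `A`, the family `f_i`, `x₀`, `h`, `ε` gives `x` with `x h ≠ 0`, `‖x (f_i)‖ < ε`;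
`chev` extends `x` to `y : B → ℂ`, which is the evaluation at a point `z`.
-/

namespace Pool.Agent.Work.MP_49847a_an

open MvPolynomial

variable {n q : ℕ}

private theorem clos_eval {B : Type} [CommRing B] [Algebra ℂ B] [Algebra (MvPolynomial (Fin n) ℂ) B]
    [IsScalarTower ℂ (MvPolynomial (Fin n) ℂ) B] {φ : MvPolynomial (Fin n) ℂ}
    [IsLocalization.Away φ B] (y : B →ₐ[ℂ] ℂ) (z : Fin n → ℂ)
    (hz : ∀ i, y (algebraMap (MvPolynomial (Fin n) ℂ) B (X i)) = z i) :
    (∀ u, y (algebraMap (MvPolynomial (Fin n) ℂ) B u) = eval z u) ∧ eval z φ ≠ 0 ∧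
      ∀ ψ : MvPolynomial (Fin n) ℂ,
        y (IsLocalization.mk' B ψ (⟨φ, 1, by simp⟩ : Submonoid.powers φ)) =
          eval z ψ / eval z φ := by
  have h1 : ∀ u, y (algebraMap (MvPolynomial (Fin n) ℂ) B u) = eval z u := by
    have h2 : y.comp (IsScalarTower.toAlgHom ℂ (MvPolynomial (Fin n) ℂ) B) = aeval z := by
      apply MvPolynomial.algHom_ext
      intro i
      simp [hz]
    intro u
    have h3 := DFunLike.congr_fun h2 u
    rw [AlgHom.comp_apply] at h3
    rw [IsScalarTower.coe_toAlgHom'] at h3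
    rw [h3]
    exact MvPolynomial.coe_aeval_eq_eval z ▸ rfl
  have h4 : eval z φ ≠ 0 := by
    have h5 : IsUnit (algebraMap (MvPolynomial (Fin n) ℂ) B φ) :=
      IsLocalization.Away.algebraMap_isUnit φ
    have h6 := h5.map y
    rw [h1] at h6
    exact h6.ne_zero
  refine ⟨h1, h4, fun ψ => ?_⟩
  rw [eq_div_iff h4, ← h1 φ, ← map_mul, ← h1 ψ]
  congr 1
  exact IsLocalization.mk'_spec B ψ (⟨φ, 1, by simp⟩ : Submonoid.powers φ)

theorem clos {φ : MvPolynomial (Fin n) ℂ} (hφ : φ ≠ 0) (ψ : Fin q → MvPolynomial (Fin n) ℂ)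
    (h0 : ∀ H : MvPolynomial (Fin q) ℂ,
      (∀ z, eval z φ ≠ 0 → eval (fun i => eval z (ψ i) / eval z φ) H = 0) → eval 0 H = 0)
    {ε : ℝ} (hε : 0 < ε) :
    ∃ z, eval z φ ≠ 0 ∧ ∀ i, ‖eval z (ψ i) / eval z φ‖ < ε := by
  let B := Localization.Away φ
  have hdB : IsDomain B :=
    IsLocalization.isDomain_localization (powers_le_nonZeroDivisors_of_noZeroDivisors hφ)
  have hft0 : Algebra.FiniteType (MvPolynomial (Fin n) ℂ) B :=
    IsLocalization.finiteType_of_monoid_fg (Submonoid.powers φ) B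
  have hftB : Algebra.FiniteType ℂ B :=
    Algebra.FiniteType.trans (inferInstance : Algebra.FiniteType ℂ (MvPolynomial (Fin n) ℂ)) hft0
  let f : Fin q → B := fun i =>
    IsLocalization.mk' B (ψ i) (⟨φ, 1, by simp⟩ : Submonoid.powers φ)
  let g : MvPolynomial (Fin q) ℂ →ₐ[ℂ] B := aeval f
  let A := g.range
  have hftA : Algebra.FiniteType ℂ A :=
    Algebra.FiniteType.of_surjective g.rangeRestrict g.rangeRestrict_surjective
  let a : Fin q → A := fun i => g.rangeRestrict (X i)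
  have ha : ∀ i, (a i : B) = f i := fun i => by
    simp [a, g]
  -- the homomorphism attached to a point
  have hpt : ∀ z, eval z φ ≠ 0 → ∃ y : B →ₐ[ℂ] ℂ,
      ∀ i, y (algebraMap (MvPolynomial (Fin n) ℂ) B (X i)) = z i := by
    intro z hz
    have hu : ∀ s : Submonoid.powers φ, IsUnit ((aeval z : MvPolynomial (Fin n) ℂ →ₐ[ℂ] ℂ) s) := by
      rintro ⟨_, k, rfl⟩
      rw [isUnit_iff_ne_zero]
      simp only [map_pow]
      apply pow_ne_zero
      rw [show (aeval z : MvPolynomial (Fin n) ℂ →ₐ[ℂ] ℂ) φ = eval z φ from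
        MvPolynomial.coe_aeval_eq_eval z ▸ rfl]
      exact hz
    refine ⟨IsLocalization.liftAlgHom (M := Submonoid.powers φ) (S := B) hu, fun i => ?_⟩
    rw [IsLocalization.liftAlgHom_apply, IsLocalization.lift_eq]
    simp
  -- the base point
  have hker : RingHom.ker g.rangeRestrict.toRingHom ≤
      RingHom.ker (aeval (0 : Fin q → ℂ) : MvPolynomial (Fin q) ℂ →ₐ[ℂ] ℂ).toRingHom := by
    intro H hH
    rw [RingHom.mem_ker] at hH ⊢
    have hH' : g H = 0 := by
      have := congrArg (fun t : A => (t : B)) hH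
      simpa using this
    have h1 : eval (0 : Fin q → ℂ) H = 0 := by
      apply h0
      intro z hz
      obtain ⟨y, hy⟩ := hpt z hz
      obtain ⟨-, -, h3⟩ := clos_eval (φ := φ) y z hy
      have h4 : y.comp g = aeval (fun i => eval z (ψ i) / eval z φ) := by
        apply MvPolynomial.algHom_ext
        intro i
        rw [AlgHom.comp_apply, aeval_X, aeval_X]
        exact h3 (ψ i)
      have h5 := DFunLike.congr_fun h4 H
      rw [AlgHom.comp_apply, hH', map_zero] at h5
      rw [show eval (fun i => eval z (ψ i) / eval z φ) H =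
        (aeval (fun i => eval z (ψ i) / eval z φ) : MvPolynomial (Fin q) ℂ →ₐ[ℂ] ℂ) H from
        MvPolynomial.coe_aeval_eq_eval (fun i => eval z (ψ i) / eval z φ) ▸ rfl]
      exact h5.symm
    have h2 : (aeval (0 : Fin q → ℂ) : MvPolynomial (Fin q) ℂ →ₐ[ℂ] ℂ) H = eval 0 H :=
      MvPolynomial.coe_aeval_eq_eval (0 : Fin q → ℂ) ▸ rfl
    exact h2.trans h1
  let x₀ : A →ₐ[ℂ] ℂ :=
    AlgHom.liftOfSurjective g.rangeRestrict g.rangeRestrict_surjective
      (aeval (0 : Fin q → ℂ)) hker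
  have hx₀ : ∀ i, x₀ (a i) = 0 := fun i => by
    simp [x₀, a]
  obtain ⟨h, hh, hlift⟩ := chev A.val Subtype.val_injective
  obtain ⟨x, hx, hclose⟩ := dens a x₀ hh hε
  obtain ⟨y, hy⟩ := hlift x hx
  obtain ⟨-, h2, h3⟩ := clos_eval (φ := φ) y
    (fun i => y (algebraMap (MvPolynomial (Fin n) ℂ) B (X i))) (fun _ => rfl)
  refine ⟨_, h2, fun i => ?_⟩
  rw [← h3 (ψ i)]
  have h4 : y (f i) = x (a i) := by
    rw [← hy, AlgHom.comp_apply]
    congr 1
    exact (ha i).symm
  have h5 := hclose i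
  rw [hx₀ i, sub_zero, ← h4] at h5
  exact h5

end Pool.Agent.Work.MP_49847a_an
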