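import Pool.Agent.Work.MP_49847a_an.Cp.CpDefs

/-!
# Module InfL: positive leading part implies the growth condition

Proof.  `G = 1` (`pol_one`).  `r2 P Q z ≥ δ nn z^d ≥ δ` for `nn z ≥ max R₀ 1`.  `‖R2 P Q z w‖² ≤ M (1 + nn z)^d (1 + nn w)^d`
(`pol_bd` for the real polynomial `r2 P Q`, `Dg d`), and `(1 + nn z)^d ≤ 2^d nn z^d ≤ (2^d/δ) r2 P Q z`.
(pos) `Pos2`: `r2 P Q z ≥ δ nn z^d > 0` for `nn z ≥ max R₀ 1`.
(finite) for `P` finite ... not needed.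
(G = 1) `inf_one`: by definition.
-/

namespace Pool.Agent.Work.MP_49847a_an

open MvPolynomial

variable {n k l d : ℕ} {P : Fin k → MvPolynomial (Fin n) ℂ} {Q : Fin l → MvPolynomial (Fin n) ℂ}

theorem pos_of_lead (hL : Lead2 d P Q) : Pos2 P Q := by
  obtain ⟨_, _, δ, hδ, R₀, h⟩ := hL
  refine ⟨max R₀ 1, fun z hz => ?_⟩
  have h1 := h z ((le_max_left _ _).trans hz)
  have h2 : (1 : ℝ) ≤ nn z := (le_max_right _ _).trans hz
  have h3 : 0 < nn z := by linarith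
  have h4 : 0 < δ * nn z ^ d := by positivity
  linarith

theorem inf_of_lead (hL : Lead2 d P Q) : Inf2 P Q := by
  obtain ⟨hP, hQ, δ, hδ, R₀, h⟩ := hL
  obtain ⟨F, hF⟩ := exists_r2 P Q
  have hD : Dg d F := ⟨k, P, l, Q, hP, hQ, fun z => hF z⟩
  obtain ⟨M, hM, hb⟩ := pol_bd hD
  have hlow : ∀ z : Fin n → ℂ, max R₀ 1 ≤ nn z → δ ≤ r2 P Q z ∧ (1 + nn z) ^ d ≤ 2 ^ d / δ * r2 P Q z := by
    intro z hz
    have h1 := h z ((le_max_left _ _).trans hz)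
    have h2 : (1 : ℝ) ≤ nn z := (le_max_right _ _).trans hz
    have h3 : (1 : ℝ) ≤ nn z ^ d := one_le_pow₀ h2
    constructor
    · nlinarith
    · have h4 : (1 + nn z) ^ d ≤ (2 * nn z) ^ d :=
        pow_le_pow_left₀ (by linarith) (by linarith) d
      rw [mul_pow] at h4
      have h5 : 2 ^ d / δ * (δ * nn z ^ d) ≤ 2 ^ d / δ * r2 P Q z :=
        mul_le_mul_of_nonneg_left h1 (by positivity)
      have h6 : 2 ^ d / δ * (δ * nn z ^ d) = 2 ^ d * nn z ^ d := by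
        field_simp
      linarith
  have hev1 : ∀ z : Fin n → ℂ, ev (1 : MvPolynomial (Fin n ⊕ Fin n) ℝ) z = 1 := fun z => by
    simp [ev]
  refine ⟨1, δ, max R₀ 1, hδ, fun z hz => ?_, fun w => ⟨M * (1 + nn w) ^ d * (2 ^ d / δ), fun z hz => ?_⟩⟩
  · rw [hev1, mul_one]
    exact (hlow z hz).1
  · rw [hev1, mul_one, pol_one, mul_one, ← pol_r2 hF]
    refine (hb z w).trans ?_
    have hw : 0 ≤ nn w := nn_nonneg w
    have h7 : M * (1 + nn w) ^ d * (1 + nn z) ^ d ≤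
        M * (1 + nn w) ^ d * (2 ^ d / δ * r2 P Q z) :=
      mul_le_mul_of_nonneg_left (hlow z hz).2 (by positivity)
    calc M * ((1 + nn z) ^ d * (1 + nn w) ^ d) = M * (1 + nn w) ^ d * (1 + nn z) ^ d := by ring
      _ ≤ M * (1 + nn w) ^ d * (2 ^ d / δ * r2 P Q z) := h7
      _ = M * (1 + nn w) ^ d * (2 ^ d / δ) * r2 P Q z := by ring

end Pool.Agent.Work.MP_49847a_an
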