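import Pool.Agent.Work.MP_49847a_an.Cp.Hull3

/-!
# Module NecI: necessity of the growth condition

Proof.  `X2 P Q` is compact (`X2_compact3`), so `nn z < c` on it for some `c > 0` (`nn_bdd`); `Quillen2` for
`R = C c - WW n 0` gives `c - nn z = nrm p z + r2 P Q z * ev H z` for all `z`.  `G = -H`:
`r2 P Q z * ev G z = nrm p z + nn z - c`.  As real polynomials (`ev_ext`, `exists_nrm`, `pol_nrm`, `pol_WW`, `pol_r2`, `pol_mul`):
`R2 P Q z w * pol G z w = ∑ p_j(z) conj(p_j(w)) + ip z w - c`.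
(lower bound) `≥ 1` for `nn z ≥ c + 1`.
(growth) by Cauchy-Schwarz `‖R2 P Q z w * pol G z w‖² ≤ (nrm p z + nn z + c) (nrm p w + nn w + c)` and, for `nn z ≥ c + 1`,
`nrm p z + nn z + c = ρ(z) + 2 c ≤ (1 + 2 c) ρ(z)`.
(n = 0) fine too.
-/

namespace Pool.Agent.Work.MP_49847a_an

open MvPolynomial

variable {n k l : ℕ} {P : Fin k → MvPolynomial (Fin n) ℂ} {Q : Fin l → MvPolynomial (Fin n) ℂ}

private theorem ni_two {A a b : ℝ} (hA : 0 ≤ A) (ha : 0 ≤ a) (hb : 0 ≤ b) (h : A ^ 2 ≤ a * b) :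
    2 * A ≤ a + b := by
  have h1 : (2 * A) ^ 2 ≤ (a + b) ^ 2 := by nlinarith [sq_nonneg (a - b)]
  exact (sq_le_sq₀ (by positivity) (by positivity)).1 h1

private theorem ni_cs {A B c a₁ a₂ b₁ b₂ : ℝ} (hA : 0 ≤ A) (hB : 0 ≤ B) (hc : 0 ≤ c)
    (ha₁ : 0 ≤ a₁) (ha₂ : 0 ≤ a₂) (hb₁ : 0 ≤ b₁) (hb₂ : 0 ≤ b₂)
    (h₁ : A ^ 2 ≤ a₁ * a₂) (h₂ : B ^ 2 ≤ b₁ * b₂) :
    (A + B + c) ^ 2 ≤ (a₁ + b₁ + c) * (a₂ + b₂ + c) := by
  have e1 : 2 * A ≤ a₁ + a₂ := ni_two hA ha₁ ha₂ h₁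
  have e2 : 2 * B ≤ b₁ + b₂ := ni_two hB hb₁ hb₂ h₂
  have e3 : 2 * (A * B) ≤ a₁ * b₂ + b₁ * a₂ := by
    refine ni_two (mul_nonneg hA hB) (mul_nonneg ha₁ hb₂) (mul_nonneg hb₁ ha₂) ?_
    calc (A * B) ^ 2 = A ^ 2 * B ^ 2 := by ring
      _ ≤ (a₁ * a₂) * (b₁ * b₂) := mul_le_mul h₁ h₂ (sq_nonneg _) (mul_nonneg ha₁ ha₂)
      _ = a₁ * b₂ * (b₁ * a₂) := by ring
  have e4 : c * (2 * A) ≤ c * (a₁ + a₂) := mul_le_mul_of_nonneg_left e1 hc
  have e5 : c * (2 * B) ≤ c * (b₁ + b₂) := mul_le_mul_of_nonneg_left e2 hc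
  nlinarith

private theorem ni_nn (z : Fin n → ℂ) : 0 ≤ nn z := by
  unfold nn
  positivity

private theorem ni_nrm {m : ℕ} (p : Fin m → MvPolynomial (Fin n) ℂ) (z : Fin n → ℂ) :
    0 ≤ nrm p z := by
  unfold nrm
  positivity

theorem nec_inf (hP : Pos2 P Q) (hQ : Quillen2 P Q) : Inf2 P Q := by
  obtain ⟨c, hc0, hc⟩ := nn_bdd (X2_compact3 hP)
  have hev : ∀ z, ev (C c - WW n 0 : MvPolynomial (Fin n ⊕ Fin n) ℝ) z = c - nn z := by
    intro z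
    have h1 : ev (C c - WW n 0 : MvPolynomial (Fin n ⊕ Fin n) ℝ) z
        = ev (C c : MvPolynomial (Fin n ⊕ Fin n) ℝ) z - ev (WW n 0) z := by
      simp [ev]
    rw [h1, ev_C, ev_WW, zero_add]
  obtain ⟨m, p, H, hH⟩ := hQ (C c - WW n 0) fun z hz => by
    rw [hev z]
    linarith [hc z hz]
  have hG : ∀ z, r2 P Q z * ev (-H) z = nrm p z + nn z - c := by
    intro z
    have h1 := hH z
    rw [hev z] at h1
    have h2 : ev (-H) z = - ev H z := by simp [ev]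
    rw [h2]
    linarith
  obtain ⟨A, hA⟩ := exists_nrm P
  obtain ⟨B, hB⟩ := exists_nrm Q
  obtain ⟨N, hN⟩ := exists_nrm p
  have hr : ∀ z, ev (A - B) z = r2 P Q z := by
    intro z
    have h1 : ev (A - B) z = ev A z - ev B z := by simp [ev]
    rw [h1, hA z, hB z]
    rfl
  have hid : (A - B) * (-H) = N + WW n (-c) := by
    apply ev_ext
    intro z
    have h1 : ev (N + WW n (-c)) z = ev N z + ev (WW n (-c)) z := by simp [ev]
    rw [ev_mul, hr z, hG z, h1, hN z, ev_WW]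
    ring
  have hpol : ∀ z w, R2 P Q z w * pol (-H) z w
      = ∑ j, eval z (p j) * (starRingEnd ℂ) (eval w (p j)) + ip z w - (c : ℂ) := by
    intro z w
    rw [← pol_r2 hr z w, ← pol_mul, hid, pol_add, pol_nrm hN z w, pol_WW]
    push_cast
    ring
  refine ⟨-H, 1, c + 1, one_pos, fun z hz => ?_, fun w => ?_⟩
  · rw [hG z]
    linarith [ni_nrm p z]
  · refine ⟨(1 + 2 * c) * (nrm p w + nn w + c), fun z hz => ?_⟩
    have hz1 : 1 ≤ nrm p z + nn z - c := by linarith [ni_nrm p z]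
    rw [hG z, hpol z w]
    have n1 : ‖∑ j, eval z (p j) * (starRingEnd ℂ) (eval w (p j))‖
        ≤ ∑ j, ‖eval z (p j)‖ * ‖eval w (p j)‖ := by
      refine (norm_sum_le _ _).trans (le_of_eq (Finset.sum_congr rfl fun j _ => ?_))
      rw [norm_mul, RCLike.norm_conj]
    have n2 : ‖ip z w‖ ≤ ∑ i, ‖z i‖ * ‖w i‖ := by
      unfold ip
      refine (norm_sum_le _ _).trans (le_of_eq (Finset.sum_congr rfl fun j _ => ?_))
      rw [norm_mul, RCLike.norm_conj]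
    have n3 : ‖(c : ℂ)‖ = c := by
      rw [Complex.norm_real, Real.norm_eq_abs, abs_of_pos hc0]
    have n4 : ‖∑ j, eval z (p j) * (starRingEnd ℂ) (eval w (p j)) + ip z w - (c : ℂ)‖
        ≤ (∑ j, ‖eval z (p j)‖ * ‖eval w (p j)‖) + (∑ i, ‖z i‖ * ‖w i‖) + c := by
      calc _ ≤ ‖∑ j, eval z (p j) * (starRingEnd ℂ) (eval w (p j)) + ip z w‖ + ‖(c : ℂ)‖ :=
            norm_sub_le _ _
        _ ≤ ‖∑ j, eval z (p j) * (starRingEnd ℂ) (eval w (p j))‖ + ‖ip z w‖ + ‖(c : ℂ)‖ := by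
            gcongr
            exact norm_add_le _ _
        _ ≤ _ := by
            rw [n3]
            gcongr
    have m1 : (∑ j, ‖eval z (p j)‖ * ‖eval w (p j)‖) ^ 2 ≤ nrm p z * nrm p w :=
      Finset.sum_mul_sq_le_sq_mul_sq _ _ _
    have m2 : (∑ i, ‖z i‖ * ‖w i‖) ^ 2 ≤ nn z * nn w :=
      Finset.sum_mul_sq_le_sq_mul_sq _ _ _
    have m3 := ni_cs (A := ∑ j, ‖eval z (p j)‖ * ‖eval w (p j)‖) (B := ∑ i, ‖z i‖ * ‖w i‖) (c := c)
      (by positivity) (by positivity) hc0.le (ni_nrm p z) (ni_nrm p w) (ni_nn z) (ni_nn w) m1 m2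
    have m4 : ‖∑ j, eval z (p j) * (starRingEnd ℂ) (eval w (p j)) + ip z w - (c : ℂ)‖ ^ 2
        ≤ ((∑ j, ‖eval z (p j)‖ * ‖eval w (p j)‖) + (∑ i, ‖z i‖ * ‖w i‖) + c) ^ 2 :=
      pow_le_pow_left₀ (norm_nonneg _) n4 2
    have m5 : nrm p z + nn z + c ≤ (1 + 2 * c) * (nrm p z + nn z - c) := by nlinarith
    have m6 : 0 ≤ nrm p w + nn w + c := by
      linarith [ni_nrm p w, ni_nn w]
    calc _ ≤ _ := m4
      _ ≤ (nrm p z + nn z + c) * (nrm p w + nn w + c) := m3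
      _ ≤ ((1 + 2 * c) * (nrm p z + nn z - c)) * (nrm p w + nn w + c) :=
          mul_le_mul_of_nonneg_right m5 m6
      _ = _ := by ring

end Pool.Agent.Work.MP_49847a_an
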