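import Pool.Agent.Work.MP_49847a_an.Cp.Suf3
import Pool.Agent.Work.MP_49847a_an.Cp.NecI
import Pool.Agent.Work.MP_49847a_an.Cp.NecL3
import Pool.Agent.Work.MP_49847a_an.Cp.InfL

/-!
# The complete criterion (assembly)
-/

namespace Pool.Agent.Work.MP_49847a_an

open MvPolynomial

variable {n k l : ℕ} {P : Fin k → MvPolynomial (Fin n) ℂ} {Q : Fin l → MvPolynomial (Fin n) ℂ}

theorem inf_zero (hn : n = 0) : Inf2 P Q := by
  subst hn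
  refine ⟨1, 1, 1, one_pos, fun z hz => ?_, fun w => ⟨0, fun z hz => ?_⟩⟩
  · rw [show nn z = 0 by simp [nn]] at hz
    linarith
  · rw [show nn z = 0 by simp [nn]] at hz
    linarith

theorem quillen3_iff (hP : Pos2 P Q) :
    Quillen2 P Q ↔ Sep2 P Q ∧ Levi2 P Q ∧ Inn2 P Q ∧ Inf2 P Q := by
  by_cases hn : n = 0
  · obtain ⟨h1, h2, h3, h4⟩ := dim_zero (P := P) (Q := Q) hn
    exact ⟨fun _ => ⟨h2, h3, h4, inf_zero hn⟩, fun _ => h1⟩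
  constructor
  · intro hQ
    obtain ⟨h1, h2, h3⟩ := nec_all3 hn hP hQ
    exact ⟨h1, h2, h3, nec_inf hP hQ⟩
  · rintro ⟨h1, h2, h3, h4⟩
    exact suf3 hn hP h1 h2 h3 h4

theorem quillen3_smooth (hP : Pos2 P Q) (hs : Smooth2 P Q) :
    Quillen2 P Q ↔ Sep2 P Q ∧ Levi2 P Q ∧ Inf2 P Q := by
  rw [quillen3_iff hP]
  constructor
  · rintro ⟨h1, h2, _, h4⟩
    exact ⟨h1, h2, h4⟩
  · rintro ⟨h1, h2, h4⟩
    refine ⟨h1, h2, fun a ha => ?_, h4⟩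
    by_cases hn : n = 0
    · exact (dim_zero (P := P) (Q := Q) hn).2.2.2 a ha
    · obtain ⟨v, hv⟩ := hs a ha
      exact pen3 hn hP h1 ha hv

theorem exists_families (F : MvPolynomial (Fin n ⊕ Fin n) ℝ) :
    ∃ (k l : ℕ) (P : Fin k → MvPolynomial (Fin n) ℂ) (Q : Fin l → MvPolynomial (Fin n) ℂ),
      ∀ z, ev F z = r2 P Q z := by
  obtain ⟨e, m, a, m', b, _, _, h⟩ := Dg_exists F
  exact ⟨m, m', a, b, h⟩

theorem main3 (hP : Pos2 P Q) :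
    (Quillen2 P Q ↔ Sep2 P Q ∧ Levi2 P Q ∧ Inn2 P Q ∧ Inf2 P Q) ∧
    (Smooth2 P Q → (Quillen2 P Q ↔ Sep2 P Q ∧ Levi2 P Q ∧ Inf2 P Q)) ∧
    (Generates2 P Q → (SumsOn (X2 P Q) ↔ Quillen2 P Q)) :=
  ⟨quillen3_iff hP, quillen3_smooth hP, sums_iff⟩

end Pool.Agent.Work.MP_49847a_an
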