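import Pool.Agent.Work.MP_49847a_an.Cp.CpDefs
import Pool.Agent.Work.MP_49847a_an.Sg.Hp

/-!
# Module HermSp: a Hermitian polynomial is a Hermitian form in finitely many of its sections

Proof.  `Dg_exists F` gives `ev F z = nrm f z - nrm g z`; `pol_r2` (or the same argument): `pol F z w = R2 f g z w`.
(pol_deg) so `z ↦ pol F z w` is the value of the polynomial `E_w = ∑ conj(f_j(w)) f_j - ∑ conj(g_j(w)) g_j`, of degree at most the
maximum of the degrees of the `f_j, g_j` (independent of `w`).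
(herm_span) (1) All `E_w` lie in the finite dimensional span of the `f_j, g_j`; let `V` be the span of all `E_w`.  There are
`w_1, …, w_s` with `e_i = E_{w_i}` linearly independent and spanning `V` (`exists_linearIndependent`, `Submodule.fg`, or
`Submodule.fg_span_iff_fg_span_finset_subset`).
(2) So `pol F z w = ∑_i γ_i(w) e_i(z)`.  The vectors `(e_i(x))_i ∈ ℂ^s`, `x ∈ ℂⁿ`, span `ℂ^s` (otherwise a nonzero linear form
vanishes on all of them, `∑ λ_i e_i = 0` by `MvPolynomial.funext`).  So the unit vectors are combinations of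
vectors `(e_i(x_k))_i`, and `γ_i(w)` is a linear combination of the numbers
`pol F x_k w = conj(pol F w x_k) = conj(E_{x_k}(w))` (`pol_conj`), and `E_{x_k} ∈ V` is a combination of the `e_j`.  Hence
`pol F z w = ∑_{i,j} c_{ij} e_i(z) conj(e_j(w))`; take `x i = w_i`.
(Module InfA contains the same argument; if it is proved already, look there.)
-/

namespace Pool.Agent.Work.MP_49847a_an

open MvPolynomial

variable {n : ℕ}

private theorem hs_sum (S : MvPolynomial (Fin n ⊕ Fin n) ℂ) :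
    ∃ (m : ℕ) (a b : Fin m → MvPolynomial (Fin n) ℂ), ∀ z w : Fin n → ℂ,
      eval (Sum.elim z (fun i => (starRingEnd ℂ) (w i))) S =
        ∑ j, eval z (a j) * (starRingEnd ℂ) (eval w (b j)) := by
  induction S using MvPolynomial.induction_on with
  | C c => exact ⟨1, fun _ => C c, fun _ => 1, fun z w => by simp⟩
  | add p q hp hq =>
    obtain ⟨m, a, b, h⟩ := hp
    obtain ⟨m', a', b', h'⟩ := hq
    refine ⟨m + m', Fin.append a a', Fin.append b b', fun z w => ?_⟩
    rw [map_add, h, h', Fin.sum_univ_add]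
    simp only [Fin.append_left, Fin.append_right]
  | mul_X p i hp =>
    obtain ⟨m, a, b, h⟩ := hp
    rcases i with i | i
    · refine ⟨m, fun j => a j * X i, b, fun z w => ?_⟩
      rw [map_mul, h, eval_X, Sum.elim_inl, Finset.sum_mul]
      refine Finset.sum_congr rfl fun j _ => ?_
      rw [map_mul, eval_X]
      ring
    · refine ⟨m, a, fun j => b j * X i, fun z w => ?_⟩
      rw [map_mul, h, eval_X, Sum.elim_inr, Finset.sum_mul]
      refine Finset.sum_congr rfl fun j _ => ?_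
      rw [map_mul, eval_X, map_mul]
      ring

private theorem hs_ab (F : MvPolynomial (Fin n ⊕ Fin n) ℝ) :
    ∃ (m : ℕ) (a b : Fin m → MvPolynomial (Fin n) ℂ), ∀ z w : Fin n → ℂ,
      pol F z w = ∑ j, eval z (a j) * (starRingEnd ℂ) (eval w (b j)) := by
  obtain ⟨S, hS⟩ := exists_zb F
  obtain ⟨m, a, b, h⟩ := hs_sum S
  exact ⟨m, a, b, fun z w => by rw [← hS, h]⟩

private theorem hs_ginv {s : ℕ} (M : Matrix (Fin s) (Fin s) ℂ) :
    ∃ N : Matrix (Fin s) (Fin s) ℂ, M * N * M = M := by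
  let f : (Fin s → ℂ) →ₗ[ℂ] (Fin s → ℂ) := Matrix.toLin' M
  obtain ⟨g, hg⟩ := LinearMap.exists_rightInverse_of_surjective f.rangeRestrict
    (LinearMap.range_rangeRestrict f)
  obtain ⟨G, hG⟩ := LinearMap.exists_extend g
  refine ⟨LinearMap.toMatrix' G, ?_⟩
  apply Matrix.toLin'.injective
  rw [Matrix.toLin'_mul, Matrix.toLin'_mul, Matrix.toLin'_toMatrix']
  apply LinearMap.ext
  intro v
  have h1 : G (f v) = g (f.rangeRestrict v) := by
    rw [← hG]
    rfl
  have h2 : f (g (f.rangeRestrict v)) = f v := by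
    have h3 := congrArg Subtype.val (LinearMap.congr_fun hg (f.rangeRestrict v))
    exact h3
  change f (G (f v)) = f v
  rw [h1, h2]

private theorem hs_span {X : Type*} {m : ℕ} (v : X → Fin m → ℂ) :
    ∃ (s : ℕ) (x : Fin s → X), ∀ w, ∃ γ : Fin s → ℂ, v w = ∑ i, γ i • v (x i) := by
  classical
  have hfg : (Submodule.span ℂ (Set.range v)).FG := IsNoetherian.noetherian _
  obtain ⟨t, ht, hst⟩ := Submodule.fg_span_iff_fg_span_finset_subset _ |>.mp hfg
  have hx : ∀ y : t, ∃ x : X, v x = y := fun y => ht y.2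
  choose x hx using hx
  refine ⟨t.card, fun i => x (t.equivFin.symm i), fun w => ?_⟩
  have h1 : v w ∈ Submodule.span ℂ (Set.range fun i => v (x (t.equivFin.symm i))) := by
    have h2 : (t : Set (Fin m → ℂ)) ⊆ Set.range fun i => v (x (t.equivFin.symm i)) := by
      intro y hy
      exact ⟨t.equivFin ⟨y, hy⟩, by simp [hx]⟩
    refine Submodule.span_mono h2 ?_
    rw [← hst]
    exact Submodule.subset_span ⟨w, rfl⟩
  obtain ⟨c, hc⟩ := (Submodule.mem_span_range_iff_exists_fun ℂ).mp h1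
  exact ⟨c, hc.symm⟩

theorem pol_deg (F : MvPolynomial (Fin n ⊕ Fin n) ℝ) :
    ∃ d : ℕ, ∀ w, ∃ e : MvPolynomial (Fin n) ℂ, e.totalDegree ≤ d ∧ ∀ z, eval z e = pol F z w := by
  obtain ⟨m, a, b, h⟩ := hs_ab F
  refine ⟨Finset.univ.sup fun j => (a j).totalDegree, fun w =>
    ⟨∑ j, C ((starRingEnd ℂ) (eval w (b j))) * a j, ?_, fun z => ?_⟩⟩
  · refine (totalDegree_finsetSum _ _).trans (Finset.sup_mono_fun fun j _ => ?_)
    refine (totalDegree_mul _ _).trans ?_
    rw [totalDegree_C, zero_add]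
  · rw [h, map_sum]
    refine Finset.sum_congr rfl fun j _ => ?_
    rw [map_mul, eval_C, mul_comm]

theorem herm_span (F : MvPolynomial (Fin n ⊕ Fin n) ℝ) :
    ∃ (s : ℕ) (x : Fin s → Fin n → ℂ) (c : Fin s → Fin s → ℂ), ∀ z w : Fin n → ℂ,
      pol F z w = ∑ i, ∑ j, c i j * pol F z (x i) * (starRingEnd ℂ) (pol F w (x j)) := by
  obtain ⟨m, a, b, h⟩ := hs_ab F
  obtain ⟨s, x, hx⟩ := hs_span (fun w : Fin n → ℂ => fun j => (starRingEnd ℂ) (eval w (b j)))
  choose γ hγ using hx
  have h1 : ∀ z w, pol F z w = ∑ i, γ w i * pol F z (x i) := by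
    intro z w
    have h2 : ∀ j, (starRingEnd ℂ) (eval w (b j)) =
        ∑ i, γ w i * (starRingEnd ℂ) (eval (x i) (b j)) := by
      intro j
      have := congrFun (hγ w) j
      simpa [Finset.sum_apply] using this
    rw [h]
    simp only [h]
    simp_rw [h2, Finset.mul_sum]
    rw [Finset.sum_comm]
    refine Finset.sum_congr rfl fun i _ => Finset.sum_congr rfl fun j _ => ?_
    ring
  have h2 : ∀ z w, pol F z w = ∑ i, (starRingEnd ℂ) (γ z i) * pol F (x i) w := by
    intro z w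
    rw [← pol_conj F w z, h1 w z, map_sum]
    refine Finset.sum_congr rfl fun i _ => ?_
    rw [map_mul, pol_conj]
  obtain ⟨M, hM⟩ : ∃ M : Matrix (Fin s) (Fin s) ℂ, ∀ i j, M i j = pol F (x i) (x j) :=
    ⟨Matrix.of fun i j => pol F (x i) (x j), fun _ _ => rfl⟩
  obtain ⟨N, hN⟩ := hs_ginv M
  refine ⟨s, x, fun i j => N i j, fun z w => ?_⟩
  -- `pol F z (x i) = ∑_k conj γ_k(z) M_ki`
  have h3 : ∀ z i, pol F z (x i) = ∑ k, (starRingEnd ℂ) (γ z k) * M k i := by
    intro z i
    simp only [hM]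
    exact h2 z (x i)
  have h4 : ∀ w j, (starRingEnd ℂ) (pol F w (x j)) = ∑ k, M j k * γ w k := by
    intro w j
    rw [pol_conj, h1 (x j) w]
    simp only [hM]
    exact Finset.sum_congr rfl fun k _ => mul_comm _ _
  have h5 : pol F z w = ∑ k, ∑ l, (starRingEnd ℂ) (γ z k) * M k l * γ w l := by
    rw [h2 z w]
    refine Finset.sum_congr rfl fun k _ => ?_
    rw [h1 (x k) w, Finset.mul_sum]
    refine Finset.sum_congr rfl fun l _ => ?_
    rw [hM]
    ring
  have h6 : ∀ k l, M k l = ∑ i, ∑ j, M k i * N i j * M j l := by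
    intro k l
    have h7 : M k l = (M * N * M) k l := by rw [hN]
    rw [h7, Matrix.mul_apply, Finset.sum_comm]
    refine Finset.sum_congr rfl fun j _ => ?_
    rw [Matrix.mul_apply, Finset.sum_mul]
  rw [h5]
  simp_rw [h4, h3]
  calc ∑ k, ∑ l, (starRingEnd ℂ) (γ z k) * M k l * γ w l
      = ∑ k, ∑ l, ∑ i, ∑ j, (starRingEnd ℂ) (γ z k) * (M k i * N i j * M j l) * γ w l := by
        refine Finset.sum_congr rfl fun k _ => Finset.sum_congr rfl fun l _ => ?_
        rw [h6 k l, Finset.mul_sum, Finset.sum_mul]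
        refine Finset.sum_congr rfl fun i _ => ?_
        rw [Finset.mul_sum, Finset.sum_mul]
    _ = ∑ k, ∑ i, ∑ j, ∑ l, (starRingEnd ℂ) (γ z k) * (M k i * N i j * M j l) * γ w l := by
        refine Finset.sum_congr rfl fun k _ => ?_
        rw [Finset.sum_comm]
        refine Finset.sum_congr rfl fun i _ => ?_
        rw [Finset.sum_comm]
    _ = ∑ i, ∑ j, ∑ k, ∑ l, (starRingEnd ℂ) (γ z k) * (M k i * N i j * M j l) * γ w l := by
        rw [Finset.sum_comm]
        refine Finset.sum_congr rfl fun i _ => ?_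
        rw [Finset.sum_comm]
    _ = _ := by
        refine Finset.sum_congr rfl fun i _ => Finset.sum_congr rfl fun j _ => ?_
        rw [mul_assoc, Finset.sum_mul_sum, Finset.mul_sum]
        refine Finset.sum_congr rfl fun k _ => ?_
        rw [Finset.mul_sum]
        refine Finset.sum_congr rfl fun l _ => ?_
        ring

theorem herm_bound (F : MvPolynomial (Fin n ⊕ Fin n) ℝ) :
    ∃ (s : ℕ) (x : Fin s → Fin n → ℂ) (C : ℝ), 0 ≤ C ∧
      ∀ z : Fin n → ℂ, |ev F z| ≤ C * ∑ i, ‖pol F z (x i)‖ ^ 2 := by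
  -- from `herm_span` with `w = z` (`pol_self`), `‖a‖ ‖b‖ ≤ ‖a‖² + ‖b‖²`
  obtain ⟨s, x, c, h⟩ := herm_span F
  refine ⟨s, x, ∑ i, ∑ j, ‖c i j‖, Finset.sum_nonneg fun i _ => Finset.sum_nonneg fun j _ =>
    norm_nonneg _, fun z => ?_⟩
  have h1 : |ev F z| = ‖pol F z z‖ := by rw [pol_self, Complex.norm_real, Real.norm_eq_abs]
  rw [h1, h z z, Finset.sum_mul]
  refine (norm_sum_le _ _).trans (Finset.sum_le_sum fun i _ => ?_)
  rw [Finset.sum_mul]
  refine (norm_sum_le _ _).trans (Finset.sum_le_sum fun j _ => ?_)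
  rw [norm_mul, norm_mul, RCLike.norm_conj, mul_assoc]
  refine mul_le_mul_of_nonneg_left ?_ (norm_nonneg _)
  have hi : ‖pol F z (x i)‖ ^ 2 ≤ ∑ i, ‖pol F z (x i)‖ ^ 2 :=
    Finset.single_le_sum (f := fun i => ‖pol F z (x i)‖ ^ 2) (fun _ _ => by positivity)
      (Finset.mem_univ i)
  have hj : ‖pol F z (x j)‖ ^ 2 ≤ ∑ i, ‖pol F z (x i)‖ ^ 2 :=
    Finset.single_le_sum (f := fun i => ‖pol F z (x i)‖ ^ 2) (fun _ _ => by positivity)
      (Finset.mem_univ j)
  nlinarith [sq_nonneg (‖pol F z (x i)‖ - ‖pol F z (x j)‖)]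

end Pool.Agent.Work.MP_49847a_an
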