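import Mathlib

/-!
# Module ProdN: a product of polynomials bounds the factors

Proof.  Polynomials of total degree at most `d` are the combinations of the finitely many monomials of degree `≤ d`
(`MvPolynomial.as_sum`, or coordinates in `MvPolynomial.restrictTotalDegree`, a finite dimensional space).
Let `f_c = ∑_m c_m m` for `c ∈ ℂ^a` (all monomials of degree `≤ d`) and `g_b` for `b ∈ ℂ^(a')` (degree `≤ e`).
Let `x_i` be the points of the grid `{0, …, d + e}ⁿ`: a polynomial of total degree `≤ d + e` vanishing at all of them is zero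
(`MvPolynomial.eq_zero_of_eval_zero_at_prod_finset`).
The function `N(c, b) = ∑_i ‖(f_c g_b)(x_i)‖` is continuous on the compact set `‖c‖ = ‖b‖ = 1` and has no zero
there (`f_c ≠ 0`, `g_b ≠ 0`, so `f_c g_b ≠ 0`, of degree `≤ d + e`).  So `N ≥ δ > 0` there (the set may be empty, fine), and by homogeneity
`N(c, b) ≥ δ ‖c‖ ‖b‖`.  Finally `‖f_c(w)‖ ≤ M ‖c‖`, `‖g_b(w')‖ ≤ M ‖b‖`, `C = M²/δ`.
-/

namespace Pool.Agent.Work.MP_49847a_an

open MvPolynomial

private lemma prodN_bilin {V W : Type*} [NormedAddCommGroup V] [NormedSpace ℂ V]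
    [FiniteDimensional ℂ V] [NormedAddCommGroup W] [NormedSpace ℂ W] [FiniteDimensional ℂ W]
    {ι : Type*} [Fintype ι] (L : ι → V →ₗ[ℂ] ℂ) (M : ι → W →ₗ[ℂ] ℂ)
    (l : V →ₗ[ℂ] ℂ) (m : W →ₗ[ℂ] ℂ)
    (h : ∀ v w, v ≠ 0 → w ≠ 0 → ∃ i, L i v ≠ 0 ∧ M i w ≠ 0) :
    ∃ C : ℝ, 0 ≤ C ∧ ∀ v w, ‖l v‖ * ‖m w‖ ≤ C * ∑ i, ‖L i v‖ * ‖M i w‖ := by
  haveI := FiniteDimensional.proper ℂ V
  haveI := FiniteDimensional.proper ℂ W
  have hL : ∀ i, Continuous (L i) := fun i => (L i).continuous_of_finiteDimensional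
  have hM : ∀ i, Continuous (M i) := fun i => (M i).continuous_of_finiteDimensional
  have hl : Continuous l := l.continuous_of_finiteDimensional
  have hm : Continuous m := m.continuous_of_finiteDimensional
  have hpos : ∀ v w, v ≠ 0 → w ≠ 0 → 0 < ∑ i, ‖L i v‖ * ‖M i w‖ := by
    intro v w hv hw
    obtain ⟨i, h1, h2⟩ := h v w hv hw
    refine Finset.sum_pos' (fun j _ => by positivity) ⟨i, Finset.mem_univ i, ?_⟩
    have := norm_pos_iff.mpr h1
    have := norm_pos_iff.mpr h2
    positivity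
  obtain ⟨C, hC⟩ := ((isCompact_sphere (0 : V) 1).prod
      (isCompact_sphere (0 : W) 1)).exists_bound_of_continuousOn
    (f := fun p : V × W => (‖l p.1‖ * ‖m p.2‖) / ∑ i, ‖L i p.1‖ * ‖M i p.2‖) (by
      refine ContinuousOn.div (by fun_prop) ?_ ?_
      · refine Continuous.continuousOn (continuous_finsetSum _ fun i _ => ?_)
        exact ((hL i).comp continuous_fst).norm.mul ((hM i).comp continuous_snd).norm
      · rintro ⟨v, w⟩ ⟨hv, hw⟩
        refine (hpos v w ?_ ?_).ne'
        · rintro rfl; simp at hv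
        · rintro rfl; simp at hw)
  refine ⟨max C 0, le_max_right _ _, fun v w => ?_⟩
  have hN0 : 0 ≤ ∑ i, ‖L i v‖ * ‖M i w‖ := Finset.sum_nonneg fun i _ => by positivity
  rcases eq_or_ne v 0 with rfl | hv
  · simp
  rcases eq_or_ne w 0 with rfl | hw
  · simp
  have hv' : 0 < ‖v‖ := norm_pos_iff.mpr hv
  have hw' : 0 < ‖w‖ := norm_pos_iff.mpr hw
  have key := hC (((‖v‖⁻¹ : ℝ) : ℂ) • v, ((‖w‖⁻¹ : ℝ) : ℂ) • w) (by
    constructor
    · simp [norm_smul, hv'.ne']
    · simp [norm_smul, hw'.ne'])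
  have hNv : ∀ (a b : ℝ), 0 ≤ a → 0 ≤ b → ∑ i, ‖L i ((a : ℂ) • v)‖ * ‖M i ((b : ℂ) • w)‖ =
      (a * b) * ∑ i, ‖L i v‖ * ‖M i w‖ := by
    intro a b ha hb
    rw [Finset.mul_sum]
    refine Finset.sum_congr rfl fun i _ => ?_
    rw [map_smul, map_smul, norm_smul, norm_smul, Complex.norm_real, Complex.norm_real,
      Real.norm_of_nonneg ha, Real.norm_of_nonneg hb]
    ring
  simp only at key
  rw [hNv _ _ (by positivity) (by positivity), map_smul, map_smul, norm_smul, norm_smul,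
    Complex.norm_real, Complex.norm_real, Real.norm_of_nonneg (inv_nonneg.mpr hv'.le),
    Real.norm_of_nonneg (inv_nonneg.mpr hw'.le)] at key
  have hN := hpos v w hv hw
  have e : ‖v‖⁻¹ * ‖l v‖ * (‖w‖⁻¹ * ‖m w‖) / (‖v‖⁻¹ * ‖w‖⁻¹ * ∑ i, ‖L i v‖ * ‖M i w‖) =
      (‖l v‖ * ‖m w‖) / ∑ i, ‖L i v‖ * ‖M i w‖ := by
    field_simp
  rw [e, Real.norm_of_nonneg (by positivity), div_le_iff₀ hN] at key
  exact key.trans (mul_le_mul_of_nonneg_right (le_max_left _ _) hN0)

private lemma prodN_finite (n d : ℕ) :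
    Module.Finite ℂ (restrictTotalDegree (Fin n) ℂ d) := by
  have h : Finite {m : Fin n →₀ ℕ | m.degree ≤ d} :=
    (Finsupp.finite_of_degree_le (σ := Fin n) d).to_subtype
  have h' : Finite {m : Fin n →₀ ℕ | (m.sum fun _ e => e) ≤ d} := by
    refine Set.Finite.to_subtype ((Finsupp.finite_of_degree_le (σ := Fin n) d).subset ?_)
    intro m hm
    exact hm
  exact Module.Finite.of_basis (basisRestrictSupport ℂ {m : Fin n →₀ ℕ | (m.sum fun _ e => e) ≤ d})

theorem prod_norm (n d e : ℕ) (w w' : Fin n → ℂ) :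
    ∃ (s : ℕ) (x : Fin s → Fin n → ℂ) (C : ℝ), 0 ≤ C ∧
      ∀ f g : MvPolynomial (Fin n) ℂ, f.totalDegree ≤ d → g.totalDegree ≤ e →
        ‖eval w f‖ * ‖eval w' g‖ ≤ C * ∑ i, ‖eval (x i) (f * g)‖ := by
  classical
  haveI := prodN_finite n d
  haveI := prodN_finite n e
  let bd := Module.finBasis ℂ (restrictTotalDegree (Fin n) ℂ d)
  let be := Module.finBasis ℂ (restrictTotalDegree (Fin n) ℂ e)
  let φ := bd.equivFun
  let ψ := be.equivFun
  let P := Fin n → Fin (d + e + 1)
  let pt : P → Fin n → ℂ := fun p j => ((p j : ℕ) : ℂ)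
  let ev : ∀ (k : ℕ) (z : Fin n → ℂ), restrictTotalDegree (Fin n) ℂ k →ₗ[ℂ] ℂ := fun k z =>
    (MvPolynomial.aeval z : MvPolynomial (Fin n) ℂ →ₐ[ℂ] ℂ).toLinearMap ∘ₗ
      (restrictTotalDegree (Fin n) ℂ k).subtype
  have hev : ∀ (k : ℕ) (z : Fin n → ℂ) (f : restrictTotalDegree (Fin n) ℂ k),
      ev k z f = eval z (f : MvPolynomial (Fin n) ℂ) := by
    intro k z f
    simp [ev]
  obtain ⟨C, hC0, hC⟩ := prodN_bilin (ι := P)
    (fun p => ev d (pt p) ∘ₗ φ.symm.toLinearMap) (fun p => ev e (pt p) ∘ₗ ψ.symm.toLinearMap)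
    (ev d w ∘ₗ φ.symm.toLinearMap) (ev e w' ∘ₗ ψ.symm.toLinearMap) (by
      intro u v hu hv
      by_contra hcon
      push Not at hcon
      set f : restrictTotalDegree (Fin n) ℂ d := φ.symm u with hf
      set g : restrictTotalDegree (Fin n) ℂ e := ψ.symm v with hg
      have hf0 : (f : MvPolynomial (Fin n) ℂ) ≠ 0 := by
        intro h0
        apply hu
        have : f = 0 := Subtype.ext h0
        rw [hf] at this
        exact (LinearEquiv.map_eq_zero_iff _).mp this
      have hg0 : (g : MvPolynomial (Fin n) ℂ) ≠ 0 := by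
        intro h0
        apply hv
        have : g = 0 := Subtype.ext h0
        rw [hg] at this
        exact (LinearEquiv.map_eq_zero_iff _).mp this
      have hdf : (f : MvPolynomial (Fin n) ℂ).totalDegree ≤ d :=
        (mem_restrictTotalDegree _ _ _).mp f.2
      have hdg : (g : MvPolynomial (Fin n) ℂ).totalDegree ≤ e :=
        (mem_restrictTotalDegree _ _ _).mp g.2
      have hz : (f : MvPolynomial (Fin n) ℂ) * (g : MvPolynomial (Fin n) ℂ) = 0 := by
        refine MvPolynomial.eq_zero_of_eval_zero_at_prod_finset _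
          (fun _ => (Finset.range (d + e + 1)).image (fun k : ℕ => (k : ℂ))) ?_ ?_
        · intro i
          rw [Finset.card_image_of_injective _ Nat.cast_injective, Finset.card_range]
          refine Nat.lt_succ_of_le ((degreeOf_le_totalDegree _ i).trans
            ((totalDegree_mul _ _).trans (add_le_add hdf hdg)))
        · intro x hx
          have hx' : ∀ i, ∃ k : ℕ, k < d + e + 1 ∧ (k : ℂ) = x i := by
            intro i
            obtain ⟨k, hk, hk'⟩ := Finset.mem_image.mp (hx i)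
            exact ⟨k, Finset.mem_range.mp hk, hk'⟩
          choose k hk hk' using hx'
          have hxp : x = pt (fun i => ⟨k i, hk i⟩) := by
            funext i
            simp [pt, hk' i]
          have h1 := hcon (fun i => ⟨k i, hk i⟩)
          simp only [LinearMap.comp_apply, LinearEquiv.coe_coe, hev] at h1
          rw [map_mul, hxp]
          by_cases h2 : eval (pt fun i => ⟨k i, hk i⟩) (f : MvPolynomial (Fin n) ℂ) = 0
          · rw [h2, zero_mul]
          · rw [h1 h2, mul_zero]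
      exact (mul_ne_zero hf0 hg0) hz)
  refine ⟨Fintype.card P, fun i => pt ((Fintype.equivFin P).symm i), C, hC0, ?_⟩
  intro f g hf hg
  have h := hC (φ ⟨f, (mem_restrictTotalDegree _ _ _).mpr hf⟩)
    (ψ ⟨g, (mem_restrictTotalDegree _ _ _).mpr hg⟩)
  simp only [LinearMap.comp_apply, LinearEquiv.coe_coe, LinearEquiv.symm_apply_apply, hev] at h
  refine h.trans (le_of_eq ?_)
  congr 1
  rw [← Equiv.sum_comp (Fintype.equivFin P).symm]
  refine Finset.sum_congr rfl fun i _ => ?_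
  rw [map_mul, norm_mul]

end Pool.Agent.Work.MP_49847a_an
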