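import Pool.Agent.Work.MP_49847a_an.Cp.Defs4
import Pool.Agent.Work.MP_49847a_an.Cp.HermSp
import Pool.Agent.Work.MP_49847a_an.Cp.ProdN

/-!
# Module InfN: the growth condition with a factor `G` implies the one without

Proof.  Let `G, δ, R₀` be as in `Inf2`, `F` the real polynomial with `ev F = r2 P Q` and `pol F z w = R2 P Q z w` (`exists_r2`, `pol_r2`),
`ρ(z,w) = pol F z w * pol G z w`.
(1) Let `w, w' ∈ ℂⁿ`.  For fixed `z` the functions `x ↦ conj (pol F z x) = pol F x z` and `x ↦ pol G x z` (`pol_conj`) are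
polynomials of degree at most `d`, `e` (`pol_deg`, independent of `z`).  So `prod_norm n d e w w'` gives points `x_i` and `C` independent of `z`
with `‖pol F z w‖ ‖pol G z w'‖ ≤ C ∑_i ‖ρ(z, x_i)‖`, and `‖ρ(z,x_i)‖² ≤ C_i ρ(z,z)` for `R₀ ≤ nn z` by `Inf2`.  Hence
`‖pol F z w‖² ‖pol G z w'‖² ≤ C' ρ(z,z)` for `R₀ ≤ nn z`, where `C'` depends on `w, w'` only.
(2) `herm_bound G`: `ev G z ≤ K ∑_j ‖pol G z (x'_j)‖²`.  Therefore `‖pol F z w‖² ev G z ≤ C'' ρ(z,z) = C'' (r2 P Q z) (ev G z)` for `R₀ ≤ nn z`.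
(3) For `nn z` large `r2 P Q z > 0` (`Pos2`) and `r2 P Q z * ev G z ≥ δ > 0`, so `ev G z > 0`; divide.
-/

namespace Pool.Agent.Work.MP_49847a_an

open MvPolynomial

variable {n k l : ℕ} {P : Fin k → MvPolynomial (Fin n) ℂ} {Q : Fin l → MvPolynomial (Fin n) ℂ}

private theorem inf_four_aux {G : MvPolynomial (Fin n ⊕ Fin n) ℝ} {R₀ : ℝ}
    (h : ∀ w, ∃ C : ℝ, ∀ z, R₀ ≤ nn z → ‖R2 P Q z w * pol G z w‖ ^ 2 ≤ C * (r2 P Q z * ev G z))
    (w w' : Fin n → ℂ) :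
    ∃ C : ℝ, ∀ z, R₀ ≤ nn z →
      ‖R2 P Q z w‖ ^ 2 * ‖pol G z w'‖ ^ 2 ≤ C * (r2 P Q z * ev G z) := by
  obtain ⟨F, hF⟩ := exists_r2 P Q
  obtain ⟨d, hd⟩ := pol_deg F
  obtain ⟨e, he⟩ := pol_deg G
  obtain ⟨s, x, C, hC0, hC⟩ := prod_norm n d e w w'
  choose c hc using h
  refine ⟨C ^ 2 * (s * ∑ i, c (x i)), fun z hz => ?_⟩
  obtain ⟨f, hf, hfz⟩ := hd z
  obtain ⟨g, hg, hgz⟩ := he z
  have h1 := hC f g hf hg
  have hnF : ∀ y, ‖pol F y z‖ = ‖R2 P Q z y‖ := by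
    intro y
    rw [← pol_conj F z y, RCLike.norm_conj, pol_r2 hF]
  have hnG : ∀ y, ‖pol G y z‖ = ‖pol G z y‖ := by
    intro y
    rw [← pol_conj G z y, RCLike.norm_conj]
  rw [hfz, hgz, hnF, hnG] at h1
  have h2 : ∀ i, ‖eval (x i) (f * g)‖ = ‖R2 P Q z (x i) * pol G z (x i)‖ := by
    intro i
    rw [map_mul, hfz, hgz, norm_mul, norm_mul, hnF, hnG]
  simp only [h2] at h1
  have h3 : (∑ i, ‖R2 P Q z (x i) * pol G z (x i)‖) ^ 2 ≤
      s * ∑ i, ‖R2 P Q z (x i) * pol G z (x i)‖ ^ 2 := by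
    have := sq_sum_le_card_mul_sum_sq (s := (Finset.univ : Finset (Fin s)))
      (f := fun i => ‖R2 P Q z (x i) * pol G z (x i)‖)
    simpa using this
  have h4 : ∑ i, ‖R2 P Q z (x i) * pol G z (x i)‖ ^ 2 ≤
      (∑ i, c (x i)) * (r2 P Q z * ev G z) := by
    rw [Finset.sum_mul]
    exact Finset.sum_le_sum fun i _ => hc (x i) z hz
  calc ‖R2 P Q z w‖ ^ 2 * ‖pol G z w'‖ ^ 2 = (‖R2 P Q z w‖ * ‖pol G z w'‖) ^ 2 := by ring
    _ ≤ (C * ∑ i, ‖R2 P Q z (x i) * pol G z (x i)‖) ^ 2 :=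
        pow_le_pow_left₀ (by positivity) h1 2
    _ = C ^ 2 * (∑ i, ‖R2 P Q z (x i) * pol G z (x i)‖) ^ 2 := by ring
    _ ≤ C ^ 2 * (s * ((∑ i, c (x i)) * (r2 P Q z * ev G z))) := by
        refine mul_le_mul_of_nonneg_left (h3.trans ?_) (by positivity)
        exact mul_le_mul_of_nonneg_left h4 (by positivity)
    _ = C ^ 2 * (s * ∑ i, c (x i)) * (r2 P Q z * ev G z) := by ring

theorem inf_four (hP : Pos2 P Q) (h : Inf2 P Q) : Inf4 P Q := by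
  obtain ⟨R₁, hR₁⟩ := hP
  obtain ⟨G, δ, R₀, hδ, hlow, hG⟩ := h
  intro w
  obtain ⟨s, x, K, hK0, hK⟩ := herm_bound G
  have hA := fun j => inf_four_aux hG w (x j)
  choose c hc using hA
  refine ⟨K * ∑ j, c j, max R₀ R₁, fun z hz => ?_⟩
  have hz0 : R₀ ≤ nn z := (le_max_left _ _).trans hz
  have hz1 : R₁ ≤ nn z := (le_max_right _ _).trans hz
  have hr : 0 < r2 P Q z := hR₁ z hz1
  have hρ : 0 < r2 P Q z * ev G z := hδ.trans_le (hlow z hz0)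
  have hg : 0 < ev G z := (mul_pos_iff_of_pos_left hr).mp hρ
  have h1 : ‖R2 P Q z w‖ ^ 2 * ev G z ≤ (K * ∑ j, c j) * r2 P Q z * ev G z := by
    calc ‖R2 P Q z w‖ ^ 2 * ev G z ≤ ‖R2 P Q z w‖ ^ 2 * (K * ∑ j, ‖pol G z (x j)‖ ^ 2) :=
          mul_le_mul_of_nonneg_left ((le_abs_self _).trans (hK z)) (by positivity)
      _ = K * ∑ j, ‖R2 P Q z w‖ ^ 2 * ‖pol G z (x j)‖ ^ 2 := by
          rw [← Finset.mul_sum]
          ring
      _ ≤ K * ∑ j, c j * (r2 P Q z * ev G z) :=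
          mul_le_mul_of_nonneg_left (Finset.sum_le_sum fun j _ => hc j z hz0) hK0
      _ = (K * ∑ j, c j) * r2 P Q z * ev G z := by
          rw [← Finset.sum_mul]
          ring
  exact le_of_mul_le_mul_right h1 hg

end Pool.Agent.Work.MP_49847a_an
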