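import Pool.Agent.Work.MP_49847a_an.Cp.Defs4
import Pool.Agent.Work.MP_49847a_an.Cp.HermSp
import Pool.Agent.Work.MP_49847a_an.Cp.BddB

/-!
# Module InfS: the explicit growth condition implies the one with a factor

Proof.  Let `F` be the real polynomial with `ev F = r2 P Q`, `pol F z w = R2 P Q z w` (`exists_r2`, `pol_r2`), and `x_i, c_ij` from `herm_span F`;
`e_i` the polynomial with `e_i(z) = pol F z (x i)` (`pol_deg`).
(1) If all `e_i(z) = 0` then `r2 P Q z = ev F z = 0` (`herm_span` with `w = z`, `pol_self`), so `nn z ≤ R` for a suitable `R` by `Pos2`.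
`lower_pow`: `c ≤ nrm e z * (1 + nn z)^N` near infinity.
(2) By `Inf4` at the finitely many `x_i`: `nrm e z = ∑ ‖R2 P Q z (x i)‖² ≤ K r2 P Q z` near infinity, `K > 0`.
(3) Take `G = (WW n 1)^N`, `ev G z = (1 + nn z)^N`, `pol G z w = (1 + ip z w)^N` (`pol_WW`, `pol_pow`).  Then `r2 P Q z * ev G z ≥ c/K` near infinity.
(4) For `w ∈ ℂⁿ`: `‖R2 P Q z w‖² ≤ C_w ∑_i ‖pol F z (x i)‖² ≤ C_w K r2 P Q z` near infinity (`herm_span`; the radius does not depend on `w`),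
and `‖1 + ip z w‖² ≤ (1 + nn z) (1 + nn w)` (`Ff_nonneg`/`Ps_WW` or Cauchy-Schwarz), so
`‖R2 P Q z w * pol G z w‖² ≤ C_w K (1 + nn w)^N r2 P Q z (1 + nn z)^N`.
-/

namespace Pool.Agent.Work.MP_49847a_an

open MvPolynomial

variable {n k l : ℕ} {P : Fin k → MvPolynomial (Fin n) ℂ} {Q : Fin l → MvPolynomial (Fin n) ℂ}

private theorem cs_sq {ι : Type*} (s : Finset ι) (a b : ι → ℂ) :
    ‖∑ i ∈ s, a i * b i‖ ^ 2 ≤ (∑ i ∈ s, ‖a i‖ ^ 2) * ∑ i ∈ s, ‖b i‖ ^ 2 := by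
  calc ‖∑ i ∈ s, a i * b i‖ ^ 2 ≤ (∑ i ∈ s, ‖a i‖ * ‖b i‖) ^ 2 := by
        refine pow_le_pow_left₀ (norm_nonneg _) ?_ 2
        refine (norm_sum_le _ _).trans (le_of_eq ?_)
        exact Finset.sum_congr rfl fun i _ => norm_mul _ _
    _ ≤ _ := Finset.sum_mul_sq_le_sq_mul_sq s _ _

theorem four_inf (hP : Pos2 P Q) (h : Inf4 P Q) : Inf2 P Q := by
  obtain ⟨F, hF⟩ := exists_r2 P Q
  have hR : ∀ z w, pol F z w = R2 P Q z w := pol_r2 hF
  obtain ⟨s, x, c, hc⟩ := herm_span F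
  obtain ⟨d, hd⟩ := pol_deg F
  choose E _ hE using hd
  obtain ⟨R₀, hR₀⟩ := hP
  have h1 : ∀ z : Fin n → ℂ, (∀ j, eval z ((fun i => E (x i)) j) = 0) → nn z ≤ R₀ := by
    intro z hz
    by_contra hlt
    have hpos := hR₀ z (not_le.mp hlt).le
    have h2 : pol F z z = 0 := by
      rw [hc z z]
      refine Finset.sum_eq_zero fun i _ => Finset.sum_eq_zero fun j _ => ?_
      have h3 := hz i
      simp only at h3
      rw [hE] at h3
      rw [h3, mul_zero, zero_mul]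
    rw [hR, R2_self] at h2
    have h3 : r2 P Q z = 0 := by exact_mod_cast h2
    rw [h3] at hpos
    exact lt_irrefl _ hpos
  obtain ⟨N, c₀, R', hc₀, hlow⟩ := lower_pow (fun i => E (x i)) R₀ h1
  choose Cf Rf hCR using fun i => h (x i)
  obtain ⟨K, hK⟩ : ∃ K : ℝ, K = 1 + ∑ i, |Cf i| := ⟨_, rfl⟩
  obtain ⟨R₁, hR₁⟩ : ∃ R₁ : ℝ, R₁ = (∑ i, |Rf i|) + |R'| + |R₀| := ⟨_, rfl⟩
  have hKpos : 0 < K := by
    have : 0 ≤ ∑ i, |Cf i| := Finset.sum_nonneg fun i _ => abs_nonneg _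
    linarith
  have hbig : ∀ z : Fin n → ℂ, R₁ ≤ nn z → R' ≤ nn z ∧ R₀ ≤ nn z ∧ ∀ i, Rf i ≤ nn z := by
    intro z hz
    have hs0 : 0 ≤ ∑ i, |Rf i| := Finset.sum_nonneg fun i _ => abs_nonneg _
    have h2 := le_abs_self R'
    have h3 := le_abs_self R₀
    have h4 := abs_nonneg R'
    have h5 := abs_nonneg R₀
    refine ⟨by linarith, by linarith, fun i => ?_⟩
    have h6 : |Rf i| ≤ ∑ i, |Rf i| :=
      Finset.single_le_sum (f := fun i => |Rf i|) (fun i _ => abs_nonneg _) (Finset.mem_univ i)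
    have h7 := le_abs_self (Rf i)
    linarith
  have hnrm : ∀ z : Fin n → ℂ, R₁ ≤ nn z → nrm (fun i => E (x i)) z ≤ K * r2 P Q z := by
    intro z hz
    obtain ⟨_, h0, hi⟩ := hbig z hz
    have hpos := hR₀ z h0
    unfold nrm
    calc ∑ j, ‖eval z (E (x j))‖ ^ 2 ≤ ∑ j, |Cf j| * r2 P Q z := by
          refine Finset.sum_le_sum fun j _ => ?_
          rw [hE, hR]
          refine (hCR j z (hi j)).trans ?_
          exact mul_le_mul_of_nonneg_right (le_abs_self _) hpos.le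
      _ = (∑ j, |Cf j|) * r2 P Q z := by rw [Finset.sum_mul]
      _ ≤ K * r2 P Q z := mul_le_mul_of_nonneg_right (by linarith) hpos.le
  refine ⟨(WW n 1) ^ N, c₀ / K, R₁, div_pos hc₀ hKpos, ?_, ?_⟩
  · intro z hz
    obtain ⟨h0, _, _⟩ := hbig z hz
    have h2 := hlow z h0
    have h3 := hnrm z hz
    have h4 : 0 ≤ (1 + nn z) ^ N := by
      have := nn_nonneg z
      positivity
    rw [ev_pow, ev_WW, div_le_iff₀ hKpos]
    calc c₀ ≤ nrm (fun i => E (x i)) z * (1 + nn z) ^ N := h2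
      _ ≤ K * r2 P Q z * (1 + nn z) ^ N := mul_le_mul_of_nonneg_right h3 h4
      _ = _ := by ring
  · intro w
    obtain ⟨γ, hγ⟩ : ∃ γ : Fin s → ℂ, γ = fun i => ∑ j, c i j * (starRingEnd ℂ) (pol F w (x j)) :=
      ⟨_, rfl⟩
    refine ⟨(∑ i, ‖γ i‖ ^ 2) * K * (1 + nn w) ^ N, fun z hz => ?_⟩
    obtain ⟨_, h0, _⟩ := hbig z hz
    have hpos := hR₀ z h0
    have hsum : R2 P Q z w = ∑ i, γ i * eval z (E (x i)) := by
      rw [← hR, hc z w, hγ]
      refine Finset.sum_congr rfl fun i _ => ?_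
      rw [hE, Finset.sum_mul]
      refine Finset.sum_congr rfl fun j _ => ?_
      ring
    have h2 : ‖R2 P Q z w‖ ^ 2 ≤ (∑ i, ‖γ i‖ ^ 2) * (K * r2 P Q z) := by
      rw [hsum]
      refine (cs_sq _ _ _).trans ?_
      refine mul_le_mul_of_nonneg_left (hnrm z hz) ?_
      exact Finset.sum_nonneg fun i _ => by positivity
    have h3 : ‖pol (WW n 1) z w‖ ^ 2 ≤ (1 + nn z) * (1 + nn w) := by
      have := (Ps_WW (n := n) zero_le_one z w).2.2
      rwa [ev_WW, ev_WW] at this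
    have hzn := nn_nonneg z
    have hwn := nn_nonneg w
    have h4 : ‖pol ((WW n 1) ^ N) z w‖ ^ 2 ≤ ((1 + nn z) * (1 + nn w)) ^ N := by
      rw [pol_pow, norm_pow, ← pow_mul, mul_comm N 2, pow_mul]
      exact pow_le_pow_left₀ (by positivity) h3 N
    have hs0 : 0 ≤ ∑ i, ‖γ i‖ ^ 2 := Finset.sum_nonneg fun i _ => by positivity
    rw [norm_mul, mul_pow, ev_pow, ev_WW]
    calc ‖R2 P Q z w‖ ^ 2 * ‖pol ((WW n 1) ^ N) z w‖ ^ 2
        ≤ ((∑ i, ‖γ i‖ ^ 2) * (K * r2 P Q z)) * ((1 + nn z) * (1 + nn w)) ^ N := by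
          refine mul_le_mul h2 h4 (by positivity) ?_
          exact mul_nonneg hs0 (mul_nonneg hKpos.le hpos.le)
      _ = _ := by rw [mul_pow]; ring

end Pool.Agent.Work.MP_49847a_an
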