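import Pool.Agent.Work.MP_49847a_an.Cp.CpDefs

/-!
# Module CptP: a real polynomial with compact zero set has a sign near infinity

Proof.  `X2 P Q` is compact, so `nn z < R` on it for some `R > 0` (`nn_continuous`).  The set `E = {z | R ≤ nn z}` (or `R < nn z`) is preconnected: it is the image of
`[√R, ∞) × S` under `(t, u) ↦ t u`, `S = {u | nn u = 1}`, and `S` is preconnected, being the image of the unit sphere of the euclidean space
`EuclideanSpace ℂ (Fin n)` (real dimension `2n ≥ 2`, `isPreconnected_sphere` with `1 < Module.rank ℝ _`; `WithLp.ofLp` continuous), the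
product of preconnected sets is preconnected and so is a continuous image.  (Any other argument is fine, for instance
`{z | R ≤ nn z}` as the complement of a ball in the euclidean space, or joining two points by hand in the real plane or
the real span of two vectors.)  `r2 P Q` is continuous without zeros on `E`, so it has constant sign on `E`
(`IsPreconnected` and the intermediate value theorem); `r2 Q P = - r2 P Q`.
-/

namespace Pool.Agent.Work.MP_49847a_an

open MvPolynomial

variable {n k l : ℕ} {P : Fin k → MvPolynomial (Fin n) ℂ} {Q : Fin l → MvPolynomial (Fin n) ℂ}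

private theorem one_lt_rank_eu (hn : 0 < n) :
    1 < Module.rank ℝ (EuclideanSpace ℂ (Fin n)) := by
  have h1 : Module.finrank ℝ (EuclideanSpace ℂ (Fin n)) = 2 * n := by
    have h2 := finrank_real_of_complex (EuclideanSpace ℂ (Fin n))
    rw [finrank_euclideanSpace, Fintype.card_fin] at h2
    exact h2
  have h3 : 1 < Module.finrank ℝ (EuclideanSpace ℂ (Fin n)) := by omega
  exact_mod_cast Module.lt_rank_of_lt_finrank h3

private noncomputable def gsm (n : ℕ) (q : ℝ × EuclideanSpace ℂ (Fin n)) : Fin n → ℂ :=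
  fun i => (q.1 : ℂ) * q.2 i

private theorem gsm_cont : Continuous (gsm n) := by
  unfold gsm
  fun_prop

private theorem nn_gsm (q : ℝ × EuclideanSpace ℂ (Fin n)) :
    nn (gsm n q) = q.1 ^ 2 * ‖q.2‖ ^ 2 := by
  have h1 : gsm n q = (q.1 : ℂ) • (fun i => q.2 i) := by
    funext i
    simp [gsm]
  rw [h1, nn_smul, EuclideanSpace.norm_sq_eq, Complex.norm_real, Real.norm_eq_abs, sq_abs]
  rfl

theorem pos_or (hn : 0 < n) (hX : IsCompact (X2 P Q)) : Pos2 P Q ∨ Pos2 Q P := by
  obtain ⟨R, hR⟩ := hX.bddAbove_image (nn_continuous (n := n)).continuousOn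
  have hR' : ∀ z ∈ X2 P Q, nn z ≤ max R 0 := by
    intro z hz
    exact le_trans (hR ⟨z, hz, rfl⟩) (le_max_left _ _)
  have hR0 : 0 ≤ max R 0 := le_max_right _ _
  generalize max R 0 = T at hR' hR0
  set S : Set (Fin n → ℂ) :=
    gsm n '' (Set.Ioi (Real.sqrt T) ×ˢ Metric.sphere (0 : EuclideanSpace ℂ (Fin n)) 1) with hS
  have hSc : IsPreconnected S :=
    (isPreconnected_Ioi.prod (isPreconnected_sphere (one_lt_rank_eu hn) 0 1)).image _
      gsm_cont.continuousOn
  have hS1 : ∀ z ∈ S, T < nn z := by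
    rintro z ⟨⟨t, u⟩, ⟨ht, hu⟩, rfl⟩
    rw [nn_gsm]
    have hu' : ‖u‖ = 1 := by simpa using hu
    have ht' : Real.sqrt T < t := ht
    dsimp only
    rw [hu', one_pow, mul_one]
    have h0 : 0 ≤ Real.sqrt T := Real.sqrt_nonneg _
    calc T = Real.sqrt T ^ 2 := (Real.sq_sqrt hR0).symm
      _ < t ^ 2 := by nlinarith
  have hS2 : ∀ z, T + 1 ≤ nn z → z ∈ S := by
    intro z hz
    have hz0 : 0 < nn z := by linarith
    have ht0 : 0 < Real.sqrt (nn z) := Real.sqrt_pos.2 hz0
    refine ⟨(Real.sqrt (nn z), WithLp.toLp 2 (fun i => ((Real.sqrt (nn z) : ℝ) : ℂ)⁻¹ * z i)),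
      ⟨?_, ?_⟩, ?_⟩
    · exact Real.sqrt_lt_sqrt hR0 (by linarith)
    · rw [mem_sphere_zero_iff_norm]
      have h1 : ‖WithLp.toLp 2 (fun i => ((Real.sqrt (nn z) : ℝ) : ℂ)⁻¹ * z i)‖ ^ 2 = 1 := by
        rw [EuclideanSpace.norm_sq_eq]
        have h2 : nn (((Real.sqrt (nn z) : ℝ) : ℂ)⁻¹ • z) = 1 := by
          rw [nn_smul, norm_inv, Complex.norm_real, Real.norm_eq_abs, abs_of_pos ht0, inv_pow,
            Real.sq_sqrt hz0.le, inv_mul_cancel₀ hz0.ne']
        rw [← h2]
        rfl
      have h3 : 0 ≤ ‖WithLp.toLp 2 (fun i => ((Real.sqrt (nn z) : ℝ) : ℂ)⁻¹ * z i)‖ :=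
        norm_nonneg _
      nlinarith
    · funext i
      unfold gsm
      dsimp only
      rw [← mul_assoc, mul_inv_cancel₀, one_mul]
      exact_mod_cast ht0.ne'
  have hne : ∀ z ∈ S, r2 P Q z ≠ 0 := by
    intro z hz h0
    have h1 := hR' z h0
    have h2 := hS1 z hz
    linarith
  by_cases hp : ∃ a ∈ S, 0 < r2 P Q a
  · left
    obtain ⟨a, ha, hpa⟩ := hp
    refine ⟨T + 1, fun z hz => ?_⟩
    have hzS := hS2 z hz
    by_contra hneg
    have hlt : r2 P Q z ≤ 0 := not_lt.1 hneg
    obtain ⟨y, hy, hy0⟩ := hSc.intermediate_value hzS ha (r2_continuous P Q).continuousOn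
      ⟨hlt, hpa.le⟩
    exact hne y hy hy0
  · right
    refine ⟨T + 1, fun z hz => ?_⟩
    have hzS := hS2 z hz
    have h1 : r2 P Q z ≤ 0 := not_lt.1 (fun h => hp ⟨z, hzS, h⟩)
    have h2 : r2 P Q z < 0 := lt_of_le_of_ne h1 (hne z hzS)
    have h3 : r2 Q P z = - r2 P Q z := by
      unfold r2
      ring
    rw [h3]
    linarith

end Pool.Agent.Work.MP_49847a_an
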