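import Pool.Agent.Work.MP_49847a_an.Cp.Gen0
import Pool.Agent.Work.MP_49847a_an.Cp.CptP

/-!
# Module TrB: every compact algebraic boundary has a generating defining polynomial

Proof.  Let `θ : (Fin n → ℂ) ≃ₜ (Fin n ⊕ Fin n → ℝ)`, `θ z = Sum.elim (fun i => (z i).re) (fun i => (z i).im)` (a homeomorphism), so that
`ev F z = eval (θ z) F` by definition.  `Ω' = θ '' Ω` is open, `frontier Ω' = θ '' frontier Ω` (`Homeomorph.image_frontier`, or work with preimages under `θ.symm`), and similarly
for closures, interiors and complements.  `F ≠ 0`: otherwise `frontier Ω` would be the whole space, but the frontier of an open set has empty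
interior (`interior_frontier`), and the space is not empty.  `gen0` gives `r` with the same zeros as `F` and dividing every polynomial vanishing there.
`Dg_exists r` gives `P, Q` with `ev r z = nrm P z - nrm Q z = r2 P Q z`.  So `X2 P Q = {z | ev r z = 0} = frontier Ω`.  `Generates2 P Q`: a real
polynomial `G` vanishing on `X2 P Q` is `r * H`, `ev_mul`.  By `pos_or`, `Pos2 P Q` or `Pos2 Q P`.  In the second case take `Q, P` instead: `r2 Q P z = - r2 P Q z`,
`X2 Q P = X2 P Q`, and `Generates2 Q P` with `-H` (`ev_neg`).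
-/

namespace Pool.Agent.Work.MP_49847a_an

open MvPolynomial

variable {n : ℕ}

private def th (n : ℕ) : (Fin n → ℂ) ≃ₜ (Fin n ⊕ Fin n → ℝ) where
  toFun z := Sum.elim (fun i => (z i).re) (fun i => (z i).im)
  invFun x := fun i => ⟨x (Sum.inl i), x (Sum.inr i)⟩
  left_inv z := by
    funext i
    simp
  right_inv x := by
    funext i
    rcases i with i | i <;> simp
  continuous_toFun := by
    refine continuous_pi fun i => ?_
    rcases i with i | i
    · simp only [Sum.elim_inl]
      fun_prop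
    · simp only [Sum.elim_inr]
      fun_prop
  continuous_invFun := by
    refine continuous_pi fun i => ?_
    have h : (fun x : Fin n ⊕ Fin n → ℝ => (⟨x (Sum.inl i), x (Sum.inr i)⟩ : ℂ)) =
        fun x => ((x (Sum.inl i) : ℝ) : ℂ) + ((x (Sum.inr i) : ℝ) : ℂ) * Complex.I := by
      funext x
      apply Complex.ext <;> simp
    rw [h]
    fun_prop

private theorem ev_th (F : MvPolynomial (Fin n ⊕ Fin n) ℝ) (z : Fin n → ℂ) :
    ev F z = eval (th n z) F := rfl

theorem boundary_families (hn : 0 < n) {F : MvPolynomial (Fin n ⊕ Fin n) ℝ}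
    {Ω : Set (Fin n → ℂ)} (hΩ : IsOpen Ω) (hX : frontier Ω = {z | ev F z = 0})
    (hc : IsCompact (frontier Ω)) (hE : frontier Ω ⊆ closure (interior Ωᶜ)) :
    ∃ (k l : ℕ) (P : Fin k → MvPolynomial (Fin n) ℂ) (Q : Fin l → MvPolynomial (Fin n) ℂ),
      Pos2 P Q ∧ X2 P Q = frontier Ω ∧ Generates2 P Q := by
  have hXX : ∀ G : MvPolynomial (Fin n ⊕ Fin n) ℝ,
      th n '' {z | ev G z = 0} = {x | eval x G = 0} := by
    intro G
    ext x
    constructor
    · rintro ⟨z, hz, rfl⟩
      exact hz
    · intro hx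
      refine ⟨(th n).symm x, ?_, (th n).apply_symm_apply x⟩
      change ev G _ = 0
      rw [ev_th, (th n).apply_symm_apply]
      exact hx
  have hF0 : F ≠ 0 := by
    rintro rfl
    have h1 : frontier Ω = Set.univ := by
      rw [hX]
      ext z
      simp [ev]
    have h2 : Ω = ∅ := by
      rw [hΩ.frontier_eq] at h1
      ext z
      simp only [Set.mem_empty_iff_false, iff_false]
      have h3 : z ∈ closure Ω \ Ω := by rw [h1]; trivial
      exact h3.2
    rw [h2, frontier_empty] at h1
    have h4 : (0 : Fin n → ℂ) ∈ (∅ : Set (Fin n → ℂ)) := by rw [h1]; trivial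
    exact h4
  have hΩ' : IsOpen (th n '' Ω) := (th n).isOpenMap _ hΩ
  have hX' : frontier (th n '' Ω) = {x | eval x F = 0} := by
    rw [← Homeomorph.image_frontier, hX, hXX]
  have hE' : frontier (th n '' Ω) ⊆ closure (interior (th n '' Ω)ᶜ) := by
    rw [← Homeomorph.image_frontier, ← Set.image_compl_eq (th n).bijective,
      ← Homeomorph.image_interior, ← Homeomorph.image_closure]
    exact Set.image_mono hE
  obtain ⟨r, hr0, hr⟩ := gen0 hF0 hΩ' hX' hE'
  have hr1 : ∀ z : Fin n → ℂ, ev r z = 0 ↔ ev F z = 0 := fun z => hr0 _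
  have hgen : ∀ G : MvPolynomial (Fin n ⊕ Fin n) ℝ, (∀ z, ev F z = 0 → ev G z = 0) →
      ∃ H : MvPolynomial (Fin n ⊕ Fin n) ℝ, ∀ z, ev G z = ev r z * ev H z := by
    intro G hG
    have h1 : ∀ x, eval x F = 0 → eval x G = 0 := by
      intro x hx
      have h2 := hG ((th n).symm x) (by
        rw [ev_th, (th n).apply_symm_apply]
        exact hx)
      rwa [ev_th, (th n).apply_symm_apply] at h2
    obtain ⟨H, rfl⟩ := hr G h1
    exact ⟨H, fun z => ev_mul r H z⟩
  obtain ⟨e, k, P, l, Q, -, -, hPQ⟩ := Dg_exists r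
  have hPQ' : ∀ z, r2 P Q z = ev r z := fun z => (hPQ z).symm
  have hQP' : ∀ z, r2 Q P z = -ev r z := fun z => by
    rw [← hPQ' z]
    unfold r2
    ring
  have hX1 : X2 P Q = frontier Ω := by
    rw [hX]
    ext z
    change r2 P Q z = 0 ↔ ev F z = 0
    rw [hPQ' z, hr1]
  have hX2 : X2 Q P = frontier Ω := by
    rw [hX]
    ext z
    change r2 Q P z = 0 ↔ ev F z = 0
    rw [hQP' z, neg_eq_zero, hr1]
  rcases pos_or (P := P) (Q := Q) hn (by rw [hX1]; exact hc) with h | h
  · refine ⟨k, l, P, Q, h, hX1, ?_⟩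
    intro G hG
    obtain ⟨H, hH⟩ := hgen G (fun z hz => hG z (by rw [hX1, hX]; exact hz))
    exact ⟨H, fun z => by rw [hH, hPQ']⟩
  · refine ⟨l, k, Q, P, h, hX2, ?_⟩
    intro G hG
    obtain ⟨H, hH⟩ := hgen G (fun z hz => hG z (by rw [hX2, hX]; exact hz))
    exact ⟨-H, fun z => by
      have h5 : ev (-H) z = -ev H z := by simp [ev]
      rw [hH, hQP', h5]
      ring⟩

end Pool.Agent.Work.MP_49847a_an
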