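import Pool.Agent.Work.MP_49847a_an.Cp.CpMain
import Pool.Agent.Work.MP_49847a_an.Cp.InfN
import Pool.Agent.Work.MP_49847a_an.Cp.InfS
import Pool.Agent.Work.MP_49847a_an.Cp.TrB

/-!
# The complete criterion with the explicit growth condition (assembly)
-/

namespace Pool.Agent.Work.MP_49847a_an

open MvPolynomial

variable {n k l : ℕ} {P : Fin k → MvPolynomial (Fin n) ℂ} {Q : Fin l → MvPolynomial (Fin n) ℂ}

theorem inf_iff (hP : Pos2 P Q) : Inf2 P Q ↔ Inf4 P Q := ⟨inf_four hP, four_inf hP⟩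

theorem main4 (hP : Pos2 P Q) :
    (Quillen2 P Q ↔ Sep2 P Q ∧ Levi2 P Q ∧ Inn2 P Q ∧ Inf4 P Q) ∧
    (Smooth2 P Q → (Quillen2 P Q ↔ Sep2 P Q ∧ Levi2 P Q ∧ Inf4 P Q)) ∧
    (Generates2 P Q → (SumsOn (X2 P Q) ↔ Quillen2 P Q)) := by
  obtain ⟨h1, h2, h3⟩ := main3 hP
  rw [← inf_iff hP]
  exact ⟨h1, h2, h3⟩

/-- every compact algebraic boundary -/
theorem main5 (hn : 0 < n) {F : MvPolynomial (Fin n ⊕ Fin n) ℝ}
    {Ω : Set (Fin n → ℂ)} (hΩ : IsOpen Ω) (hX : frontier Ω = {z | ev F z = 0})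
    (hc : IsCompact (frontier Ω)) (hE : frontier Ω ⊆ closure (interior Ωᶜ)) :
    ∃ (k l : ℕ) (P : Fin k → MvPolynomial (Fin n) ℂ) (Q : Fin l → MvPolynomial (Fin n) ℂ),
      Pos2 P Q ∧ X2 P Q = frontier Ω ∧ Generates2 P Q ∧
      (SumsOn (frontier Ω) ↔ Sep2 P Q ∧ Levi2 P Q ∧ Inn2 P Q ∧ Inf4 P Q) := by
  obtain ⟨k, l, P, Q, h1, h2, h3⟩ := boundary_families hn hΩ hX hc hE
  refine ⟨k, l, P, Q, h1, h2, h3, ?_⟩
  rw [← h2, (main4 h1).2.2 h3, (main4 h1).1]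

end Pool.Agent.Work.MP_49847a_an
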