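import Pool.Agent.Work.MP_49847a_an.Cp.CpDefs

/-!
# The explicit growth condition

`Inf4 P Q`: for every fixed `w`, `|r(z, conj w)|² = O(r(z, conj z))` as `z → ∞`.
-/

namespace Pool.Agent.Work.MP_49847a_an

open MvPolynomial

/-- the growth condition at infinity: `|r(z, conj w)|² ≤ C_w r(z, conj z)` near infinity for
every `w` -/
def Inf4 {n k l : ℕ} (P : Fin k → MvPolynomial (Fin n) ℂ) (Q : Fin l → MvPolynomial (Fin n) ℂ) :
    Prop :=
  ∀ w, ∃ C R₀ : ℝ, ∀ z, R₀ ≤ nn z → ‖R2 P Q z w‖ ^ 2 ≤ C * r2 P Q z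

end Pool.Agent.Work.MP_49847a_an
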