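import Mathlib

/-!
# Module Elim: elimination along a direction

Proof.  Let `R = MvPolynomial σ ℝ` (a UFD domain), `R[t] = Polynomial R`, and for `g ∈ R` let `g_t ∈ R[t]` be `g(x + t v)`: the image of
`g` under the algebra homomorphism `φ : R → R[t]`, `X i ↦ C (X i) + C (C (v i)) * X`.  So `(g_t)(x; t) = g(x + t v)`: for `x : σ → ℝ`,
`t : ℝ`, `(Polynomial.map (eval x) g_t).eval t = eval (x + t • v) g`.
If `p_t` has degree `0` in `t`, then `p_t = C a`, evaluation at `t = 0` gives `a = p`, so `p(x + t v) = p(x)` for all `x, t`; take `h = p ≠ 0`.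
Otherwise: the algebra endomorphism `Φ` of `R[t]` with `X i ↦ C (X i) + C (C (v i)) X`, `X ↦ X` is an automorphism (inverse: `-v`), and
`g_t = Φ (C g)`.  `p` is prime in `R`, so `C p` is prime in `R[t]` (`Polynomial.prime_C_iff`), so `p_t` is prime, and `p_t ∤ q_t`
(otherwise `C p ∣ C q`, `p ∣ q`).  `p_t` is irreducible of positive degree in `R[t]`, so it is primitive (`Irreducible.isPrimitive`), and
irreducible over `K = FractionRing R` (`Polynomial.IsPrimitive.irreducible_iff_irreducible_map_fraction_map`; `R` needs `NormalizedGCDMonoid`: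
`letI := Classical.choice ...` `UniqueFactorizationMonoid.toNormalizedGCDMonoid` or the version for UFD), and it does not divide the image of `q_t` in `K[t]`
(`Polynomial.IsPrimitive.dvd_of_fraction_map_dvd_fraction_map` or Gauss's lemma).  So the images are coprime in `K[t]`
(`Irreducible.coprime_iff_not_dvd`), `u p_t + w q_t = 1` in `K[t]`; clear denominators (`IsLocalization.integerNormalization` or
`IsLocalization.exist_integer_multiples`): `U p_t + W q_t = C h` in `R[t]`, `h ≠ 0`.  Evaluate at `x, t`.
(`σ` finite is convenient: the UFD instance of `MvPolynomial σ ℝ` holds for every `σ`.)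
-/

namespace Pool.Agent.Work.MP_49847a_an

open MvPolynomial

/-- the substitution `x ↦ x + t v` -/
private noncomputable def elSub {σ : Type} (v : σ → ℝ) :
    MvPolynomial σ ℝ →+* Polynomial (MvPolynomial σ ℝ) :=
  eval₂Hom (Polynomial.C.comp C) (fun i => Polynomial.C (X i) + Polynomial.C (C (v i)) *
    Polynomial.X)

private lemma elSub_C {σ : Type} (v : σ → ℝ) (a : ℝ) :
    elSub v (C a) = Polynomial.C (C a) := by
  rw [elSub, coe_eval₂Hom, eval₂_C, RingHom.comp_apply]

private lemma elSub_X {σ : Type} (v : σ → ℝ) (i : σ) :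
    elSub v (X i) = Polynomial.C (X i) + Polynomial.C (C (v i)) * Polynomial.X := by
  rw [elSub, coe_eval₂Hom, eval₂_X]

/-- the substitution as an endomorphism of `R[t]` -/
private noncomputable def elEnd {σ : Type} (v : σ → ℝ) :
    Polynomial (MvPolynomial σ ℝ) →+* Polynomial (MvPolynomial σ ℝ) :=
  Polynomial.eval₂RingHom (elSub v) Polynomial.X

private lemma elEnd_C {σ : Type} (v : σ → ℝ) (g : MvPolynomial σ ℝ) :
    elEnd v (Polynomial.C g) = elSub v g := by
  rw [elEnd, Polynomial.coe_eval₂RingHom, Polynomial.eval₂_C]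

private lemma elEnd_X {σ : Type} (v : σ → ℝ) : elEnd v Polynomial.X = Polynomial.X := by
  rw [elEnd, Polynomial.coe_eval₂RingHom, Polynomial.eval₂_X]

private lemma elEnd_comp {σ : Type} (v : σ → ℝ) :
    (elEnd (-v)).comp (elEnd v) = RingHom.id _ := by
  apply Polynomial.ringHom_ext'
  · apply MvPolynomial.ringHom_ext
    · intro a
      simp only [RingHom.comp_apply, RingHom.id_apply, elEnd_C, elSub_C]
    · intro i
      simp only [RingHom.comp_apply, RingHom.id_apply, elEnd_C, elSub_X, map_add, map_mul,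
        elEnd_X, elSub_C, Pi.neg_apply, map_neg]
      ring
  · simp only [RingHom.comp_apply, RingHom.id_apply, elEnd_X]

private noncomputable def elEquiv {σ : Type} (v : σ → ℝ) :
    Polynomial (MvPolynomial σ ℝ) ≃+* Polynomial (MvPolynomial σ ℝ) :=
  RingEquiv.ofRingHom (elEnd v) (elEnd (-v)) (by
    have h := elEnd_comp (-v)
    rwa [neg_neg] at h) (elEnd_comp v)

private lemma elEquiv_C {σ : Type} (v : σ → ℝ) (g : MvPolynomial σ ℝ) :
    elEquiv v (Polynomial.C g) = elSub v g := elEnd_C v g

private lemma elSub_eval {σ : Type} (v x : σ → ℝ) (t : ℝ) (g : MvPolynomial σ ℝ) :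
    Polynomial.eval₂ (eval x) t (elSub v g) = eval (x + t • v) g := by
  have h : (Polynomial.eval₂RingHom (eval x) t).comp (elSub v) = eval (x + t • v) := by
    apply MvPolynomial.ringHom_ext
    · intro a
      rw [RingHom.comp_apply, elSub_C, Polynomial.coe_eval₂RingHom, Polynomial.eval₂_C, eval_C,
        eval_C]
    · intro i
      rw [RingHom.comp_apply, elSub_X, Polynomial.coe_eval₂RingHom, Polynomial.eval₂_add,
        Polynomial.eval₂_mul, Polynomial.eval₂_C, Polynomial.eval₂_C, Polynomial.eval₂_X, eval_X,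
        eval_C, eval_X, Pi.add_apply, Pi.smul_apply, smul_eq_mul, mul_comm]
  exact DFunLike.congr_fun h g

theorem elim_dir {σ : Type} [Fintype σ] (p q : MvPolynomial σ ℝ) (hp : Irreducible p)
    (hq : ¬ p ∣ q) (v : σ → ℝ) :
    ∃ h : MvPolynomial σ ℝ, h ≠ 0 ∧ ∀ (x : σ → ℝ) (t : ℝ),
      eval (x + t • v) p = 0 → eval (x + t • v) q = 0 → eval x h = 0 := by
  classical
  have hp0 : p ≠ 0 := hp.ne_zero
  have hprime : Prime p := hp.prime
  have hP : Prime (elSub v p) := by
    rw [← elEquiv_C]
    exact (MulEquiv.prime_iff (elEquiv v)).2 (Polynomial.prime_C_iff.2 hprime)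
  have hPQ : ¬ elSub v p ∣ elSub v q := by
    rw [← elEquiv_C, ← elEquiv_C, map_dvd_iff (elEquiv v)]
    intro h
    apply hq
    have h1 := (Polynomial.C_dvd_iff_dvd_coeff _ _).1 h 0
    rwa [Polynomial.coeff_C_zero] at h1
  by_cases hdeg : (elSub v p).natDegree = 0
  · refine ⟨p, hp0, fun x t h1 _ => ?_⟩
    obtain ⟨a, ha⟩ := Polynomial.natDegree_eq_zero.1 hdeg
    have e1 := elSub_eval v x t p
    have e2 := elSub_eval v x 0 p
    rw [← ha, Polynomial.eval₂_C] at e1 e2
    rw [zero_smul, add_zero] at e2
    rw [← e2, e1]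
    exact h1
  · have hprim : (elSub v p).IsPrimitive := hP.irreducible.isPrimitive hdeg
    let K := FractionRing (MvPolynomial σ ℝ)
    have hirr : Irreducible ((elSub v p).map (algebraMap (MvPolynomial σ ℝ) K)) :=
      (hprim.irreducible_iff_irreducible_map_fraction_map (K := K)).1 hP.irreducible
    have hnd : ¬ (elSub v p).map (algebraMap (MvPolynomial σ ℝ) K) ∣
        (elSub v q).map (algebraMap (MvPolynomial σ ℝ) K) :=
      fun h => hPQ (hprim.dvd_of_fraction_map_dvd_fraction_map h)
    obtain ⟨a, b, hab⟩ := (hirr.coprime_iff_not_dvd).2 hnd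
    obtain ⟨α, hα, hα'⟩ := IsLocalization.integerNormalization_spec
      (nonZeroDivisors (MvPolynomial σ ℝ)) a
    obtain ⟨β, hβ, hβ'⟩ := IsLocalization.integerNormalization_spec
      (nonZeroDivisors (MvPolynomial σ ℝ)) b
    set a' := IsLocalization.integerNormalization (nonZeroDivisors (MvPolynomial σ ℝ)) a
    set b' := IsLocalization.integerNormalization (nonZeroDivisors (MvPolynomial σ ℝ)) b
    have hα0 : α ≠ 0 := nonZeroDivisors.ne_zero hα
    have hβ0 : β ≠ 0 := nonZeroDivisors.ne_zero hβ
    have key : Polynomial.C β * a' * elSub v p + Polynomial.C α * b' * elSub v q =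
        Polynomial.C (α * β) := by
      apply Polynomial.map_injective (algebraMap (MvPolynomial σ ℝ) K)
        (IsFractionRing.injective _ _)
      simp only [Polynomial.map_add, Polynomial.map_mul, Polynomial.map_C]
      rw [hα', hβ', Algebra.smul_def, Algebra.smul_def, Polynomial.algebraMap_apply,
        Polynomial.algebraMap_apply, map_mul, map_mul]
      linear_combination (Polynomial.C (algebraMap (MvPolynomial σ ℝ) K α) *
        Polynomial.C (algebraMap (MvPolynomial σ ℝ) K β)) * hab
    refine ⟨α * β, mul_ne_zero hα0 hβ0, fun x t h1 h2 => ?_⟩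
    have h3 := congrArg (Polynomial.eval₂ (eval x) t) key
    rw [Polynomial.eval₂_add, Polynomial.eval₂_mul, Polynomial.eval₂_mul, Polynomial.eval₂_mul,
      Polynomial.eval₂_mul, Polynomial.eval₂_C, Polynomial.eval₂_C, Polynomial.eval₂_C,
      elSub_eval, elSub_eval, h1, h2, mul_zero, mul_zero, add_zero] at h3
    exact h3.symm

end Pool.Agent.Work.MP_49847a_an
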