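import Pool.Agent.Work.MP_49847a_an.Cp.F1a3
import Pool.Agent.Work.MP_49847a_an.Cp.F1b3

/-!
The arguments of module `F1` for a general `Γ` in place of `ρ G`.
-/

namespace Pool.Agent.Work.MP_49847a_an

open MvPolynomial

variable {n m d e : ℕ} {ε r₀ r₁ c : ℝ} {h : Fin m → MvPolynomial (Fin n) ℂ}
  {ρ W Γ : MvPolynomial (Fin n ⊕ Fin n) ℝ}

theorem f13 (hA : Adm3 d e ε r₀ r₁ c h ρ W Γ) (R : ℝ) : ∃ c' : ℝ, 0 < c' ∧ ∃ κ₀ : ℕ,
    ∀ κ, κ₀ ≤ κ → ∀ z w, nn z ≤ R → nn w ≤ R → c' * nn (z - w) ≤ Df ((Γ + ρ * W ^ κ)) z w := by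
  obtain ⟨κ₁, h1⟩ := f1a3 hA
  obtain ⟨κ₂, h2⟩ := f1b3 hA R
  refine ⟨min (c / 2) 1, lt_min (half_pos hA.hc) one_pos, max κ₁ κ₂, fun κ hκ z w hz hw => ?_⟩
  have hnn : 0 ≤ nn (z - w) := nn_nonneg _
  by_cases hz5 : ev W z ≤ 5
  · by_cases hw5 : ev W w ≤ 5
    · exact (mul_le_mul_of_nonneg_right (min_le_left _ _) hnn).trans
        (h1 κ ((le_max_left _ _).trans hκ) z w hz5 hw5)
    · push Not at hw5
      have := h2 κ ((le_max_right _ _).trans hκ) z w hz hw hw5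
      refine (mul_le_mul_of_nonneg_right (min_le_right _ _) hnn).trans ?_
      rwa [one_mul]
  · push Not at hz5
    have := h2 κ ((le_max_right _ _).trans hκ) w z hw hz hz5
    refine (mul_le_mul_of_nonneg_right (min_le_right _ _) hnn).trans ?_
    rwa [one_mul, Df_symm, nn_sub_comm]

end Pool.Agent.Work.MP_49847a_an
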