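import Pool.Agent.Work.MP_49847a_an.Cp.Mix3

/-!
The arguments of module `F1a` for a general `Γ` in place of `ρ G`.
-/

namespace Pool.Agent.Work.MP_49847a_an

open MvPolynomial

variable {n m d e : ℕ} {ε r₀ r₁ c : ℝ} {h : Fin m → MvPolynomial (Fin n) ℂ}
  {ρ W Γ : MvPolynomial (Fin n ⊕ Fin n) ℝ}

theorem f1a3 (hA : Adm3 d e ε r₀ r₁ c h ρ W Γ) : ∃ κ₀ : ℕ, ∀ κ, κ₀ ≤ κ → ∀ z w, ev W z ≤ 5 →
    ev W w ≤ 5 → c / 2 * nn (z - w) ≤ Df ((Γ + ρ * W ^ κ)) z w := by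
  obtain ⟨κ₂, ε₂, hε₂, hee⟩ := ee3 hA
  obtain ⟨M, hM, hmix⟩ := mix3 hA
  obtain ⟨κ₁, hinn⟩ := inner_est hA.hW ρ (show 0 < c / 2 by linarith [hA.hc])
  obtain ⟨κ₃, hκ₃⟩ := exists_pow_lt_of_lt_one
    (show 0 < r₀ / 2 / (M + 1) from div_pos (by linarith [hA.hr₀]) (by linarith))
    (show (1 / 2 : ℝ) < 1 by norm_num)
  refine ⟨max κ₂ (max κ₁ κ₃), fun κ hκ z w hz hw => ?_⟩
  have k2 : κ₂ ≤ κ := (le_max_left _ _).trans hκ
  have k1 : κ₁ ≤ κ := ((le_max_left _ _).trans (le_max_right _ _)).trans hκ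
  have k3 : κ₃ ≤ κ := ((le_max_right _ _).trans (le_max_right _ _)).trans hκ
  have hpow : M * (1 / 2 : ℝ) ^ κ ≤ r₀ / 2 := by
    have h1 : (1 / 2 : ℝ) ^ κ ≤ (1 / 2 : ℝ) ^ κ₃ :=
      pow_le_pow_of_le_one (by norm_num) (by norm_num) k3
    have h2 : (1 / 2 : ℝ) ^ κ < r₀ / 2 / (M + 1) := lt_of_le_of_lt h1 hκ₃
    rw [lt_div_iff₀ (by linarith)] at h2
    have h3 : (0 : ℝ) < (1 / 2 : ℝ) ^ κ := by positivity
    nlinarith
  have hdia := hA.dia z w hz hw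
  have hnn : 0 ≤ nn (z - w) := nn_nonneg _
  have hc := hA.hc
  -- one point where `ρ < r₀`, one where `ρ ≥ r₀`
  have hmixed : ∀ z w : Fin n → ℂ, ev ρ z < r₀ → r₀ ≤ ev ρ w →
      -(c / 2 * nn (z - w)) ≤ Df (ρ * W ^ κ) z w := by
    intro z w hz' hw'
    have hWz := hA.sub z hz'
    have hnn' : 0 ≤ nn (z - w) := nn_nonneg _
    by_cases hWw : ev W w ≤ 1 / 2
    · exact (abs_le.1 (hinn κ k1 z w (by linarith) hWw)).1
    · push Not at hWw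
      have h1 := hmix κ z w hz' hw'
      have h2 : (1 / 2 : ℝ) ^ κ ≤ ev W w ^ κ := pow_le_pow_left₀ (by norm_num) hWw.le κ
      have h3 : (0 : ℝ) < (1 / 2 : ℝ) ^ κ := by positivity
      have h4 : (1 / 4 : ℝ) ^ κ = (1 / 2 : ℝ) ^ κ * (1 / 2 : ℝ) ^ κ := by
        rw [← mul_pow]
        norm_num
      have h5 : r₀ * (1 / 2 : ℝ) ^ κ ≤ ev ρ w * ev W w ^ κ :=
        mul_le_mul hw' h2 h3.le (hA.hr₀.le.trans hw')
      rw [h4] at h1
      have h6 : M * ((1 / 2 : ℝ) ^ κ * (1 / 2 : ℝ) ^ κ) ≤ r₀ / 2 * (1 / 2 : ℝ) ^ κ := by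
        rw [← mul_assoc]
        exact mul_le_mul_of_nonneg_right hpow h3.le
      have h7 : 0 ≤ c / 2 * nn (z - w) := mul_nonneg (by linarith) hnn'
      linarith
  have key : -(c / 2 * nn (z - w)) ≤ Df (ρ * W ^ κ) z w := by
    rcases lt_or_ge (ev ρ z) r₀ with h1 | h1
    · rcases lt_or_ge (ev ρ w) r₀ with h2 | h2
      · have hWz := hA.sub z h1
        have hWw := hA.sub w h2
        exact (abs_le.1 (hinn κ k1 z w (by linarith) (by linarith))).1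
      · exact hmixed z w h1 h2
    · rcases lt_or_ge (ev ρ w) r₀ with h2 | h2
      · have := hmixed w z h2 h1
        rw [Df_symm, nn_sub_comm] at this
        exact this
      · have h3 := Df_nonneg (hee κ k2 z w h1 h2)
        have h4 : Ps (C ε₂ * WW n 1 ^ (d + e * κ₂) * W ^ (κ - κ₂)) z w :=
          Ps_mul (Ps_mul (Ps_C hε₂.le z w) (Ps_pow (Ps_WW zero_le_one z w) _))
            (Ps_pow (Big_Ps hA.hW z w) _)
        have h5 := Df_nonneg h4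
        rw [Df_sub] at h3
        have h7 : 0 ≤ c / 2 * nn (z - w) := mul_nonneg (by linarith) hnn
        linarith
  rw [Df_add]
  linarith

end Pool.Agent.Work.MP_49847a_an
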