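import Pool.Agent.Work.MP_49847a_an.Cp.Bdr

/-!
# Module Gen0: the ideal of an algebraic boundary is principal

Proof.  Let `T` be the finite set of the normalized irreducible factors `p` of `F` (`normalizedFactors F`, or choose one representative in
each class of associated elements) which take both signs, and `r = ∏_{p ∈ T} p`.
(zeros) `r ∣ F`-type argument: a zero of `r` is a zero of some `p ∈ T`, `p ∣ F`, so a zero of `F`.  Conversely, if `F(x) = 0`, `bdr` gives an irreducible
factor `p'` of `F` with `p'(x) = 0` which takes both signs; it is associated with a member `p` of `normalizedFactors F`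
(`exists_mem_normalizedFactors_of_dvd`), which vanishes at `x` and takes both signs (`p = c p'`, `c ≠ 0` a constant: units of `MvPolynomial σ ℝ` are
constants), so `p ∈ T` and `r(x) = 0`.
(ideal) Let `f` vanish on the zeros of `F`.  For `p ∈ T`, `f` vanishes on the zeros of `p`, so `p ∣ f` (`sign_dvd`).  The members of `T` are pairwise relatively
prime (irreducible and not associated: normalized associated elements are equal), so `r ∣ f` (`Finset.prod_dvd_of_isRelPrime`).
-/

namespace Pool.Agent.Work.MP_49847a_an

open MvPolynomial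

theorem gen0 {σ : Type} [Fintype σ] {F : MvPolynomial σ ℝ} (hF : F ≠ 0) {Ω : Set (σ → ℝ)}
    (hΩ : IsOpen Ω) (hX : frontier Ω = {x | eval x F = 0})
    (hE : frontier Ω ⊆ closure (interior Ωᶜ)) :
    ∃ r : MvPolynomial σ ℝ, (∀ x, eval x r = 0 ↔ eval x F = 0) ∧
      ∀ f : MvPolynomial σ ℝ, (∀ x, eval x F = 0 → eval x f = 0) → r ∣ f := by
  classical
  let _ : StrongNormalizationMonoid (MvPolynomial σ ℝ) :=
    UniqueFactorizationMonoid.strongNormalizationMonoid
  set T : Finset (MvPolynomial σ ℝ) :=
    (UniqueFactorizationMonoid.normalizedFactors F).toFinset.filter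
      (fun p => (∃ a, eval a p < 0) ∧ ∃ b, 0 < eval b p) with hT
  have hmem : ∀ p ∈ T, p ∈ UniqueFactorizationMonoid.normalizedFactors F ∧
      (∃ a, eval a p < 0) ∧ ∃ b, 0 < eval b p := by
    intro p hp
    rw [hT, Finset.mem_filter, Multiset.mem_toFinset] at hp
    exact hp
  have hzero : ∀ p ∈ T, ∀ x, eval x p = 0 → eval x F = 0 := by
    intro p hp x hx
    obtain ⟨c, hc⟩ := UniqueFactorizationMonoid.dvd_of_mem_normalizedFactors (hmem p hp).1
    rw [hc, map_mul, hx, zero_mul]
  refine ⟨∏ p ∈ T, p, ?_, ?_⟩
  · intro x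
    rw [map_prod, Finset.prod_eq_zero_iff]
    constructor
    · rintro ⟨p, hp, hx⟩
      exact hzero p hp x hx
    · intro hx
      obtain ⟨p', hirr, hdvd, hpx, ⟨a, ha⟩, ⟨b, hb⟩⟩ := bdr hF hΩ hX hE hx
      obtain ⟨q, hq, u, hu⟩ :=
        UniqueFactorizationMonoid.exists_mem_normalizedFactors_of_dvd hF hirr hdvd
      obtain ⟨c, hc, huc⟩ := MvPolynomial.isUnit_iff_eq_C_of_isReduced.1 u.isUnit
      have hc0 : c ≠ 0 := hc.ne_zero
      have hev : ∀ y, eval y q = eval y p' * c := by
        intro y
        rw [← hu, map_mul, huc, eval_C]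
      refine ⟨q, ?_, ?_⟩
      · rw [hT, Finset.mem_filter, Multiset.mem_toFinset]
        refine ⟨hq, ?_⟩
        rcases lt_or_gt_of_ne hc0 with hneg | hpos
        · refine ⟨⟨b, ?_⟩, ⟨a, ?_⟩⟩
          · rw [hev]
            exact mul_neg_of_pos_of_neg hb hneg
          · rw [hev]
            exact mul_pos_of_neg_of_neg ha hneg
        · refine ⟨⟨a, ?_⟩, ⟨b, ?_⟩⟩
          · rw [hev]
            exact mul_neg_of_neg_of_pos ha hpos
          · rw [hev]
            exact mul_pos hb hpos
      · rw [hev, hpx, zero_mul]
  · intro f hf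
    refine Finset.prod_dvd_of_isRelPrime ?_ ?_
    · intro p hp q hq hne
      have hp' := (hmem p hp).1
      have hq' := (hmem q hq).1
      have hip := UniqueFactorizationMonoid.irreducible_of_normalized_factor p hp'
      have hiq := UniqueFactorizationMonoid.irreducible_of_normalized_factor q hq'
      change IsRelPrime p q
      rw [hip.isRelPrime_iff_not_dvd]
      intro hd
      apply hne
      exact (hip.associated_of_dvd hiq hd).eq_of_normalized
        (UniqueFactorizationMonoid.normalize_normalized_factor p hp')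
        (UniqueFactorizationMonoid.normalize_normalized_factor q hq')
    · intro p hp
      obtain ⟨hp', ⟨a, ha⟩, ⟨b, hb⟩⟩ := hmem p hp
      exact sign_dvd (UniqueFactorizationMonoid.irreducible_of_normalized_factor p hp') ha hb
        (fun x hx => hf x (hzero p hp x hx))

end Pool.Agent.Work.MP_49847a_an
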