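import Pool.Agent.Work.MP_49847a_an.Cp.CpDefs

/-!
# Module GrA: the graph map, elementary facts

Proof.  `Fin.append_left`, `Fin.append_right`, `Fin.sum_univ_add` (sum over `Fin (n + m)`), `funext` with
`Fin.addCases`; continuity of evaluations (`MvPolynomial.continuous_eval`), `continuous_pi`.
(gr_of_sg) `Z (natAdd n j) = eval (fs Z) (p j)` for all `j`.
(nn_sub_le_sg) `nn (Z - W) = nn (fs Z - fs W) + ∑_j ‖Z_{n+j} - W_{n+j}‖²`, and
`Z_{n+j} - W_{n+j} = (p_j(fs Z) - p_j(fs W)) + (sg p Z - sg p W)_j`, `‖a + b‖² ≤ 2 ‖a‖² + 2 ‖b‖²`.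
-/

namespace Pool.Agent.Work.MP_49847a_an

open MvPolynomial

variable {n m : ℕ} {p : Fin m → MvPolynomial (Fin n) ℂ}

theorem nn_gr (p : Fin m → MvPolynomial (Fin n) ℂ) (z : Fin n → ℂ) :
    nn (gr p z) = nn z + nrm p z := by
  unfold nn nrm gr
  rw [Fin.sum_univ_add]
  simp only [Fin.append_left, Fin.append_right]

theorem fs_gr (p : Fin m → MvPolynomial (Fin n) ℂ) (z : Fin n → ℂ) : fs (gr p z) = z := by
  funext i
  unfold fs gr
  simp only [Fin.append_left]

theorem sg_gr (p : Fin m → MvPolynomial (Fin n) ℂ) (z : Fin n → ℂ) : sg p (gr p z) = 0 := by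
  funext j
  unfold sg
  rw [fs_gr]
  unfold gr
  simp only [Fin.append_right, sub_self, Pi.zero_apply]

theorem gr_of_sg {Z : Fin (n + m) → ℂ} (h : sg p Z = 0) : gr p (fs Z) = Z := by
  funext i
  induction i using Fin.addCases with
  | left i =>
    unfold gr fs
    simp only [Fin.append_left]
  | right j =>
    have hj := congrFun h j
    unfold sg at hj
    simp only [Pi.zero_apply] at hj
    unfold gr
    simp only [Fin.append_right]
    exact (sub_eq_zero.mp hj).symm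

theorem fs_sub (Z W : Fin (n + m) → ℂ) : fs (n := n) (m := m) (Z - W) = fs Z - fs W := by
  funext i
  rfl

theorem nn_fs_le (Z : Fin (n + m) → ℂ) : nn (fs (n := n) (m := m) Z) ≤ nn Z := by
  unfold nn fs
  rw [Fin.sum_univ_add (f := fun i => ‖Z i‖ ^ 2)]
  have h : (0 : ℝ) ≤ ∑ i : Fin m, ‖Z (Fin.natAdd n i)‖ ^ 2 :=
    Finset.sum_nonneg (fun i _ => sq_nonneg _)
  linarith

theorem gr_continuous (p : Fin m → MvPolynomial (Fin n) ℂ) : Continuous (gr p) := by
  refine continuous_pi (fun i => ?_)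
  induction i using Fin.addCases with
  | left i =>
    unfold gr
    simp only [Fin.append_left]
    exact continuous_apply i
  | right j =>
    unfold gr
    simp only [Fin.append_right]
    exact MvPolynomial.continuous_eval (p j)

theorem fs_continuous : Continuous (fs : (Fin (n + m) → ℂ) → Fin n → ℂ) :=
  continuous_pi (fun i => continuous_apply (Fin.castAdd m i))

theorem sg_continuous (p : Fin m → MvPolynomial (Fin n) ℂ) : Continuous (sg p) := by
  refine continuous_pi (fun j => ?_)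
  unfold sg
  exact (continuous_apply (Fin.natAdd n j)).sub
    ((MvPolynomial.continuous_eval (p j)).comp fs_continuous)

theorem nn_sub_le_sg (p : Fin m → MvPolynomial (Fin n) ℂ) (Z W : Fin (n + m) → ℂ) :
    nn (Z - W) ≤ nn (fs Z - fs W) +
      2 * ∑ j, ‖eval (fs Z) (p j) - eval (fs W) (p j)‖ ^ 2 + 2 * nn (sg p Z - sg p W) := by
  have h1 : nn (Z - W) = nn (fs Z - fs W) +
      ∑ j : Fin m, ‖Z (Fin.natAdd n j) - W (Fin.natAdd n j)‖ ^ 2 := by
    unfold nn
    rw [Fin.sum_univ_add]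
    rfl
  have h2 : ∑ j : Fin m, ‖Z (Fin.natAdd n j) - W (Fin.natAdd n j)‖ ^ 2 ≤
      ∑ j : Fin m, (2 * ‖eval (fs Z) (p j) - eval (fs W) (p j)‖ ^ 2 +
        2 * ‖(sg p Z - sg p W) j‖ ^ 2) := by
    refine Finset.sum_le_sum (fun j _ => ?_)
    have he : Z (Fin.natAdd n j) - W (Fin.natAdd n j) =
        (eval (fs Z) (p j) - eval (fs W) (p j)) + (sg p Z - sg p W) j := by
      simp only [Pi.sub_apply, sg]
      ring
    rw [he]
    set a := eval (fs Z) (p j) - eval (fs W) (p j)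
    set b := (sg p Z - sg p W) j
    have hab := norm_add_le a b
    have h0 := norm_nonneg (a + b)
    have hs : ‖a + b‖ ^ 2 ≤ (‖a‖ + ‖b‖) ^ 2 := pow_le_pow_left₀ h0 hab 2
    nlinarith [sq_nonneg (‖a‖ - ‖b‖)]
  rw [h1]
  have h3 : ∑ j : Fin m, (2 * ‖eval (fs Z) (p j) - eval (fs W) (p j)‖ ^ 2 +
        2 * ‖(sg p Z - sg p W) j‖ ^ 2) =
      2 * ∑ j, ‖eval (fs Z) (p j) - eval (fs W) (p j)‖ ^ 2 + 2 * nn (sg p Z - sg p W) := by
    rw [Finset.sum_add_distrib, ← Finset.mul_sum, ← Finset.mul_sum]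
    rfl
  linarith

end Pool.Agent.Work.MP_49847a_an
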