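import Pool.Agent.Work.MP_49847a_an.Cp.GrA
import Pool.Agent.Work.MP_49847a_an.Sg.Hp

/-!
# Module GrB: pull-backs to `ℂⁿ` and lifts to `ℂ^(n+m)`

Proof.
(pull_hol) `f' = aeval (Fin.append X p) f` (`Fin.append (fun i => X i) p`); induction on `f` or `eval₂Hom` lemmas
(`MvPolynomial.eval₂_comp`, `aeval_def`), `Fin.addCases`.
(pull_nrm) apply `pull_hol` to every member.
(pull_real) `Dg_exists F` gives `ev F = nrm a - nrm b` on `ℂ^(n+m)`; `pull_nrm`, `exists_r2`, and `pol_r2` for both (`R2` of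
the pulled back families at `z, w` is `R2` of `a, b` at `gr p z`, `gr p w`); `pol_self` gives the statement for `ev`.
(lift_real) `ev F = nrm a - nrm b` with degrees `≤ k` if `Dg k F`; the families `rename (Fin.castAdd m) (a j)`
(`eval_rename`, `totalDegree_rename_le`), `exists_r2`, `pol_r2`.  To get one polynomial for all `k`: the polynomial `F'` is
determined by its values (`ev_ext`).  The identity for `pol` holds for the first representation, `Dg k F'` for every
other one by `ev_ext` (`ev F' Z = ev F (fs Z)`).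
(dev) `sg p Z j` is the value at `Z` of the polynomial `s_j = X (Fin.natAdd n j) - rename (Fin.castAdd m) (p j)`; `exists_nrm s`,
`pol_nrm`; `D` is a bound of the degrees.  `Df E Z W = ∑ ‖s_j(Z) - s_j(W)‖²` (`Df_r2` with `Q` the empty family, or expand).
-/

namespace Pool.Agent.Work.MP_49847a_an

open MvPolynomial

variable {n m : ℕ} {p : Fin m → MvPolynomial (Fin n) ℂ}

theorem pull_hol (p : Fin m → MvPolynomial (Fin n) ℂ) (f : MvPolynomial (Fin (n + m)) ℂ) :
    ∃ f' : MvPolynomial (Fin n) ℂ, ∀ z, eval z f' = eval (gr p z) f := by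
  refine ⟨aeval (Fin.append (fun i => X i) p) f, fun z => ?_⟩
  induction f using MvPolynomial.induction_on with
  | C a => simp
  | add a b ha hb => rw [map_add, map_add, map_add, ha, hb]
  | mul_X a i ha =>
    rw [map_mul, map_mul, map_mul, ha, aeval_X, eval_X]
    congr 1
    refine Fin.addCases (fun j => ?_) (fun j => ?_) i
    · rw [Fin.append_left, gr, Fin.append_left, eval_X]
    · rw [Fin.append_right, gr, Fin.append_right]

theorem pull_nrm (p : Fin m → MvPolynomial (Fin n) ℂ) {a : ℕ}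
    (f : Fin a → MvPolynomial (Fin (n + m)) ℂ) :
    ∃ f' : Fin a → MvPolynomial (Fin n) ℂ, (∀ z j, eval z (f' j) = eval (gr p z) (f j)) ∧
      ∀ z, nrm f' z = nrm f (gr p z) := by
  choose f' hf' using fun j => pull_hol p (f j)
  refine ⟨f', fun z j => hf' j z, fun z => ?_⟩
  unfold nrm
  exact Finset.sum_congr rfl fun j _ => by rw [hf' j z]

theorem pull_real (p : Fin m → MvPolynomial (Fin n) ℂ)
    (F : MvPolynomial (Fin (n + m) ⊕ Fin (n + m)) ℝ) :
    ∃ F' : MvPolynomial (Fin n ⊕ Fin n) ℝ, (∀ z, ev F' z = ev F (gr p z)) ∧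
      ∀ z w, pol F' z w = pol F (gr p z) (gr p w) := by
  obtain ⟨e, ka, a, kb, b, -, -, h⟩ := Dg_exists F
  obtain ⟨a', ha', hna⟩ := pull_nrm p a
  obtain ⟨b', hb', hnb⟩ := pull_nrm p b
  obtain ⟨F', hF'⟩ := exists_r2 a' b'
  refine ⟨F', fun z => ?_, fun z w => ?_⟩
  · rw [hF', h, r2, hna, hnb]
  · rw [pol_r2 hF', pol_r2 (P := a) (Q := b) (F := F) (fun z => by rw [h, r2])]
    unfold R2
    simp only [ha', hb']

private theorem lift_nrm (m : ℕ) {k : ℕ} (a : Fin k → MvPolynomial (Fin n) ℂ)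
    (Z : Fin (n + m) → ℂ) : nrm (fun j => rename (Fin.castAdd m) (a j)) Z = nrm a (fs Z) := by
  unfold nrm
  refine Finset.sum_congr rfl fun j _ => ?_
  rw [eval_rename]
  rfl

theorem lift_real (m : ℕ) (F : MvPolynomial (Fin n ⊕ Fin n) ℝ) :
    ∃ F' : MvPolynomial (Fin (n + m) ⊕ Fin (n + m)) ℝ, (∀ Z, ev F' Z = ev F (fs Z)) ∧
      (∀ Z W, pol F' Z W = pol F (fs Z) (fs W)) ∧ ∀ k, Dg k F → Dg k F' := by
  obtain ⟨e, ka, a, kb, b, -, -, h⟩ := Dg_exists F
  obtain ⟨F', hF'⟩ := exists_r2 (fun j => rename (Fin.castAdd m) (a j))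
    (fun j => rename (Fin.castAdd m) (b j))
  have hev : ∀ Z, ev F' Z = ev F (fs Z) := fun Z => by
    rw [hF', r2, lift_nrm, lift_nrm, h]
  refine ⟨F', hev, fun Z W => ?_, ?_⟩
  · rw [pol_r2 hF', pol_r2 (P := a) (Q := b) (F := F) (fun z => by rw [h, r2])]
    unfold R2
    simp only [eval_rename]
    rfl
  · rintro k ⟨kc, c, kd, d, hc, hd, hcd⟩
    refine ⟨kc, fun j => rename (Fin.castAdd m) (c j), kd, fun j => rename (Fin.castAdd m) (d j),
      fun j => (totalDegree_rename_le _ _).trans (hc j),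
      fun j => (totalDegree_rename_le _ _).trans (hd j), fun Z => ?_⟩
    rw [hev, hcd, lift_nrm, lift_nrm]

/-- the deviation from the graph as a real polynomial -/
theorem dev (p : Fin m → MvPolynomial (Fin n) ℂ) :
    ∃ (E : MvPolynomial (Fin (n + m) ⊕ Fin (n + m)) ℝ) (D : ℕ), Dg D E ∧
      (∀ Z, ev E Z = nn (sg p Z)) ∧ ∀ Z W, Df E Z W = nn (sg p Z - sg p W) := by
  let s : Fin m → MvPolynomial (Fin (n + m)) ℂ := fun j =>
    X (Fin.natAdd n j) - rename (Fin.castAdd m) (p j)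
  have hs : ∀ Z j, eval Z (s j) = sg p Z j := fun Z j => by
    simp only [s]
    rw [map_sub, eval_X, eval_rename]
    rfl
  let q : Fin 0 → MvPolynomial (Fin (n + m)) ℂ := fun _ => 0
  obtain ⟨E, hE⟩ := exists_nrm s
  have hq : ∀ Z, nrm q Z = 0 := fun Z => by simp [nrm]
  refine ⟨E, ∑ j, (s j).totalDegree, ⟨m, s, 0, q, fun j => ?_, fun j => j.elim0, fun Z => ?_⟩,
    fun Z => ?_, fun Z W => ?_⟩
  · exact Finset.single_le_sum (f := fun j => (s j).totalDegree) (fun _ _ => Nat.zero_le _)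
      (Finset.mem_univ j)
  · rw [hE, hq, sub_zero]
  · rw [hE]
    unfold nrm nn
    exact Finset.sum_congr rfl fun j _ => by rw [hs]
  · rw [Df_r2 (P := s) (Q := q) (F := E) (fun z => by rw [hE, r2, hq, sub_zero])]
    simp only [Finset.univ_eq_empty, Finset.sum_empty, sub_zero]
    unfold nn
    exact Finset.sum_congr rfl fun j _ => by rw [hs, hs, Pi.sub_apply]

end Pool.Agent.Work.MP_49847a_an
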