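import Pool.Agent.Work.MP_49847a_an.Cp.GrA

/-!
# Module GrH: polynomial convexity of the graph

Proof.  Let `K` be compact with `hull K ⊆ K` and `Z` in the hull of `gr p '' K`.
(1) For a polynomial `q` on `ℂⁿ` with `‖q‖ ≤ c` on `K`: `rename (Fin.castAdd m) q` has the value `q(fs Z)` at `Z`, so it is
bounded by `c` on `gr p '' K` (`fs_gr`), hence `‖q(fs Z)‖ ≤ c`.  So `fs Z ∈ hull K ⊆ K`.
(2) The polynomials `X (Fin.natAdd n j) - rename (Fin.castAdd m) (p j)` vanish on `gr p '' K` (`sg_gr`), so they vanish at `Z`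
(bound `c = 0`): `sg p Z = 0`, `Z = gr p (fs Z)` (`gr_of_sg`).
(compact) image of a compact set under a continuous map.
-/

namespace Pool.Agent.Work.MP_49847a_an

open MvPolynomial

variable {n m : ℕ} {p : Fin m → MvPolynomial (Fin n) ℂ}

theorem gr_compact (p : Fin m → MvPolynomial (Fin n) ℂ) {K : Set (Fin n → ℂ)}
    (hK : IsCompact K) : IsCompact (gr p '' K) :=
  hK.image (gr_continuous p)

private theorem eval_rename_castAdd (q : MvPolynomial (Fin n) ℂ) (Z : Fin (n + m) → ℂ) :
    eval Z (rename (Fin.castAdd m) q) = eval (fs Z) q := by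
  rw [eval_rename]
  rfl

theorem gr_hull (p : Fin m → MvPolynomial (Fin n) ℂ) {K : Set (Fin n → ℂ)}
    (hh : hull K ⊆ K) : hull (gr p '' K) ⊆ gr p '' K := by
  intro Z hZ
  have h1 : fs Z ∈ K := by
    apply hh
    intro q c hq
    have h := hZ (rename (Fin.castAdd m) q) c (by
      rintro _ ⟨z, hz, rfl⟩
      rw [eval_rename_castAdd, fs_gr]
      exact hq z hz)
    rwa [eval_rename_castAdd] at h
  have key : ∀ (j : Fin m) (W : Fin (n + m) → ℂ),
      eval W (X (Fin.natAdd n j) - rename (Fin.castAdd m) (p j)) = sg p W j := by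
    intro j W
    rw [map_sub, eval_X, eval_rename_castAdd]
    rfl
  have h2 : sg p Z = 0 := by
    funext j
    have h := hZ (X (Fin.natAdd n j) - rename (Fin.castAdd m) (p j)) 0 (by
      rintro _ ⟨z, hz, rfl⟩
      rw [key, sg_gr]
      simp)
    rw [key] at h
    exact norm_le_zero_iff.mp h
  exact ⟨fs Z, h1, gr_of_sg h2⟩

end Pool.Agent.Work.MP_49847a_an
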