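import Pool.Agent.Work.MP_49847a_an.Cp.CpDefs
import Pool.Agent.Work.MP_49847a_an.Sg.Hp

/-!
# Module InfA: the growth condition and differences of squared norms

Proof.  Let `G, δ, R₀` be as in `Inf2` and `ρ` the real polynomial with `ev ρ z = r2 P Q z * ev G z`,
`pol ρ z w = R2 P Q z w * pol G z w` (`exists_r2`, `pol_r2`, `pol_mul`).
(1) For `w ∈ ℂⁿ` the function `z ↦ pol ρ z w` is a polynomial `E_w` (`Dg_exists` and `pol_r2`: with
`ev ρ = nrm f - nrm g`, `E_w = ∑ conj(f_j(w)) f_j - ∑ conj(g_j(w)) g_j`).  All `E_w` lie in the finite dimensional space spanned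
by the `f_j, g_j`; let `V` be the span of all the `E_w`.  There are `w_1, …, w_s` such that every `E_w` is a linear
combination of `e_i = E_{w_i}` (a spanning set of a finite dimensional space contains a finite spanning set,
`exists_linearIndependent` or `Submodule.fg` ... `Submodule.fg_span_iff_fg_span_finset_subset`); take `e_i` linearly
independent.
(2) So `pol ρ z w = ∑_i γ_i(w) e_i(z)` with `e_i` linearly independent.  The vectors `(e_i(x))_i ∈ ℂ^s`, `x ∈ ℂⁿ`, span `ℂ^s`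
(otherwise a nonzero linear form vanishes on all of them, `∑ λ_i e_i = 0`; `MvPolynomial.funext`).  So the unit vectors are combinations of
vectors `(e_i(x_k))_i`, and `γ_i(w)` is a linear combination of the numbers
`pol ρ x_k w = conj(pol ρ w x_k) = conj(E_{x_k}(w))` (`pol_conj`), and `E_{x_k} ∈ V`.  Hence
`pol ρ z w = ∑_{i,j} c_{ij} e_i(z) conj(e_j(w))` for some complex numbers `c_{ij}`.
(3) Taking `w = z` and real parts: `ev ρ z = ∑_{ij} Re (c_{ij} e_i(z) conj(e_j(z))) =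
∑_{ij} (‖(c_{ij} e_i + e_j)(z)/2‖² - ‖(c_{ij} e_i - e_j)(z)/2‖²)`: `A = ((c_{ij} e_i + e_j)/2)`, `B = ((c_{ij} e_i - e_j)/2)`
(indexed by `Fin (s * s)`, `finProdFinEquiv`).
(4) `nrm A z + nrm B z ≤ K ∑_i ‖e_i(z)‖² = K ∑_i ‖pol ρ z w_i‖² ≤ K' ev ρ z` for `R₀ ≤ nn z` (`Inf2`), and `1 ≤ ev ρ z/δ`.
(Alternative to (1), (2): induction or any other argument giving `e_i` and `c_{ij}`.)
-/

namespace Pool.Agent.Work.MP_49847a_an

open MvPolynomial

variable {n k l : ℕ} {P : Fin k → MvPolynomial (Fin n) ℂ} {Q : Fin l → MvPolynomial (Fin n) ℂ}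

/-! ### Hermitian kernels of finite rank -/

private noncomputable def Ew {m m' : ℕ} (a : Fin m → MvPolynomial (Fin n) ℂ)
    (b : Fin m' → MvPolynomial (Fin n) ℂ) (w : Fin n → ℂ) : MvPolynomial (Fin n) ℂ :=
  ∑ j, (starRingEnd ℂ) (eval w (a j)) • a j - ∑ j, (starRingEnd ℂ) (eval w (b j)) • b j

private theorem eval_Ew {m m' : ℕ} (a : Fin m → MvPolynomial (Fin n) ℂ)
    (b : Fin m' → MvPolynomial (Fin n) ℂ) (z w : Fin n → ℂ) :
    eval z (Ew a b w) = R2 a b z w := by
  unfold Ew R2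
  rw [map_sub, map_sum, map_sum]
  congr 1 <;> refine Finset.sum_congr rfl fun j _ => ?_ <;> rw [smul_eval, mul_comm]

private theorem Ew_mem {m m' : ℕ} (a : Fin m → MvPolynomial (Fin n) ℂ)
    (b : Fin m' → MvPolynomial (Fin n) ℂ) (w : Fin n → ℂ) :
    Ew a b w ∈ Submodule.span ℂ (Set.range a ∪ Set.range b) := by
  unfold Ew
  refine Submodule.sub_mem _ (Submodule.sum_mem _ fun j _ => ?_) (Submodule.sum_mem _ fun j _ => ?_)
  · exact Submodule.smul_mem _ _ (Submodule.subset_span (Or.inl ⟨j, rfl⟩))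
  · exact Submodule.smul_mem _ _ (Submodule.subset_span (Or.inr ⟨j, rfl⟩))

private theorem exists_basis {m m' : ℕ} (a : Fin m → MvPolynomial (Fin n) ℂ)
    (b : Fin m' → MvPolynomial (Fin n) ℂ) :
    ∃ (s : ℕ) (w : Fin s → Fin n → ℂ), LinearIndependent ℂ (fun i => Ew a b (w i)) ∧
      ∀ x, ∃ γ : Fin s → ℂ, ∑ i, γ i • Ew a b (w i) = Ew a b x := by
  obtain ⟨κ, u, -, hspan, hli⟩ := exists_linearIndependent' ℂ (fun x : Fin n → ℂ => Ew a b x)
  have hfin : Finite κ := by
    have : Finite (Set.range a ∪ Set.range b : Set (MvPolynomial (Fin n) ℂ)) :=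
      ((Set.finite_range a).union (Set.finite_range b)).to_subtype
    refine LinearIndependent.finite_of_le_span_finite _ hli (Set.range a ∪ Set.range b) ?_
    rintro _ ⟨k, rfl⟩
    exact Ew_mem a b (u k)
  have := Fintype.ofFinite κ
  have e : κ ≃ Fin (Fintype.card κ) := Fintype.equivFin κ
  refine ⟨Fintype.card κ, fun i => u (e.symm i), ?_, fun x => ?_⟩
  · have := hli.comp e.symm e.symm.injective
    exact this
  · have h1 : Ew a b x ∈ Submodule.span ℂ (Set.range ((fun x : Fin n → ℂ => Ew a b x) ∘ u)) := by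
      rw [hspan]
      exact Submodule.subset_span ⟨x, rfl⟩
    rw [Submodule.mem_span_range_iff_exists_fun] at h1
    obtain ⟨c, hc⟩ := h1
    refine ⟨fun i => c (e.symm i), ?_⟩
    rw [← hc]
    exact Equiv.sum_comp e.symm (fun k => c k • Ew a b (u k))

private theorem dual_pts {s : ℕ} {e : Fin s → MvPolynomial (Fin n) ℂ}
    (he : LinearIndependent ℂ e) (i : Fin s) :
    ∃ c : (Fin n → ℂ) →₀ ℂ, ∀ j, (c.sum fun x t => t * eval x (e j)) = if i = j then 1 else 0 := by
  obtain ⟨v, hv⟩ : ∃ v : (Fin n → ℂ) → Fin s → ℂ, v = fun x j => eval x (e j) := ⟨_, rfl⟩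
  have htop : Submodule.span ℂ (Set.range v) = ⊤ := by
    by_contra hne
    obtain ⟨f, hf, hle⟩ := Submodule.exists_le_ker_of_lt_top _ (lt_top_iff_ne_top.2 hne)
    apply hf
    have h1 : ∑ j, f (fun k => if j = k then 1 else 0) • e j = 0 := by
      refine MvPolynomial.funext fun x => ?_
      rw [map_sum, map_zero]
      have h2 : f (v x) = 0 := by
        have h3 : v x ∈ LinearMap.ker f := hle (Submodule.subset_span ⟨x, rfl⟩)
        exact h3
      rw [LinearMap.pi_apply_eq_sum_univ f (v x)] at h2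
      refine Eq.trans (Finset.sum_congr rfl fun j _ => ?_) h2
      rw [smul_eval, hv, smul_eq_mul, mul_comm]
    have h2 := Fintype.linearIndependent_iff.1 he _ h1
    refine LinearMap.ext fun y => ?_
    rw [LinearMap.pi_apply_eq_sum_univ f y]
    simp only [h2, smul_zero, Finset.sum_const_zero, LinearMap.zero_apply]
  have h1 : (fun k => if i = k then (1 : ℂ) else 0) ∈ Submodule.span ℂ (Set.range v) := by
    rw [htop]
    trivial
  rw [Finsupp.mem_span_range_iff_exists_finsupp] at h1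
  obtain ⟨c, hc⟩ := h1
  refine ⟨c, fun j => ?_⟩
  have h2 := congrFun hc j
  rw [← h2, Finsupp.sum, Finsupp.sum, Finset.sum_apply]
  refine Finset.sum_congr rfl fun x _ => ?_
  rw [Pi.smul_apply, smul_eq_mul, hv]

private theorem herm_rank {m m' : ℕ} (a : Fin m → MvPolynomial (Fin n) ℂ)
    (b : Fin m' → MvPolynomial (Fin n) ℂ) :
    ∃ (s : ℕ) (w : Fin s → Fin n → ℂ) (c : Fin s → Fin s → ℂ), ∀ z x,
      R2 a b z x = ∑ i, ∑ j, c i j * R2 a b z (w i) * (starRingEnd ℂ) (R2 a b x (w j)) := by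
  obtain ⟨s, w, hli, hsp⟩ := exists_basis a b
  choose γ hγ using hsp
  choose cc hcc using fun i => dual_pts hli i
  refine ⟨s, w, fun i j => (cc i).sum fun x t => t * (starRingEnd ℂ) (γ x j), fun z x => ?_⟩
  -- expansion of the kernel
  have h1 : ∀ z x, R2 a b z x = ∑ i, γ x i * R2 a b z (w i) := by
    intro z x
    rw [← eval_Ew, ← hγ x, map_sum]
    refine Finset.sum_congr rfl fun i _ => ?_
    rw [smul_eval, eval_Ew]
  -- the coefficients are values of the kernel
  have h2 : ∀ x i, γ x i = (cc i).sum fun y t => t * R2 a b y x := by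
    intro x i
    have h3 : (cc i).sum (fun y t => t * R2 a b y x) =
        ∑ j, γ x j * ((cc i).sum fun y t => t * eval y (Ew a b (w j))) := by
      rw [Finsupp.sum]
      simp only [Finsupp.sum]
      simp only [Finset.mul_sum]
      rw [Finset.sum_comm]
      refine Finset.sum_congr rfl fun y _ => ?_
      rw [h1 y x, Finset.mul_sum]
      refine Finset.sum_congr rfl fun j _ => ?_
      rw [eval_Ew]
      ring
    rw [h3]
    simp only [hcc, mul_ite, mul_one, mul_zero, Finset.sum_ite_eq, Finset.mem_univ, if_true]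
  have h4 : ∀ i, γ x i = ∑ j, ((cc i).sum fun y t => t * (starRingEnd ℂ) (γ y j)) *
      (starRingEnd ℂ) (R2 a b x (w j)) := by
    intro i
    rw [h2 x i]
    simp only [Finsupp.sum]
    simp only [Finset.sum_mul]
    rw [Finset.sum_comm]
    refine Finset.sum_congr rfl fun y _ => ?_
    rw [← R2_conj a b x y, h1 x y, map_sum, Finset.mul_sum]
    refine Finset.sum_congr rfl fun j _ => ?_
    rw [map_mul]
    ring
  rw [h1 z x]
  refine Finset.sum_congr rfl fun i _ => ?_
  rw [h4 i, Finset.sum_mul]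
  refine Finset.sum_congr rfl fun j _ => ?_
  ring

private theorem re_mul_conj (x y : ℂ) :
    (x * (starRingEnd ℂ) y).re = ‖(1 / 2 : ℂ) * (x + y)‖ ^ 2 - ‖(1 / 2 : ℂ) * (x - y)‖ ^ 2 := by
  rw [norm_mul, norm_mul, mul_pow, mul_pow, ← Complex.normSq_eq_norm_sq (x + y),
    ← Complex.normSq_eq_norm_sq (x - y), Complex.normSq_add, Complex.normSq_sub]
  have h1 : ‖(1 / 2 : ℂ)‖ = 1 / 2 := by norm_num
  rw [h1]
  ring

private theorem par_id (x y : ℂ) :
    ‖(1 / 2 : ℂ) * (x + y)‖ ^ 2 + ‖(1 / 2 : ℂ) * (x - y)‖ ^ 2 = (‖x‖ ^ 2 + ‖y‖ ^ 2) / 2 := by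
  rw [norm_mul, norm_mul, mul_pow, mul_pow, ← Complex.normSq_eq_norm_sq (x + y),
    ← Complex.normSq_eq_norm_sq (x - y), Complex.normSq_add, Complex.normSq_sub,
    Complex.normSq_eq_norm_sq, Complex.normSq_eq_norm_sq]
  have h1 : ‖(1 / 2 : ℂ)‖ = 1 / 2 := by norm_num
  rw [h1]
  ring

theorem inf_ab (h : Inf2 P Q) : ∃ (G : MvPolynomial (Fin n ⊕ Fin n) ℝ) (a b : ℕ)
    (A : Fin a → MvPolynomial (Fin n) ℂ) (B : Fin b → MvPolynomial (Fin n) ℂ) (δ R₀ : ℝ),
    0 < δ ∧ (∀ z, r2 P Q z * ev G z = nrm A z - nrm B z) ∧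
      ∀ z, R₀ ≤ nn z → δ * (1 + nrm A z + nrm B z) ≤ nrm A z - nrm B z := by
  obtain ⟨G, δ, R₀, hδ, h1, h2⟩ := h
  obtain ⟨F, hF⟩ := exists_r2 P Q
  have hev : ∀ z, ev (F * G) z = r2 P Q z * ev G z := fun z => by rw [ev_mul, hF]
  have hpol : ∀ z w, pol (F * G) z w = R2 P Q z w * pol G z w := fun z w => by
    rw [pol_mul, pol_r2 hF]
  obtain ⟨e, m, a, m', b, -, -, hab⟩ := Dg_exists (F * G)
  have hab2 : ∀ z, ev (F * G) z = r2 a b z := fun z => by rw [hab z, r2]
  have hpab : ∀ z w, R2 a b z w = R2 P Q z w * pol G z w := fun z w => by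
    rw [← pol_r2 hab2, hpol]
  obtain ⟨s, w, c, hc⟩ := herm_rank a b
  choose K hK using h2
  -- the two families
  obtain ⟨A, hA⟩ : ∃ A : Fin (s * s) → MvPolynomial (Fin n) ℂ, A = fun t =>
      C (1 / 2) * (C (c (finProdFinEquiv.symm t).1 (finProdFinEquiv.symm t).2) *
        Ew a b (w (finProdFinEquiv.symm t).1) + Ew a b (w (finProdFinEquiv.symm t).2)) := ⟨_, rfl⟩
  obtain ⟨B, hB⟩ : ∃ B : Fin (s * s) → MvPolynomial (Fin n) ℂ, B = fun t =>
      C (1 / 2) * (C (c (finProdFinEquiv.symm t).1 (finProdFinEquiv.symm t).2) *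
        Ew a b (w (finProdFinEquiv.symm t).1) - Ew a b (w (finProdFinEquiv.symm t).2)) := ⟨_, rfl⟩
  have nA : ∀ z, nrm A z = ∑ i, ∑ j, ‖(1 / 2 : ℂ) * (c i j * R2 a b z (w i) + R2 a b z (w j))‖ ^ 2 := by
    intro z
    unfold nrm
    rw [← Finset.sum_product', Finset.univ_product_univ]
    refine Fintype.sum_equiv finProdFinEquiv.symm _ _ fun t => ?_
    rw [hA]
    simp only [map_mul, map_add, eval_C, eval_Ew]
  have nB : ∀ z, nrm B z = ∑ i, ∑ j, ‖(1 / 2 : ℂ) * (c i j * R2 a b z (w i) - R2 a b z (w j))‖ ^ 2 := by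
    intro z
    unfold nrm
    rw [← Finset.sum_product', Finset.univ_product_univ]
    refine Fintype.sum_equiv finProdFinEquiv.symm _ _ fun t => ?_
    rw [hB]
    simp only [map_mul, map_sub, eval_C, eval_Ew]
  have hdiff : ∀ z, ev (F * G) z = nrm A z - nrm B z := by
    intro z
    have h3 : ((ev (F * G) z : ℝ) : ℂ) = R2 a b z z := by
      rw [R2_self, hab2]
    have h4 : ev (F * G) z = (R2 a b z z).re := by
      rw [← h3, Complex.ofReal_re]
    rw [h4, hc z z, nA, nB, ← Finset.sum_sub_distrib, Complex.re_sum]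
    refine Finset.sum_congr rfl fun i _ => ?_
    rw [← Finset.sum_sub_distrib, Complex.re_sum]
    refine Finset.sum_congr rfl fun j _ => ?_
    exact re_mul_conj _ _
  obtain ⟨K', hK'⟩ : ∃ K' : ℝ, K' = 1 / δ +
      ∑ i, ∑ j, (‖c i j‖ ^ 2 * |K (w i)| + |K (w j)|) / 2 := ⟨_, rfl⟩
  have hK'pos : 0 < K' := by
    rw [hK']
    have h3 : 0 ≤ ∑ i, ∑ j, (‖c i j‖ ^ 2 * |K (w i)| + |K (w j)|) / 2 :=
      Finset.sum_nonneg fun i _ => Finset.sum_nonneg fun j _ => by positivity
    have h4 : 0 < 1 / δ := by positivity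
    linarith
  refine ⟨G, s * s, s * s, A, B, 1 / K', R₀, by positivity, fun z => ?_, fun z hz => ?_⟩
  · rw [← hev, hdiff]
  · have hpos : δ ≤ ev (F * G) z := by
      rw [hev]
      exact h1 z hz
    have hbd : ∀ i, ‖R2 a b z (w i)‖ ^ 2 ≤ |K (w i)| * ev (F * G) z := by
      intro i
      have h3 := hK (w i) z hz
      rw [← hpab, ← hev] at h3
      refine h3.trans ?_
      exact mul_le_mul_of_nonneg_right (le_abs_self _) (by linarith)
    have hsum : nrm A z + nrm B z ≤
        (∑ i, ∑ j, (‖c i j‖ ^ 2 * |K (w i)| + |K (w j)|) / 2) * ev (F * G) z := by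
      rw [nA, nB, ← Finset.sum_add_distrib, Finset.sum_mul]
      refine Finset.sum_le_sum fun i _ => ?_
      rw [← Finset.sum_add_distrib, Finset.sum_mul]
      refine Finset.sum_le_sum fun j _ => ?_
      rw [par_id, norm_mul, mul_pow]
      have h3 := mul_le_mul_of_nonneg_left (hbd i) (sq_nonneg ‖c i j‖)
      have h4 := hbd j
      linarith
    have h1d : 1 ≤ 1 / δ * ev (F * G) z := by
      rw [one_div, ← div_eq_inv_mul, one_le_div hδ]
      exact hpos
    have htot : 1 + nrm A z + nrm B z ≤ K' * ev (F * G) z := by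
      rw [hK', add_mul]
      linarith
    rw [← hdiff, one_div, ← div_eq_inv_mul, div_le_iff₀ hK'pos, mul_comm (ev (F * G) z)]
    exact htot

end Pool.Agent.Work.MP_49847a_an
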