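import Pool.Agent.Work.MP_49847a_an.Cp.Clos
import Pool.Agent.Work.MP_49847a_an.Cp.CpDefs

/-!
# Module IntDep: integral dependence from growth

Proof.  If `φ = 0`: `D = 1`, `c = 0`.  Let `φ ≠ 0`, `ψ' = (1, ψ_1, …, ψ_m)` (`Fin.cons 1 ψ`, `q = m + 1`).
(1) There is `H ∈ MvPolynomial (Fin (m + 1)) ℂ` with `H(ψ'(z)/φ(z)) = 0` whenever `φ(z) ≠ 0` and `eval 0 H ≠ 0`: otherwise `clos` gives
for every `ε > 0` a point `z` with `‖1/φ(z)‖ < ε`, `‖ψ_i(z)/φ(z)‖ < ε`; dividing `‖φ(z)‖² ≤ C (1 + nrm ψ z)` by `‖φ(z)‖²` gives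
`1 ≤ |C| (m + 1) ε²`, false for small `ε`.
(2) Let `D` be the total degree of `H`; `D > 0` (a nonzero constant does not vanish).  Multiply `H(ψ'(z)/φ(z)) = 0` by `φ(z)^D`: with
`H = ∑_ν h_ν x_0^{ν_0} x^{ν'}`, `∑_ν h_ν ψ(z)^{ν'} φ(z)^{D - |ν|} = 0` (`eval_eq'` or `as_sum`, `Finset.sum_comp`), and the term
`ν = 0` is `h_0 φ^D`, `h_0 = eval 0 H = coeff 0 H`.  So with `c_j = ∑_{|ν| = D - j} (h_ν/h_0) X^{ν'}` (degree `≤ D - j`), `j < D`, the
equation holds where `φ(z) ≠ 0`, hence everywhere (both sides are polynomials in `z`, and their difference times `φ` vanishes everywhere;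
`MvPolynomial.funext`, `mul_eq_zero`; or continuity).
-/

namespace Pool.Agent.Work.MP_49847a_an

open MvPolynomial

variable {n m : ℕ}

private lemma exH {φ : MvPolynomial (Fin n) ℂ} (hφ : φ ≠ 0) {ψ : Fin m → MvPolynomial (Fin n) ℂ}
    {C : ℝ} (h : ∀ z, ‖eval z φ‖ ^ 2 ≤ C * (1 + nrm ψ z)) :
    ∃ H : MvPolynomial (Fin (m + 1)) ℂ, (∀ z, eval z φ ≠ 0 →
      eval (fun i => eval z ((Fin.cons 1 ψ : Fin (m + 1) → MvPolynomial (Fin n) ℂ) i) /
        eval z φ) H = 0) ∧ eval 0 H ≠ 0 := by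
  by_contra hcon
  push Not at hcon
  set K : ℝ := |C| * (m + 1) with hK
  have hK0 : 0 ≤ K := by positivity
  set ε : ℝ := 1 / (K + 1) with hε
  have hε0 : 0 < ε := by positivity
  have hKε : K * ε < 1 := by
    rw [hε, mul_one_div, div_lt_one (by positivity)]
    linarith
  have hε1 : ε ≤ 1 := by
    rw [hε, div_le_one (by positivity)]
    linarith
  obtain ⟨z, hz, hzi⟩ := clos hφ (Fin.cons 1 ψ) hcon hε0
  have hF : 0 < ‖eval z φ‖ := norm_pos_iff.2 hz
  have h1 : 1 ≤ ε ^ 2 * ‖eval z φ‖ ^ 2 := by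
    have := hzi 0
    rw [Fin.cons_zero, map_one, norm_div, norm_one, div_lt_iff₀ hF] at this
    rw [← mul_pow]
    nlinarith
  have h2 : ∀ i : Fin m, ‖eval z (ψ i)‖ ^ 2 ≤ ε ^ 2 * ‖eval z φ‖ ^ 2 := by
    intro i
    have := hzi i.succ
    rw [Fin.cons_succ, norm_div, div_lt_iff₀ hF] at this
    rw [← mul_pow]
    exact pow_le_pow_left₀ (norm_nonneg _) this.le 2
  have h3 : 1 + nrm ψ z ≤ (m + 1) * (ε ^ 2 * ‖eval z φ‖ ^ 2) := by
    have : nrm ψ z ≤ ∑ _j : Fin m, ε ^ 2 * ‖eval z φ‖ ^ 2 := Finset.sum_le_sum fun i _ => h2 i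
    rw [Finset.sum_const, Finset.card_univ, Fintype.card_fin, nsmul_eq_mul] at this
    linarith
  have hn : 0 ≤ nrm ψ z := Finset.sum_nonneg fun i _ => by positivity
  have h4 : ‖eval z φ‖ ^ 2 ≤ K * ε ^ 2 * ‖eval z φ‖ ^ 2 := by
    calc ‖eval z φ‖ ^ 2 ≤ C * (1 + nrm ψ z) := h z
      _ ≤ |C| * (1 + nrm ψ z) := mul_le_mul_of_nonneg_right (le_abs_self C) (by linarith)
      _ ≤ |C| * ((m + 1) * (ε ^ 2 * ‖eval z φ‖ ^ 2)) :=
          mul_le_mul_of_nonneg_left h3 (abs_nonneg C)
      _ = K * ε ^ 2 * ‖eval z φ‖ ^ 2 := by rw [hK]; ring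
  have h5 : K * ε ^ 2 < 1 := by nlinarith
  have h6 : 0 < ‖eval z φ‖ ^ 2 := by positivity
  nlinarith

private lemma eval_bd (ψ : Fin m → MvPolynomial (Fin n) ℂ) (z : Fin n → ℂ)
    (c : MvPolynomial (Fin m) ℂ) :
    eval z (bind₁ ψ c) = eval (fun i => eval z (ψ i)) c := by
  have : (eval z).comp (bind₁ ψ).toRingHom = eval (fun i => eval z (ψ i)) := by
    apply MvPolynomial.ringHom_ext
    · intro r
      simp
    · intro i
      simp
  exact congrArg (fun f => f c) this

private lemma mulF {H : MvPolynomial (Fin (m + 1)) ℂ} {F : ℂ} (hF : F ≠ 0) (y : Fin m → ℂ)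
    (hH : eval (fun i => (Fin.cons 1 y : Fin (m + 1) → ℂ) i / F) H = 0) :
    ∑ ν ∈ H.support, coeff ν H * (∏ i : Fin m, y i ^ ν i.succ) *
      F ^ (H.totalDegree - ν.degree) = 0 := by
  have h1 : ∀ ν ∈ H.support, coeff ν H * (∏ i : Fin m, y i ^ ν i.succ) *
      F ^ (H.totalDegree - ν.degree) = F ^ H.totalDegree *
        (coeff ν H * ∏ i : Fin (m + 1), ((Fin.cons 1 y : Fin (m + 1) → ℂ) i / F) ^ ν i) := by
    intro ν hν
    have hd : ν.degree ≤ H.totalDegree := by
      have := le_totalDegree hν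
      rwa [Finsupp.degree_eq_sum, ← Finsupp.sum_fintype ν (fun _ e => e) (fun _ => rfl)]
    have e1 : ∏ i : Fin (m + 1), ((Fin.cons 1 y : Fin (m + 1) → ℂ) i / F) ^ ν i =
        (∏ i : Fin m, y i ^ ν i.succ) / F ^ ν.degree := by
      simp_rw [div_pow]
      rw [Finset.prod_div_distrib, Finset.prod_pow_eq_pow_sum, Finsupp.degree_eq_sum,
        Fin.prod_univ_succ]
      simp
    rw [e1, pow_sub₀ F hF hd]
    field_simp
  rw [Finset.sum_congr rfl h1, ← Finset.mul_sum]
  rw [eval_eq'] at hH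
  rw [hH, mul_zero]

theorem int_dep {φ : MvPolynomial (Fin n) ℂ} {ψ : Fin m → MvPolynomial (Fin n) ℂ} {C : ℝ}
    (h : ∀ z, ‖eval z φ‖ ^ 2 ≤ C * (1 + nrm ψ z)) :
    ∃ D : ℕ, 0 < D ∧ ∃ c : Fin D → MvPolynomial (Fin m) ℂ,
      (∀ j : Fin D, (c j).totalDegree ≤ D - j) ∧ ∀ z, eval z φ ^ D +
        ∑ j : Fin D, eval (fun i => eval z (ψ i)) (c j) * eval z φ ^ (j : ℕ) = 0 := by
  rcases eq_or_ne φ 0 with rfl | hφ
  · exact ⟨1, one_pos, fun _ => 0, fun j => by simp, fun z => by simp⟩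
  obtain ⟨H, hH, hH0⟩ := exH hφ h
  have hc0 : eval 0 H = coeff 0 H := by
    rw [← constantCoeff_eq, eval_zero]
  obtain ⟨z₀, hz₀⟩ : ∃ z, eval z φ ≠ 0 := by
    by_contra hc
    push Not at hc
    exact hφ (MvPolynomial.funext fun z => by rw [hc z, map_zero])
  have hDpos : 0 < H.totalDegree := by
    rcases Nat.eq_zero_or_pos H.totalDegree with h0 | h0
    · exfalso
      rw [totalDegree_eq_zero_iff_eq_C] at h0
      have := hH z₀ hz₀
      rw [h0, eval_C] at this
      exact hH0 (hc0.trans this)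
    · exact h0
  set D := H.totalDegree with hD
  set a : ℂ := coeff 0 H with ha
  have ha0 : a ≠ 0 := by rw [← hc0]; exact hH0
  refine ⟨D, hDpos, fun j => ∑ ν ∈ H.support with D - ν.degree = (j : ℕ),
    monomial ν.tail (coeff ν H / a), ?_, ?_⟩
  · intro j
    refine (totalDegree_finsetSum _ _).trans (Finset.sup_le fun ν hν => ?_)
    rw [Finset.mem_filter] at hν
    refine (totalDegree_monomial_le _ _).trans ?_
    have h1 : (ν.tail.sum fun _ => id) = ∑ i : Fin m, ν i.succ := by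
      rw [Finsupp.sum_fintype _ _ (fun _ => rfl)]
      rfl
    have h2 : ν.degree = ν 0 + ∑ i : Fin m, ν i.succ := by
      rw [Finsupp.degree_eq_sum, Fin.sum_univ_succ]
    have h3 := j.2
    have h4 := hν.2
    have h5 : ν.degree ≤ D := by
      have := le_totalDegree hν.1
      rwa [Finsupp.degree_eq_sum, ← Finsupp.sum_fintype ν (fun _ e => e) (fun _ => rfl)]
    rw [h1]
    omega
  · have key : ∀ z, eval z φ ≠ 0 → eval z φ ^ D +
        ∑ j : Fin D, eval (fun i => eval z (ψ i)) (∑ ν ∈ H.support with D - ν.degree = (j : ℕ),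
          monomial ν.tail (coeff ν H / a)) * eval z φ ^ (j : ℕ) = 0 := by
      intro z hz
      set F := eval z φ with hF
      set y : Fin m → ℂ := fun i => eval z (ψ i) with hy
      have h1 : ∑ ν ∈ H.support, coeff ν H * (∏ i : Fin m, y i ^ ν i.succ) *
          F ^ (D - ν.degree) = 0 := by
        apply mulF hz y
        have := hH z hz
        have e : (fun i => (Fin.cons 1 y : Fin (m + 1) → ℂ) i / F) = fun i => eval z
            ((Fin.cons 1 ψ : Fin (m + 1) → MvPolynomial (Fin n) ℂ) i) / eval z φ := by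
          funext i
          refine Fin.cases ?_ (fun i => ?_) i
          · simp [hF]
          · simp [hy, hF]
        rw [e]
        exact this
      have h2 : ∑ j ∈ Finset.range (D + 1), ∑ ν ∈ H.support with D - ν.degree = j,
          coeff ν H * (∏ i : Fin m, y i ^ ν i.succ) * F ^ (D - ν.degree) = 0 := by
        rw [Finset.sum_fiberwise_of_maps_to]
        · exact h1
        · intro ν _
          rw [Finset.mem_range]
          omega
      rw [Finset.sum_range_succ] at h2
      have h3 : ∑ ν ∈ H.support with D - ν.degree = D,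
          coeff ν H * (∏ i : Fin m, y i ^ ν i.succ) * F ^ (D - ν.degree) = a * F ^ D := by
        have : (H.support.filter fun ν => D - ν.degree = D) = {0} := by
          ext ν
          rw [Finset.mem_filter, Finset.mem_singleton]
          constructor
          · rintro ⟨-, h⟩
            have : ν.degree = 0 := by omega
            rwa [Finsupp.degree_eq_zero_iff] at this
          · rintro rfl
            exact ⟨mem_support_iff.2 ha0, by simp⟩
        rw [this, Finset.sum_singleton]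
        simp [ha]
      rw [h3, Finset.sum_range] at h2
      have h4 : ∀ j : Fin D, eval y (∑ ν ∈ H.support with D - ν.degree = (j : ℕ),
          monomial ν.tail (coeff ν H / a)) * F ^ (j : ℕ) =
          a⁻¹ * ∑ ν ∈ H.support with D - ν.degree = (j : ℕ),
            coeff ν H * (∏ i : Fin m, y i ^ ν i.succ) * F ^ (D - ν.degree) := by
        intro j
        rw [map_sum, Finset.sum_mul, Finset.mul_sum]
        refine Finset.sum_congr rfl fun ν hν => ?_
        rw [Finset.mem_filter] at hν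
        rw [hν.2, eval_monomial, Finsupp.prod_fintype _ _ (fun _ => pow_zero _)]
        have : ∏ i : Fin m, y i ^ ν.tail i = ∏ i : Fin m, y i ^ ν i.succ := rfl
        rw [this, div_eq_mul_inv]
        ring
      rw [Finset.sum_congr rfl fun j _ => h4 j, ← Finset.mul_sum]
      have h5 : a⁻¹ * (a * F ^ D) = F ^ D := by
        rw [← mul_assoc, inv_mul_cancel₀ ha0, one_mul]
      rw [← h5, ← mul_add, add_comm, h2, mul_zero]
    have hpoly : φ ^ D + ∑ j : Fin D, bind₁ ψ (∑ ν ∈ H.support with D - ν.degree = (j : ℕ),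
        monomial ν.tail (coeff ν H / a)) * φ ^ (j : ℕ) = 0 := by
      have : (φ ^ D + ∑ j : Fin D, bind₁ ψ (∑ ν ∈ H.support with D - ν.degree = (j : ℕ),
          monomial ν.tail (coeff ν H / a)) * φ ^ (j : ℕ)) * φ = 0 := by
        apply MvPolynomial.funext
        intro z
        rw [map_mul, map_zero]
        rcases eq_or_ne (eval z φ) 0 with h0 | h0
        · rw [h0, mul_zero]
        · have := key z h0
          rw [map_add, map_pow, map_sum]
          simp_rw [map_mul, map_pow, eval_bd]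
          rw [this, zero_mul]
      exact (mul_eq_zero.1 this).resolve_right hφ
    intro z
    have := congrArg (eval z) hpoly
    rw [map_add, map_pow, map_sum, map_zero] at this
    simp_rw [map_mul, map_pow, eval_bd] at this
    exact this

end Pool.Agent.Work.MP_49847a_an
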