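import Pool.Agent.Work.MP_49847a_an.Cp.RMain

/-!
# An ellipsoid for which the property fails
-/

namespace Pool.Agent.Work.MP_49847a_an

open MvPolynomial

variable {n : ℕ}

/-- `r = ‖z‖² + ((Re z_i)² - (Im z_i)²)/2 - 1` -/
noncomputable def elr (i₀ : Fin n) : MvPolynomial (Fin n ⊕ Fin n) ℝ :=
  ∑ i, (X (Sum.inl i) ^ 2 + X (Sum.inr i) ^ 2) +
    C (1 / 2) * (X (Sum.inl i₀) ^ 2 - X (Sum.inr i₀) ^ 2) - 1

theorem ev_elr (i₀ : Fin n) (z : Fin n → ℂ) :
    ev (elr i₀) z = nn z + ((z i₀).re ^ 2 - (z i₀).im ^ 2) / 2 - 1 := by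
  unfold ev elr nn
  simp only [map_add, map_sum, map_mul, map_sub, map_pow, eval_X, eval_C, Sum.elim_inl,
    Sum.elim_inr, map_one]
  have h : ∀ i, (z i).re ^ 2 + (z i).im ^ 2 = ‖z i‖ ^ 2 := fun i => by
    rw [← Complex.normSq_eq_norm_sq, Complex.normSq_apply]
    ring
  rw [Finset.sum_congr rfl fun i _ => h i]
  ring

theorem elr_bounds (i₀ : Fin n) (z : Fin n → ℂ) :
    nn z / 2 - 1 ≤ ev (elr i₀) z ∧ ev (elr i₀) z ≤ 2 * nn z - 1 := by
  rw [ev_elr]
  have h1 : ‖z i₀‖ ^ 2 ≤ nn z :=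
    Finset.single_le_sum (f := fun i => ‖z i‖ ^ 2) (fun i _ => sq_nonneg _) (Finset.mem_univ i₀)
  have h2 : (z i₀).re ^ 2 + (z i₀).im ^ 2 = ‖z i₀‖ ^ 2 := by
    rw [← Complex.normSq_eq_norm_sq, Complex.normSq_apply]
    ring
  have h3 := sq_nonneg (z i₀).re
  have h4 := sq_nonneg (z i₀).im
  constructor <;> nlinarith

theorem elr_smul (i₀ : Fin n) (t : ℝ) (z : Fin n → ℂ) :
    ev (elr i₀) (t • z) = t ^ 2 * (ev (elr i₀) z + 1) - 1 := by
  have h0 : nn (t • z) = t ^ 2 * nn z := by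
    have := nn_smul (t : ℂ) z
    rw [Complex.norm_real, Real.norm_eq_abs, sq_abs] at this
    rw [← this]
    congr 1
  rw [ev_elr, ev_elr, h0]
  simp only [Pi.smul_apply, Complex.real_smul, Complex.mul_re, Complex.mul_im, Complex.ofReal_re,
    Complex.ofReal_im]
  ring

theorem zb_elr (i₀ : Fin n) : zb (elr i₀) = ∑ i, X (Sum.inl i) * X (Sum.inr i) +
    C (1 / 4) * (X (Sum.inl i₀) ^ 2 + X (Sum.inr i₀) ^ 2) - 1 := by
  refine zb_eq fun z => ?_
  rw [ev_elr]
  simp only [map_add, map_sum, map_mul, map_sub, map_pow, eval_X, eval_C, Sum.elim_inl,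
    Sum.elim_inr, map_one, nn]
  push_cast
  have h : ∀ i, z i * (starRingEnd ℂ) (z i) = ((‖z i‖ : ℝ) : ℂ) ^ 2 := fun i => by
    rw [Complex.mul_conj, Complex.normSq_eq_norm_sq]
    push_cast
    rfl
  rw [Finset.sum_congr rfl fun i _ => h i]
  congr 2
  have h1 : z i₀ = ((z i₀).re : ℂ) + ((z i₀).im : ℂ) * Complex.I := (Complex.re_add_im _).symm
  have h2 : (starRingEnd ℂ) (z i₀) = ((z i₀).re : ℂ) - ((z i₀).im : ℂ) * Complex.I := by
    conv_lhs => rw [h1]
    rw [map_add, map_mul, Complex.conj_ofReal, Complex.conj_ofReal, Complex.conj_I]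
    ring
  rw [h2]
  conv_lhs => rw [h1]
  simp only [Complex.add_re, Complex.ofReal_re, Complex.mul_re, Complex.I_re, mul_zero,
    Complex.ofReal_im, Complex.I_im, mul_one, sub_self, add_zero, Complex.add_im, Complex.mul_im,
    zero_add]
  linear_combination ((((z i₀).im : ℂ) ^ 2) / 2) * Complex.I_sq

theorem pd_elr (i₀ i : Fin n) : pderiv (Sum.inl i) (zb (elr i₀)) =
    X (Sum.inr i) + if i = i₀ then C (1 / 2) * X (Sum.inl i₀) else 0 := by
  rw [zb_elr]
  have h1 : ∀ x : Fin n, pderiv (Sum.inl i) (X (Sum.inl x) * X (Sum.inr x) :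
      MvPolynomial (Fin n ⊕ Fin n) ℂ) = if x = i then X (Sum.inr i) else 0 := by
    intro x
    rw [Derivation.leibniz, pderiv_X_of_ne (show (Sum.inr x : Fin n ⊕ Fin n) ≠ Sum.inl i by simp)]
    by_cases hx : x = i
    · subst hx
      simp [pderiv_X_self]
    · rw [pderiv_X_of_ne (show (Sum.inl x : Fin n ⊕ Fin n) ≠ Sum.inl i by simpa using hx)]
      simp [hx]
  have h2 : pderiv (Sum.inl i) (1 : MvPolynomial (Fin n ⊕ Fin n) ℂ) = 0 := by simp
  rw [map_sub, map_add, map_sum, h2, Finset.sum_congr rfl fun x _ => h1 x, sub_zero,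
    Finset.sum_ite_eq' Finset.univ i, if_pos (Finset.mem_univ i), Derivation.leibniz, pderiv_C,
    smul_zero, add_zero, map_add, Derivation.leibniz_pow, Derivation.leibniz_pow,
    pderiv_X_of_ne (show (Sum.inr i₀ : Fin n ⊕ Fin n) ≠ Sum.inl i by simp)]
  congr 1
  by_cases hx : i = i₀
  · subst hx
    rw [if_pos rfl, pderiv_X_self]
    simp only [Nat.cast_ofNat, smul_eq_mul, mul_one, smul_zero, add_zero]
    norm_num
    rw [show (C (1 / 2) : MvPolynomial (Fin n ⊕ Fin n) ℂ) = C (1 / 4) * 2 by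
      rw [show (2 : MvPolynomial (Fin n ⊕ Fin n) ℂ) = C 2 by rw [map_ofNat], ← C_mul]
      norm_num]
    ring
  · rw [if_neg hx, pderiv_X_of_ne (show (Sum.inl i₀ : Fin n ⊕ Fin n) ≠ Sum.inl i by
      simpa using fun h => hx h.symm)]
    simp

theorem dz_elr (i₀ i : Fin n) (a : Fin n → ℂ) :
    dz (elr i₀) i a = (starRingEnd ℂ) (a i) + if i = i₀ then a i₀ / 2 else 0 := by
  unfold dz
  rw [pd_elr]
  split_ifs with h
  · simp only [map_add, map_mul, eval_X, eval_C, Sum.elim_inl, Sum.elim_inr]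
    ring
  · simp

theorem dzz_elr (i₀ i j : Fin n) (a : Fin n → ℂ) :
    dzz (elr i₀) i j a = if i = j then 1 else 0 := by
  unfold dzz
  rw [pd_elr, map_add]
  have h1 : pderiv (Sum.inr j) (if i = i₀ then C (1 / 2) * X (Sum.inl i₀) else 0 :
      MvPolynomial (Fin n ⊕ Fin n) ℂ) = 0 := by
    split_ifs
    · rw [Derivation.leibniz, pderiv_C,
        pderiv_X_of_ne (show (Sum.inl i₀ : Fin n ⊕ Fin n) ≠ Sum.inr j by simp)]
      simp
    · simp
  rw [h1, add_zero]
  by_cases h : i = j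
  · subst h
    rw [pderiv_X_self, if_pos rfl, map_one]
  · rw [pderiv_X_of_ne (show (Sum.inr i : Fin n ⊕ Fin n) ≠ Sum.inr j by simpa using h),
      if_neg h, map_zero]

theorem elr_levi (i₀ : Fin n) : LeviPos (elr i₀) := by
  intro a _ v hv _
  simp only [dzz_elr, ite_mul, one_mul, zero_mul, Finset.sum_ite_eq, Finset.mem_univ, if_true,
    Complex.mul_conj, ← Complex.ofReal_sum, Complex.ofReal_re, Complex.normSq_eq_norm_sq]
  have h1 : 0 ≤ ∑ x, ‖v x‖ ^ 2 := Finset.sum_nonneg fun _ _ => sq_nonneg _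
  exact lt_of_le_of_ne h1 fun h => hv (nn_eq_zero.1 h.symm)

theorem elr_regular (i₀ : Fin n) : Regular (elr i₀) := by
  intro a ha
  by_contra hc
  push Not at hc
  have h1 : ∀ i, a i = 0 := by
    intro i
    have h2 := hc i
    rw [dz_elr] at h2
    by_cases hi : i = i₀
    · subst hi
      rw [if_pos rfl] at h2
      have h3 : ‖(starRingEnd ℂ) (a i)‖ = ‖a i‖ / 2 := by
        rw [eq_neg_of_add_eq_zero_left h2, norm_neg, norm_div]
        norm_num
      rw [RCLike.norm_conj] at h3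
      have h4 : ‖a i‖ = 0 := by linarith
      exact norm_eq_zero.1 h4
    · rw [if_neg hi, add_zero] at h2
      simpa using h2
  have h2 : a = 0 := funext h1
  have h3 : ev (elr i₀) a = 0 := ha
  rw [h2, ev_elr] at h3
  simp [nn] at h3

/-- polynomials of degree at most one are affine along rays -/
theorem affine_ray {p : MvPolynomial (Fin n ⊕ Fin n) ℝ} (hp : p.totalDegree ≤ 1) (t : ℝ)
    (z : Fin n → ℂ) : ev p (t • z) - ev p 0 = t * (ev p z - ev p 0) := by
  have h1 : ∀ x : Fin n ⊕ Fin n → ℝ, eval x p = ∑ m ∈ p.support, p.coeff m * m.prod fun i e => x i ^ e :=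
    fun x => eval_eq x p
  unfold ev
  rw [h1, h1, h1, ← Finset.sum_sub_distrib, ← Finset.sum_sub_distrib, Finset.mul_sum]
  refine Finset.sum_congr rfl fun m hm => ?_
  have h2 : (m.sum fun _ e => e) ≤ 1 := (le_totalDegree hm).trans hp
  rw [← mul_sub, ← mul_sub, mul_left_comm]
  congr 1
  by_cases h0 : m = 0
  · subst h0
    simp
  · obtain ⟨i, hi⟩ : ∃ i, m i ≠ 0 := by
      by_contra hc
      push Not at hc
      exact h0 (Finsupp.ext hc)
    have h3 : m = Finsupp.single i 1 := by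
      have h4 : m i = 1 := by
        have h5 : m i ≤ m.sum fun _ e => e := by
          rw [Finsupp.sum]
          exact Finset.single_le_sum (f := fun j => m j) (fun _ _ => Nat.zero_le _)
            (Finsupp.mem_support_iff.2 hi)
        omega
      ext j
      by_cases hj : j = i
      · subst hj
        simp [h4]
      · rw [Finsupp.single_eq_of_ne (by simpa using hj)]
        by_contra hmj
        have h5 : m i + m j ≤ m.sum fun _ e => e := by
          rw [Finsupp.sum, ← Finset.sum_pair (f := fun j => m j) (Ne.symm hj)]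
          refine Finset.sum_le_sum_of_subset fun x hx => ?_
          rw [Finset.mem_insert, Finset.mem_singleton] at hx
          rcases hx with rfl | rfl
          · exact Finsupp.mem_support_iff.2 hi
          · exact Finsupp.mem_support_iff.2 hmj
        omega
    rw [h3]
    rcases i with i | i <;> simp

theorem const_of_affine {p : MvPolynomial (Fin n ⊕ Fin n) ℝ} (hp : p.totalDegree ≤ 1)
    (hpos : PosInf p) (z : Fin n → ℂ) : ev p z = ev p 0 := by
  obtain ⟨R₀, hR⟩ := hpos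
  by_contra hne
  have hz : z ≠ 0 := fun h => hne (by rw [h])
  have hnz : 0 < nn z := lt_of_le_of_ne (nn_nonneg z) fun h => hz (nn_eq_zero.1 h.symm)
  have hd : ev p z - ev p 0 ≠ 0 := sub_ne_zero.2 hne
  have key : ∀ t : ℝ, R₀ ≤ t ^ 2 * nn z → 0 < ev p 0 + t * (ev p z - ev p 0) := by
    intro t ht
    have h0 : nn (t • z) = t ^ 2 * nn z := by
      have := nn_smul (t : ℂ) z
      rw [Complex.norm_real, Real.norm_eq_abs, sq_abs] at this
      rw [← this]
      congr 1
    have h1 := hR (t • z) (by rw [h0]; exact ht)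
    have h2 := affine_ray hp t z
    linarith
  set d := ev p z - ev p 0 with hdd
  set s := max (|R₀| / nn z + 1) (|ev p 0| / |d|) with hs
  have hs1 : 1 ≤ s := by
    have : 0 ≤ |R₀| / nn z := by positivity
    linarith [le_max_left (|R₀| / nn z + 1) (|ev p 0| / |d|)]
  have hs2 : R₀ ≤ s ^ 2 * nn z := by
    have h3 : |R₀| / nn z ≤ s := by linarith [le_max_left (|R₀| / nn z + 1) (|ev p 0| / |d|)]
    rw [div_le_iff₀ hnz] at h3
    have h4 : s * nn z ≤ s ^ 2 * nn z :=
      mul_le_mul_of_nonneg_right (by nlinarith) hnz.le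
    linarith [le_abs_self R₀]
  have hs3 : |ev p 0| ≤ s * |d| := by
    have h3 : |ev p 0| / |d| ≤ s := le_max_right _ _
    rwa [div_le_iff₀ (abs_pos.2 hd)] at h3
  have hk1 := key s hs2
  have hk2 := key (-s) (by rw [neg_sq]; exact hs2)
  rcases abs_cases d with h | h <;> rcases abs_cases (ev p 0) with h' | h' <;> nlinarith

theorem elr_posInf (i₀ : Fin n) : PosInf (elr i₀) :=
  ⟨3, fun z hz => by linarith [(elr_bounds i₀ z).1]⟩

theorem elr_frontier (i₀ : Fin n) : frontier {z : Fin n → ℂ | ev (elr i₀) z < 0} = ZZ (elr i₀) := by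
  have hc : Continuous (fun z : Fin n → ℂ => ev (elr i₀) z) := ev_continuous _
  refine subset_antisymm (frontier_lt_subset_eq hc continuous_const) fun z hz => ?_
  have hz0 : ev (elr i₀) z = 0 := hz
  rw [frontier, (isOpen_lt hc continuous_const).interior_eq]
  refine ⟨?_, fun h => ?_⟩
  · have h1 : Filter.Tendsto (fun t : ℝ => t • z) (nhdsWithin 1 (Set.Iio 1)) (nhds z) := by
      have h2 : Filter.Tendsto (fun t : ℝ => t • z) (nhds 1) (nhds ((1 : ℝ) • z)) :=
        (continuous_id.smul continuous_const).tendsto 1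
      rw [one_smul] at h2
      exact h2.mono_left nhdsWithin_le_nhds
    refine mem_closure_of_tendsto h1 ?_
    have h3 : ∀ᶠ t : ℝ in nhdsWithin 1 (Set.Iio 1), 0 < t :=
      nhdsWithin_le_nhds (lt_mem_nhds one_pos)
    filter_upwards [h3, self_mem_nhdsWithin] with t ht0 ht1
    have ht1' : t < 1 := ht1
    show ev (elr i₀) (t • z) < 0
    rw [elr_smul, hz0]
    nlinarith
  · have : ev (elr i₀) z < 0 := h
    linarith

theorem elr_connected (i₀ : Fin n) : IsConnected {z : Fin n → ℂ | ev (elr i₀) z < 0} := by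
  have h0 : ev (elr i₀) (0 : Fin n → ℂ) < 0 := by
    rw [ev_elr]
    simp [nn]
  have hst : StarConvex ℝ (0 : Fin n → ℂ) {z : Fin n → ℂ | ev (elr i₀) z < 0} := by
    rw [starConvex_zero_iff]
    intro z hz t ht0 ht1
    have hz' : ev (elr i₀) z < 0 := hz
    show ev (elr i₀) (t • z) < 0
    have h1 : -1 ≤ ev (elr i₀) z := by linarith [(elr_bounds i₀ z).1, nn_nonneg z]
    have h2 : t ^ 2 ≤ 1 := pow_le_one₀ ht0 ht1
    have h3 : t ^ 2 * (ev (elr i₀) z + 1) ≤ 1 * (ev (elr i₀) z + 1) :=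
      mul_le_mul_of_nonneg_right h2 (by linarith)
    rw [elr_smul]
    linarith
  exact (hst.isPathConnected h0).isConnected

theorem elr_compact (i₀ : Fin n) : IsCompact (ZZ (elr i₀)) := by
  have hc : Continuous (fun z : Fin n → ℂ => ev (elr i₀) z) := ev_continuous _
  refine (nn_cpt (n := n) 2).of_isClosed_subset (isClosed_eq hc continuous_const) fun z hz => ?_
  have hz0 : ev (elr i₀) z = 0 := hz
  show nn z ≤ 2
  linarith [(elr_bounds i₀ z).1]

theorem elr_ext (i₀ : Fin n) : frontier {z : Fin n → ℂ | ev (elr i₀) z < 0} ⊆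
    closure (interior {z : Fin n → ℂ | ev (elr i₀) z < 0}ᶜ) := by
  have hc : Continuous (fun z : Fin n → ℂ => ev (elr i₀) z) := ev_continuous _
  rw [elr_frontier]
  intro z hz
  have hz0 : ev (elr i₀) z = 0 := hz
  have hsub : {z : Fin n → ℂ | 0 < ev (elr i₀) z} ⊆
      interior {z : Fin n → ℂ | ev (elr i₀) z < 0}ᶜ := by
    refine interior_maximal (fun w hw => ?_) (isOpen_lt continuous_const hc)
    have hw' : 0 < ev (elr i₀) w := hw
    show ¬ ev (elr i₀) w < 0
    exact not_lt.2 hw'.le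
  refine closure_mono hsub ?_
  have h1 : Filter.Tendsto (fun t : ℝ => t • z) (nhdsWithin 1 (Set.Ioi 1)) (nhds z) := by
    have h2 : Filter.Tendsto (fun t : ℝ => t • z) (nhds 1) (nhds ((1 : ℝ) • z)) :=
      (continuous_id.smul continuous_const).tendsto 1
    rw [one_smul] at h2
    exact h2.mono_left nhdsWithin_le_nhds
  refine mem_closure_of_tendsto h1 ?_
  filter_upwards [self_mem_nhdsWithin] with t ht1
  have ht1' : 1 < t := ht1
  show 0 < ev (elr i₀) (t • z)
  rw [elr_smul, hz0]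
  nlinarith

theorem elr_deg (i₀ : Fin n) : (elr i₀).totalDegree ≤ 2 := by
  unfold elr
  have h1 : ∀ x : Fin n ⊕ Fin n, (X x ^ 2 : MvPolynomial (Fin n ⊕ Fin n) ℝ).totalDegree ≤ 2 :=
    fun x => (totalDegree_pow _ _).trans (by simp)
  refine (totalDegree_sub _ _).trans (max_le ((totalDegree_add _ _).trans (max_le ?_ ?_)) ?_)
  · refine totalDegree_finsetSum_le fun i _ => (totalDegree_add _ _).trans (max_le (h1 _) (h1 _))
  · refine (totalDegree_mul _ _).trans ?_
    rw [totalDegree_C, zero_add]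
    exact (totalDegree_sub _ _).trans (max_le (h1 _) (h1 _))
  · simp

theorem elr_reduced (i₀ : Fin n) : Reduced (elr i₀) := by
  have hn : 0 < n := i₀.pos
  have hc : Continuous (fun z : Fin n → ℂ => ev (elr i₀) z) := ev_continuous _
  obtain ⟨r, hZ, hred, hpos, _⟩ := main_b hn (F := elr i₀) (isOpen_lt hc continuous_const)
    (elr_frontier i₀) (by rw [elr_frontier]; exact elr_compact i₀) (elr_ext i₀)
  rw [elr_frontier] at hZ
  obtain ⟨h, hh⟩ := hred (elr i₀) (fun z hz => by rw [← hZ] at hz; exact hz)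
  have hne : elr i₀ ≠ 0 := by
    intro h0
    have h1 := (elr_bounds i₀ (0 : Fin n → ℂ)).2
    rw [h0] at h1
    simp [ev, nn] at h1
    linarith
  have hr0 : r ≠ 0 := by
    rintro rfl
    exact hne (by rw [hh, zero_mul])
  have hh0 : h ≠ 0 := by
    rintro rfl
    exact hne (by rw [hh, mul_zero])
  have hdeg : r.totalDegree + h.totalDegree ≤ 2 := by
    rw [← totalDegree_mul_of_isDomain hr0 hh0, ← hh]
    exact elr_deg i₀
  have hr1 : 2 ≤ r.totalDegree := by
    by_contra hlt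
    have h2 : r.totalDegree ≤ 1 := by omega
    have h3 := const_of_affine h2 hpos
    obtain ⟨R₀, hR⟩ := hpos
    -- a zero of `r`
    have h4 : ev (elr i₀) ((Real.sqrt (2 / 3) : ℝ) • Pi.single i₀ (1 : ℂ)) = 0 := by
      rw [elr_smul, ev_elr, Real.sq_sqrt (by norm_num)]
      have h5 : nn (Pi.single i₀ (1 : ℂ)) = 1 := by
        unfold nn
        rw [Finset.sum_eq_single i₀ (fun j _ hj => by rw [Pi.single_eq_of_ne hj]; simp)
          (fun h => absurd (Finset.mem_univ _) h)]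
        simp
      rw [h5]
      simp
      norm_num
    have h6 : ((Real.sqrt (2 / 3) : ℝ) • Pi.single i₀ (1 : ℂ)) ∈ ZZ (elr i₀) := h4
    rw [hZ] at h6
    have h7 : ev r ((Real.sqrt (2 / 3) : ℝ) • Pi.single i₀ (1 : ℂ)) = 0 := h6
    have h8 : ev r 0 = 0 := by rw [← h3, h7]
    obtain ⟨z, hz⟩ : ∃ z : Fin n → ℂ, R₀ ≤ nn z := by
      refine ⟨Pi.single i₀ ((Real.sqrt |R₀| : ℝ) : ℂ), ?_⟩
      unfold nn
      rw [Finset.sum_eq_single i₀ (fun j _ hj => by rw [Pi.single_eq_of_ne hj]; simp)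
        (fun h => absurd (Finset.mem_univ _) h), Pi.single_eq_same, Complex.norm_real,
        Real.norm_eq_abs, sq_abs, Real.sq_sqrt (abs_nonneg _)]
      exact le_abs_self _
    have h9 := hR z hz
    rw [h3, h8] at h9
    exact lt_irrefl _ h9
  have hh1 : h.totalDegree = 0 := by omega
  obtain ⟨c, hc'⟩ : ∃ c, h = C c := ⟨_, totalDegree_eq_zero_iff_eq_C.1 hh1⟩
  have hc0 : c ≠ 0 := by
    rintro rfl
    exact hh0 (by rw [hc', map_zero])
  intro F hF
  obtain ⟨g, hg⟩ := hred F (fun z hz => hF z (by rw [hZ]; exact hz))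
  refine ⟨C c⁻¹ * g, ?_⟩
  rw [hg, hh, hc']
  have : (C c * C c⁻¹ : MvPolynomial (Fin n ⊕ Fin n) ℝ) = 1 := by
    rw [← C_mul, mul_inv_cancel₀ hc0, C_1]
  calc r * g = r * (C c * C c⁻¹) * g := by rw [this, mul_one]
    _ = _ := by ring

theorem elr_not_growth (i₀ : Fin n) : ¬ Growth (elr i₀) := by
  intro hG
  obtain ⟨C, R₀, h⟩ := hG 0
  have hpol : ∀ z : Fin n → ℂ, pol (elr i₀) z 0 = z i₀ ^ 2 / 4 - 1 := by
    intro z
    unfold pol elr
    simp only [map_add, map_sum, map_mul, map_sub, map_pow, eval_X, map_X, map_C, eval_C,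
      Sum.elim_inl, Sum.elim_inr, map_one, Pi.zero_apply, map_zero, add_zero, sub_zero]
    have h1 : ∀ i : Fin n, (z i / 2) ^ 2 + (z i / (2 * Complex.I)) ^ 2 = 0 := by
      intro i
      rw [div_pow, div_pow, mul_pow, Complex.I_sq]
      ring
    rw [Finset.sum_congr rfl fun i _ => h1 i, Finset.sum_const_zero]
    rw [div_pow, div_pow, mul_pow, Complex.I_sq]
    push_cast
    ring
  set s : ℝ := max 4 (max |R₀| (64 * |C|)) with hs
  have hs4 : 4 ≤ s := le_max_left _ _
  have hsR : |R₀| ≤ s := (le_max_left _ _).trans (le_max_right _ _)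
  have hsC : 64 * |C| ≤ s := (le_max_right _ _).trans (le_max_right _ _)
  set z : Fin n → ℂ := Pi.single i₀ ((s : ℝ) : ℂ) with hz
  have hnn : nn z = s ^ 2 := by
    unfold nn
    rw [Finset.sum_eq_single i₀ (fun j _ hj => by rw [hz, Pi.single_eq_of_ne hj]; simp)
      (fun h => absurd (Finset.mem_univ _) h), hz, Pi.single_eq_same, Complex.norm_real,
      Real.norm_eq_abs, sq_abs]
  have h1 := h z (by rw [hnn]; nlinarith [le_abs_self R₀])
  rw [hpol] at h1
  have h2 : z i₀ ^ 2 / 4 - 1 = (((s ^ 2 / 4 - 1 : ℝ)) : ℂ) := by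
    rw [hz, Pi.single_eq_same]
    push_cast
    ring
  rw [h2, Complex.norm_real, Real.norm_eq_abs, sq_abs] at h1
  have h3 := (elr_bounds i₀ z).2
  rw [hnn] at h3
  have h4 := (elr_bounds i₀ z).1
  rw [hnn] at h4
  have h5 : 0 ≤ ev (elr i₀) z := by nlinarith
  have h6 : C * ev (elr i₀) z ≤ |C| * (2 * s ^ 2) := by
    calc C * ev (elr i₀) z ≤ |C| * ev (elr i₀) z := mul_le_mul_of_nonneg_right (le_abs_self C) h5
      _ ≤ |C| * (2 * s ^ 2) := mul_le_mul_of_nonneg_left (by linarith) (abs_nonneg C)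
  have h7 : |C| * (2 * s ^ 2) ≤ s / 64 * (2 * s ^ 2) :=
    mul_le_mul_of_nonneg_right (by linarith) (by positivity)
  have h8 : s ^ 2 / 8 ≤ s ^ 2 / 4 - 1 := by nlinarith
  have h9 : (s ^ 2 / 8) ^ 2 ≤ (s ^ 2 / 4 - 1) ^ 2 := pow_le_pow_left₀ (by positivity) h8 2
  have h10 : (s ^ 2 / 8) ^ 2 = s ^ 4 / 64 := by ring
  have h11 : s / 64 * (2 * s ^ 2) = s ^ 3 / 32 := by ring
  have h12 : s ^ 3 / 32 < s ^ 4 / 64 := by
    have h13 : 0 < s ^ 3 := by positivity
    nlinarith
  linarith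

/-- the answer to Q1 is negative in every dimension, even for ellipsoids -/
theorem neg_ex (hn : 0 < n) : ∃ (r : MvPolynomial (Fin n ⊕ Fin n) ℝ) (i : Fin n),
    (∀ z, ev r z = nn z + ((z i).re ^ 2 - (z i).im ^ 2) / 2 - 1) ∧ StronglyPsc r ∧
      ¬ SumsOn (ZZ r) := by
  refine ⟨elr ⟨0, hn⟩, ⟨0, hn⟩, ev_elr _, ⟨elr_connected _, elr_frontier _, elr_compact _,
    elr_regular _, elr_levi _⟩, fun hS => ?_⟩
  obtain ⟨h1, _, h3⟩ := main_r (elr_posInf (⟨0, hn⟩ : Fin n))
  exact elr_not_growth _ (h1.1 ((h3 (elr_reduced _)).1 hS)).2.2.2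

end Pool.Agent.Work.MP_49847a_an
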