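import Mathlib

/-!
# Module NorR: points over a given root of the minimal polynomial

Proof.  `R = MvPolynomial (Fin d) ℂ` is a unique factorisation domain, hence integrally closed; make `A` an `R`-algebra through
`ι` (`ι.toRingHom.toAlgebra`, `letI`); it is torsion free since `ι` is injective and `A` is a domain.  `μ = minpoly R g`: monic
(`minpoly.monic`), positive degree (`minpoly.natDegree_pos`), `aeval g μ = 0`.
Let `(μ.map (eval t)).eval s = 0`.  The ring homomorphism `θ : R[X] → ℂ`, `f ↦ (f.map (eval t)).eval s`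
(`Polynomial.eval₂RingHom (eval t) s`) kills `μ`, and the kernel of `aeval g : R[X] → A` is generated by `μ`
(`minpoly.ker_eval` or `minpoly.isIntegrallyClosed_dvd`), so `ker (aeval g) ≤ ker θ`.
Let `A' = (aeval g).range ⊆ A`; `θ` induces `θ' : A' → ℂ`, surjective, so its kernel `q` is a maximal ideal of `A'`.  `A` is
integral over `A'` (it is integral over `R`), so there is a prime (maximal) ideal `Q` of `A` over `q`
(`Ideal.exists_ideal_over_prime_of_isIntegral` or `…_over_maximal_…`).  `A / Q` is integral over `A' / q ≅ ℂ`, hence over the image of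
`ℂ`, so `ℂ → A / Q` is bijective (`IsAlgClosed.algebraMap_bijective_of_isIntegral`; every element `a` of `A` satisfies a monic
equation over `A'`, modulo `Q` its coefficients are in the image of `ℂ`).  `x : A → A / Q ≃ ℂ`; on `A'` it is `θ'`: for
`a' ∈ A'`, `a' - θ'(a') ∈ q ⊆ Q`.  So `x (ι (X i)) = t i`, `x g = s`.
-/

namespace Pool.Agent.Work.MP_49847a_an

open MvPolynomial

private theorem norR_point {A : Type} [CommRing A] [IsDomain A] [Algebra ℂ A] {d : ℕ}
    (ι : MvPolynomial (Fin d) ℂ →ₐ[ℂ] A)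
    (hint : (ι : MvPolynomial (Fin d) ℂ →+* A).IsIntegral) (g : A) (t : Fin d → ℂ) (s : ℂ)
    (hker : ∀ f : Polynomial (MvPolynomial (Fin d) ℂ),
      f.eval₂ (ι : MvPolynomial (Fin d) ℂ →+* A) g = 0 → f.eval₂ (eval t) s = 0) :
    ∃ x : A →ₐ[ℂ] ℂ, (∀ i, x (ι (X i)) = t i) ∧ x g = s := by
  classical
  let _ : Algebra (Polynomial (MvPolynomial (Fin d) ℂ)) A :=
    (Polynomial.eval₂RingHom (ι : MvPolynomial (Fin d) ℂ →+* A) g).toAlgebra
  have hmap : ∀ f : Polynomial (MvPolynomial (Fin d) ℂ),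
      algebraMap (Polynomial (MvPolynomial (Fin d) ℂ)) A f =
        f.eval₂ (ι : MvPolynomial (Fin d) ℂ →+* A) g := fun f => rfl
  have hI : Algebra.IsIntegral (Polynomial (MvPolynomial (Fin d) ℂ)) A := by
    refine ⟨fun a => ?_⟩
    obtain ⟨p, hp, hpa⟩ := hint a
    refine ⟨p.map Polynomial.C, hp.map _, ?_⟩
    rw [Polynomial.eval₂_map]
    have h1 : (algebraMap (Polynomial (MvPolynomial (Fin d) ℂ)) A).comp Polynomial.C =
        (ι : MvPolynomial (Fin d) ℂ →+* A) := by
      refine RingHom.ext fun r => ?_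
      rw [RingHom.comp_apply, hmap, Polynomial.eval₂_C]
    rw [h1]
    exact hpa
  let θ : Polynomial (MvPolynomial (Fin d) ℂ) →+* ℂ := Polynomial.eval₂RingHom (eval t) s
  have hP : (RingHom.ker θ).IsPrime := RingHom.ker_isPrime θ
  have hB : (⊥ : Ideal A).IsPrime := Ideal.isPrime_bot
  have hle : (⊥ : Ideal A).comap (algebraMap (Polynomial (MvPolynomial (Fin d) ℂ)) A) ≤
      RingHom.ker θ := by
    intro f hf
    rw [Ideal.mem_comap, Ideal.mem_bot, hmap] at hf
    rw [RingHom.mem_ker]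
    exact hker f hf
  obtain ⟨Q, _, hQ, hQc⟩ := Ideal.exists_ideal_over_prime_of_isIntegral (RingHom.ker θ)
    (⊥ : Ideal A) hle
  have hmem : ∀ f : Polynomial (MvPolynomial (Fin d) ℂ), θ f = 0 →
      f.eval₂ (ι : MvPolynomial (Fin d) ℂ →+* A) g ∈ Q := by
    intro f hf
    have h1 : f ∈ Q.comap (algebraMap (Polynomial (MvPolynomial (Fin d) ℂ)) A) := by
      rw [hQc]
      exact hf
    exact h1
  have hι : ∀ r : MvPolynomial (Fin d) ℂ,
      Ideal.Quotient.mk Q (ι r) = algebraMap ℂ (A ⧸ Q) (eval t r) := by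
    intro r
    have h1 := hmem (Polynomial.C (r - MvPolynomial.C (eval t r))) (by
      simp [θ])
    rw [Polynomial.eval₂_C] at h1
    have h2 : (ι : MvPolynomial (Fin d) ℂ →+* A) (r - MvPolynomial.C (eval t r)) =
        ι r - algebraMap ℂ A (eval t r) := by
      rw [map_sub]
      congr 1
      exact ι.commutes (eval t r)
    rw [h2] at h1
    have h3 := Ideal.Quotient.eq.2 h1
    rw [h3]
    rfl
  have hg : Ideal.Quotient.mk Q g = algebraMap ℂ (A ⧸ Q) s := by
    have h1 := hmem (Polynomial.X - Polynomial.C (MvPolynomial.C s)) (by simp [θ])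
    rw [Polynomial.eval₂_sub, Polynomial.eval₂_X, Polynomial.eval₂_C] at h1
    have h2 : (ι : MvPolynomial (Fin d) ℂ →+* A) (MvPolynomial.C s) = algebraMap ℂ A s :=
      ι.commutes s
    rw [h2] at h1
    have h3 := Ideal.Quotient.eq.2 h1
    rw [h3]
    rfl
  have hI2 : Algebra.IsIntegral ℂ (A ⧸ Q) := by
    refine ⟨fun y => ?_⟩
    obtain ⟨a, rfl⟩ := Ideal.Quotient.mk_surjective y
    obtain ⟨p, hp, hpa⟩ := hint a
    refine ⟨p.map (eval t), hp.map _, ?_⟩
    rw [Polynomial.eval₂_map]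
    have h1 : (algebraMap ℂ (A ⧸ Q)).comp (eval t) =
        (Ideal.Quotient.mk Q).comp (ι : MvPolynomial (Fin d) ℂ →+* A) := by
      refine RingHom.ext fun r => ?_
      rw [RingHom.comp_apply, RingHom.comp_apply]
      exact (hι r).symm
    rw [h1, ← Polynomial.hom_eval₂, hpa, map_zero]
  have hbij : Function.Bijective (algebraMap ℂ (A ⧸ Q)) :=
    IsAlgClosed.algebraMap_bijective_of_isIntegral
  let e : ℂ ≃ₐ[ℂ] (A ⧸ Q) := AlgEquiv.ofBijective (Algebra.ofId ℂ (A ⧸ Q)) hbij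
  have he : ∀ c : ℂ, e.symm (algebraMap ℂ (A ⧸ Q) c) = c := by
    intro c
    exact e.symm.commutes c
  refine ⟨e.symm.toAlgHom.comp (Ideal.Quotient.mkₐ ℂ Q), fun i => ?_, ?_⟩
  · have h1 := hι (X i)
    rw [eval_X] at h1
    have h2 : (e.symm.toAlgHom.comp (Ideal.Quotient.mkₐ ℂ Q)) (ι (X i)) =
        e.symm (Ideal.Quotient.mk Q (ι (X i))) := rfl
    rw [h2, h1, he]
  · have h2 : (e.symm.toAlgHom.comp (Ideal.Quotient.mkₐ ℂ Q)) g =
        e.symm (Ideal.Quotient.mk Q g) := rfl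
    rw [h2, hg, he]

theorem nor_root {A : Type} [CommRing A] [IsDomain A] [Algebra ℂ A] {d : ℕ}
    (ι : MvPolynomial (Fin d) ℂ →ₐ[ℂ] A) (hi : Function.Injective ι)
    (hint : (ι : MvPolynomial (Fin d) ℂ →+* A).IsIntegral) (g : A) :
    ∃ μ : Polynomial (MvPolynomial (Fin d) ℂ), μ.Monic ∧ 0 < μ.natDegree ∧
      μ.eval₂ (ι : MvPolynomial (Fin d) ℂ →+* A) g = 0 ∧
      ∀ (t : Fin d → ℂ) (s : ℂ), (μ.map (eval t)).eval s = 0 →
        ∃ x : A →ₐ[ℂ] ℂ, (∀ i, x (ι (X i)) = t i) ∧ x g = s := by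
  classical
  let _ : Algebra (MvPolynomial (Fin d) ℂ) A := (ι : MvPolynomial (Fin d) ℂ →+* A).toAlgebra
  have hinj : Function.Injective (algebraMap (MvPolynomial (Fin d) ℂ) A) := hi
  have _ : FaithfulSMul (MvPolynomial (Fin d) ℂ) A :=
    (faithfulSMul_iff_algebraMap_injective _ _).2 hinj
  have hg : IsIntegral (MvPolynomial (Fin d) ℂ) g := hint g
  refine ⟨minpoly (MvPolynomial (Fin d) ℂ) g, minpoly.monic hg, minpoly.natDegree_pos hg,
    minpoly.aeval _ g, fun t s hts => ?_⟩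
  refine norR_point ι hint g t s fun f hf => ?_
  have h1 : minpoly (MvPolynomial (Fin d) ℂ) g ∣ f :=
    minpoly.isIntegrallyClosed_dvd hg hf
  obtain ⟨k, rfl⟩ := h1
  rw [Polynomial.eval₂_mul, Polynomial.eval₂_eq_eval_map, hts, zero_mul]

end Pool.Agent.Work.MP_49847a_an
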