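import Pool.Agent.Work.MP_49847a_an.Cp.RDef

/-!
# Auxiliary conditions for the proof
-/

namespace Pool.Agent.Work.MP_49847a_an

open MvPolynomial

/-- `r(a, conj b) ≠ 0` for all `a ≠ b` in the polynomial hull of the zero set -/
def SepHull {n : ℕ} (r : MvPolynomial (Fin n ⊕ Fin n) ℝ) : Prop :=
  ∀ a ∈ hull (ZZ r), ∀ b ∈ hull (ZZ r), pol r a b = 0 → a = b

/-- `r ≤ 0` on the polynomial hull of the zero set near every zero -/
def Inner {n : ℕ} (r : MvPolynomial (Fin n ⊕ Fin n) ℝ) : Prop :=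
  ∀ a ∈ ZZ r, ∃ ε : ℝ, 0 < ε ∧ ∀ b ∈ hull (ZZ r), nn (b - a) < ε → ev r b ≤ 0

end Pool.Agent.Work.MP_49847a_an
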