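import Pool.Agent.Work.MP_49847a_an.Lf.T2
import Pool.Agent.Work.MP_49847a_an.Cp.Defs4

/-!
# The conditions for a real polynomial `r`

A real polynomial on `ℂⁿ` is an `r : MvPolynomial (Fin n ⊕ Fin n) ℝ`; its value at `z` is
`ev r z` (`Re z_i` for the variable `inl i`, `Im z_i` for `inr i`); `pol r z w = r(z, conj w)` is the
polarisation, `zb r` is `r` written as a polynomial in `z` (variables `inl i`) and `conj z`
(variables `inr i`).
-/

namespace Pool.Agent.Work.MP_49847a_an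

open MvPolynomial

/-- the zero set of a real polynomial -/
def ZZ {n : ℕ} (r : MvPolynomial (Fin n ⊕ Fin n) ℝ) : Set (Fin n → ℂ) := {z | ev r z = 0}

/-- `∂r/∂z_i` at `a` -/
noncomputable def dz {n : ℕ} (r : MvPolynomial (Fin n ⊕ Fin n) ℝ) (i : Fin n) (a : Fin n → ℂ) :
    ℂ :=
  eval (Sum.elim a (fun j => (starRingEnd ℂ) (a j))) (pderiv (Sum.inl i) (zb r))

/-- `∂²r/∂z_i∂(conj z_j)` at `a` -/
noncomputable def dzz {n : ℕ} (r : MvPolynomial (Fin n ⊕ Fin n) ℝ) (i j : Fin n)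
    (a : Fin n → ℂ) : ℂ :=
  eval (Sum.elim a (fun j => (starRingEnd ℂ) (a j))) (pderiv (Sum.inr j) (pderiv (Sum.inl i) (zb r)))

/-- `r` is positive near infinity -/
def PosInf {n : ℕ} (r : MvPolynomial (Fin n ⊕ Fin n) ℝ) : Prop :=
  ∃ R₀ : ℝ, ∀ z : Fin n → ℂ, R₀ ≤ nn z → 0 < ev r z

/-- the set `{r ≤ 0}` is polynomially convex -/
def PolConvex {n : ℕ} (r : MvPolynomial (Fin n ⊕ Fin n) ℝ) : Prop :=
  hull {z : Fin n → ℂ | ev r z ≤ 0} ⊆ {z : Fin n → ℂ | ev r z ≤ 0}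

/-- `r(a, conj b) ≠ 0` for all `a ≠ b` in `{r ≤ 0}` -/
def Separated {n : ℕ} (r : MvPolynomial (Fin n ⊕ Fin n) ℝ) : Prop :=
  ∀ a b : Fin n → ℂ, ev r a ≤ 0 → ev r b ≤ 0 → pol r a b = 0 → a = b

/-- the Levi form of `r` is positive on all `v ≠ 0` with `∂r(a) v = 0`, `a` a zero of `r` -/
def LeviPos {n : ℕ} (r : MvPolynomial (Fin n ⊕ Fin n) ℝ) : Prop :=
  ∀ a ∈ ZZ r, ∀ v : Fin n → ℂ, v ≠ 0 → ∑ i, dz r i a * v i = 0 →
    0 < (∑ i, ∑ j, dzz r i j a * v i * (starRingEnd ℂ) (v j)).re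

/-- `|r(z, conj w)|² = O(r(z, conj z))` as `z → ∞`, for every `w` -/
def Growth {n : ℕ} (r : MvPolynomial (Fin n ⊕ Fin n) ℝ) : Prop :=
  ∀ w : Fin n → ℂ, ∃ C R₀ : ℝ, ∀ z : Fin n → ℂ, R₀ ≤ nn z → ‖pol r z w‖ ^ 2 ≤ C * ev r z

/-- the differential of `r` does not vanish at the zeros of `r` -/
def Regular {n : ℕ} (r : MvPolynomial (Fin n ⊕ Fin n) ℝ) : Prop :=
  ∀ a ∈ ZZ r, ∃ i, dz r i a ≠ 0

/-- every real polynomial which is positive at the zeros of `r` is a Hermitian sum of squares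
modulo `r` -/
def SumsMod {n : ℕ} (r : MvPolynomial (Fin n ⊕ Fin n) ℝ) : Prop :=
  ∀ R : MvPolynomial (Fin n ⊕ Fin n) ℝ, (∀ z ∈ ZZ r, 0 < ev R z) →
    ∃ (m : ℕ) (p : Fin m → MvPolynomial (Fin n) ℂ) (H : MvPolynomial (Fin n ⊕ Fin n) ℝ),
      ∀ z, ev R z = nrm p z + ev r z * ev H z

/-- `r` divides every real polynomial which vanishes at the zeros of `r` -/
def Reduced {n : ℕ} (r : MvPolynomial (Fin n ⊕ Fin n) ℝ) : Prop :=
  ∀ F : MvPolynomial (Fin n ⊕ Fin n) ℝ, (∀ z ∈ ZZ r, ev F z = 0) → r ∣ F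

/-- `{r < 0}` is a strongly pseudoconvex domain with compact boundary `{r = 0}`, and the
differential of `r` does not vanish on the boundary -/
def StronglyPsc {n : ℕ} (r : MvPolynomial (Fin n ⊕ Fin n) ℝ) : Prop :=
  IsConnected {z : Fin n → ℂ | ev r z < 0} ∧ frontier {z : Fin n → ℂ | ev r z < 0} = ZZ r ∧
    IsCompact (ZZ r) ∧ Regular r ∧ LeviPos r

end Pool.Agent.Work.MP_49847a_an
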