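import Pool.Agent.Work.MP_49847a_an.Cp.RDef

/-!
# Translation between `r` and `‖P‖² - ‖Q‖²`
-/

namespace Pool.Agent.Work.MP_49847a_an

open MvPolynomial

variable {n k l : ℕ} {P : Fin k → MvPolynomial (Fin n) ℂ} {Q : Fin l → MvPolynomial (Fin n) ℂ}
  {r : MvPolynomial (Fin n ⊕ Fin n) ℝ}

/-- `p(z) conj(p)(w)` -/
noncomputable def sq1 (p : MvPolynomial (Fin n) ℂ) : MvPolynomial (Fin n ⊕ Fin n) ℂ :=
  rename Sum.inl p * rename Sum.inr (map (starRingEnd ℂ) p)

theorem eval_map_star (p : MvPolynomial (Fin n) ℂ) (w : Fin n → ℂ) :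
    eval (fun i => (starRingEnd ℂ) (w i)) (map (starRingEnd ℂ) p) = (starRingEnd ℂ) (eval w p) := by
  induction p using MvPolynomial.induction_on with
  | C a => simp
  | add p q hp hq => simp only [map_add, hp, hq]
  | mul_X p i hp => simp only [map_mul, hp, map_X, eval_X]

theorem eval_sq1 (p : MvPolynomial (Fin n) ℂ) (z w : Fin n → ℂ) :
    eval (Sum.elim z (fun i => (starRingEnd ℂ) (w i))) (sq1 p) =
      eval z p * (starRingEnd ℂ) (eval w p) := by
  unfold sq1
  rw [map_mul, eval_rename, eval_rename]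
  congr 1
  rw [← eval_map_star]
  rfl

theorem pderiv_inl_inr (p : MvPolynomial (Fin n) ℂ) (i : Fin n) :
    pderiv (Sum.inl i) (rename (Sum.inr : Fin n → Fin n ⊕ Fin n) p) = 0 := by
  induction p using MvPolynomial.induction_on with
  | C a => simp
  | add p q hp hq => simp only [map_add, hp, hq, add_zero]
  | mul_X p i hp =>
    rw [map_mul, Derivation.leibniz, hp, rename_X, pderiv_X_of_ne (by simp)]
    simp

theorem pderiv_inr_inl (p : MvPolynomial (Fin n) ℂ) (i : Fin n) :
    pderiv (Sum.inr i) (rename (Sum.inl : Fin n → Fin n ⊕ Fin n) p) = 0 := by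
  induction p using MvPolynomial.induction_on with
  | C a => simp
  | add p q hp hq => simp only [map_add, hp, hq, add_zero]
  | mul_X p i hp =>
    rw [map_mul, Derivation.leibniz, hp, rename_X, pderiv_X_of_ne (by simp)]
    simp

theorem dz_sq1 (p : MvPolynomial (Fin n) ℂ) (i : Fin n) :
    pderiv (Sum.inl i) (sq1 p) =
      rename Sum.inl (pderiv i p) * rename Sum.inr (map (starRingEnd ℂ) p) := by
  unfold sq1
  rw [Derivation.leibniz, pderiv_inl_inr, pderiv_rename Sum.inl_injective]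
  simp [mul_comm]

theorem pderiv_map_star (p : MvPolynomial (Fin n) ℂ) (i : Fin n) :
    pderiv i (map (starRingEnd ℂ) p) = map (starRingEnd ℂ) (pderiv i p) := pderiv_map

theorem dzz_sq1 (p : MvPolynomial (Fin n) ℂ) (i j : Fin n) :
    pderiv (Sum.inr j) (pderiv (Sum.inl i) (sq1 p)) =
      rename Sum.inl (pderiv i p) * rename Sum.inr (map (starRingEnd ℂ) (pderiv j p)) := by
  rw [dz_sq1, Derivation.leibniz, pderiv_inr_inl, pderiv_rename Sum.inr_injective, pderiv_map_star]
  simp [mul_comm]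

theorem zb_r2 (h : ∀ z, ev r z = r2 P Q z) :
    zb r = ∑ j, sq1 (P j) - ∑ j, sq1 (Q j) := by
  refine zb_eq fun z => ?_
  rw [map_sub, map_sum, map_sum, h z]
  simp only [eval_sq1, r2, nrm]
  push_cast
  simp only [Complex.mul_conj, Complex.normSq_eq_norm_sq]
  push_cast
  rfl

theorem dz_r2 (h : ∀ z, ev r z = r2 P Q z) (a v : Fin n → ℂ) :
    ∑ i, dz r i a * v i = dr2 P Q a v := by
  have key : ∀ p : MvPolynomial (Fin n) ℂ, ∀ i, eval (Sum.elim a (fun j => (starRingEnd ℂ) (a j)))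
      (pderiv (Sum.inl i) (sq1 p)) = eval a (pderiv i p) * (starRingEnd ℂ) (eval a p) := by
    intro p i
    rw [dz_sq1, map_mul, eval_rename, eval_rename, ← eval_map_star]
    rfl
  simp only [dz, zb_r2 h, map_sub, map_sum, key, dr2, dd, sub_mul, Finset.sum_mul,
    Finset.sum_sub_distrib]
  congr 1
  · rw [Finset.sum_comm]
    refine Finset.sum_congr rfl fun j _ => Finset.sum_congr rfl fun i _ => ?_
    ring
  · rw [Finset.sum_comm]
    refine Finset.sum_congr rfl fun j _ => Finset.sum_congr rfl fun i _ => ?_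
    ring

theorem dzz_r2 (h : ∀ z, ev r z = r2 P Q z) (a v : Fin n → ℂ) :
    ∑ i, ∑ j, dzz r i j a * v i * (starRingEnd ℂ) (v j) = ((lev2 P Q a v : ℝ) : ℂ) := by
  have key : ∀ p : MvPolynomial (Fin n) ℂ, ∀ i j,
      eval (Sum.elim a (fun j => (starRingEnd ℂ) (a j)))
      (pderiv (Sum.inr j) (pderiv (Sum.inl i) (sq1 p))) =
        eval a (pderiv i p) * (starRingEnd ℂ) (eval a (pderiv j p)) := by
    intro p i j
    rw [dzz_sq1, map_mul, eval_rename, eval_rename, ← eval_map_star]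
    rfl
  have key2 : ∀ p : MvPolynomial (Fin n) ℂ,
      ∑ i, ∑ j, eval a (pderiv i p) * (starRingEnd ℂ) (eval a (pderiv j p)) * v i *
        (starRingEnd ℂ) (v j) = (((‖∑ i, eval a (pderiv i p) * v i‖ ^ 2 : ℝ)) : ℂ) := by
    intro p
    rw [← Complex.normSq_eq_norm_sq, ← Complex.mul_conj, map_sum, Finset.sum_mul_sum]
    refine Finset.sum_congr rfl fun i _ => Finset.sum_congr rfl fun j _ => ?_
    rw [map_mul]
    ring
  have fam : ∀ {m : ℕ} (p : Fin m → MvPolynomial (Fin n) ℂ),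
      ∑ i, ∑ j, ∑ t, eval a (pderiv i (p t)) * (starRingEnd ℂ) (eval a (pderiv j (p t))) * v i *
        (starRingEnd ℂ) (v j) = ((∑ t, ‖∑ i, eval a (pderiv i (p t)) * v i‖ ^ 2 : ℝ) : ℂ) := by
    intro m p
    rw [Complex.ofReal_sum]
    simp_rw [← key2]
    rw [Finset.sum_comm]
    rw [Finset.sum_comm (s := (Finset.univ : Finset (Fin m)))]
    rw [Finset.sum_comm]
    refine Finset.sum_congr rfl fun i _ => ?_
    rw [Finset.sum_comm]
  simp only [dzz, zb_r2 h, map_sub, map_sum, key, lev2, dd, sub_mul, Finset.sum_mul,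
    Finset.sum_sub_distrib, Complex.ofReal_sub]
  rw [fam P, fam Q]

end Pool.Agent.Work.MP_49847a_an
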