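import Pool.Agent.Work.MP_49847a_an.Cp.CpMain4
import Pool.Agent.Work.MP_49847a_an.Cp.RForm
import Pool.Agent.Work.MP_49847a_an.Cp.RAux

/-!
# The complete criterion for a real polynomial `r`
-/

namespace Pool.Agent.Work.MP_49847a_an

open MvPolynomial

variable {n k l : ℕ} {P : Fin k → MvPolynomial (Fin n) ℂ} {Q : Fin l → MvPolynomial (Fin n) ℂ}
  {r : MvPolynomial (Fin n ⊕ Fin n) ℝ}

theorem rm_ZZ (h : ∀ z, ev r z = r2 P Q z) : ZZ r = X2 P Q := by
  ext z
  show ev r z = 0 ↔ r2 P Q z = 0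
  rw [h]

theorem rm_pos (h : ∀ z, ev r z = r2 P Q z) : PosInf r ↔ Pos2 P Q := by
  simp only [PosInf, Pos2, h]

theorem rm_sep (h : ∀ z, ev r z = r2 P Q z) : SepHull r ↔ Sep2 P Q := by
  simp only [SepHull, Sep2, rm_ZZ h, pol_r2 h]

theorem rm_levi (h : ∀ z, ev r z = r2 P Q z) : LeviPos r ↔ Levi2 P Q := by
  simp only [LeviPos, Levi2, rm_ZZ h, dz_r2 h, dzz_r2 h, Complex.ofReal_re]

theorem rm_inn (h : ∀ z, ev r z = r2 P Q z) : Inner r ↔ Inn2 P Q := by
  simp only [Inner, Inn2, rm_ZZ h, h]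

theorem rm_growth (h : ∀ z, ev r z = r2 P Q z) : Growth r ↔ Inf4 P Q := by
  simp only [Growth, Inf4, pol_r2 h, h]

theorem rm_smooth (h : ∀ z, ev r z = r2 P Q z) : Regular r ↔ Smooth2 P Q := by
  unfold Regular Smooth2
  rw [rm_ZZ h]
  refine forall₂_congr fun a _ => ⟨?_, ?_⟩
  · rintro ⟨i, hi⟩
    refine ⟨Pi.single i 1, ?_⟩
    rw [← dz_r2 h]
    simpa [Pi.single_apply] using hi
  · rintro ⟨v, hv⟩
    rw [← dz_r2 h] at hv
    by_contra hc
    push Not at hc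
    exact hv (Finset.sum_eq_zero fun i _ => by rw [hc i, zero_mul])

theorem rm_sums (h : ∀ z, ev r z = r2 P Q z) : SumsMod r ↔ Quillen2 P Q := by
  simp only [SumsMod, Quillen2, rm_ZZ h, h]

theorem rm_gen (h : ∀ z, ev r z = r2 P Q z) : Reduced r ↔ Generates2 P Q := by
  unfold Reduced Generates2
  rw [rm_ZZ h]
  refine forall₂_congr fun F _ => ⟨?_, ?_⟩
  · rintro ⟨H, rfl⟩
    exact ⟨H, fun z => by rw [ev_mul, h]⟩
  · rintro ⟨H, hH⟩
    refine ⟨H, ev_ext fun z => ?_⟩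
    rw [hH, ev_mul, h]

/-- the complete criterion -/
theorem main_r (hP : PosInf r) :
    (SumsMod r ↔ SepHull r ∧ LeviPos r ∧ Inner r ∧ Growth r) ∧
    (Regular r → (SumsMod r ↔ SepHull r ∧ LeviPos r ∧ Growth r)) ∧
    (Reduced r → (SumsOn (ZZ r) ↔ SumsMod r)) := by
  obtain ⟨k, l, P, Q, h⟩ := exists_families r
  rw [rm_sums h, rm_sep h, rm_levi h, rm_inn h, rm_growth h, rm_smooth h, rm_gen h, rm_ZZ h]
  exact main4 ((rm_pos h).1 hP)

/-- every compact algebraic boundary has a reduced defining polynomial, and the criterion decides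
whether it has the property of Q1 -/
theorem main_b (hn : 0 < n) {F : MvPolynomial (Fin n ⊕ Fin n) ℝ}
    {Ω : Set (Fin n → ℂ)} (hΩ : IsOpen Ω) (hX : frontier Ω = ZZ F)
    (hc : IsCompact (frontier Ω)) (hE : frontier Ω ⊆ closure (interior Ωᶜ)) :
    ∃ r : MvPolynomial (Fin n ⊕ Fin n) ℝ, frontier Ω = ZZ r ∧ Reduced r ∧ PosInf r ∧
      (SumsOn (frontier Ω) ↔ SepHull r ∧ LeviPos r ∧ Inner r ∧ Growth r) := by
  obtain ⟨k, l, P, Q, h1, h2, h3⟩ := boundary_families hn hΩ hX hc hE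
  obtain ⟨r, hr⟩ := exists_r2 P Q
  have h4 : frontier Ω = ZZ r := by rw [rm_ZZ hr, h2]
  have h5 : Reduced r := (rm_gen hr).2 h3
  have h6 : PosInf r := (rm_pos hr).2 h1
  refine ⟨r, h4, h5, h6, ?_⟩
  rw [h4, (main_r h6).2.2 h5]
  exact (main_r h6).1

/-- a positive leading part implies the growth condition -/
theorem main_lead {d : ℕ} (hd : Dg d r) (hg : Gr d r) : PosInf r ∧ Growth r := by
  obtain ⟨m, a, m', b, ha, hb, h⟩ := hd
  have hL : Lead2 d a b := by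
    obtain ⟨δ, hδ, R₀, hR⟩ := hg
    refine ⟨ha, hb, δ, hδ, R₀, fun z hz => ?_⟩
    show δ * nn z ^ d ≤ nrm a z - nrm b z
    rw [← h z]
    exact hR z hz
  have h' : ∀ z, ev r z = r2 a b z := h
  exact ⟨(rm_pos h').2 (pos_of_lead hL), (rm_growth h').2 (inf_four (pos_of_lead hL) (inf_of_lead hL))⟩

/-- a real polynomial with compact zero set has a sign near infinity -/
theorem main_sign (hn : 0 < n) (hc : IsCompact (ZZ r)) : PosInf r ∨ PosInf (-r) := by
  obtain ⟨k, l, P, Q, h⟩ := exists_families r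
  have h' : ∀ z, ev (-r) z = r2 Q P z := by
    intro z
    have h1 : ev (-r) z = - ev r z := by simp [ev]
    rw [h1, h]
    unfold r2
    ring
  rw [rm_pos h, rm_pos h']
  exact pos_or hn (by rw [← rm_ZZ h]; exact hc)

end Pool.Agent.Work.MP_49847a_an
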