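import Pool.Agent.Work.MP_49847a_an.Cp.Elim

/-!
# Module Sgn: the sign changing criterion

Proof.  (zero_open) a polynomial which vanishes on a nonempty open set is zero: on a ball `B` around a point `x` it vanishes on a product
`∏ S_i` of infinite sets (open intervals), `MvPolynomial.funext_set` or `MvPolynomial.eq_zero_of_eval_zero_at_prod_finset`; or analytic functions.
(prod) a finite product of nonzero polynomials vanishes identically on no nonempty open set.
(sign_dvd) Suppose `p ∤ f`; `v = b - a`, `h` from `elim_dir p f hp _ v`.  For `x` near `a`: `p(x) < 0 < p(x + v)`, so by the intermediate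
value theorem there is `t ∈ [0,1]` with `p(x + t v) = 0`, so `f(x + t v) = 0`, so `h(x) = 0`.  By `zero_open`, `h = 0`, contradiction.
-/

namespace Pool.Agent.Work.MP_49847a_an

open MvPolynomial

theorem zero_open {σ : Type} [Fintype σ] (h : MvPolynomial σ ℝ) {U : Set (σ → ℝ)} (hU : IsOpen U)
    (hne : U.Nonempty) (h0 : ∀ x ∈ U, eval x h = 0) : h = 0 := by
  obtain ⟨x₀, hx₀⟩ := hne
  obtain ⟨ε, hε, hball⟩ := Metric.isOpen_iff.1 hU x₀ hx₀
  refine MvPolynomial.funext_set (fun i => Set.Ioo (x₀ i - ε) (x₀ i + ε)) (fun i => ?_)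
    fun x hx => ?_
  · exact Set.Ioo_infinite (by linarith)
  · rw [map_zero]
    apply h0 x
    apply hball
    rw [Metric.mem_ball, dist_pi_lt_iff hε]
    intro i
    have hi := hx i (Set.mem_univ i)
    rw [Real.dist_eq, abs_lt]
    exact ⟨by linarith [hi.1], by linarith [hi.2]⟩

theorem sign_dvd {σ : Type} [Fintype σ] {p f : MvPolynomial σ ℝ} (hp : Irreducible p)
    {a b : σ → ℝ} (ha : eval a p < 0) (hb : 0 < eval b p)
    (hf : ∀ x, eval x p = 0 → eval x f = 0) : p ∣ f := by
  by_contra hnd
  obtain ⟨h, hne, hh⟩ := elim_dir p f hp hnd (b - a)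
  apply hne
  have hcp : Continuous fun x : σ → ℝ => eval x p := MvPolynomial.continuous_eval p
  have hU : IsOpen ({x : σ → ℝ | eval x p < 0} ∩ {x : σ → ℝ | 0 < eval (x + (b - a)) p}) :=
    (isOpen_lt hcp continuous_const).inter
      (isOpen_lt continuous_const (hcp.comp (continuous_id.add continuous_const)))
  refine zero_open h hU ⟨a, ha, ?_⟩ fun x hx => ?_
  · have e : a + (b - a) = b := by abel
    change 0 < eval (a + (b - a)) p
    rw [e]
    exact hb
  · have h1 : eval x p < 0 := hx.1
    have h2 : 0 < eval (x + (b - a)) p := hx.2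
    have hc : Continuous fun t : ℝ => eval (x + t • (b - a)) p :=
      hcp.comp (continuous_const.add (continuous_id.smul continuous_const))
    have h3 : (0 : ℝ) ∈ Set.Icc (eval (x + (0 : ℝ) • (b - a)) p)
        (eval (x + (1 : ℝ) • (b - a)) p) := by
      rw [zero_smul, one_smul, add_zero]
      exact ⟨h1.le, h2.le⟩
    obtain ⟨t, -, ht⟩ := intermediate_value_Icc zero_le_one hc.continuousOn h3
    exact hh x t ht (hf _ ht)

end Pool.Agent.Work.MP_49847a_an
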