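import Pool.Agent.Work.MP_49847a_an.Cp.Blk3
import Pool.Agent.Work.MP_49847a_an.Sg.CAff
import Pool.Agent.Work.MP_49847a_an.Sg.SuA
import Pool.Agent.Work.MP_49847a_an.Sg.SuK

/-!
# Module Suf3: sufficiency

Proof.  `blk3`, `merge3` give `κ, K, C₀, c'`; `F = C C₀ + (Γ + ρ W^κ)`; `cd` (module `Sg/CAff`) gives `N, ε', g` with
`ev F Z ^ N = nrm g Z + ε' (1 + nn Z)^(K N)`.  Pull back to `ℂⁿ`: with the real polynomial `ρ₀`, `ev ρ₀ = r2 P Q`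
(`exists_r2`), and `G' = G + G₁ * V`, `V` the pull back of `W^κ` (`pull_real`): `ev (C C₀ + ρ₀ * G') z = ev F (gr p z)`.
`nrm g (gr p z) = nrm g' z` (`pull_nrm`), `(1 + nn (gr p z))^(K N) = (1 + nn z + nrm p z)^(K N) = (1 + nn z)^(K N) + nrm q z` for some
family `q` (induction on the exponent: products and sums of Hermitian sums of squares, `nrm_mul`, `nrm_append`,
`exists_nrm_WW`, `nrm_const`).  So `ev (C C₀ + ρ₀ * G') z ^ N = nrm g'' z + ε' (1 + nn z)^(K N)`; `sj_arch` (with `0 < K N`) and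
`sj_kd` as in `suf2` (module `Sg/Suf2`).
-/

namespace Pool.Agent.Work.MP_49847a_an

open MvPolynomial

variable {n k l : ℕ} {P : Fin k → MvPolynomial (Fin n) ℂ} {Q : Fin l → MvPolynomial (Fin n) ℂ}

private theorem s3_powW (n : ℕ) (N : ℕ) : ∃ (a : ℕ) (q : Fin a → MvPolynomial (Fin n) ℂ),
    ∀ z, nrm q z = (1 + nn z) ^ N := by
  obtain ⟨b, w, -, hw⟩ := exists_nrm_WW (n := n) (c := 1) zero_le_one
  induction N with
  | zero =>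
    obtain ⟨s, hs⟩ := nrm_const (n := n) (c := 1) zero_le_one
    exact ⟨1, s, fun z => by rw [hs, pow_zero]⟩
  | succ N ih =>
    obtain ⟨a, q, hq⟩ := ih
    obtain ⟨s, hs⟩ := nrm_mul q w
    exact ⟨_, s, fun z => by rw [hs, hq, hw, pow_succ]⟩

private theorem s3_pow {m : ℕ} (p : Fin m → MvPolynomial (Fin n) ℂ) (N : ℕ) :
    ∃ (a : ℕ) (q : Fin a → MvPolynomial (Fin n) ℂ),
      ∀ z, (1 + nn z + nrm p z) ^ N = (1 + nn z) ^ N + nrm q z := by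
  obtain ⟨b, w, -, hw⟩ := exists_nrm_WW (n := n) (c := 1) zero_le_one
  induction N with
  | zero => exact ⟨0, Fin.elim0, fun z => by simp [nrm]⟩
  | succ N ih =>
    obtain ⟨a, q, hq⟩ := ih
    obtain ⟨a', u, hu⟩ := s3_powW n N
    obtain ⟨s1, hs1⟩ := nrm_mul u p
    obtain ⟨s2, hs2⟩ := nrm_mul q w
    obtain ⟨s3, hs3⟩ := nrm_mul q p
    obtain ⟨s4, hs4⟩ := nrm_append s1 s2
    obtain ⟨s5, hs5⟩ := nrm_append s4 s3
    refine ⟨_, s5, fun z => ?_⟩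
    rw [hs5, hs4, hs1, hs2, hs3, hu, hw, pow_succ, hq, pow_succ]
    ring

theorem suf3 (hn : n ≠ 0) (hP : Pos2 P Q) (hS : Sep2 P Q) (hl : Levi2 P Q) (hI : Inn2 P Q)
    (hInf : Inf2 P Q) : Quillen2 P Q := by
  obtain ⟨m, p, m₂, d, e, ε, r₀, r₁, c, h, ρ, W, Γ, G, G₁, hA, hΓ, hρG⟩ :=
    blk3 hn hP hS hl hI hInf
  obtain ⟨κ, K, C₀, c', hK, _, hc', hDg, h1, h2⟩ := merge3 hA
  obtain ⟨N, ε', m', g, hN, hε', hg⟩ := cd hK hDg hc' h1 h2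
  obtain ⟨ρ₀, hρ₀⟩ := exists_r2 P Q
  obtain ⟨V, hV, -⟩ := pull_real p (W ^ κ)
  obtain ⟨g', -, hg'⟩ := pull_nrm p g
  obtain ⟨a, q, hq⟩ := s3_pow p (K * N)
  obtain ⟨t, ht⟩ := nrm_const (n := n) hε'.le
  obtain ⟨s1, hs1⟩ := nrm_mul t q
  obtain ⟨s2, hs2⟩ := nrm_append g' s1
  have hF : ∀ z, ev (C C₀ + ρ₀ * (G + G₁ * V)) z =
      ev (C C₀ + (Γ + ρ * W ^ κ)) (gr p z) := by
    intro z
    rw [ev_add, ev_add, ev_add, ev_mul, ev_mul, ev_add, ev_mul, ev_C, ev_C, hρ₀, hΓ, hρG, hV]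
    ring
  have key : ∀ z, ev (C C₀ + ρ₀ * (G + G₁ * V)) z ^ N =
      nrm s2 z + ε' * (1 + nn z) ^ (K * N) := by
    intro z
    rw [hF, hg, hs2, hs1, ht, hg', nn_gr, ← add_assoc, hq]
    ring
  intro R hR
  obtain ⟨m'', p', G', hG', hp⟩ := sj_kd (sj_arch hε' (Nat.mul_pos hK hN) key)
    (R := R) (fun z hz => hR z (by rw [hρ₀] at hz; exact hz))
  obtain ⟨H, hH⟩ := Ideal.mem_span_singleton'.1 hG'
  refine ⟨m'', p', H, fun z => ?_⟩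
  rw [hp z, ← hH, ev_mul, hρ₀]
  ring

end Pool.Agent.Work.MP_49847a_an
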