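import Pool.Agent.Work.MP_49847a_an.Cp.GrA

/-!
# Module TopA: the component in a nonpositive direction is dominated

Proof.  For `Z = gr p z`, `l = ip Z v`, `Z' = Z - l • v`.  `ip Z' v = 0` (`nn v = 1`), so `nn Z = ‖l‖² + nn Z'`.
`α_j`, `β_j` are linear: `eval (s • X + Y) (α j) = s * eval X (α j) + eval Y (α j)` (a homogeneous polynomial of degree one is
`∑ c_i X_i`; `MvPolynomial.IsHomogeneous` with `as_sum`, exponents of degree one are `Finsupp.single i 1`).  So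
`r2 α β Z = ‖l‖² r2 α β v + 2 Re (l R2 α β v Z') + r2 α β Z' ≤ K (‖l‖ √(nn Z') + nn Z')`
(`r2 α β v ≤ 0`; `|R2 α β v Z'| ≤ K' √(nn Z')`, `r2 α β Z' ≤ K' nn Z'` by Cauchy-Schwarz for linear forms).
For `R₀ ≤ nn z`: `δ (‖l‖² + nn Z' + 1) ≤ K ‖l‖ √(nn Z') + K nn Z' ≤ (δ/2) ‖l‖² + (K²/(2 δ) + K) nn Z'`, so
`‖l‖² ≤ (2/δ)(K²/(2δ) + K) nn Z'`.  For `nn z < R₀`: `gr p z` stays in a compact set (`nn_cpt`, `gr_continuous`) and `‖l‖²` is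
bounded.
-/

namespace Pool.Agent.Work.MP_49847a_an

open MvPolynomial

variable {n m a b : ℕ} {p : Fin m → MvPolynomial (Fin n) ℂ}
  {α : Fin a → MvPolynomial (Fin (n + m)) ℂ} {β : Fin b → MvPolynomial (Fin (n + m)) ℂ}

private theorem lin_add {N : ℕ} {P : MvPolynomial (Fin N) ℂ} (hP : P.IsHomogeneous 1) :
    ∃ c : Fin N → ℂ, ∀ z, eval z P = ∑ i, c i * z i := by
  have h1 : P ∈ homogeneousSubmodule (Fin N) ℂ 1 := hP
  rw [homogeneousSubmodule_one_eq_span_X] at h1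
  induction h1 using Submodule.span_induction with
  | mem x hx =>
    obtain ⟨i, rfl⟩ := hx
    refine ⟨Pi.single i 1, fun z => ?_⟩
    rw [eval_X, Finset.sum_eq_single i]
    · simp
    · intro j _ hj
      simp [Pi.single_eq_of_ne hj]
    · intro h
      exact absurd (Finset.mem_univ i) h
  | zero => exact ⟨0, fun z => by simp⟩
  | add x y _ _ hx hy =>
    obtain ⟨c, hc⟩ := hx ((mem_homogeneousSubmodule _ _).1
      (by rw [homogeneousSubmodule_one_eq_span_X]; assumption))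
    obtain ⟨d, hd⟩ := hy ((mem_homogeneousSubmodule _ _).1
      (by rw [homogeneousSubmodule_one_eq_span_X]; assumption))
    refine ⟨c + d, fun z => ?_⟩
    rw [map_add, hc, hd, ← Finset.sum_add_distrib]
    exact Finset.sum_congr rfl fun i _ => by rw [Pi.add_apply]; ring
  | smul r x _ hx =>
    obtain ⟨c, hc⟩ := hx ((mem_homogeneousSubmodule _ _).1
      (by rw [homogeneousSubmodule_one_eq_span_X]; assumption))
    refine ⟨r • c, fun z => ?_⟩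
    rw [smul_eval, hc, Finset.mul_sum]
    exact Finset.sum_congr rfl fun i _ => by rw [Pi.smul_apply, smul_eq_mul]; ring

private theorem lin_eval {N : ℕ} {P : MvPolynomial (Fin N) ℂ} (hP : P.IsHomogeneous 1)
    (s : ℂ) (X Y : Fin N → ℂ) : eval (s • X + Y) P = s * eval X P + eval Y P := by
  obtain ⟨c, hc⟩ := lin_add hP
  rw [hc, hc, hc, Finset.mul_sum, ← Finset.sum_add_distrib]
  refine Finset.sum_congr rfl fun i _ => ?_
  rw [Pi.add_apply, Pi.smul_apply, smul_eq_mul]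
  ring

private theorem lin_bd {N : ℕ} {P : MvPolynomial (Fin N) ℂ} (hP : P.IsHomogeneous 1) :
    ∃ K : ℝ, 0 ≤ K ∧ ∀ z, ‖eval z P‖ ^ 2 ≤ K * nn z := by
  obtain ⟨c, hc⟩ := lin_add hP
  refine ⟨∑ i, ‖c i‖ ^ 2, by positivity, fun z => ?_⟩
  have h1 : ‖eval z P‖ ≤ ∑ i, ‖c i‖ * ‖z i‖ := by
    rw [hc]
    exact (norm_sum_le _ _).trans (Finset.sum_le_sum fun i _ => (norm_mul _ _).le)
  calc ‖eval z P‖ ^ 2 ≤ (∑ i, ‖c i‖ * ‖z i‖) ^ 2 := pow_le_pow_left₀ (norm_nonneg _) h1 2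
    _ ≤ (∑ i, ‖c i‖ ^ 2) * ∑ i, ‖z i‖ ^ 2 := Finset.sum_mul_sq_le_sq_mul_sq _ _ _

private theorem lin_bd_sum {N k : ℕ} {P : Fin k → MvPolynomial (Fin N) ℂ}
    (hP : ∀ j, (P j).IsHomogeneous 1) :
    ∃ K : ℝ, 0 ≤ K ∧ ∀ z, nrm P z ≤ K * nn z := by
  choose K hK0 hK using fun j => lin_bd (hP j)
  refine ⟨∑ j, K j, Finset.sum_nonneg fun j _ => hK0 j, fun z => ?_⟩
  rw [nrm, Finset.sum_mul]
  exact Finset.sum_le_sum fun j _ => hK j z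

private theorem sq_up {x y : ℂ} {e : ℝ} (he : 0 < e) :
    ‖x + y‖ ^ 2 ≤ (1 + e) * ‖x‖ ^ 2 + (1 + 1 / e) * ‖y‖ ^ 2 := by
  have h1 : ‖x + y‖ ^ 2 ≤ (‖x‖ + ‖y‖) ^ 2 :=
    pow_le_pow_left₀ (norm_nonneg _) (norm_add_le _ _) 2
  have h2 : 2 * ‖x‖ * ‖y‖ ≤ e * ‖x‖ ^ 2 + (1 / e) * ‖y‖ ^ 2 := by
    have h3 : 0 ≤ (1 / e) * (e * ‖x‖ - ‖y‖) ^ 2 := by positivity
    have h4 : (1 / e) * (e * ‖x‖ - ‖y‖) ^ 2 =
        e * ‖x‖ ^ 2 - 2 * ‖x‖ * ‖y‖ + (1 / e) * ‖y‖ ^ 2 := by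
      field_simp
      ring
    linarith
  nlinarith [h1, h2]

private theorem sq_lo {x y : ℂ} {e : ℝ} (he : 0 < e) :
    (1 - e) * ‖x‖ ^ 2 - (1 / e) * ‖y‖ ^ 2 ≤ ‖x + y‖ ^ 2 := by
  have h0 : |‖x‖ - ‖y‖| ≤ ‖x + y‖ := by
    have := abs_norm_sub_norm_le x (-y)
    rwa [norm_neg, sub_neg_eq_add] at this
  have h1 : (‖x‖ - ‖y‖) ^ 2 ≤ ‖x + y‖ ^ 2 := by
    rw [← sq_abs (‖x‖ - ‖y‖)]
    exact pow_le_pow_left₀ (abs_nonneg _) h0 2
  have h2 : 2 * ‖x‖ * ‖y‖ ≤ e * ‖x‖ ^ 2 + (1 / e) * ‖y‖ ^ 2 := by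
    have h3 : 0 ≤ (1 / e) * (e * ‖x‖ - ‖y‖) ^ 2 := by positivity
    have h4 : (1 / e) * (e * ‖x‖ - ‖y‖) ^ 2 =
        e * ‖x‖ ^ 2 - 2 * ‖x‖ * ‖y‖ + (1 / e) * ‖y‖ ^ 2 := by
      field_simp
      ring
    linarith
  nlinarith [h1, h2, sq_nonneg ‖y‖]

private theorem nrm_up {N k : ℕ} {P : Fin k → MvPolynomial (Fin N) ℂ}
    (hP : ∀ j, (P j).IsHomogeneous 1) {e : ℝ} (he : 0 < e) (s : ℂ) (X Y : Fin N → ℂ) :
    nrm P (s • X + Y) ≤ (1 + e) * (‖s‖ ^ 2 * nrm P X) + (1 + 1 / e) * nrm P Y := by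
  rw [nrm, nrm, nrm, Finset.mul_sum, Finset.mul_sum, Finset.mul_sum, ← Finset.sum_add_distrib]
  refine Finset.sum_le_sum fun j _ => ?_
  rw [lin_eval (hP j)]
  have h1 := sq_up (x := s * eval X (P j)) (y := eval Y (P j)) he
  rwa [norm_mul, mul_pow] at h1

private theorem nrm_lo {N k : ℕ} {P : Fin k → MvPolynomial (Fin N) ℂ}
    (hP : ∀ j, (P j).IsHomogeneous 1) {e : ℝ} (he : 0 < e) (s : ℂ) (X Y : Fin N → ℂ) :
    (1 - e) * (‖s‖ ^ 2 * nrm P X) - (1 / e) * nrm P Y ≤ nrm P (s • X + Y) := by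
  rw [nrm, nrm, nrm, Finset.mul_sum, Finset.mul_sum, Finset.mul_sum, ← Finset.sum_sub_distrib]
  refine Finset.sum_le_sum fun j _ => ?_
  rw [lin_eval (hP j)]
  have h1 := sq_lo (x := s * eval X (P j)) (y := eval Y (P j)) he
  rwa [norm_mul, mul_pow] at h1

private theorem nrm_nn {N k : ℕ} (P : Fin k → MvPolynomial (Fin N) ℂ) (z : Fin N → ℂ) :
    0 ≤ nrm P z := Finset.sum_nonneg fun j _ => by positivity

private theorem nn_nonneg' {N : ℕ} (z : Fin N → ℂ) : 0 ≤ nn z :=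
  Finset.sum_nonneg fun j _ => by positivity

private theorem nn_split {N : ℕ} {v : Fin N → ℂ} (hv : nn v = 1) (Z : Fin N → ℂ) :
    nn Z = ‖ip Z v‖ ^ 2 + nn (Z - ip Z v • v) := by
  have h1 : ∀ i, ‖(Z - ip Z v • v) i‖ ^ 2 = ‖Z i‖ ^ 2 + ‖ip Z v‖ ^ 2 * ‖v i‖ ^ 2 -
      2 * ((starRingEnd ℂ) (ip Z v) * (Z i * (starRingEnd ℂ) (v i))).re := by
    intro i
    rw [Pi.sub_apply, Pi.smul_apply, smul_eq_mul, Complex.sq_norm, Complex.sq_norm,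
      Complex.sq_norm, Complex.sq_norm, Complex.normSq_sub, Complex.normSq_mul, map_mul]
    congr 3
    ring
  have h2 : nn (Z - ip Z v • v) = nn Z + ‖ip Z v‖ ^ 2 * nn v -
      2 * ((starRingEnd ℂ) (ip Z v) * ip Z v).re := by
    rw [nn, Finset.sum_congr rfl fun i _ => h1 i, Finset.sum_sub_distrib,
      Finset.sum_add_distrib, ← Finset.mul_sum, ← Finset.mul_sum, ← Complex.re_sum,
      ← Finset.mul_sum]
    rfl
  have h3 : ((starRingEnd ℂ) (ip Z v) * ip Z v).re = ‖ip Z v‖ ^ 2 := by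
    rw [← Complex.normSq_eq_conj_mul_self, Complex.ofReal_re, Complex.sq_norm]
  rw [h2, h3, hv]
  ring

private theorem ip_cont {N : ℕ} (v : Fin N → ℂ) : Continuous fun Z : Fin N → ℂ => ip Z v := by
  unfold ip
  fun_prop

theorem lin_growth (hα : ∀ j, (α j).IsHomogeneous 1) (hβ : ∀ j, (β j).IsHomogeneous 1)
    {δ R₀ : ℝ} (hδ : 0 < δ) (h : ∀ z, R₀ ≤ nn z → δ * (1 + nn (gr p z)) ≤ r2 α β (gr p z))
    {v : Fin (n + m) → ℂ} (hv : nn v = 1) (hv0 : r2 α β v ≤ 0) :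
    ∃ C : ℝ, ∀ z, ‖ip (gr p z) v‖ ^ 2 ≤
      C * (1 + nn (gr p z - ip (gr p z) v • v)) := by
  obtain ⟨K₁, hK₁0, hK₁⟩ := lin_bd_sum hα
  obtain ⟨K₂, hK₂0, hK₂⟩ := lin_bd_sum hβ
  set M : ℝ := nrm α v + nrm β v with hM
  have hM0 : 0 ≤ M := add_nonneg (nrm_nn _ _) (nrm_nn _ _)
  set e : ℝ := δ / (2 * (M + 1)) with he
  have he0 : 0 < e := by positivity
  have heM : e * M ≤ δ / 2 := by
    rw [he, div_mul_eq_mul_div, div_le_div_iff₀ (by positivity) (by norm_num)]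
    nlinarith
  set K : ℝ := (1 + 1 / e) * K₁ + (1 / e) * K₂ with hK
  have hK0 : 0 ≤ K := by positivity
  obtain ⟨B, hB⟩ := (nn_cpt (n := n) R₀).bddAbove_image
    (f := fun z => ‖ip (gr p z) v‖ ^ 2)
    (((ip_cont v).comp (gr_continuous p)).norm.pow 2).continuousOn
  refine ⟨max B 0 + 2 / δ * K, fun z => ?_⟩
  set l := ip (gr p z) v with hl
  set Z' := gr p z - l • v with hZ'
  have hn0 : 0 ≤ nn Z' := nn_nonneg' _
  have hD0 : 0 ≤ 2 / δ * K := by positivity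
  have hB0 : 0 ≤ max B 0 := le_max_right _ _
  rcases le_total R₀ (nn z) with hz | hz
  · have h1 := h z hz
    have h2 : gr p z = l • v + Z' := by rw [hZ']; abel
    have h3 := nrm_up hα he0 l v Z'
    have h4 := nrm_lo hβ he0 l v Z'
    rw [← h2] at h3 h4
    have h5 : nn (gr p z) = ‖l‖ ^ 2 + nn Z' := nn_split hv (gr p z)
    rw [h5, r2] at h1
    rw [r2] at hv0
    have h6 := mul_le_mul_of_nonneg_left (hK₁ Z') (by positivity : (0 : ℝ) ≤ 1 + 1 / e)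
    have h7 := mul_le_mul_of_nonneg_left (hK₂ Z') (by positivity : (0 : ℝ) ≤ 1 / e)
    have hl0 : 0 ≤ ‖l‖ ^ 2 := by positivity
    have h8 : ‖l‖ ^ 2 * (nrm α v - nrm β v) ≤ 0 :=
      mul_nonpos_of_nonneg_of_nonpos hl0 hv0
    have h9 : ‖l‖ ^ 2 * (e * M) ≤ ‖l‖ ^ 2 * (δ / 2) := mul_le_mul_of_nonneg_left heM hl0
    have h10 : δ * (1 + (‖l‖ ^ 2 + nn Z')) ≤ δ / 2 * ‖l‖ ^ 2 + K * nn Z' := by
      calc δ * (1 + (‖l‖ ^ 2 + nn Z')) ≤ nrm α (gr p z) - nrm β (gr p z) := h1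
        _ ≤ ((1 + e) * (‖l‖ ^ 2 * nrm α v) + (1 + 1 / e) * nrm α Z') -
            ((1 - e) * (‖l‖ ^ 2 * nrm β v) - 1 / e * nrm β Z') := sub_le_sub h3 h4
        _ = ‖l‖ ^ 2 * (nrm α v - nrm β v) + ‖l‖ ^ 2 * (e * M) +
            ((1 + 1 / e) * nrm α Z' + 1 / e * nrm β Z') := by rw [hM]; ring
        _ ≤ 0 + ‖l‖ ^ 2 * (δ / 2) +
            ((1 + 1 / e) * (K₁ * nn Z') + 1 / e * (K₂ * nn Z')) := by linarith
        _ = δ / 2 * ‖l‖ ^ 2 + K * nn Z' := by rw [hK]; ring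
    have h11 : δ / 2 * ‖l‖ ^ 2 ≤ K * nn Z' := by nlinarith [mul_nonneg hδ.le hn0]
    have h12 : ‖l‖ ^ 2 ≤ 2 / δ * K * nn Z' := by
      have h13 : ‖l‖ ^ 2 = 2 / δ * (δ / 2 * ‖l‖ ^ 2) := by field_simp
      rw [h13, mul_assoc]
      exact mul_le_mul_of_nonneg_left h11 (by positivity)
    nlinarith [mul_nonneg hB0 hn0]
  · have h1 : ‖l‖ ^ 2 ≤ B := hB ⟨z, hz, rfl⟩
    have h2 : ‖l‖ ^ 2 ≤ max B 0 := h1.trans (le_max_left _ _)
    nlinarith [mul_nonneg hB0 hn0, mul_nonneg hD0 hn0]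

end Pool.Agent.Work.MP_49847a_an
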