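import Pool.Agent.Work.MP_49847a_an.Cp.CpDefs

/-!
# Module TopB: growth of a polynomial in a cone

Proof.  `g` is the polynomial `ℓ^D + ∑_j c_j(Z') ℓ^j` where `ℓ = ∑_i conj(v_i) X_i` and `Z'_i = X_i - v_i ℓ` (substitution
`aeval`); degree `≤ D` (`totalDegree` of a substitution of polynomials of degree `≤ 1` into a polynomial of degree `≤ D - j`).
(estimate) Let `T = √(nn Z) > 0`, `Z = T (v + y)`, `nn y < s ≤ 1/16`.  `ip Z v = T (1 + ip y v)`, `‖ip y v‖ ≤ √s`, and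
`nn Z' = T² nn (y - ip y v • v) ≤ T² s` (projection: `nn (y - ip y v • v) = nn y - ‖ip y v‖²`).  A polynomial `c` of degree
`≤ i` satisfies `‖c(x)‖² ≤ K (1 + nn x)^i` (`Dg_bound` for `|c|²`: `Dg i`).  So with `T² ≥ 1/s`:
`‖c_j(Z') ℓ^j‖ ≤ √K (√(1 + s T²))^(D-j) (2T)^j ≤ √K (2 √s T)^(D-j) (2T)^j ≤ √K 2^D √s T^D` (`D - j ≥ 1`, `√s ≤ 1`).  The sum over
`j` is `≤ D √K 2^D √s T^D ≤ T^D/4 · (1/2^D)` hence small compared with `‖ℓ^D‖ ≥ (3T/4)^D` for `s` small.  So
`‖g(Z)‖ ≥ (1/2) (3/4)^D T^D`.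
-/

namespace Pool.Agent.Work.MP_49847a_an

open MvPolynomial

variable {N D : ℕ}

private theorem topb_deg {f : Fin N → MvPolynomial (Fin N) ℂ} (hf : ∀ i, (f i).totalDegree ≤ 1)
    (c : MvPolynomial (Fin N) ℂ) : (bind₁ f c).totalDegree ≤ c.totalDegree := by
  have h1 : bind₁ f c = ∑ m ∈ c.support, C (coeff m c) * ∏ i, f i ^ m i := by
    conv_lhs => rw [c.as_sum]
    rw [map_sum]
    refine Finset.sum_congr rfl fun m _ => ?_
    rw [bind₁_monomial]
    congr 1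
    exact Finsupp.prod_fintype _ _ (fun i => pow_zero _)
  rw [h1]
  refine (totalDegree_finsetSum _ _).trans (Finset.sup_le fun m hm => ?_)
  refine (totalDegree_mul _ _).trans ?_
  rw [totalDegree_C, zero_add]
  refine (totalDegree_finsetProd _ _).trans ?_
  have h2 := le_totalDegree hm
  rw [Finsupp.sum_fintype _ _ (fun _ => rfl)] at h2
  refine le_trans (Finset.sum_le_sum fun i _ => ?_) h2
  refine (totalDegree_pow _ _).trans ?_
  calc m i * (f i).totalDegree ≤ m i * 1 := Nat.mul_le_mul_left _ (hf i)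
    _ = m i := mul_one _

private theorem topb_bound (c : MvPolynomial (Fin N) ℂ) {i : ℕ} (hc : c.totalDegree ≤ i) :
    ∃ K : ℝ, 0 ≤ K ∧ ∀ x, ‖eval x c‖ ≤ K * Real.sqrt (1 + nn x) ^ i := by
  refine ⟨∑ m ∈ c.support, ‖coeff m c‖, Finset.sum_nonneg fun _ _ => norm_nonneg _, fun x => ?_⟩
  have hnn : 0 ≤ nn x := nn_nonneg x
  have h1 : 1 ≤ Real.sqrt (1 + nn x) := by
    rw [Real.one_le_sqrt]; linarith
  have hx : ∀ l, ‖x l‖ ≤ Real.sqrt (1 + nn x) := by
    intro l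
    apply Real.le_sqrt_of_sq_le
    have : ‖x l‖ ^ 2 ≤ nn x :=
      Finset.single_le_sum (f := fun l => ‖x l‖ ^ 2) (fun _ _ => by positivity) (Finset.mem_univ l)
    linarith
  rw [eval_eq', Finset.sum_mul]
  refine (norm_sum_le _ _).trans (Finset.sum_le_sum fun m hm => ?_)
  rw [norm_mul]
  refine mul_le_mul_of_nonneg_left ?_ (norm_nonneg _)
  rw [norm_prod]
  have h2 := (le_totalDegree hm).trans hc
  rw [Finsupp.sum_fintype _ _ (fun _ => rfl)] at h2
  calc ∏ l, ‖x l ^ m l‖ ≤ ∏ l, Real.sqrt (1 + nn x) ^ m l := by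
        refine Finset.prod_le_prod (fun _ _ => norm_nonneg _) fun l _ => ?_
        rw [norm_pow]
        exact pow_le_pow_left₀ (norm_nonneg _) (hx l) _
    _ = Real.sqrt (1 + nn x) ^ ∑ l, m l := Finset.prod_pow_eq_pow_sum _ _ _
    _ ≤ _ := pow_le_pow_right₀ h1 h2

private theorem topb_ip_add (a b v : Fin N → ℂ) : ip (a + b) v = ip a v + ip b v := by
  unfold ip
  rw [← Finset.sum_add_distrib]
  exact Finset.sum_congr rfl fun i _ => by rw [Pi.add_apply, add_mul]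

private theorem topb_ip_smul (t : ℂ) (a v : Fin N → ℂ) : ip (t • a) v = t * ip a v := by
  unfold ip
  rw [Finset.mul_sum]
  exact Finset.sum_congr rfl fun i _ => by rw [Pi.smul_apply, smul_eq_mul, mul_assoc]

theorem cone_est {v : Fin N → ℂ} (hv : nn v = 1) (c : Fin D → MvPolynomial (Fin N) ℂ)
    (hc : ∀ j : Fin D, (c j).totalDegree ≤ D - j) :
    ∃ g : MvPolynomial (Fin N) ℂ, g.totalDegree ≤ D ∧
      (∀ Z, eval Z g = ip Z v ^ D +
        ∑ j : Fin D, eval (Z - ip Z v • v) (c j) * ip Z v ^ (j : ℕ)) ∧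
      ∃ s c₀ R : ℝ, 0 < s ∧ 0 < c₀ ∧ ∀ Z, R ≤ nn Z →
        nn (Z - (Real.sqrt (nn Z) : ℂ) • v) < s * nn Z → c₀ * nn Z ^ D ≤ ‖eval Z g‖ ^ 2 := by
  obtain ⟨ℓ, hℓ⟩ : ∃ ℓ : MvPolynomial (Fin N) ℂ, ℓ = ∑ i, C ((starRingEnd ℂ) (v i)) * X i :=
    ⟨_, rfl⟩
  have hℓd : ℓ.totalDegree ≤ 1 := by
    rw [hℓ]
    refine (totalDegree_finsetSum _ _).trans (Finset.sup_le fun i _ => ?_)
    refine (totalDegree_mul _ _).trans ?_
    rw [totalDegree_C, totalDegree_X]
  have hℓe : ∀ Z, eval Z ℓ = ip Z v := by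
    intro Z
    rw [hℓ, map_sum]
    unfold ip
    refine Finset.sum_congr rfl fun i _ => ?_
    rw [map_mul, eval_C, eval_X, mul_comm]
  obtain ⟨f, hf⟩ : ∃ f : Fin N → MvPolynomial (Fin N) ℂ, f = fun i => X i - C (v i) * ℓ := ⟨_, rfl⟩
  have hfd : ∀ i, (f i).totalDegree ≤ 1 := by
    intro i
    rw [hf]
    refine (totalDegree_sub _ _).trans (max_le (totalDegree_X _).le ?_)
    refine (totalDegree_mul _ _).trans ?_
    rw [totalDegree_C, zero_add]
    exact hℓd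
  have hfe : ∀ Z, (fun i => eval Z (f i)) = Z - ip Z v • v := by
    intro Z
    funext i
    rw [hf]
    simp only [map_sub, map_mul, eval_X, eval_C, hℓe, Pi.sub_apply, Pi.smul_apply, smul_eq_mul]
    ring
  have hge : ∀ Z, eval Z (ℓ ^ D + ∑ j : Fin D, bind₁ f (c j) * ℓ ^ (j : ℕ)) = ip Z v ^ D +
        ∑ j : Fin D, eval (Z - ip Z v • v) (c j) * ip Z v ^ (j : ℕ) := by
    intro Z
    rw [map_add, map_pow, hℓe, map_sum]
    congr 1
    refine Finset.sum_congr rfl fun j _ => ?_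
    rw [map_mul, map_pow, hℓe]
    congr 1
    have h1 : eval Z (bind₁ f (c j)) = eval (fun i => eval Z (f i)) (c j) := by
      have := eval₂Hom_bind₁ (RingHom.id ℂ) Z f (c j)
      exact this
    rw [h1, hfe]
  refine ⟨ℓ ^ D + ∑ j : Fin D, bind₁ f (c j) * ℓ ^ (j : ℕ), ?_, hge, ?_⟩
  · refine (totalDegree_add _ _).trans (max_le ?_ ?_)
    · refine (totalDegree_pow _ _).trans ?_
      calc D * ℓ.totalDegree ≤ D * 1 := Nat.mul_le_mul_left _ hℓd
        _ = D := mul_one _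
    · refine (totalDegree_finsetSum _ _).trans (Finset.sup_le fun j _ => ?_)
      refine (totalDegree_mul _ _).trans ?_
      have h1 := (topb_deg hfd (c j)).trans (hc j)
      have h2 : (ℓ ^ (j : ℕ)).totalDegree ≤ j := by
        refine (totalDegree_pow _ _).trans ?_
        calc (j : ℕ) * ℓ.totalDegree ≤ j * 1 := Nat.mul_le_mul_left _ hℓd
          _ = j := mul_one _
      have h3 := j.2
      omega
  · choose K hK0 hK using fun j => topb_bound (c j) (hc j)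
    obtain ⟨A, hA⟩ : ∃ A : ℝ, A = ∑ j, K j := ⟨_, rfl⟩
    have hA0 : 0 ≤ A := by rw [hA]; exact Finset.sum_nonneg fun j _ => hK0 j
    obtain ⟨b, hb⟩ : ∃ b : ℝ, b = min (1 / 4) ((1 / 2) * (3 / 4) ^ D / (6 ^ D * (A + 1))) :=
      ⟨_, rfl⟩
    have hb0 : 0 < b := by
      rw [hb]
      exact lt_min (by norm_num) (by positivity)
    have hb4 : b ≤ 1 / 4 := by rw [hb]; exact min_le_left _ _
    have hbA : 6 ^ D * (A + 1) * b ≤ (1 / 2) * (3 / 4) ^ D := by
      have h1 : b ≤ (1 / 2) * (3 / 4) ^ D / (6 ^ D * (A + 1)) := by rw [hb]; exact min_le_right _ _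
      have h2 : 0 < (6 : ℝ) ^ D * (A + 1) := by positivity
      rw [le_div_iff₀ h2] at h1
      linarith
    refine ⟨b ^ 2, (1 / 4) * ((3 / 4) ^ D) ^ 2, 1 / b ^ 2, by positivity, by positivity, ?_⟩
    intro Z hR hZ
    have hb2 : 0 < b ^ 2 := by positivity
    have hZpos : 0 < nn Z := lt_of_lt_of_le (by positivity) hR
    obtain ⟨T, hT⟩ : ∃ T : ℝ, T = Real.sqrt (nn Z) := ⟨_, rfl⟩
    have hTpos : 0 < T := by rw [hT]; exact Real.sqrt_pos.mpr hZpos
    have hT2 : T ^ 2 = nn Z := by rw [hT]; exact Real.sq_sqrt hZpos.le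
    rw [← hT] at hZ
    rw [← hT2] at hZ hR ⊢
    have hbT : 1 ≤ b ^ 2 * T ^ 2 := by
      rw [div_le_iff₀ hb2] at hR
      linarith
    obtain ⟨y, hy⟩ : ∃ y : Fin N → ℂ, y = Z - (T : ℂ) • v := ⟨_, rfl⟩
    rw [← hy] at hZ
    have hZy : Z = y + (T : ℂ) • v := by rw [hy]; simp
    have hipy : ‖ip y v‖ ≤ b * T := by
      have h1 := ip_cs y v
      rw [hv, mul_one] at h1
      apply le_of_sq_le_sq _ (by positivity)
      nlinarith
    have hipvv : ip v v = 1 := by rw [ip_self, hv]; simp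
    have hip : ip Z v = ip y v + T := by
      rw [hZy, topb_ip_add, topb_ip_smul, hipvv, mul_one]
    have hlow : (3 / 4) * T ≤ ‖ip Z v‖ := by
      rw [hip]
      have h1 : ‖((T : ℝ) : ℂ)‖ = T := by
        rw [Complex.norm_real, Real.norm_of_nonneg hTpos.le]
      have h2 : ‖((T : ℝ) : ℂ)‖ ≤ ‖ip y v + T‖ + ‖ip y v‖ := by
        have := norm_sub_le (ip y v + (T : ℂ)) (ip y v)
        rwa [add_sub_cancel_left] at this
      rw [h1] at h2
      nlinarith
    have hup : ‖ip Z v‖ ≤ 2 * T := by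
      rw [hip]
      have h1 : ‖((T : ℝ) : ℂ)‖ = T := by
        rw [Complex.norm_real, Real.norm_of_nonneg hTpos.le]
      have h2 := norm_add_le (ip y v) (T : ℂ)
      rw [h1] at h2
      nlinarith
    have hZ' : Z - ip Z v • v = y + (-ip y v) • v := by
      rw [hip, hZy]
      funext i
      simp only [Pi.sub_apply, Pi.add_apply, Pi.smul_apply, smul_eq_mul]
      ring
    have hnnZ' : nn (Z - ip Z v • v) ≤ 4 * (b ^ 2 * T ^ 2) := by
      rw [hZ']
      have h1 := nn_add_le y ((-ip y v) • v)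
      rw [nn_smul, hv, mul_one, norm_neg] at h1
      have h2 : ‖ip y v‖ ^ 2 ≤ (b * T) ^ 2 := pow_le_pow_left₀ (norm_nonneg _) hipy 2
      nlinarith
    have hsq : Real.sqrt (1 + nn (Z - ip Z v • v)) ≤ 3 * b * T := by
      apply Real.sqrt_le_iff.mpr
      constructor
      · positivity
      · nlinarith
    have hterm : ∀ j : Fin D, ‖eval (Z - ip Z v • v) (c j) * ip Z v ^ (j : ℕ)‖ ≤
        K j * (6 ^ D * b * T ^ D) := by
      intro j
      have hj := j.2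
      rw [norm_mul, norm_pow]
      have h1 : ‖eval (Z - ip Z v • v) (c j)‖ ≤ K j * (3 * b * T) ^ (D - (j : ℕ)) :=
        (hK j _).trans (mul_le_mul_of_nonneg_left
          (pow_le_pow_left₀ (Real.sqrt_nonneg _) hsq _) (hK0 j))
      have h2 : ‖ip Z v‖ ^ (j : ℕ) ≤ (2 * T) ^ (j : ℕ) := pow_le_pow_left₀ (norm_nonneg _) hup _
      have h3 : (3 * b * T) ^ (D - (j : ℕ)) * (2 * T) ^ (j : ℕ) ≤ 6 ^ D * b * T ^ D := by
        have e1 : T ^ D = T ^ (D - (j : ℕ)) * T ^ (j : ℕ) := by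
          rw [← pow_add]; congr 1; omega
        rw [mul_pow, mul_pow (2 : ℝ), mul_pow (3 : ℝ), e1]
        have h4 : b ^ (D - (j : ℕ)) ≤ b := by
          calc b ^ (D - (j : ℕ)) ≤ b ^ 1 :=
                pow_le_pow_of_le_one hb0.le (by linarith) (by omega)
            _ = b := pow_one b
        have h5 : (3 : ℝ) ^ (D - (j : ℕ)) * 2 ^ (j : ℕ) ≤ 6 ^ D := by
          calc (3 : ℝ) ^ (D - (j : ℕ)) * 2 ^ (j : ℕ) ≤ 3 ^ D * 2 ^ D := by
                refine mul_le_mul (pow_le_pow_right₀ (by norm_num) (Nat.sub_le _ _))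
                  (pow_le_pow_right₀ (by norm_num) hj.le) (by positivity) (by positivity)
            _ = 6 ^ D := by rw [← mul_pow]; norm_num
        calc 3 ^ (D - (j : ℕ)) * b ^ (D - (j : ℕ)) * T ^ (D - (j : ℕ)) * (2 ^ (j : ℕ) * T ^ (j : ℕ))
            = (3 ^ (D - (j : ℕ)) * 2 ^ (j : ℕ)) * b ^ (D - (j : ℕ)) *
              (T ^ (D - (j : ℕ)) * T ^ (j : ℕ)) := by ring
          _ ≤ 6 ^ D * b * (T ^ (D - (j : ℕ)) * T ^ (j : ℕ)) := by
              refine mul_le_mul_of_nonneg_right ?_ (by positivity)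
              exact mul_le_mul h5 h4 (by positivity) (by positivity)
      calc ‖eval (Z - ip Z v • v) (c j)‖ * ‖ip Z v‖ ^ (j : ℕ)
          ≤ K j * (3 * b * T) ^ (D - (j : ℕ)) * (2 * T) ^ (j : ℕ) :=
            mul_le_mul h1 h2 (by positivity) (mul_nonneg (hK0 j) (by positivity))
        _ = K j * ((3 * b * T) ^ (D - (j : ℕ)) * (2 * T) ^ (j : ℕ)) := by ring
        _ ≤ _ := mul_le_mul_of_nonneg_left h3 (hK0 j)
    have hsum : ‖∑ j : Fin D, eval (Z - ip Z v • v) (c j) * ip Z v ^ (j : ℕ)‖ ≤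
        (1 / 2) * (3 / 4) ^ D * T ^ D := by
      refine (norm_sum_le _ _).trans ((Finset.sum_le_sum fun j _ => hterm j).trans ?_)
      rw [← Finset.sum_mul, ← hA]
      have hTD : 0 < T ^ D := by positivity
      have h6 : 0 < (6 : ℝ) ^ D * b := by positivity
      calc A * (6 ^ D * b * T ^ D) ≤ (6 ^ D * (A + 1) * b) * T ^ D := by nlinarith [mul_pos h6 hTD]
        _ ≤ _ := mul_le_mul_of_nonneg_right hbA hTD.le
    have hmain : (3 / 4) ^ D * T ^ D ≤ ‖ip Z v ^ D‖ := by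
      rw [norm_pow, ← mul_pow]
      exact pow_le_pow_left₀ (by positivity) hlow D
    have hfin : (1 / 2) * (3 / 4) ^ D * T ^ D ≤
        ‖eval Z (ℓ ^ D + ∑ j : Fin D, bind₁ f (c j) * ℓ ^ (j : ℕ))‖ := by
      rw [hge]
      have h1 := norm_sub_le (ip Z v ^ D +
        ∑ j : Fin D, eval (Z - ip Z v • v) (c j) * ip Z v ^ (j : ℕ))
        (∑ j : Fin D, eval (Z - ip Z v • v) (c j) * ip Z v ^ (j : ℕ))
      rw [add_sub_cancel_right] at h1
      linarith
    have h0 : (0 : ℝ) ≤ (1 / 2) * (3 / 4) ^ D * T ^ D := by positivity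
    calc (1 / 4) * ((3 / 4) ^ D) ^ 2 * (T ^ 2) ^ D = ((1 / 2) * (3 / 4) ^ D * T ^ D) ^ 2 := by
          rw [← pow_mul T 2 D, mul_comm 2 D, pow_mul T D 2]; ring
      _ ≤ _ := pow_le_pow_left₀ h0 hfin 2

end Pool.Agent.Work.MP_49847a_an
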