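import Pool.Agent.Work.MP_49847a_an.Cp.TopA
import Pool.Agent.Work.MP_49847a_an.Cp.TopB
import Pool.Agent.Work.MP_49847a_an.Cp.IntDep
import Pool.Agent.Work.MP_49847a_an.Cp.GrB

/-!
# Module TopG: polynomials vanishing on the graph and large in a given direction

Proof.  `φ(z) = ip (gr p z) v` and `ψ_i(z) = (gr p z - ip (gr p z) v • v)_i` are polynomials in `z` (`pull_hol` for the linear
polynomials `∑ conj(v_i) X_i`, …); `nrm ψ z = nn (gr p z - ip (gr p z) v • v)`.  By `lin_growth` `int_dep` applies and gives `D`, `c`;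
`cone_est` gives `g`, and `eval (gr p z) g = 0`.
-/

namespace Pool.Agent.Work.MP_49847a_an

open MvPolynomial

variable {n m a b : ℕ} {p : Fin m → MvPolynomial (Fin n) ℂ}
  {α : Fin a → MvPolynomial (Fin (n + m)) ℂ} {β : Fin b → MvPolynomial (Fin (n + m)) ℂ}

theorem top_g (hα : ∀ j, (α j).IsHomogeneous 1) (hβ : ∀ j, (β j).IsHomogeneous 1)
    {δ R₀ : ℝ} (hδ : 0 < δ) (h : ∀ z, R₀ ≤ nn z → δ * (1 + nn (gr p z)) ≤ r2 α β (gr p z))
    {v : Fin (n + m) → ℂ} (hv : nn v = 1) (hv0 : r2 α β v ≤ 0) :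
    ∃ (D : ℕ) (g : MvPolynomial (Fin (n + m)) ℂ) (s c₀ R : ℝ), 0 < D ∧ g.totalDegree ≤ D ∧
      (∀ z, eval (gr p z) g = 0) ∧ 0 < s ∧ 0 < c₀ ∧ ∀ Z, R ≤ nn Z →
        nn (Z - (Real.sqrt (nn Z) : ℂ) • v) < s * nn Z → c₀ * nn Z ^ D ≤ ‖eval Z g‖ ^ 2 := by
  obtain ⟨C₀, hC⟩ := lin_growth hα hβ hδ h hv hv0
  obtain ⟨ℓ, hℓ⟩ : ∃ ℓ : MvPolynomial (Fin (n + m)) ℂ, ∀ Z, eval Z ℓ = ip Z v := by
    refine ⟨∑ i, C ((starRingEnd ℂ) (v i)) * X i, fun Z => ?_⟩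
    rw [map_sum]
    unfold ip
    refine Finset.sum_congr rfl fun i _ => ?_
    rw [map_mul, eval_C, eval_X, mul_comm]
  obtain ⟨φ, hφ⟩ := pull_hol p ℓ
  choose ψ hψ using fun i : Fin (n + m) => pull_hol p (X i - C (v i) * ℓ)
  have hψ' : ∀ z, (fun i => eval z (ψ i)) = gr p z - ip (gr p z) v • v := by
    intro z
    funext i
    rw [hψ i z]
    simp only [map_sub, map_mul, eval_X, eval_C, hℓ, Pi.sub_apply, Pi.smul_apply, smul_eq_mul]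
    ring
  have hφ' : ∀ z, eval z φ = ip (gr p z) v := fun z => by rw [hφ, hℓ]
  have hgr : ∀ z, ‖eval z φ‖ ^ 2 ≤ C₀ * (1 + nrm ψ z) := by
    intro z
    have h1 : nrm ψ z = nn (gr p z - ip (gr p z) v • v) := by
      rw [← hψ']
      rfl
    rw [hφ', h1]
    exact hC z
  obtain ⟨D, hD, c, hc, hcz⟩ := int_dep hgr
  obtain ⟨g, hg, hge, s, c₀, R, hs, hc₀, hest⟩ := cone_est hv c hc
  refine ⟨D, g, s, c₀, R, hD, hg, fun z => ?_, hs, hc₀, hest⟩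
  rw [hge]
  have h2 := hcz z
  rw [hψ' z, hφ' z] at h2
  exact h2

end Pool.Agent.Work.MP_49847a_an
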